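import Pool.Agent.H42.CS.Defs

/-!
# Symmetrisation by translates

PROOF of `step_map`. `φ : C.N → C'.N` is injective and compatible with the gates for a permutation `σ` of
the points: `C'.gate (φ a) = (C.gate a).map σ φ`. Every rule is transported: the set of the premises is
contained in `Pr'`. hyp: `A.inst (σ ∘ v)` is the image of `A.inst v` (for the part with `∃ y`: `σ` is
surjective; `Fin.snoc (σ ∘ v) (σ y) = σ ∘ Fin.snoc v y`). ident: the gates of the images are equal. weak,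
cut, andI, andE: images of sets (`Set.image_insert_eq`, `Set.image_union`; `(Lit.map φ x).neg =
Lit.map φ x.neg`). cover: `(Lit.map φ '' S).ncard = S.ncard` (`Lit.map φ` is injective). unit:
`Lit.map φ '' {x} = {Lit.map φ x}`. sum: `B' := φ '' B`, `A'' b' := A (ψ b')`,
`S'' b' := Lit.map φ '' S (ψ b')` with `ψ` a left inverse of `φ`; the union of images is the image of the
union; the finsum over `φ '' B` (`finsum_mem_image`, injective). dist: `F' := {image of X : X ∈ F}`,
`B'' j X' := φ (B j (preimage of X'))` (`Lit.map φ ⁻¹' X'`), `u'' := φ ∘ u`; `F'.ncard = F.ncard`,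
`X'.ncard = X.ncard`, `⋃₀ F' = image of ⋃₀ F`.

PROOF of `symmetrize`. `C' : N := Γ × R.C.N` (finite; `Fin n` has finitely many permutations),
`gate (σ, a) := (R.C.gate a).map σ (fun b => (σ, b))`, `rank (σ, a) := R.C.rank a`.
`lines' := {Lit.map (σ, ·) '' Λ : σ ∈ Γ, Λ ∈ R.lines}`; `order' Λ'` := the least `R.order Λ` over all
`(σ, Λ)`, `Λ ∈ R.lines`, with `Λ' = Lit.map (σ, ·) '' Λ` (`sInf`; for a nonempty `Λ'` the pair
`(σ, Λ)` is unique, and for `Λ' = ∅` we have `Λ = ∅`; in all cases `Λ` is unique, so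
`order' Λ' = R.order Λ`). Step: `step_map` with `φ a := (σ, a)`. The action: `act τ (σ, a) := (τ * σ, a)`;
`Gate.map` composes: `(gate.map σ φ).map τ φ' = gate.map (τ * σ) (φ' ∘ φ)`.
`Nat.card C'.N = Nat.card Γ * Nat.card R.C.N`, `lines'.ncard ≤ Nat.card Γ * R.lines.ncard`.
-/

set_option autoImplicit false

namespace Pool.Agent.H42.CS

private theorem map_inj {N N' : Type} {φ : N → N'} (hφ : Function.Injective φ) :
    Function.Injective (Lit.map φ) := by
  rintro ⟨a, s⟩ ⟨b, t⟩ h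
  have h1 : φ a = φ b := congrArg Lit.node h
  have h2 : s = t := congrArg Lit.pos h
  rw [hφ h1, h2]

private theorem map_neg' {N N' : Type} (φ : N → N') (x : Lit N) :
    (Lit.map φ x).neg = Lit.map φ x.neg := rfl

private theorem snoc_map {P : Type} {k : ℕ} (σ : P → P) (v : Fin k → P) (y : P) (i : Fin (k + 1)) :
    (Fin.snoc (fun i => σ (v i)) (σ y) : Fin (k + 1) → P) i = σ ((Fin.snoc v y : Fin (k + 1) → P) i) := by
  refine Fin.lastCases ?_ (fun j => ?_) i
  · rw [Fin.snoc_last, Fin.snoc_last]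
  · rw [Fin.snoc_castSucc, Fin.snoc_castSucc]

theorem step_map {Rel : ℕ → Type} {P : Type} {T : Set (Ax Rel)} {C C' : Circuit Rel P}
    (σ : Equiv.Perm P) (φ : C.N → C'.N) (hφ : Function.Injective φ)
    (hg : ∀ a, C'.gate (φ a) = (C.gate a).map σ φ) {Pr : Set (Set (Lit C.N))}
    {Pr' : Set (Set (Lit C'.N))} (hPr : ∀ Δ ∈ Pr, Lit.map φ '' Δ ∈ Pr') {Λ : Set (Lit C.N)}
    (h : Step T C Pr Λ) : Step T C' Pr' (Lit.map φ '' Λ) := by
  have hi := map_inj hφ
  have hm : ∀ {a : C.N} {s : Bool}, (⟨a, s⟩ : Lit C.N) ∈ Λ →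
      (⟨φ a, s⟩ : Lit C'.N) ∈ Lit.map φ '' Λ := fun {a s} ha => ⟨⟨a, s⟩, ha, rfl⟩
  cases h with
  | @hyp A v hA hx =>
    refine Step.hyp (A := A) (v := fun i => σ (v i)) hA ?_
    rintro x' (⟨l, hl, rfl⟩ | ⟨l, hl, y, rfl⟩)
    · obtain ⟨a, ha, haΛ⟩ := hx (⟨l.1.1, l.1.2.1, fun i => v (l.1.2.2 i)⟩, l.2)
        (Or.inl ⟨l, hl, rfl⟩)
      refine ⟨φ a, ?_, hm haΛ⟩
      rw [hg, ha]
      rfl
    · obtain ⟨a, ha, haΛ⟩ := hx (⟨l.1, l.2.1, fun i =>
        (Fin.snoc v (σ.symm y) : Fin (A.k + 1) → P) (l.2.2 i)⟩, true)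
        (Or.inr ⟨l, hl, σ.symm y, rfl⟩)
      refine ⟨φ a, ?_, hm haΛ⟩
      rw [hg, ha]
      have h1 : (fun i => (Fin.snoc (fun i => σ (v i)) y : Fin (A.k + 1) → P) (l.2.2 i)) =
          fun i => σ ((Fin.snoc v (σ.symm y) : Fin (A.k + 1) → P) (l.2.2 i)) := by
        funext i
        rw [← snoc_map (⇑σ) v (σ.symm y) (l.2.2 i), Equiv.apply_symm_apply]
      change Gate.var _ = Gate.var _
      rw [h1]
  | @ident a b hab ha hb =>
    refine Step.ident (a := φ a) (b := φ b) ?_ (hm ha) (hm hb)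
    rw [hg, hg, hab]
  | @weak Δ hΔ hsub => exact Step.weak (hPr Δ hΔ) (Set.image_mono hsub)
  | @cut a h1 h2 =>
    have h3 := hPr _ h1
    have h4 := hPr _ h2
    rw [Set.image_insert_eq] at h3 h4
    exact Step.cut h3 h4
  | @andI S a ha ha' hS =>
    refine Step.andI (a := φ a) (S := Lit.map φ '' S) ?_ (hm ha') ?_
    · rw [hg, ha]
      rfl
    · rintro _ ⟨x, hx, rfl⟩
      have h1 := hPr _ (hS x hx)
      rwa [Set.image_insert_eq] at h1
  | @andE S a ha ha' hS =>
    refine Step.andE (a := φ a) (S := Lit.map φ '' S) ?_ (hm ha') ?_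
    · rw [hg, ha]
      rfl
    · have h1 := hPr _ hS
      rw [Set.image_union] at h1
      have h2 : Lit.neg '' (Lit.map φ '' S) = Lit.map φ '' (Lit.neg '' S) := by
        rw [Set.image_image, Set.image_image]
        rfl
      rw [h2]
      exact h1
  | @cover S hS =>
    refine Step.cover (S := Lit.map φ '' S) ?_
    intro c hc
    rw [Set.ncard_image_of_injective _ hi] at hc
    obtain ⟨a, A, b, h1, h2, h3⟩ := hS c hc
    refine ⟨φ a, A, b, ?_, h2, hm h3⟩
    rw [hg, h1]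
    rfl
  | @unit a A x h1 h2 h3 =>
    refine Step.unit (a := φ a) (A := A) (x := Lit.map φ x) ?_ (hm h2) ?_
    · rw [hg, h1]
      change Gate.sym A (Lit.map φ '' {x}) = _
      rw [Set.image_singleton]
    · rcases h3 with ⟨h4, h5⟩ | ⟨h4, h5⟩
      · exact Or.inl ⟨h4, ⟨x.neg, h5, rfl⟩⟩
      · exact Or.inr ⟨h4, ⟨x, h5, rfl⟩⟩
  | @sum a p B A A' S h1 h2 h3 h4 h5 h6 h7 =>
    have hne : Nonempty C.N := ⟨a⟩
    obtain ⟨ψ, hψ⟩ := hφ.hasLeftInverse
    refine Step.sum (a := φ a) (p := φ p) (B := φ '' B) (A := fun b => A (ψ b)) (A' := A')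
      (S := fun b => Lit.map φ '' S (ψ b)) ?_ ?_ ?_ ?_ ?_ (hm h6) (hm h7)
    · rintro _ ⟨b, hb, rfl⟩
      rw [hg, h1 b hb, hψ b]
      rfl
    · rintro _ ⟨b, hb, rfl⟩ _ ⟨b', hb', rfl⟩ hne'
      have h8 : b ≠ b' := fun h9 => hne' (by rw [h9])
      have h9 := h2 hb hb' h8
      change Disjoint (Lit.map φ '' S (ψ (φ b))) (Lit.map φ '' S (ψ (φ b')))
      rw [hψ b, hψ b']
      exact (Set.disjoint_image_iff hi).2 h9
    · rw [hg, h3]
      change Gate.and (Lit.map φ '' _) = _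
      rw [Set.image_image, Set.image_image]
      rfl
    · rw [hg, h4]
      change Gate.sym A' (Lit.map φ '' _) = _
      rw [Set.image_iUnion₂, Set.biUnion_image]
      congr 1
      refine Set.iUnion₂_congr fun b _ => ?_
      rw [hψ b]
    · intro c hc
      rw [finsum_mem_image hφ.injOn]
      refine h5 (fun b => c (φ b)) fun b hb => ?_
      have h8 := hc (φ b) ⟨b, hb, rfl⟩
      rwa [hψ b] at h8
  | @dist a F J B u A A' h1 h2 h3 h4 h5 h6 h7 h8 =>
    have hpre : ∀ X : Set (Lit C.N), Lit.map φ ⁻¹' (Lit.map φ '' X) = X := fun X =>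
      Set.preimage_image_eq X hi
    have hIinj : Function.Injective fun X : Set (Lit C.N) => Lit.map φ '' X := hi.image_injective
    refine Step.dist (a := φ a) (F := (fun X => Lit.map φ '' X) '' F) (J := J)
      (B := fun j X => φ (B j (Lit.map φ ⁻¹' X))) (u := fun j => φ (u j)) (A := A) (A' := A')
      ?_ ?_ ?_ ?_ ?_ ?_ (fun j hj => hm (h7 j hj)) (hm h8)
    · rintro _ ⟨X, hX, rfl⟩ _ ⟨Y, hY, rfl⟩ hne'
      have h9 : X ≠ Y := fun h10 => hne' (by rw [h10])
      exact (Set.disjoint_image_iff hi).2 (h1 hX hY h9)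
    · rintro _ ⟨X, hX, rfl⟩
      change (Lit.map φ '' X).ncard ≤ J
      rw [Set.ncard_image_of_injective _ hi]
      exact h2 X hX
    · rintro j hj _ ⟨X, hX, rfl⟩
      change C'.gate (φ (B j (Lit.map φ ⁻¹' (Lit.map φ '' X)))) = Gate.sym {j} (Lit.map φ '' X)
      rw [hpre, hg, h3 j hj X hX]
      rfl
    · intro j hj
      rw [hg, h4 j hj]
      change Gate.sym (A j) (Lit.map φ '' _) = _
      rw [Set.image_image, Set.image_image]
      congr 1
      refine Set.image_congr fun X _ => ?_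
      rw [hpre]
      rfl
    · rw [hg, h5]
      change Gate.sym A' (Lit.map φ '' _) = _
      rw [Set.image_sUnion]
    · intro t ht hsum
      rw [Set.ncard_image_of_injective _ hIinj] at hsum
      exact h6 t ht hsum

private theorem gate_map_map {Rel : ℕ → Type} {P N N' N'' : Type} (f f' : P → P) (g : N → N')
    (g' : N' → N'') (x : Gate (Atom Rel P) N) :
    (x.map f g).map f' g' = x.map (fun p => f' (f p)) (fun a => g' (g a)) := by
  cases x with
  | var v => rfl
  | and S =>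
    change Gate.and (Lit.map g' '' (Lit.map g '' S)) = Gate.and _
    rw [Set.image_image]
    rfl
  | sym A S =>
    change Gate.sym A (Lit.map g' '' (Lit.map g '' S)) = Gate.sym A _
    rw [Set.image_image]
    rfl

private theorem gate_children {Rel : ℕ → Type} {P N N' : Type} (f : P → P) (g : N → N')
    (x : Gate (Atom Rel P) N) : (x.map f g).children = Lit.map g '' x.children := by
  cases x with
  | var v =>
    change (∅ : Set (Lit N')) = Lit.map g '' ∅
    rw [Set.image_empty]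
  | and S => rfl
  | sym A S => rfl

private theorem lit_finite (N : Type) [Finite N] : Finite (Lit N) :=
  Finite.of_injective (fun x : Lit N => (x.node, x.pos)) (by
    rintro ⟨a, s⟩ ⟨b, t⟩ h
    have h1 : a = b := congrArg Prod.fst h
    have h2 : s = t := congrArg Prod.snd h
    rw [h1, h2])

/-- the circuit of the translates -/
private def trC {Rel : ℕ → Type} {n : ℕ} (C : Circuit Rel (Fin n))
    (Γ : Subgroup (Equiv.Perm (Fin n))) : Circuit Rel (Fin n) where
  N := Γ × C.N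
  fin := inferInstance
  gate x := (C.gate x.2).map (x.1 : Equiv.Perm (Fin n)) (fun b => (x.1, b))
  rank x := C.rank x.2
  rank_lt := by
    rintro ⟨σ, a⟩ x hx
    rw [gate_children] at hx
    obtain ⟨y, hy, rfl⟩ := hx
    exact C.rank_lt a y hy

/-- the lines of the translates -/
private def trL {Rel : ℕ → Type} {n : ℕ} {T : Set (Ax Rel)} (R : Refutation T (Fin n))
    (Γ : Subgroup (Equiv.Perm (Fin n))) : Set (Set (Lit (Γ × R.C.N))) :=
  {Λ' | ∃ σ : Γ, ∃ Λ ∈ R.lines, Λ' = Lit.map (fun b => (σ, b)) '' Λ}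

private theorem snd_image {n : ℕ} {N : Type} {Γ : Subgroup (Equiv.Perm (Fin n))} (σ : Γ)
    (Λ : Set (Lit N)) : Lit.map Prod.snd '' (Lit.map (fun b => (σ, b)) '' Λ) = Λ := by
  rw [Set.image_image]
  exact Set.image_id Λ

/-- the refutation of the translates -/
private noncomputable def trR {Rel : ℕ → Type} {n : ℕ} {T : Set (Ax Rel)}
    (R : Refutation T (Fin n)) (Γ : Subgroup (Equiv.Perm (Fin n))) : Refutation T (Fin n) where
  C := trC R.C Γ
  lines := trL R Γ
  order Λ' := R.order (Lit.map Prod.snd '' Λ')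
  step := by
    rintro _ ⟨σ, Λ, hΛ, rfl⟩
    refine step_map (C := R.C) (C' := trC R.C Γ) (σ : Equiv.Perm (Fin n)) (fun b => (σ, b))
      (fun a b h => congrArg Prod.snd h) (fun a => rfl) ?_ (R.step Λ hΛ)
    rintro Δ ⟨hΔ, hlt⟩
    refine ⟨⟨σ, Δ, hΔ, rfl⟩, ?_⟩
    exact lt_of_eq_of_lt (congrArg R.order (snd_image σ Δ))
      (lt_of_lt_of_eq hlt (congrArg R.order (snd_image σ Λ)).symm)
  empty_mem := ⟨1, ∅, R.empty_mem, (Set.image_empty _).symm⟩

theorem symmetrize {Rel : ℕ → Type} {n : ℕ} {T : Set (Ax Rel)} (R : Refutation T (Fin n))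
    (Γ : Subgroup (Equiv.Perm (Fin n))) :
    ∃ R' : Refutation T (Fin n), R'.Symm Γ ∧ R'.size ≤ Nat.card Γ * R.size ∧
      ∀ c, (∀ a, R.C.rank a ≤ c) → ∀ a, R'.C.rank a ≤ c := by
  refine ⟨trR R Γ, ?_, ?_, ?_⟩
  · let act : Γ →* Equiv.Perm (Γ × R.C.N) :=
      { toFun := fun τ => Equiv.prodCongr (Equiv.mulLeft τ) (Equiv.refl _)
        map_one' := by
          ext x <;> simp
        map_mul' := by
          intro τ τ'
          ext x <;> simp [mul_assoc] }
    refine ⟨act, fun τ => ⟨?_, ?_⟩⟩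
    · rintro ⟨σ, a⟩
      change (R.C.gate a).map ((τ * σ : Γ) : Equiv.Perm (Fin n)) (fun b => (τ * σ, b)) =
        ((R.C.gate a).map (σ : Equiv.Perm (Fin n)) (fun b => (σ, b))).map (τ : Equiv.Perm (Fin n))
          (act τ)
      rw [gate_map_map]
      rfl
    · rintro _ ⟨σ, Λ, hΛ, rfl⟩
      refine ⟨τ * σ, Λ, hΛ, ?_⟩
      exact Set.image_image (Lit.map (fun x : Γ × R.C.N => (τ * x.1, x.2)))
        (Lit.map (fun b : R.C.N => (σ, b))) Λ
  · have hN : Finite R.C.N := R.C.fin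
    have hLit : Finite (Lit R.C.N) := lit_finite _
    have h1 : Nat.card (trR R Γ).C.N = Nat.card Γ * Nat.card R.C.N := Nat.card_prod _ _
    have h2 : (trR R Γ).lines.ncard ≤ Nat.card Γ * R.lines.ncard := by
      have e : (trR R Γ).lines = (fun x : Γ × Set (Lit R.C.N) =>
          Lit.map (fun b => (x.1, b)) '' x.2) '' ((Set.univ : Set Γ) ×ˢ R.lines) := by
        ext Λ'
        constructor
        · rintro ⟨σ, Λ, hΛ, rfl⟩
          exact ⟨(σ, Λ), ⟨Set.mem_univ _, hΛ⟩, rfl⟩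
        · rintro ⟨⟨σ, Λ⟩, ⟨-, hΛ⟩, rfl⟩
          exact ⟨σ, Λ, hΛ, rfl⟩
      rw [e]
      refine (Set.ncard_image_le (Set.toFinite _)).trans ?_
      rw [Set.ncard_prod, Set.ncard_univ]
    unfold Refutation.size
    rw [h1, mul_add]
    exact Nat.add_le_add_left h2 _
  · rintro c hc ⟨σ, a⟩
    exact hc a

end Pool.Agent.H42.CS
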