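import Pool.Agent.H42.CS.Defs

/-!
# Derivations: bookkeeping

`Der T C k Λ`: the line `Λ` has a derivation (counted as a tree) with at most `k` lines over the
circuit `C`. `Pn l Γ`: the set `Γ` of signed nodes, taken as assumptions, is refuted with at most
`b ^ l` lines, `b = bs C = 2 * card N + 8`. `Dn l Γ x`: the assumptions `Γ` derive `x`, i.e. `Γ` and
`x.neg` are refuted.

PROOF of `to_refutation`. Call `(L, o)` good if `L` is a set of lines, `o : Set (Lit N) → ℕ`, and every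
`Λ ∈ L` has a step from `{Δ ∈ L | o Δ < o Λ}`. By induction on `Der T C k Λ`: there is a good `(L, o)` with
`Λ ∈ L` and `L.ncard ≤ k`. In the step: for every `Δ ∈ Pr` take `(L Δ, o Δ)`; `L' := ⋃ L Δ`,
`o' Λ' :=` the least `o Δ Λ'` over the `Δ ∈ Pr` with `Λ' ∈ L Δ` (good: if the least value is taken at
`Δ`, use the step of `L Δ`; the premises `Λ''` have `o' Λ'' ≤ o Δ Λ'' < o Δ Λ'`; a step from a set of
premises is a step from a larger set, by cases on `Step`). If `Λ ∈ L'` we are done, otherwise add `Λ` with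
an order larger than all others (finitely many lines: the set of all lines is finite).
`L.ncard ≤ ∑ Δ ∈ Pr, f Δ + 1`.

PROOFS of the rules. The line of `Pn l Γ` is `Lit.neg '' Γ`; note `x.neg.neg = x`,
`Lit.neg '' (insert x.neg Γ) = insert x (Lit.neg '' Γ)`. `b ^ l ≥ 1`, `b ≥ 8`; a set of signed nodes
has at most `2 * card N ≤ b - 8` members. For example `Pn.cut`: the two premises with `b ^ l` lines each and
one more line: `2 * b ^ l + 1 ≤ b ^ (l + 1)`. `Pn.mono`: `weak`: `b ^ l + 1 ≤ b ^ (l + 1)`. `Pn.andF`: at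
most `b - 8` premises: `(b - 8) * b ^ l + 1 ≤ b ^ (l + 1)`. `Dn.andT`: weaken the premises first, so
level `l + 2`. The rules of level `l` without premises need one line. In `Pr` different members may
coincide; then the sum is smaller.
-/

set_option autoImplicit false

namespace Pool.Agent.H42.CS

variable {Rel : ℕ → Type} {P : Type}

/-- Derivations, counted as trees. -/
inductive Der (T : Set (Ax Rel)) (C : Circuit Rel P) : ℕ → Set (Lit C.N) → Prop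
  | mk (k : ℕ) (Λ : Set (Lit C.N)) (Pr : Set (Set (Lit C.N))) (f : Set (Lit C.N) → ℕ)
      (h : ∀ Δ ∈ Pr, Der T C (f Δ) Δ) (hs : Step T C Pr Λ)
      (hk : (∑ᶠ Δ ∈ Pr, f Δ) + 1 ≤ k) : Der T C k Λ

/-- The base of the bounds. -/
noncomputable def bs (C : Circuit Rel P) : ℕ := 2 * Nat.card C.N + 8

/-- The assumptions `Γ` are refuted in at most `b ^ l` lines. -/
def Pn (T : Set (Ax Rel)) (C : Circuit Rel P) (l : ℕ) (Γ : Set (Lit C.N)) : Prop :=
  Der T C (bs C ^ l) (Lit.neg '' Γ)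

/-- The assumptions `Γ` derive `x`. -/
def Dn (T : Set (Ax Rel)) (C : Circuit Rel P) (l : ℕ) (Γ : Set (Lit C.N)) (x : Lit C.N) : Prop :=
  Pn T C l (insert x.neg Γ)

variable {T : Set (Ax Rel)} {C : Circuit Rel P} {l l' : ℕ} {Γ Γ' : Set (Lit C.N)}

theorem Step.mono {Pr Pr' : Set (Set (Lit C.N))} {Λ : Set (Lit C.N)} (h : Pr ⊆ Pr')
    (hs : Step T C Pr Λ) : Step T C Pr' Λ := by
  cases hs with
  | hyp h1 h2 => exact Step.hyp h1 h2
  | ident h1 h2 h3 => exact Step.ident h1 h2 h3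
  | weak h1 h2 => exact Step.weak (h h1) h2
  | cut h1 h2 => exact Step.cut (h h1) (h h2)
  | andI h1 h2 h3 => exact Step.andI h1 h2 fun x hx => h (h3 x hx)
  | andE h1 h2 h3 => exact Step.andE h1 h2 (h h3)
  | cover h1 => exact Step.cover h1
  | unit h1 h2 h3 => exact Step.unit h1 h2 h3
  | sum h1 h2 h3 h4 h5 h6 h7 => exact Step.sum h1 h2 h3 h4 h5 h6 h7
  | dist h1 h2 h3 h4 h5 h6 h7 h8 => exact Step.dist h1 h2 h3 h4 h5 h6 h7 h8

private theorem fin_lit (N : Type) [Finite N] : Finite (Lit N) :=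
  Finite.of_injective (fun x : Lit N => (x.node, x.pos)) (by
    rintro ⟨a, s⟩ ⟨b, t⟩ h
    have h1 : a = b := congrArg Prod.fst h
    have h2 : s = t := congrArg Prod.snd h
    rw [h1, h2])

private theorem card_lit (N : Type) [Finite N] : Nat.card (Lit N) ≤ 2 * Nat.card N := by
  have h1 : Nat.card (N × Bool) = Nat.card N * 2 := by
    rw [Nat.card_prod, Nat.card_eq_fintype_card (α := Bool), Fintype.card_bool]
  have h2 : Nat.card (Lit N) ≤ Nat.card (N × Bool) :=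
    Nat.card_le_card_of_injective (fun x : Lit N => (x.node, x.pos)) (by
      rintro ⟨a, s⟩ ⟨b, t⟩ h
      have h1 : a = b := congrArg Prod.fst h
      have h2 : s = t := congrArg Prod.snd h
      rw [h1, h2])
  omega

private theorem bUnion_le {α β : Type} [Finite β] (A : Finset α) (L : α → Set β) :
    (⋃ x ∈ A, L x).ncard ≤ ∑ x ∈ A, (L x).ncard := by
  classical
  induction A using Finset.induction_on with
  | empty => simp
  | insert x A hx ih =>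
    rw [Finset.set_biUnion_insert, Finset.sum_insert hx]
    exact (Set.ncard_union_le _ _).trans (Nat.add_le_add_left ih _)

private theorem good_ex {k : ℕ} {Λ : Set (Lit C.N)} (h : Der T C k Λ) :
    ∃ (L : Set (Set (Lit C.N))) (o : Set (Lit C.N) → ℕ),
      (∀ Λ' ∈ L, Step T C {Δ | Δ ∈ L ∧ o Δ < o Λ'} Λ') ∧ Λ ∈ L ∧ L.ncard ≤ k := by
  classical
  have hfl : Finite (Lit C.N) := fin_lit _
  induction h with
  | mk k Λ Pr f h hs hk ih =>
    choose L o hgood hmem hcard using ih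
    obtain ⟨L', hL'⟩ : ∃ L' : Set (Lit C.N) → Set (Set (Lit C.N)),
        L' = fun Δ => if hΔ : Δ ∈ Pr then L Δ hΔ else ∅ := ⟨_, rfl⟩
    have hL1 : ∀ Δ (hΔ : Δ ∈ Pr), L' Δ = L Δ hΔ := by
      intro Δ hΔ
      rw [hL']
      exact dif_pos hΔ
    obtain ⟨U, hU⟩ : ∃ U : Set (Set (Lit C.N)), U = ⋃ Δ ∈ Pr, L' Δ := ⟨_, rfl⟩
    have hUm : ∀ Λ', Λ' ∈ U ↔ ∃ (Δ : Set (Lit C.N)) (hΔ : Δ ∈ Pr), Λ' ∈ L Δ hΔ := by
      intro Λ'
      rw [hU]
      simp only [Set.mem_iUnion]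
      constructor
      · rintro ⟨Δ, hΔ, h1⟩
        exact ⟨Δ, hΔ, by rwa [hL1 Δ hΔ] at h1⟩
      · rintro ⟨Δ, hΔ, h1⟩
        exact ⟨Δ, hΔ, by rwa [hL1 Δ hΔ]⟩
    obtain ⟨o', ho'⟩ : ∃ o' : Set (Lit C.N) → ℕ, o' = fun Λ' =>
        sInf {n | ∃ (Δ : Set (Lit C.N)) (hΔ : Δ ∈ Pr), Λ' ∈ L Δ hΔ ∧ n = o Δ hΔ Λ'} := ⟨_, rfl⟩
    have ho1 : ∀ Λ' ∈ U, ∃ (Δ : Set (Lit C.N)) (hΔ : Δ ∈ Pr), Λ' ∈ L Δ hΔ ∧ o' Λ' = o Δ hΔ Λ' := by
      intro Λ' h1
      obtain ⟨Δ, hΔ, h2⟩ := (hUm Λ').1 h1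
      have h3 : {n | ∃ (Δ : Set (Lit C.N)) (hΔ : Δ ∈ Pr), Λ' ∈ L Δ hΔ ∧
          n = o Δ hΔ Λ'}.Nonempty := ⟨_, Δ, hΔ, h2, rfl⟩
      have h4 := Nat.sInf_mem h3
      rw [ho']
      exact h4
    have ho2 : ∀ Λ' (Δ : Set (Lit C.N)) (hΔ : Δ ∈ Pr), Λ' ∈ L Δ hΔ → o' Λ' ≤ o Δ hΔ Λ' := by
      intro Λ' Δ hΔ h1
      rw [ho']
      exact Nat.sInf_le ⟨Δ, hΔ, h1, rfl⟩
    have hgU : ∀ Λ' ∈ U, Step T C {Δ | Δ ∈ U ∧ o' Δ < o' Λ'} Λ' := by
      intro Λ' h1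
      obtain ⟨Δ, hΔ, h2, h3⟩ := ho1 Λ' h1
      refine Step.mono ?_ (hgood Δ hΔ Λ' h2)
      rintro Λ'' ⟨h4, h5⟩
      refine ⟨(hUm Λ'').2 ⟨Δ, hΔ, h4⟩, ?_⟩
      rw [h3]
      exact (ho2 Λ'' Δ hΔ h4).trans_lt h5
    have hcU : U.ncard ≤ ∑ᶠ Δ ∈ Pr, f Δ := by
      have hPf : Pr.Finite := Set.toFinite Pr
      rw [finsum_mem_eq_finite_toFinset_sum _ hPf]
      have e : U = ⋃ Δ ∈ hPf.toFinset, L' Δ := by
        rw [hU]
        simp only [Set.Finite.mem_toFinset]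
      rw [e]
      refine (bUnion_le _ _).trans (Finset.sum_le_sum fun Δ hΔ => ?_)
      have hΔ' : Δ ∈ Pr := hPf.mem_toFinset.1 hΔ
      rw [hL1 Δ hΔ']
      exact hcard Δ hΔ'
    by_cases hΛ : Λ ∈ U
    · exact ⟨U, o', hgU, hΛ, by omega⟩
    · obtain ⟨M, hM⟩ := (Set.toFinite (Set.range o')).bddAbove
      have hM' : ∀ Λ', o' Λ' ≤ M := fun Λ' => hM ⟨Λ', rfl⟩
      have hne : ∀ Λ' ∈ U, Λ' ≠ Λ := fun Λ' h1 h2 => hΛ (h2 ▸ h1)
      refine ⟨insert Λ U, fun Λ' => if Λ' = Λ then M + 1 else o' Λ', ?_, Set.mem_insert _ _, ?_⟩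
      · rintro Λ' (rfl | h1)
        · refine Step.mono ?_ hs
          intro Δ hΔ
          have h2 : Δ ∈ U := (hUm Δ).2 ⟨Δ, hΔ, hmem Δ hΔ⟩
          refine ⟨Or.inr h2, ?_⟩
          beta_reduce
          rw [if_neg (hne Δ h2), if_pos rfl]
          exact Nat.lt_succ_of_le (hM' Δ)
        · refine Step.mono ?_ (hgU Λ' h1)
          rintro Δ ⟨h2, h3⟩
          refine ⟨Or.inr h2, ?_⟩
          beta_reduce
          rw [if_neg (hne Δ h2), if_neg (hne Λ' h1)]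
          exact h3
      · exact (Set.ncard_insert_le _ _).trans (by omega)

theorem to_refutation {k : ℕ} (h : Der T C k ∅) :
    ∃ R : Refutation T P, R.C = C ∧ R.lines.ncard ≤ k := by
  obtain ⟨L, o, hg, hm, hc⟩ := good_ex h
  exact ⟨⟨C, L, o, hg, hm⟩, rfl, hc⟩

/-! ### The rules -/

private theorem neg_neg' (x : Lit C.N) : x.neg.neg = x := by
  rcases x with ⟨n, s⟩
  cases s <;> rfl

private theorem neg_mem {x : Lit C.N} (h : x ∈ Γ) : x.neg ∈ Lit.neg '' Γ := ⟨x, h, rfl⟩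

private theorem neg_mem' {x : Lit C.N} (h : x.neg ∈ Γ) : x ∈ Lit.neg '' Γ :=
  ⟨x.neg, h, neg_neg' x⟩

private theorem neg_insert (x : Lit C.N) : Lit.neg '' (insert x Γ) = insert x.neg (Lit.neg '' Γ) :=
  Set.image_insert_eq

private theorem neg_insert' (x : Lit C.N) : Lit.neg '' (insert x.neg Γ) = insert x (Lit.neg '' Γ) := by
  rw [neg_insert, neg_neg']

private theorem bs_pos : 8 ≤ bs C := by
  unfold bs
  omega

private theorem bs_one (l : ℕ) : 1 ≤ bs C ^ l :=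
  Nat.one_le_pow _ _ (by have := bs_pos (C := C); omega)

private theorem der_step {Pr : Set (Set (Lit C.N))} {Λ : Set (Lit C.N)} {m n k : ℕ}
    (h : ∀ Δ ∈ Pr, Der T C m Δ) (hs : Step T C Pr Λ) (hn : Pr.ncard ≤ n) (hk : n * m + 1 ≤ k) :
    Der T C k Λ := by
  have hfl : Finite (Lit C.N) := fin_lit _
  have hPf : Pr.Finite := Set.toFinite Pr
  refine Der.mk k Λ Pr (fun _ => m) h hs ?_
  rw [finsum_mem_eq_finite_toFinset_sum _ hPf, Finset.sum_const, smul_eq_mul,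
    ← Set.ncard_eq_toFinset_card Pr hPf]
  exact (Nat.add_le_add_right (Nat.mul_le_mul_right m hn) 1).trans hk

/-- one premise -/
private theorem der_one {Δ Λ : Set (Lit C.N)} (h : Der T C (bs C ^ l) Δ) (hs : Step T C {Δ} Λ) :
    Der T C (bs C ^ (l + 1)) Λ := by
  refine der_step (Pr := {Δ}) (m := bs C ^ l) (n := 1) ?_ hs (Set.ncard_singleton Δ).le ?_
  · rintro _ rfl
    exact h
  · have h1 := bs_one (C := C) l
    have h2 := bs_pos (C := C)
    rw [pow_succ]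
    nlinarith

/-- no premise -/
private theorem der_zero {Λ : Set (Lit C.N)} (hs : Step T C ∅ Λ) : Der T C (bs C ^ l) Λ := by
  refine der_step (Pr := ∅) (m := 0) (n := 0) ?_ hs (Set.ncard_empty _).le ?_
  · intro Δ hΔ
    exact absurd hΔ (Set.notMem_empty _)
  · have h1 := bs_one (C := C) l
    omega

theorem Pn.le (h : Pn T C l Γ) (hl : l ≤ l') : Pn T C l' Γ := by
  unfold Pn at h ⊢
  obtain ⟨k, Λ, Pr, f, h1, hs, hk⟩ := h
  exact Der.mk _ _ Pr f h1 hs (hk.trans (Nat.pow_le_pow_right (by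
    have := bs_pos (C := C)
    omega) hl))

theorem Pn.mono (h : Pn T C l Γ) (hΓ : Γ ⊆ Γ') (hl : l < l') : Pn T C l' Γ' := by
  have h1 : Pn T C (l + 1) Γ' := der_one h (Step.weak rfl (Set.image_mono hΓ))
  exact h1.le hl

theorem Pn.triv {x : Lit C.N} (h : x ∈ Γ) (h' : x.neg ∈ Γ) : Pn T C l Γ := by
  apply der_zero
  have h1 := neg_mem h
  have h2 := neg_mem' h'
  rcases x with ⟨n, s⟩
  cases s
  · exact Step.ident (a := n) (b := n) rfl h1 h2
  · exact Step.ident (a := n) (b := n) rfl h2 h1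

theorem Pn.inst {A : Ax Rel} (hA : A ∈ T) (v : Fin A.k → P)
    (h : ∀ x ∈ A.inst v, ∃ a, C.gate a = .var x.1 ∧ ⟨a, !x.2⟩ ∈ Γ) : Pn T C l Γ := by
  apply der_zero
  refine Step.hyp hA (v := v) fun x hx => ?_
  obtain ⟨a, h1, h2⟩ := h x hx
  exact ⟨a, h1, neg_mem' h2⟩

theorem Pn.cut (x : Lit C.N) (h : Pn T C l (insert x Γ)) (h' : Pn T C l (insert x.neg Γ)) :
    Pn T C (l + 1) Γ := by
  have h1 : Der T C (bs C ^ l) (insert x.neg (Lit.neg '' Γ)) := by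
    rw [← neg_insert]
    exact h
  have h2 : Der T C (bs C ^ l) (insert x (Lit.neg '' Γ)) := by
    rw [← neg_insert']
    exact h'
  have hs : Step T C {insert x.neg (Lit.neg '' Γ), insert x (Lit.neg '' Γ)} (Lit.neg '' Γ) := by
    rcases x with ⟨n, s⟩
    cases s
    · exact Step.cut (a := n) (Or.inl rfl) (Or.inr rfl)
    · exact Step.cut (a := n) (Or.inr rfl) (Or.inl rfl)
  refine der_step (m := bs C ^ l) (n := 2) ?_ hs ((Set.ncard_insert_le _ _).trans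
    (by rw [Set.ncard_singleton])) ?_
  · rintro Δ (rfl | rfl)
    · exact h1
    · exact h2
  · have h1 := bs_one (C := C) l
    have h2 := bs_pos (C := C)
    rw [pow_succ]
    nlinarith

/-- An assumed false conjunction. -/
theorem Pn.andF {a : C.N} {S : Set (Lit C.N)} (hg : C.gate a = .and S) (ha : ⟨a, false⟩ ∈ Γ)
    (h : ∀ x ∈ S, Pn T C l (insert x.neg Γ)) : Pn T C (l + 1) Γ := by
  have hfl : Finite (Lit C.N) := fin_lit _
  have hs : Step T C ((fun x => insert x (Lit.neg '' Γ)) '' S) (Lit.neg '' Γ) :=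
    Step.andI hg (neg_mem ha) fun x hx => ⟨x, hx, rfl⟩
  refine der_step (m := bs C ^ l) (n := 2 * Nat.card C.N) ?_ hs ?_ ?_
  · rintro _ ⟨x, hx, rfl⟩
    have h1 := h x hx
    unfold Pn at h1
    rwa [neg_insert'] at h1
  · refine (Set.ncard_image_le (Set.toFinite _)).trans ?_
    refine le_trans ?_ (card_lit C.N)
    rw [← Set.ncard_univ]
    exact Set.ncard_le_ncard (Set.subset_univ _) (Set.toFinite _)
  · have h1 := bs_one (C := C) l
    rw [pow_succ]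
    have h2 : bs C = 2 * Nat.card C.N + 8 := rfl
    have h3 : bs C ^ l * bs C = 2 * Nat.card C.N * bs C ^ l + 8 * bs C ^ l := by
      nth_rewrite 2 [h2]
      ring
    rw [h3]
    omega

/-- An assumed true conjunction. -/
theorem Pn.andT {a : C.N} {S : Set (Lit C.N)} (hg : C.gate a = .and S) (ha : ⟨a, true⟩ ∈ Γ)
    (h : Pn T C l (Γ ∪ S)) : Pn T C (l + 1) Γ := by
  refine der_one h (Step.andE hg (neg_mem ha) ?_)
  rw [Set.image_union]
  exact rfl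

theorem Pn.cover {S : Set (Lit C.N)} (h : ∀ c ≤ S.ncard, ∃ (a : C.N) (A : Set ℕ) (b : Bool),
    C.gate a = .sym A S ∧ ¬ (c ∈ A ↔ b = true) ∧ ⟨a, b⟩ ∈ Γ) : Pn T C l Γ := by
  apply der_zero
  refine Step.cover (S := S) fun c hc => ?_
  obtain ⟨a, A, b, h1, h2, h3⟩ := h c hc
  refine ⟨a, A, !b, h1, ?_, neg_mem h3⟩
  cases b
  · simpa using h2
  · simpa using h2

theorem Pn.unit {a : C.N} {A : Set ℕ} {x : Lit C.N} (hg : C.gate a = .sym A {x})
    (ha : ⟨a, false⟩ ∈ Γ) (hx : (1 ∈ A ∧ x ∈ Γ) ∨ (0 ∈ A ∧ x.neg ∈ Γ)) : Pn T C l Γ := by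
  apply der_zero
  refine Step.unit hg (neg_mem ha) ?_
  rcases hx with ⟨h1, h2⟩ | ⟨h1, h2⟩
  · exact Or.inl ⟨h1, neg_mem h2⟩
  · exact Or.inr ⟨h1, neg_mem' h2⟩

theorem Pn.sum {a p : C.N} {B : Set C.N} {A : C.N → Set ℕ} {A' : Set ℕ}
    {S : C.N → Set (Lit C.N)} (hB : ∀ b ∈ B, C.gate b = .sym (A b) (S b))
    (hdis : B.PairwiseDisjoint S) (hp : C.gate p = .and ((fun b => ⟨b, true⟩) '' B))
    (ha : C.gate a = .sym A' (⋃ b ∈ B, S b))
    (hc : ∀ c : C.N → ℕ, (∀ b ∈ B, c b ∈ A b) → ∑ᶠ b ∈ B, c b ∈ A')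
    (hpΓ : ⟨p, true⟩ ∈ Γ) (haΓ : ⟨a, false⟩ ∈ Γ) : Pn T C l Γ := by
  apply der_zero
  exact Step.sum hB hdis hp ha hc (neg_mem hpΓ) (neg_mem haΓ)

theorem Pn.dist {a : C.N} {F : Set (Set (Lit C.N))} {J : ℕ}
    {B : ℕ → Set (Lit C.N) → C.N} {u : ℕ → C.N} {A : ℕ → Set ℕ} {A' : Set ℕ}
    (hF : F.PairwiseDisjoint id) (hJ : ∀ X ∈ F, X.ncard ≤ J)
    (hB : ∀ j ≤ J, ∀ X ∈ F, C.gate (B j X) = .sym {j} X)
    (hu : ∀ j ≤ J, C.gate (u j) = .sym (A j) ((fun X => ⟨B j X, true⟩) '' F))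
    (ha : C.gate a = .sym A' (⋃₀ F))
    (ht : ∀ t : ℕ → ℕ, (∀ j ≤ J, t j ∈ A j) →
      ∑ j ∈ Finset.range (J + 1), t j = F.ncard → ∑ j ∈ Finset.range (J + 1), j * t j ∈ A')
    (huΓ : ∀ j ≤ J, ⟨u j, true⟩ ∈ Γ) (haΓ : ⟨a, false⟩ ∈ Γ) : Pn T C l Γ := by
  apply der_zero
  exact Step.dist hF hJ hB hu ha ht (fun j hj => neg_mem (huΓ j hj)) (neg_mem haΓ)

theorem Dn.mem {x : Lit C.N} (h : x ∈ Γ) : Dn T C l Γ x :=
  Pn.triv (Set.mem_insert_of_mem _ h) (Set.mem_insert _ _)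

theorem Dn.le {x : Lit C.N} (h : Dn T C l Γ x) (hl : l ≤ l') : Dn T C l' Γ x :=
  Pn.le h hl

theorem Dn.mono {x : Lit C.N} (h : Dn T C l Γ x) (hΓ : Γ ⊆ Γ') (hl : l < l') :
    Dn T C l' Γ' x :=
  Pn.mono h (Set.insert_subset_insert hΓ) hl

theorem Dn.abs {x : Lit C.N} (h : Pn T C l Γ) : Dn T C (l + 1) Γ x :=
  Pn.mono h (Set.subset_insert _ _) (Nat.lt_succ_self l)

/-- Both `x` and `x.neg` are derived. -/
theorem Dn.contra {x : Lit C.N} (h : Dn T C l Γ x) (h' : Dn T C l Γ x.neg) :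
    Pn T C (l + 1) Γ :=
  Pn.cut x.neg h h'

theorem Dn.andT {a : C.N} {S : Set (Lit C.N)} (hg : C.gate a = .and S)
    (h : ∀ x ∈ S, Dn T C l Γ x) : Dn T C (l + 2) Γ ⟨a, true⟩ :=
  Pn.andF (l := l + 1) hg (Set.mem_insert _ _) fun x hx =>
    Pn.mono (h x hx) (Set.insert_subset_insert (Set.subset_insert _ _)) (Nat.lt_succ_self l)

theorem Dn.andF {a : C.N} {S : Set (Lit C.N)} (hg : C.gate a = .and S) {x : Lit C.N}
    (hx : x ∈ S) (h : Dn T C l Γ x.neg) : Dn T C (l + 3) Γ ⟨a, false⟩ := by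
  have h1 : Pn T C l (insert x Γ) := by
    unfold Dn at h
    rwa [neg_neg'] at h
  refine Pn.andT (l := l + 2) hg (Set.mem_insert _ _) (Pn.mono h1 ?_ (by omega))
  rintro y (rfl | hy)
  · exact Or.inr hx
  · exact Or.inl (Or.inr hy)

/-- From a derived conjunction to its members. -/
theorem Dn.andE {a : C.N} {S : Set (Lit C.N)} (hg : C.gate a = .and S) {x : Lit C.N}
    (hx : x ∈ S) (h : Dn T C l Γ ⟨a, true⟩) : Dn T C (l + 3) Γ x := by
  refine Pn.cut (l := l + 2) ⟨a, true⟩ ?_ ?_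
  · refine Pn.andT (l := l + 1) hg (Set.mem_insert _ _) (Pn.triv (x := x) (Or.inr hx) ?_)
    exact Or.inl (Or.inr (Or.inl rfl))
  · exact Pn.mono h (Set.insert_subset_insert (Set.subset_insert _ _)) (by omega)

theorem Dn.cases (y : Lit C.N) {x : Lit C.N} (h : Dn T C l (insert y Γ) x)
    (h' : Dn T C l (insert y.neg Γ) x) : Dn T C (l + 1) Γ x := by
  unfold Dn at h h' ⊢
  rw [Set.insert_comm] at h h'
  exact Pn.cut y h h'

theorem Pn.use {y : Lit C.N} (h : Dn T C l Γ y) (h' : Pn T C l (insert y Γ)) :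
    Pn T C (l + 1) Γ :=
  Pn.cut y h' h

theorem Dn.use {x y : Lit C.N} (h : Dn T C l Γ y) (h' : Dn T C l (insert y Γ) x) :
    Dn T C (l + 2) Γ x := by
  unfold Dn at h h' ⊢
  rw [Set.insert_comm] at h'
  exact Pn.cut (l := l + 1) y (Pn.le h' (Nat.le_succ l))
    (Pn.mono h (Set.insert_subset_insert (Set.subset_insert _ _)) (Nat.lt_succ_self l))

end Pool.Agent.H42.CS
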