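import Mathlib

/-!
# The grid, gadgets and worlds: definitions

All chains and cochains have values in `ZMod 2` and are total functions; only their values at the
edges and squares of the box `[0, L)^d` matter (`isE`, `isS`).
-/

set_option autoImplicit false

namespace Pool.Agent.H42.CS

/-- The weight of a function: the number of its nonzero values. -/
noncomputable def nm {α : Type} (z : α → ZMod 2) : ℕ := {e | z e ≠ 0}.ncard

/-! ### The grid -/

/-- Points of the lattice. -/
abbrev Pt (d : ℕ) : Type := Fin d → ℤ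

/-- Edges of the lattice: `(x, a)` is the edge from `x` to `x + un a`. -/
abbrev Ed (d : ℕ) : Type := Pt d × Fin d

/-- Squares of the lattice: `(x, a, b)` (with `a < b`) has the corners `x, x + un a, x + un b,
x + un a + un b`. -/
abbrev Sq (d : ℕ) : Type := Pt d × Fin d × Fin d

/-- The unit vector. -/
def un {d : ℕ} (a : Fin d) : Pt d := Pi.single a 1

/-- The box `[0, L)^d`. -/
def inB {d : ℕ} (L : ℕ) (x : Pt d) : Prop := ∀ i, 0 ≤ x i ∧ x i < (L : ℤ)

/-- The edge lies in the box. -/
def isE {d : ℕ} (L : ℕ) (e : Ed d) : Prop := inB L e.1 ∧ inB L (e.1 + un e.2)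

/-- The square lies in the box. -/
def isS {d : ℕ} (L : ℕ) (s : Sq d) : Prop :=
  s.2.1 < s.2.2 ∧ inB L s.1 ∧ inB L (s.1 + un s.2.1 + un s.2.2)

/-- The chain is supported on the edges of the box. -/
def Sup {d : ℕ} (L : ℕ) (z : Ed d → ZMod 2) : Prop := ∀ e, ¬ isE L e → z e = 0

open Classical in
/-- The coboundary of a function on the edges: a function on the squares. -/
noncomputable def dl {d : ℕ} (L : ℕ) (z : Ed d → ZMod 2) (s : Sq d) : ZMod 2 :=
  if isS L s then z (s.1, s.2.1) + z (s.1 + un s.2.2, s.2.1) + z (s.1, s.2.2) +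
    z (s.1 + un s.2.1, s.2.2) else 0

open Classical in
/-- The coboundary of a function on the points: a function on the edges. -/
noncomputable def cob {d : ℕ} (L : ℕ) (f : Pt d → ZMod 2) (e : Ed d) : ZMod 2 :=
  if isE L e then f e.1 + f (e.1 + un e.2) else 0

/-- The coordinates before `b` from `x`, the coordinate `b` is `t`, the others from `p`. -/
def mix {d : ℕ} (x p : Pt d) (b : Fin d) (t : ℤ) : Pt d :=
  fun i => if i < b then x i else if i = b then t else p i

/-- The unit steps between `p` and `x`. -/
noncomputable def btw (p x : ℤ) : Finset ℤ := Finset.Ico (min p x) (max p x)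

/-- The sum of `z` along the path from `p` to `x` that changes the coordinates in their order. -/
noncomputable def pth {d : ℕ} (z : Ed d → ZMod 2) (p x : Pt d) : ZMod 2 :=
  ∑ b : Fin d, ∑ t ∈ btw (p b) (x b), z (mix x p b t, b)

/-- Slots at a vertex: a direction and a sign. -/
abbrev Slot (d : ℕ) : Type := Fin d × Bool

/-- The lower end of the edge at the slot is `x + off σ`. -/
def off {d : ℕ} (σ : Slot d) : Pt d := if σ.2 then 0 else -un σ.1

/-- The edge at the slot `σ` of `x`. -/
def ed {d : ℕ} (x : Pt d) (σ : Slot d) : Ed d := (x + off σ, σ.1)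

/-- The square at the slots `σ`, `t` of `x` (meaningful only if they have different directions;
`isS` is false otherwise). -/
def sq {d : ℕ} (x : Pt d) (σ t : Slot d) : Sq d :=
  (x + off σ + off t, min σ.1 t.1, max σ.1 t.1)

open Classical in
/-- The sign of a small closed chain: `1` if the small set whose cut it is contains the vertex
`0`. -/
noncomputable def sg {d : ℕ} (L : ℕ) (z : Ed d → ZMod 2) : ZMod 2 :=
  if ∃ f : Pt d → ZMod 2, z = cob L f ∧ 8 * {x | inB L x ∧ f x = 1}.ncard < L ^ d ∧ f 0 = 1
  then 1 else 0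

/-- The image of a function on the squares in the functions on the cells. -/
noncomputable def iot {d : ℕ} {K : Type} (L : ℕ) (j : Sq d → K) (v : Sq d → ZMod 2) (k : K) :
    ZMod 2 := ∑ᶠ s ∈ {s : Sq d | isS L s ∧ j s = k}, v s

/-- The vector of an edge. -/
noncomputable def ye {d : ℕ} {K : Type} (L : ℕ) (j : Sq d → K) (e : Ed d) : K → ZMod 2 :=
  iot L j (dl L (Pi.single e 1))

/-! ### Gadgets and worlds -/

/-- A space `D` of vectors with a symmetric `2`-cocycle, which is a cocycle only on vectors of
weight at most `w`. -/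
structure Gad (K : Type) where
  /-- the space -/
  D : Submodule (ZMod 2) (K → ZMod 2)
  /-- the bound for the weight -/
  w : ℕ
  /-- the cocycle -/
  kap : (K → ZMod 2) → (K → ZMod 2) → ZMod 2
  kap_comm : ∀ y y', kap y y' = kap y' y
  kap_self : ∀ y, kap y y = 0
  kap_coc : ∀ y y' y'', y ∈ D → y' ∈ D → y'' ∈ D → nm y ≤ w → nm y' ≤ w → nm y'' ≤ w →
    nm (y + y') ≤ w → nm (y' + y'') ≤ w → nm (y + y' + y'') ≤ w →
    kap y y' + kap (y + y') y'' = kap y' y'' + kap y (y' + y'')

/-- Candidates for worlds: functions of vectors. -/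
abbrev Wd (K : Type) : Type := (K → ZMod 2) → ZMod 2

/-- The space `U` is tame: its members in `D` are light. -/
def Gad.Tame {K : Type} (g : Gad K) (U : Submodule (ZMod 2) (K → ZMod 2)) : Prop :=
  ∀ y ∈ U, y ∈ g.D → nm y ≤ g.w

/-- `f` is a world on `U`. -/
def Gad.IsW {K : Type} (g : Gad K) (U : Submodule (ZMod 2) (K → ZMod 2)) (f : Wd K) : Prop :=
  ∀ y ∈ U, y ∈ g.D → ∀ y' ∈ U, y' ∈ g.D → f (y + y') = f y + f y' + g.kap y y'

/-- `f` and `f'` agree on `U`. -/
def Gad.Agr {K : Type} (g : Gad K) (U : Submodule (ZMod 2) (K → ZMod 2)) (f f' : Wd K) : Prop :=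
  ∀ y ∈ U, y ∈ g.D → f y = f' y

/-- The shift of a world by the linear function `t`. -/
def sh {K : Type} [Fintype K] (t : K → ZMod 2) (f : Wd K) : Wd K := fun y => f y + t ⬝ᵥ y

open Classical in
/-- An extension of the world `f` on `U` to a world on `U'`. It depends only on `U, U', f`. -/
noncomputable def Gad.ext {K : Type} (g : Gad K) (U U' : Submodule (ZMod 2) (K → ZMod 2))
    (f : Wd K) : Wd K :=
  if h : ∃ f', g.IsW U' f' ∧ g.Agr U f f' then h.choose else f

/-- The annihilator of a subgroup. -/
def Vs {K G : Type} [Fintype K] [Group G] (pr : G → K → ZMod 2) (H : Subgroup G) :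
    Submodule (ZMod 2) (K → ZMod 2) where
  carrier := {y | ∀ g ∈ H, pr g ⬝ᵥ y = 0}
  add_mem' := by
    intro a b ha hb g hg
    rw [dotProduct_add, ha g hg, hb g hg, add_zero]
  zero_mem' := by
    intro g _
    exact dotProduct_zero _
  smul_mem' := by
    intro c a ha g hg
    rw [dotProduct_smul, ha g hg, smul_zero]

/-! ### Cells -/

/-- A group `H` of permutations of `P` with `r` disjoint blocks (cells), each divided into two
halves, and a homomorphism `pr` onto `F_2^r`: `g` exchanges the halves of the cell `i` if and only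
if `pr g i = 1`. -/
structure Cells (P : Type) (r : ℕ) where
  /-- the group -/
  H : Subgroup (Equiv.Perm P)
  /-- the halves of the cells -/
  C : Fin r → ZMod 2 → Set P
  /-- the homomorphism -/
  pr : H → Fin r → ZMod 2
  pr_mul : ∀ g g' : H, pr (g * g') = pr g + pr g'
  pr_onto : Function.Surjective pr
  ne : ∀ i b, (C i b).Nonempty
  disj : ∀ i b j c, (i, b) ≠ (j, c) → Disjoint (C i b) (C j c)
  map : ∀ (g : H) (i : Fin r) (b : ZMod 2), (g : Equiv.Perm P) '' C i b = C i (b + pr g i)

end Pool.Agent.H42.CS
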