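import Pool.Agent.H42.CS.Defs
import Pool.Agent.H42.CS.Grd

/-!
# The axioms

Relation symbols (for a dimension `d`): `Z q` (the special vertex), `E q q'` (equivalence of points),
`J a q q'` (`q'` is the successor of `q` in the direction `a`), `F τ q u` (`u` is a label of the
square `τ` at `q`; `τ` is an unordered pair of slots), `R σ q ū` (the value of the edge at the slot `σ`
of `q`, relative to the labels `ū t` of its squares). `Ins Λ`: the clause `Λ` is an instance of one of
the axioms over `P`. `T d` is the set of the axioms; `T_ins`, `ins_T` say that its instances are exactly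
the clauses with `Ins Λ`.

PROOFS. `mkAx X lits ex` is the sentence whose variables are indexed by the finite type `X`
(`none : Option X` is the variable `y`); `inst_mkAx` computes its instances: unfold, with
`v' x := v (Fintype.equivFin X x)`. `T d` is the union of the ranges of the 15 families below. `T_ins`:
for every family: `inst_mkAx`, `Atom.map` of the concrete atoms (`map_aZ`, …), and the corresponding
constructor of `Ins`. `ins_T`: the same backwards, with `v := w ∘ (Fintype.equivFin X).symm` where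
`w : X → P` lists the points of the instance. Finiteness: finite unions of ranges of functions on
finite types.
-/

set_option autoImplicit false

namespace Pool.Agent.H42.CS

/-- The relation symbols. -/
inductive Sy (d : ℕ) : Type
  | Z | E | J (a : Fin d) | F (τ : Sym2 (Slot d)) | R (σ : Slot d)

/-- The number of the arguments. -/
def Sy.ar {d : ℕ} : Sy d → ℕ
  | .Z => 1
  | .E => 2
  | .J _ => 2
  | .F _ => 2
  | .R _ => Fintype.card (Option (Slot d))

/-- The relation symbols with `r` arguments. -/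
def Re (d : ℕ) (r : ℕ) : Type := {s : Sy d // s.ar = r}

/-- Renaming of the points of an atom. -/
def Atom.map {Rel : ℕ → Type} {P P' : Type} (f : P → P') (v : Atom Rel P) : Atom Rel P' :=
  ⟨v.1, v.2.1, fun i => f (v.2.2 i)⟩

section atoms

variable {d : ℕ} {P P' : Type}

/-- The atom `Z q`. -/
def aZ (q : P) : Atom (Re d) P := ⟨1, ⟨.Z, rfl⟩, ![q]⟩

/-- The atom `E q q'`. -/
def aE (q q' : P) : Atom (Re d) P := ⟨2, ⟨.E, rfl⟩, ![q, q']⟩

/-- The atom `J a q q'`. -/
def aJ (a : Fin d) (q q' : P) : Atom (Re d) P := ⟨2, ⟨.J a, rfl⟩, ![q, q']⟩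

/-- The atom `F τ q u`. -/
def aF (τ : Sym2 (Slot d)) (q u : P) : Atom (Re d) P := ⟨2, ⟨.F τ, rfl⟩, ![q, u]⟩

/-- The atom `R σ q ū`. -/
noncomputable def aR (σ : Slot d) (q : P) (u : Slot d → P) : Atom (Re d) P :=
  ⟨Fintype.card (Option (Slot d)), ⟨.R σ, rfl⟩,
    fun i => ((Fintype.equivFin (Option (Slot d))).symm i).elim q u⟩

private theorem at_congr {Rel : ℕ → Type} {r : ℕ} (R : Rel r) {v w : Fin r → P} (h : v = w) :
    (⟨r, R, v⟩ : Atom Rel P) = ⟨r, R, w⟩ := by
  rw [h]

theorem map_aZ (f : P → P') (q : P) : (aZ q : Atom (Re d) P).map f = aZ (f q) := by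
  refine at_congr _ (funext fun i => ?_)
  change f (![q] i) = ![f q] i
  fin_cases i
  rfl

theorem map_aE (f : P → P') (q q' : P) : (aE q q' : Atom (Re d) P).map f = aE (f q) (f q') := by
  refine at_congr _ (funext fun i => ?_)
  change f (![q, q'] i) = ![f q, f q'] i
  fin_cases i <;> rfl

theorem map_aJ (f : P → P') (a : Fin d) (q q' : P) : (aJ a q q').map f = aJ a (f q) (f q') := by
  refine at_congr _ (funext fun i => ?_)
  change f (![q, q'] i) = ![f q, f q'] i
  fin_cases i <;> rfl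

theorem map_aF (f : P → P') (τ : Sym2 (Slot d)) (q u : P) :
    (aF τ q u).map f = aF τ (f q) (f u) := by
  refine at_congr _ (funext fun i => ?_)
  change f (![q, u] i) = ![f q, f u] i
  fin_cases i <;> rfl

theorem map_aR (f : P → P') (σ : Slot d) (q : P) (u : Slot d → P) :
    (aR σ q u).map f = aR σ (f q) (fun t => f (u t)) := by
  refine at_congr _ (funext fun i => ?_)
  change f (((Fintype.equivFin (Option (Slot d))).symm i).elim q u) =
    ((Fintype.equivFin (Option (Slot d))).symm i).elim (f q) (fun t => f (u t))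
  cases (Fintype.equivFin (Option (Slot d))).symm i <;> rfl

open Classical in
/-- The clause of the vertex `q` with the labels `u`, which excludes the pattern: `R σ` holds exactly for
`σ ∈ W`, and `Z q` holds if and only if the number of the elements of `W` is even. -/
noncomputable def vcl (W : Finset (Slot d)) (q : P) (u : Sym2 (Slot d) → P) :
    Set (Atom (Re d) P × Bool) :=
  {x | ∃ τ, x = (aF τ q (u τ), false)} ∪
    {x | ∃ σ : Slot d, x = (aR σ q (fun t => u s(σ, t)), decide (σ ∉ W))} ∪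
    {(aZ q, decide (¬ Even W.card))}

/-- The instances of the axioms over `P`. -/
inductive Ins : Set (Atom (Re d) P × Bool) → Prop
  | er (x : P) : Ins {(aE x x, true)}
  | es (x y : P) : Ins {(aE x y, false), (aE y x, true)}
  | et (x y z : P) : Ins {(aE x y, false), (aE y z, false), (aE x z, true)}
  | jf (a : Fin d) (x y z : P) : Ins {(aJ a x y, false), (aJ a x z, false), (aE y z, true)}
  | ji (a : Fin d) (x y z : P) : Ins {(aJ a x z, false), (aJ a y z, false), (aE x y, true)}
  | je (a : Fin d) (x y x' y' : P) :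
      Ins {(aJ a x y, false), (aE x x', false), (aE y y', false), (aJ a x' y', true)}
  | rp (a : Fin d) (q : P) (u : Slot d → P) :
      Ins ({(aR (a, true) q u, false)} ∪ {x | ∃ y, x = (aJ a q y, true)})
  | rn (a : Fin d) (q : P) (u : Slot d → P) :
      Ins ({(aR (a, false) q u, false)} ∪ {x | ∃ y, x = (aJ a y q, true)})
  | r5 (a : Fin d) (b : Bool) (q q' : P) (u : Slot d → P) :
      Ins {(aJ a q q', false), (aR (a, b) (if b then q else q') u, false),
        (aR (a, !b) (if b then q' else q) u, true)}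
  | f6 (a : Fin d) (t : Slot d) (b : Bool) (q q' u : P) :
      Ins {(aJ a q q', false), (aF s((a, b), t) (if b then q else q') u, false),
        (aF s((a, !b), t) (if b then q' else q) u, true)}
  | f7 (τ : Sym2 (Slot d)) (q : P) : Ins {x | ∃ u, x = (aF τ q u, true)}
  | v8 (W : Finset (Slot d)) (q : P) (u : Sym2 (Slot d) → P) : Ins (vcl W q u)
  | z1 : Ins {x | ∃ y, x = (aZ y, true)}
  | z2 (x y : P) : Ins {(aZ x, false), (aZ y, false), (aE x y, true)}
  | z3 (x y : P) : Ins {(aZ x, false), (aE x y, false), (aZ y, true)}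

end atoms

/-- A sentence with variables indexed by a finite type. -/
noncomputable def mkAx {Rel : ℕ → Type} (X : Type) [Fintype X] (lits : Set (Atom Rel X × Bool))
    (ex : Set (Atom Rel (Option X))) : Ax Rel where
  k := Fintype.card X
  lits := (fun l => (Atom.map (Fintype.equivFin X) l.1, l.2)) '' lits
  ex := Atom.map (fun o : Option X =>
    o.elim (Fin.last (Fintype.card X)) (fun x => Fin.castSucc (Fintype.equivFin X x))) '' ex

/-- The instance in terms of the named variables. -/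
private def cl {Rel : ℕ → Type} {X P : Type} (lits : Set (Atom Rel X × Bool))
    (ex : Set (Atom Rel (Option X))) (w : X → P) : Set (Atom Rel P × Bool) :=
  (fun l : Atom Rel X × Bool => (Atom.map w l.1, l.2)) '' lits ∪
    {x | ∃ l ∈ ex, ∃ y : P, x = (Atom.map (fun o : Option X => o.elim y w) l, true)}

theorem inst_mkAx {Rel : ℕ → Type} (X : Type) [Fintype X] (lits : Set (Atom Rel X × Bool))
    (ex : Set (Atom Rel (Option X))) {P : Type} (v : Fin (mkAx X lits ex).k → P) :
    (mkAx X lits ex).inst v =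
      (fun l : Atom Rel X × Bool =>
        (Atom.map (fun x => v (Fintype.equivFin X x)) l.1, l.2)) '' lits ∪
      {x | ∃ l ∈ ex, ∃ y : P,
        x = (Atom.map (fun o : Option X => o.elim y (fun x => v (Fintype.equivFin X x))) l,
          true)} := by
  have hs : ∀ (y : P) (o : Option X), (Fin.snoc v y : Fin ((mkAx X lits ex).k + 1) → P)
      (o.elim (Fin.last (Fintype.card X)) (fun x => Fin.castSucc (Fintype.equivFin X x))) =
      o.elim y (fun x => v (Fintype.equivFin X x)) := by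
    intro y o
    cases o with
    | none => exact Fin.snoc_last _ _
    | some x => exact Fin.snoc_castSucc _ _ _
  unfold Ax.inst
  congr 1
  · ext x
    constructor
    · rintro ⟨l, ⟨l0, hl0, rfl⟩, rfl⟩
      exact ⟨l0, hl0, rfl⟩
    · rintro ⟨l0, hl0, rfl⟩
      exact ⟨_, ⟨l0, hl0, rfl⟩, rfl⟩
  · ext x
    constructor
    · rintro ⟨l, ⟨l0, hl0, rfl⟩, y, rfl⟩
      refine ⟨l0, hl0, y, ?_⟩
      congr 1
      exact at_congr _ (funext fun i => hs y _)
    · rintro ⟨l0, hl0, y, rfl⟩
      refine ⟨_, ⟨l0, hl0, rfl⟩, y, ?_⟩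
      congr 1
      exact at_congr _ (funext fun i => (hs y _).symm)

private theorem inst_cl {Rel : ℕ → Type} (X : Type) [Fintype X] (lits : Set (Atom Rel X × Bool))
    (ex : Set (Atom Rel (Option X))) {P : Type} (v : Fin (mkAx X lits ex).k → P) :
    (mkAx X lits ex).inst v = cl lits ex (fun x => v (Fintype.equivFin X x)) :=
  inst_mkAx X lits ex v

private theorem inst_w {Rel : ℕ → Type} (X : Type) [Fintype X] (lits : Set (Atom Rel X × Bool))
    (ex : Set (Atom Rel (Option X))) {P : Type} (w : X → P) :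
    (mkAx X lits ex).inst (fun i => w ((Fintype.equivFin X).symm i)) = cl lits ex w := by
  rw [inst_cl]
  congr 1
  funext x
  rw [Equiv.symm_apply_apply]

section families

variable {d : ℕ} {P : Type}

private theorem cl_ex {X : Type} (lits : Set (Atom (Re d) X × Bool)) (w : X → P) :
    cl lits ∅ w = (fun l : Atom (Re d) X × Bool => (Atom.map w l.1, l.2)) '' lits := by
  unfold cl
  have h : {x : Atom (Re d) P × Bool | ∃ l ∈ (∅ : Set (Atom (Re d) (Option X))), ∃ y : P,
      x = (Atom.map (fun o : Option X => o.elim y w) l, true)} = ∅ := by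
    ext x
    simp
  rw [h, Set.union_empty]

private theorem fam1 (w : Fin 1 → P) : cl (Rel := Re d) {(aE 0 0, true)} ∅ w =
    {(aE (w 0) (w 0), true)} := by
  rw [cl_ex, Set.image_singleton, map_aE]

private theorem fam2 (w : Fin 2 → P) : cl (Rel := Re d) {(aE 0 1, false), (aE 1 0, true)} ∅ w =
    {(aE (w 0) (w 1), false), (aE (w 1) (w 0), true)} := by
  rw [cl_ex, Set.image_pair, map_aE, map_aE]

private theorem fam3 (w : Fin 3 → P) :
    cl (Rel := Re d) {(aE 0 1, false), (aE 1 2, false), (aE 0 2, true)} ∅ w =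
    {(aE (w 0) (w 1), false), (aE (w 1) (w 2), false), (aE (w 0) (w 2), true)} := by
  rw [cl_ex, Set.image_insert_eq, Set.image_pair, map_aE, map_aE, map_aE]

private theorem fam4 (a : Fin d) (w : Fin 3 → P) :
    cl (Rel := Re d) {(aJ a 0 1, false), (aJ a 0 2, false), (aE 1 2, true)} ∅ w =
    {(aJ a (w 0) (w 1), false), (aJ a (w 0) (w 2), false), (aE (w 1) (w 2), true)} := by
  rw [cl_ex, Set.image_insert_eq, Set.image_pair, map_aJ, map_aJ, map_aE]

private theorem fam5 (a : Fin d) (w : Fin 3 → P) :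
    cl (Rel := Re d) {(aJ a 0 2, false), (aJ a 1 2, false), (aE 0 1, true)} ∅ w =
    {(aJ a (w 0) (w 2), false), (aJ a (w 1) (w 2), false), (aE (w 0) (w 1), true)} := by
  rw [cl_ex, Set.image_insert_eq, Set.image_pair, map_aJ, map_aJ, map_aE]

private theorem fam6 (a : Fin d) (w : Fin 4 → P) :
    cl (Rel := Re d) {(aJ a 0 1, false), (aE 0 2, false), (aE 1 3, false), (aJ a 2 3, true)} ∅ w =
    {(aJ a (w 0) (w 1), false), (aE (w 0) (w 2), false), (aE (w 1) (w 3), false),
      (aJ a (w 2) (w 3), true)} := by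
  rw [cl_ex, Set.image_insert_eq, Set.image_insert_eq, Set.image_pair, map_aJ, map_aE, map_aE,
    map_aJ]

private theorem cl_single {X : Type} (lits : Set (Atom (Re d) X × Bool))
    (e : Atom (Re d) (Option X)) (w : X → P) (F : P → Atom (Re d) P)
    (hF : ∀ y, Atom.map (fun o : Option X => o.elim y w) e = F y) :
    cl lits {e} w = (fun l : Atom (Re d) X × Bool => (Atom.map w l.1, l.2)) '' lits ∪
      {x | ∃ y, x = (F y, true)} := by
  unfold cl
  congr 1
  ext x
  constructor
  · rintro ⟨l, rfl, y, rfl⟩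
    exact ⟨y, by rw [hF]⟩
  · rintro ⟨y, rfl⟩
    exact ⟨e, rfl, y, by rw [hF]⟩

private theorem fam7 (a : Fin d) (w : Option (Slot d) → P) :
    cl (Rel := Re d) {(aR (a, true) none (fun t => some t), false)} {aJ a (some none) none} w =
    {(aR (a, true) (w none) (fun t => w (some t)), false)} ∪
      {x | ∃ y, x = (aJ a (w none) y, true)} := by
  rw [cl_single _ _ w (fun y => aJ a (w none) y) (fun y => by rw [map_aJ]; rfl),
    Set.image_singleton, map_aR]

private theorem fam8 (a : Fin d) (w : Option (Slot d) → P) :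
    cl (Rel := Re d) {(aR (a, false) none (fun t => some t), false)} {aJ a none (some none)} w =
    {(aR (a, false) (w none) (fun t => w (some t)), false)} ∪
      {x | ∃ y, x = (aJ a y (w none), true)} := by
  rw [cl_single _ _ w (fun y => aJ a y (w none)) (fun y => by rw [map_aJ]; rfl),
    Set.image_singleton, map_aR]

private theorem fam9 (p : Fin d × Bool) (w : Option (Option (Slot d)) → P) :
    cl (Rel := Re d) {(aJ p.1 (some none) none, false),
      (aR (p.1, p.2) (if p.2 then some none else none) (fun t => some (some t)), false),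
      (aR (p.1, !p.2) (if p.2 then none else some none) (fun t => some (some t)), true)} ∅ w =
    {(aJ p.1 (w (some none)) (w none), false),
      (aR (p.1, p.2) (if p.2 then w (some none) else w none) (fun t => w (some (some t))), false),
      (aR (p.1, !p.2) (if p.2 then w none else w (some none)) (fun t => w (some (some t))),
        true)} := by
  rw [cl_ex, Set.image_insert_eq, Set.image_pair, map_aJ, map_aR, map_aR, apply_ite w, apply_ite w]

private theorem fam10 (p : Fin d × Slot d × Bool) (w : Fin 3 → P) :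
    cl (Rel := Re d)
    {(aJ p.1 0 1, false), (aF s((p.1, p.2.2), p.2.1) (if p.2.2 then 0 else 1) 2, false),
      (aF s((p.1, !p.2.2), p.2.1) (if p.2.2 then 1 else 0) 2, true)} ∅ w =
    {(aJ p.1 (w 0) (w 1), false),
      (aF s((p.1, p.2.2), p.2.1) (if p.2.2 then w 0 else w 1) (w 2), false),
      (aF s((p.1, !p.2.2), p.2.1) (if p.2.2 then w 1 else w 0) (w 2), true)} := by
  rw [cl_ex, Set.image_insert_eq, Set.image_pair, map_aJ, map_aF, map_aF, apply_ite w, apply_ite w]

private theorem fam11 (τ : Sym2 (Slot d)) (w : Fin 1 → P) :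
    cl (Rel := Re d) ∅ {aF τ (some 0) none} w = {x | ∃ u, x = (aF τ (w 0) u, true)} := by
  rw [cl_single _ _ w (fun y => aF τ (w 0) y) (fun y => by rw [map_aF]; rfl),
    Set.image_empty, Set.empty_union]

private theorem fam12 (W : Finset (Slot d)) (w : Option (Sym2 (Slot d)) → P) :
    cl (Rel := Re d) (vcl W none (fun τ => some τ)) ∅ w = vcl W (w none) (fun τ => w (some τ)) := by
  rw [cl_ex]
  unfold vcl
  rw [Set.image_union, Set.image_union, Set.image_singleton, map_aZ]
  congr 1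
  congr 1
  · ext x
    constructor
    · rintro ⟨l, ⟨τ, rfl⟩, rfl⟩
      exact ⟨τ, Prod.ext (map_aF _ _ _ _) rfl⟩
    · rintro ⟨τ, rfl⟩
      exact ⟨_, ⟨τ, rfl⟩, Prod.ext (map_aF _ _ _ _) rfl⟩
  · ext x
    constructor
    · rintro ⟨l, ⟨σ, rfl⟩, rfl⟩
      exact ⟨σ, Prod.ext (map_aR _ _ _ _) rfl⟩
    · rintro ⟨σ, rfl⟩
      exact ⟨_, ⟨σ, rfl⟩, Prod.ext (map_aR _ _ _ _) rfl⟩

private theorem fam13 (w : Empty → P) :
    cl (Rel := Re d) ∅ {aZ none} w = {x | ∃ y, x = (aZ y, true)} := by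
  rw [cl_single _ _ w (fun y => aZ y) (fun y => by rw [map_aZ]; rfl),
    Set.image_empty, Set.empty_union]

private theorem fam14 (w : Fin 2 → P) :
    cl (Rel := Re d) {(aZ 0, false), (aZ 1, false), (aE 0 1, true)} ∅ w =
    {(aZ (w 0), false), (aZ (w 1), false), (aE (w 0) (w 1), true)} := by
  rw [cl_ex, Set.image_insert_eq, Set.image_pair, map_aZ, map_aZ, map_aE]

private theorem fam15 (w : Fin 2 → P) :
    cl (Rel := Re d) {(aZ 0, false), (aE 0 1, false), (aZ 1, true)} ∅ w =
    {(aZ (w 0), false), (aE (w 0) (w 1), false), (aZ (w 1), true)} := by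
  rw [cl_ex, Set.image_insert_eq, Set.image_pair, map_aZ, map_aE, map_aZ]

end families

open Classical in
/-- The axioms. -/
def T (d : ℕ) : Set (Ax (Re d)) :=
  {mkAx (Fin 1) {(aE 0 0, true)} ∅} ∪
  {mkAx (Fin 2) {(aE 0 1, false), (aE 1 0, true)} ∅} ∪
  {mkAx (Fin 3) {(aE 0 1, false), (aE 1 2, false), (aE 0 2, true)} ∅} ∪
  Set.range (fun a : Fin d =>
    mkAx (Fin 3) {(aJ a 0 1, false), (aJ a 0 2, false), (aE 1 2, true)} ∅) ∪
  Set.range (fun a : Fin d =>
    mkAx (Fin 3) {(aJ a 0 2, false), (aJ a 1 2, false), (aE 0 1, true)} ∅) ∪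
  Set.range (fun a : Fin d =>
    mkAx (Fin 4) {(aJ a 0 1, false), (aE 0 2, false), (aE 1 3, false), (aJ a 2 3, true)} ∅) ∪
  Set.range (fun a : Fin d => mkAx (Option (Slot d))
    {(aR (a, true) none (fun t => some t), false)} {aJ a (some none) none}) ∪
  Set.range (fun a : Fin d => mkAx (Option (Slot d))
    {(aR (a, false) none (fun t => some t), false)} {aJ a none (some none)}) ∪
  Set.range (fun p : Fin d × Bool => mkAx (Option (Option (Slot d)))
    {(aJ p.1 (some none) none, false),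
      (aR (p.1, p.2) (if p.2 then some none else none) (fun t => some (some t)), false),
      (aR (p.1, !p.2) (if p.2 then none else some none) (fun t => some (some t)), true)} ∅) ∪
  Set.range (fun p : Fin d × Slot d × Bool => mkAx (Fin 3)
    {(aJ p.1 0 1, false), (aF s((p.1, p.2.2), p.2.1) (if p.2.2 then 0 else 1) 2, false),
      (aF s((p.1, !p.2.2), p.2.1) (if p.2.2 then 1 else 0) 2, true)} ∅) ∪
  Set.range (fun τ : Sym2 (Slot d) => mkAx (Fin 1) ∅ {aF τ (some 0) none}) ∪
  Set.range (fun W : Finset (Slot d) => mkAx (Option (Sym2 (Slot d)))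
    (vcl W none (fun τ => some τ)) ∅) ∪
  {mkAx Empty ∅ {aZ none}} ∪
  {mkAx (Fin 2) {(aZ 0, false), (aZ 1, false), (aE 0 1, true)} ∅} ∪
  {mkAx (Fin 2) {(aZ 0, false), (aE 0 1, false), (aZ 1, true)} ∅}

theorem T_ins {d : ℕ} {P : Type} (A : Ax (Re d)) (hA : A ∈ T d) (v : Fin A.k → P) :
    Ins (A.inst v) := by
  rcases hA with ((((((((((((((rfl | rfl) | rfl) | ⟨a, rfl⟩) | ⟨a, rfl⟩) | ⟨a, rfl⟩) | ⟨a, rfl⟩) |
    ⟨a, rfl⟩) | ⟨p, rfl⟩) | ⟨p, rfl⟩) | ⟨τ, rfl⟩) | ⟨W, rfl⟩) | rfl) | rfl) | rfl)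
  · rw [inst_cl, fam1]
    exact Ins.er _
  · rw [inst_cl, fam2]
    exact Ins.es _ _
  · rw [inst_cl, fam3]
    exact Ins.et _ _ _
  · rw [inst_cl, fam4]
    exact Ins.jf _ _ _ _
  · rw [inst_cl, fam5]
    exact Ins.ji _ _ _ _
  · rw [inst_cl, fam6]
    exact Ins.je _ _ _ _ _
  · rw [inst_cl, fam7]
    exact Ins.rp _ _ _
  · rw [inst_cl, fam8]
    exact Ins.rn _ _ _
  · rw [inst_cl, fam9]
    exact Ins.r5 _ _ _ _ _
  · rw [inst_cl, fam10]
    exact Ins.f6 _ _ _ _ _ _
  · rw [inst_cl, fam11]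
    exact Ins.f7 _ _
  · rw [inst_cl, fam12]
    exact Ins.v8 _ _ _
  · rw [inst_cl, fam13]
    exact Ins.z1
  · rw [inst_cl, fam14]
    exact Ins.z2 _ _
  · rw [inst_cl, fam15]
    exact Ins.z3 _ _

theorem ins_T {d : ℕ} {P : Type} (Λ : Set (Atom (Re d) P × Bool)) (h : Ins Λ) :
    ∃ A ∈ T d, ∃ v : Fin A.k → P, A.inst v = Λ := by
  unfold T
  cases h with
  | er x =>
    refine ⟨_, Or.inl (Or.inl (Or.inl (Or.inl (Or.inl (Or.inl (Or.inl (Or.inl (Or.inl (Or.inl
      (Or.inl (Or.inl (Or.inl (Or.inl rfl))))))))))))), _, (inst_w _ _ _ ![x]).trans ?_⟩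
    exact fam1 _
  | es x y =>
    refine ⟨_, Or.inl (Or.inl (Or.inl (Or.inl (Or.inl (Or.inl (Or.inl (Or.inl (Or.inl (Or.inl
      (Or.inl (Or.inl (Or.inl (Or.inr rfl))))))))))))), _, (inst_w _ _ _ ![x, y]).trans ?_⟩
    exact fam2 _
  | et x y z =>
    refine ⟨_, Or.inl (Or.inl (Or.inl (Or.inl (Or.inl (Or.inl (Or.inl (Or.inl (Or.inl (Or.inl
      (Or.inl (Or.inl (Or.inr rfl)))))))))))), _, (inst_w _ _ _ ![x, y, z]).trans ?_⟩
    exact fam3 _
  | jf a x y z =>
    refine ⟨_, Or.inl (Or.inl (Or.inl (Or.inl (Or.inl (Or.inl (Or.inl (Or.inl (Or.inl (Or.inl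
      (Or.inl (Or.inr ⟨a, rfl⟩))))))))))), _, (inst_w _ _ _ ![x, y, z]).trans ?_⟩
    exact fam4 _ _
  | ji a x y z =>
    refine ⟨_, Or.inl (Or.inl (Or.inl (Or.inl (Or.inl (Or.inl (Or.inl (Or.inl (Or.inl (Or.inl
      (Or.inr ⟨a, rfl⟩)))))))))), _, (inst_w _ _ _ ![x, y, z]).trans ?_⟩
    exact fam5 _ _
  | je a x y x' y' =>
    refine ⟨_, Or.inl (Or.inl (Or.inl (Or.inl (Or.inl (Or.inl (Or.inl (Or.inl (Or.inl
      (Or.inr ⟨a, rfl⟩))))))))), _, (inst_w _ _ _ ![x, y, x', y']).trans ?_⟩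
    exact fam6 _ _
  | rp a q u =>
    refine ⟨_, Or.inl (Or.inl (Or.inl (Or.inl (Or.inl (Or.inl (Or.inl (Or.inl
      (Or.inr ⟨a, rfl⟩)))))))), _, (inst_w _ _ _ (fun o => o.elim q u)).trans ?_⟩
    exact fam7 _ _
  | rn a q u =>
    refine ⟨_, Or.inl (Or.inl (Or.inl (Or.inl (Or.inl (Or.inl (Or.inl
      (Or.inr ⟨a, rfl⟩))))))), _, (inst_w _ _ _ (fun o => o.elim q u)).trans ?_⟩
    exact fam8 _ _
  | r5 a b q q' u =>
    refine ⟨_, Or.inl (Or.inl (Or.inl (Or.inl (Or.inl (Or.inl
      (Or.inr ⟨(a, b), rfl⟩)))))), _,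
      (inst_w _ _ _ (fun o => o.elim q' (fun o' => o'.elim q u))).trans ?_⟩
    exact fam9 _ _
  | f6 a t b q q' u =>
    refine ⟨_, Or.inl (Or.inl (Or.inl (Or.inl (Or.inl
      (Or.inr ⟨(a, t, b), rfl⟩))))), _, (inst_w _ _ _ ![q, q', u]).trans ?_⟩
    exact fam10 _ _
  | f7 τ q =>
    refine ⟨_, Or.inl (Or.inl (Or.inl (Or.inl
      (Or.inr ⟨τ, rfl⟩)))), _, (inst_w _ _ _ ![q]).trans ?_⟩
    exact fam11 _ _
  | v8 W q u =>
    refine ⟨_, Or.inl (Or.inl (Or.inl
      (Or.inr ⟨W, rfl⟩))), _, (inst_w _ _ _ (fun o => o.elim q u)).trans ?_⟩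
    exact fam12 _ _
  | z1 =>
    refine ⟨_, Or.inl (Or.inl (Or.inr rfl)), _, (inst_w _ _ _ (fun e => e.elim)).trans ?_⟩
    exact fam13 _
  | z2 x y =>
    refine ⟨_, Or.inl (Or.inr rfl), _, (inst_w _ _ _ ![x, y]).trans ?_⟩
    exact fam14 _
  | z3 x y =>
    refine ⟨_, Or.inr rfl, _, (inst_w _ _ _ ![x, y]).trans ?_⟩
    exact fam15 _

theorem T_finite (d : ℕ) : (T d).Finite := by
  unfold T
  repeat' apply Set.Finite.union
  all_goals first | exact Set.finite_singleton _ | exact Set.finite_range _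

private theorem mk_fin {Rel : ℕ → Type} (X : Type) [Fintype X] (lits : Set (Atom Rel X × Bool))
    (ex : Set (Atom Rel (Option X))) (h : lits.Finite) (h' : ex.Finite) :
    (mkAx X lits ex).lits.Finite ∧ (mkAx X lits ex).ex.Finite :=
  ⟨h.image _, h'.image _⟩

private theorem vcl_fin {d : ℕ} {P : Type} (W : Finset (Slot d)) (q : P)
    (u : Sym2 (Slot d) → P) : (vcl W q u).Finite := by
  unfold vcl
  refine ((Set.Finite.union ?_ ?_).union (Set.finite_singleton _))
  · refine (Set.finite_range (fun τ => (aF τ q (u τ), false))).subset ?_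
    rintro x ⟨τ, rfl⟩
    exact ⟨τ, rfl⟩
  · refine (Set.finite_range (fun σ : Slot d => (aR σ q (fun t => u s(σ, t)),
      decide (σ ∉ W)))).subset ?_
    rintro x ⟨σ, rfl⟩
    exact ⟨σ, rfl⟩

theorem T_lits {d : ℕ} (A : Ax (Re d)) (hA : A ∈ T d) : A.lits.Finite ∧ A.ex.Finite := by
  rcases hA with ((((((((((((((rfl | rfl) | rfl) | ⟨a, rfl⟩) | ⟨a, rfl⟩) | ⟨a, rfl⟩) | ⟨a, rfl⟩) |
    ⟨a, rfl⟩) | ⟨p, rfl⟩) | ⟨p, rfl⟩) | ⟨τ, rfl⟩) | ⟨W, rfl⟩) | rfl) | rfl) | rfl)
  all_goals first
    | exact mk_fin _ _ _ (Set.toFinite _) (Set.toFinite _)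
    | exact mk_fin _ _ _ (vcl_fin _ _ _) (Set.toFinite _)

end Pool.Agent.H42.CS
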