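import Pool.Agent.H42.CS.Der

/-!
# Derivations: search, clauses, counting

`Pn.cutAll`: `S` is finite; order it; cut with its members one after the other: with `Γ i` = `Γ` and the
first `i` members, `Γ i` is refuted in at most `b ^ l + (m - i) * (b ^ l + 2)` lines, `m = S.ncard ≤
b - 8` (each premise `Dn l Γ x` is first weakened to `Γ i`); in total at most `b ^ (l + 2)`.
`Pn.search`: by downward induction on `i`: `Γ ∪ {v j false : j < i}` is refuted in at most
`(n - i) * (b ^ l + 1) + b ^ l` lines (cut with `v i`), `n ≤ card N` as `v` is injective.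
`Pn.clause`: `Pn.cutAll` with `S` = the set of the literals `⟨a, !x.2⟩` and then `Pn.inst`.
`Dn.clause`: assume also `⟨a0, !x0.2⟩` and use `Pn.clause` (the derivations weakened by one level).
`Dn.cnt`: for every `x ∈ X` derive `⟨un x, true⟩` (rule `unit` and cut with `x` or `x.neg`), then
`⟨p, true⟩` by `Dn.andT`, then `⟨a, true⟩` by `Pn.sum` with `B = un '' X`, `S (un x) = {x}`,
`A (un x) = {[x ∈ W]}`: `∑ᶠ b ∈ B, c b = W.ncard` (`un` is injective on `X` because the gates are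
different).
-/

set_option autoImplicit false

namespace Pool.Agent.H42.CS

variable {Rel : ℕ → Type} {P : Type} {T : Set (Ax Rel)} {C : Circuit Rel P} {l l' : ℕ}
  {Γ Γ' : Set (Lit C.N)}

private theorem db_fin (N : Type) [Finite N] : Finite (Lit N) :=
  Finite.of_injective (fun x : Lit N => (x.node, x.pos)) (by
    rintro ⟨a, s⟩ ⟨b, t⟩ h
    have h1 : a = b := congrArg Prod.fst h
    have h2 : s = t := congrArg Prod.snd h
    rw [h1, h2])

private theorem db_card (N : Type) [Finite N] : Nat.card (Lit N) ≤ 2 * Nat.card N := by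
  have h1 : Nat.card (N × Bool) = Nat.card N * 2 := by
    rw [Nat.card_prod, Nat.card_eq_fintype_card (α := Bool), Fintype.card_bool]
  have h2 : Nat.card (Lit N) ≤ Nat.card (N × Bool) :=
    Nat.card_le_card_of_injective (fun x : Lit N => (x.node, x.pos)) (by
      rintro ⟨a, s⟩ ⟨b, t⟩ h
      have h1 : a = b := congrArg Prod.fst h
      have h2 : s = t := congrArg Prod.snd h
      rw [h1, h2])
  omega

private theorem db_neg (x : Lit C.N) : x.neg.neg = x := by
  rcases x with ⟨n, s⟩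
  cases s <;> rfl

private theorem db_ins (x : Lit C.N) : Lit.neg '' (insert x Γ) = insert x.neg (Lit.neg '' Γ) :=
  Set.image_insert_eq

private theorem db_ins' (x : Lit C.N) : Lit.neg '' (insert x.neg Γ) = insert x (Lit.neg '' Γ) := by
  rw [db_ins, db_neg]

private theorem db_le {k k' : ℕ} {Λ : Set (Lit C.N)} (h : Der T C k Λ) (hk : k ≤ k') : Der T C k' Λ := by
  obtain ⟨k, Λ, Pr, f, h1, hs, hk'⟩ := h
  exact Der.mk _ _ Pr f h1 hs (hk'.trans hk)

private theorem db_weak {k : ℕ} {Δ Λ : Set (Lit C.N)} (h : Der T C k Δ) (hs : Δ ⊆ Λ) : Der T C (k + 1) Λ := by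
  refine Der.mk (k + 1) Λ {Δ} (fun _ => k) ?_ (Step.weak rfl hs) ?_
  · rintro _ rfl
    exact h
  · rw [finsum_mem_singleton]

private theorem db_cut {k1 k2 k : ℕ} (x : Lit C.N) (h : Der T C k1 (Lit.neg '' (insert x Γ)))
    (h' : Der T C k2 (Lit.neg '' (insert x.neg Γ))) (hk : k1 + k2 + 1 ≤ k) : Der T C k (Lit.neg '' Γ) := by
  classical
  rw [db_ins] at h
  rw [db_ins'] at h'
  have hs : Step T C {insert x.neg (Lit.neg '' Γ), insert x (Lit.neg '' Γ)} (Lit.neg '' Γ) := by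
    rcases x with ⟨n, s⟩
    cases s
    · exact Step.cut (a := n) (Or.inl rfl) (Or.inr rfl)
    · exact Step.cut (a := n) (Or.inr rfl) (Or.inl rfl)
  refine Der.mk k (Lit.neg '' Γ) _ (fun Δ => if Δ = insert x.neg (Lit.neg '' Γ) then k1 else k2) ?_ hs ?_
  · rintro Δ (rfl | rfl)
    · beta_reduce
      rw [if_pos rfl]
      exact h
    · beta_reduce
      split_ifs with h1
      · rw [h1]
        exact h
      · exact h'
  · by_cases h1 : insert x.neg (Lit.neg '' Γ) = insert x (Lit.neg '' Γ)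
    · rw [← h1, Set.pair_eq_singleton, finsum_mem_singleton, if_pos rfl]
      omega
    · rw [finsum_mem_pair h1, if_pos rfl, if_neg (Ne.symm h1)]
      exact hk

private theorem db_num (l m : ℕ) (hm : m ≤ 2 * Nat.card C.N) : bs C ^ l + m * (bs C ^ l + 2) ≤ bs C ^ (l + 2) := by
  have hb : bs C = 2 * Nat.card C.N + 8 := rfl
  obtain ⟨N, hN⟩ : ∃ N, N = 2 * Nat.card C.N := ⟨_, rfl⟩
  rw [← hN] at hb hm
  have h1 : 1 ≤ bs C ^ l := Nat.one_le_pow _ _ (by omega)
  obtain ⟨q, hq⟩ : ∃ q, q = bs C ^ l := ⟨_, rfl⟩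
  rw [pow_add, ← hq, hb]
  rw [← hq] at h1
  have h2 : m * (q + 2) ≤ N * (q + 2) := Nat.mul_le_mul_right _ hm
  have h3 : N * 2 ≤ N * (2 * q) := Nat.mul_le_mul_left _ (by omega)
  nlinarith [Nat.zero_le (N * N * q)]

theorem Pn.cutAll {S : Set (Lit C.N)} (h : ∀ x ∈ S, Dn T C l Γ x) (h' : Pn T C l (Γ ∪ S)) :
    Pn T C (l + 2) Γ := by
  have hfl : Finite (Lit C.N) := db_fin _
  have key : ∀ (S0 : Set (Lit C.N)), S0.Finite → (∀ x ∈ S0, Dn T C l Γ x) → ∀ (k : ℕ) (Γ' : Set (Lit C.N)), Γ ⊆ Γ' →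
      Der T C k (Lit.neg '' (Γ' ∪ S0)) → Der T C (k + S0.ncard * (bs C ^ l + 2)) (Lit.neg '' Γ') := by
    intro S0 hS0
    induction S0, hS0 using Set.Finite.induction_on with
    | empty =>
      intro _ k Γ' _ h1
      rw [Set.union_empty] at h1
      exact db_le h1 (Nat.le_add_right _ _)
    | @insert x S0 hx hS0 ih =>
      intro hd k Γ' hΓ h1
      have h2 : Γ' ∪ insert x S0 = insert x Γ' ∪ S0 := by
        rw [Set.union_insert, Set.insert_union]
      rw [h2] at h1
      have h3 := ih (fun y hy => hd y (Or.inr hy)) k (insert x Γ') (hΓ.trans (Set.subset_insert _ _)) h1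
      have h4 : Der T C (bs C ^ l) (Lit.neg '' (insert x.neg Γ)) := hd x (Or.inl rfl)
      have h5 := db_weak h4 (Set.image_mono (Set.insert_subset_insert hΓ) :
        Lit.neg '' (insert x.neg Γ) ⊆ Lit.neg '' (insert x.neg Γ'))
      refine db_cut x h3 h5 ?_
      rw [Set.ncard_insert_of_notMem hx hS0]
      ring_nf
      omega
  have h1 := key S (Set.toFinite S) h (bs C ^ l) Γ subset_rfl h'
  refine db_le h1 (db_num l _ ?_)
  refine le_trans ?_ (db_card C.N)
  rw [← Set.ncard_univ]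
  exact Set.ncard_le_ncard (Set.subset_univ _) (Set.toFinite _)

theorem Pn.search {n : ℕ} (v : Fin n → C.N) (hv : Function.Injective v)
    (h : ∀ i, Pn T C l (Γ ∪ {⟨v i, true⟩} ∪ {x | ∃ j, j < i ∧ x = ⟨v j, false⟩}))
    (h' : Pn T C l (Γ ∪ {x | ∃ j, x = ⟨v j, false⟩})) : Pn T C (l + 2) Γ := by
  have hn : n ≤ Nat.card C.N := by
    have h1 := Nat.card_le_card_of_injective v hv
    rwa [Nat.card_eq_fintype_card, Fintype.card_fin] at h1
  have key : ∀ e : ℕ, e ≤ n → Der T C (bs C ^ l + e * (bs C ^ l + 2))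
      (Lit.neg '' (Γ ∪ {x | ∃ j : Fin n, (j : ℕ) < n - e ∧ x = ⟨v j, false⟩})) := by
    intro e
    induction e with
    | zero =>
      intro _
      have h1 : {x : Lit C.N | ∃ j : Fin n, (j : ℕ) < n - 0 ∧ x = ⟨v j, false⟩} =
          {x | ∃ j, x = ⟨v j, false⟩} := by
        ext x
        constructor
        · rintro ⟨j, -, hx⟩
          exact ⟨j, hx⟩
        · rintro ⟨j, hx⟩
          exact ⟨j, j.2, hx⟩
      rw [h1]
      exact db_le h' (Nat.le_add_right _ _)
    | succ e ih =>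
      intro he
      have h1 := ih (by omega)
      obtain ⟨i, hi⟩ : ∃ i : Fin n, (i : ℕ) = n - (e + 1) := ⟨⟨n - (e + 1), by omega⟩, rfl⟩
      have h2 : Der T C (bs C ^ l) (Lit.neg '' (insert ⟨v i, true⟩
          (Γ ∪ {x | ∃ j : Fin n, (j : ℕ) < n - (e + 1) ∧ x = ⟨v j, false⟩}))) := by
        have h3 : insert ⟨v i, true⟩ (Γ ∪ {x : Lit C.N | ∃ j : Fin n, (j : ℕ) < n - (e + 1) ∧ x = ⟨v j, false⟩}) =
            Γ ∪ {⟨v i, true⟩} ∪ {x | ∃ j, j < i ∧ x = ⟨v j, false⟩} := by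
          ext x
          simp only [Set.mem_insert_iff, Set.mem_union, Set.mem_singleton_iff, Set.mem_ofPred_eq]
          constructor
          · rintro (h4 | h4 | ⟨j, h4, h5⟩)
            · exact Or.inl (Or.inr h4)
            · exact Or.inl (Or.inl h4)
            · exact Or.inr ⟨j, by rw [Fin.lt_def, hi]; exact h4, h5⟩
          · rintro ((h4 | h4) | ⟨j, h4, h5⟩)
            · exact Or.inr (Or.inl h4)
            · exact Or.inl h4
            · rw [Fin.lt_def, hi] at h4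
              exact Or.inr (Or.inr ⟨j, h4, h5⟩)
        rw [h3]
        exact h i
      have h4 : Der T C (bs C ^ l + e * (bs C ^ l + 2)) (Lit.neg '' (insert (Lit.neg ⟨v i, true⟩)
          (Γ ∪ {x | ∃ j : Fin n, (j : ℕ) < n - (e + 1) ∧ x = ⟨v j, false⟩}))) := by
        have h5 : insert (Lit.neg ⟨v i, true⟩) (Γ ∪ {x : Lit C.N | ∃ j : Fin n, (j : ℕ) < n - (e + 1) ∧ x = ⟨v j, false⟩}) =
            Γ ∪ {x | ∃ j : Fin n, (j : ℕ) < n - e ∧ x = ⟨v j, false⟩} := by
          ext x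
          simp only [Set.mem_insert_iff, Set.mem_union, Set.mem_ofPred_eq]
          constructor
          · rintro (h6 | h6 | ⟨j, h6, h7⟩)
            · exact Or.inr ⟨i, by omega, h6⟩
            · exact Or.inl h6
            · exact Or.inr ⟨j, by omega, h7⟩
          · rintro (h6 | ⟨j, h6, h7⟩)
            · exact Or.inr (Or.inl h6)
            · by_cases hj : (j : ℕ) < n - (e + 1)
              · exact Or.inr (Or.inr ⟨j, hj, h7⟩)
              · have h8 : j = i := Fin.ext (by omega)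
                rw [h8] at h7
                exact Or.inl h7
        rw [h5]
        exact h1
      refine db_cut ⟨v i, true⟩ h2 h4 ?_
      ring_nf
      omega
  have h1 := key n le_rfl
  have h2 : Γ ∪ {x : Lit C.N | ∃ j : Fin n, (j : ℕ) < n - n ∧ x = ⟨v j, false⟩} = Γ := by
    have h3 : {x : Lit C.N | ∃ j : Fin n, (j : ℕ) < n - n ∧ x = ⟨v j, false⟩} = ∅ := by
      rw [Set.eq_empty_iff_forall_notMem]
      rintro x ⟨j, h4, -⟩
      omega
    rw [h3, Set.union_empty]
  rw [h2] at h1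
  exact db_le h1 (db_num l n (by omega))

theorem Pn.clause {A : Ax Rel} (hA : A ∈ T) (v : Fin A.k → P)
    (h : ∀ x ∈ A.inst v, ∃ a, C.gate a = .var x.1 ∧ Dn T C l Γ ⟨a, !x.2⟩) :
    Pn T C (l + 2) Γ := by
  refine Pn.cutAll (S := {y | ∃ x ∈ A.inst v, ∃ a, C.gate a = .var x.1 ∧ Dn T C l Γ ⟨a, !x.2⟩ ∧ y = ⟨a, !x.2⟩}) ?_ ?_
  · rintro y ⟨x, -, a, -, h1, rfl⟩
    exact h1
  · refine Pn.inst hA v fun x hx => ?_
    obtain ⟨a, h1, h2⟩ := h x hx
    exact ⟨a, h1, Or.inr ⟨x, hx, a, h1, h2, rfl⟩⟩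

/-- Unit propagation: all members of the instance but one are refuted. -/
theorem Dn.clause {A : Ax Rel} (hA : A ∈ T) (v : Fin A.k → P) {x0 : Atom Rel P × Bool}
    {a0 : C.N} (ha0 : C.gate a0 = .var x0.1)
    (h : ∀ x ∈ A.inst v, x ≠ x0 → ∃ a, C.gate a = .var x.1 ∧ Dn T C l Γ ⟨a, !x.2⟩) :
    Dn T C (l + 3) Γ ⟨a0, x0.2⟩ := by
  refine Pn.clause (l := l + 1) hA v fun x hx => ?_
  by_cases hx0 : x = x0
  · subst hx0
    exact ⟨a0, ha0, Dn.mem (Set.mem_insert _ _)⟩
  · obtain ⟨a, h1, h2⟩ := h x hx hx0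
    exact ⟨a, h1, h2.mono (Set.subset_insert _ _) (Nat.lt_succ_self l)⟩

open Classical in
theorem Dn.cnt {X W : Set (Lit C.N)} {A : Set ℕ} {a p : C.N} (un : Lit C.N → C.N) (hW : W ⊆ X)
    (hu : ∀ x ∈ X, C.gate (un x) = .sym {if x ∈ W then 1 else 0} {x})
    (hp : C.gate p = .and ((fun x => ⟨un x, true⟩) '' X)) (ha : C.gate a = .sym A X)
    (hA : W.ncard ∈ A) (h1 : ∀ x ∈ W, Dn T C l Γ x)
    (h0 : ∀ x ∈ X, x ∉ W → Dn T C l Γ x.neg) : Dn T C (l + 6) Γ ⟨a, true⟩ := by
  have hfl : Finite (Lit C.N) := db_fin _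
  have hd : ∀ x ∈ X, Dn T C (l + 2) Γ ⟨un x, true⟩ := by
    intro x hx
    have h2 := hu x hx
    by_cases hxW : x ∈ W
    · rw [if_pos hxW] at h2
      refine Dn.use (h1 x hxW) (Pn.unit h2 (Set.mem_insert _ _) (Or.inl ⟨rfl, ?_⟩))
      exact Or.inr (Or.inl rfl)
    · rw [if_neg hxW] at h2
      refine Dn.use (h0 x hx hxW) (Pn.unit h2 (Set.mem_insert _ _) (Or.inr ⟨rfl, ?_⟩))
      exact Or.inr (Or.inl rfl)
  have hp' : Dn T C (l + 4) Γ ⟨p, true⟩ := by
    refine Dn.andT (l := l + 2) hp ?_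
    rintro _ ⟨x, hx, rfl⟩
    exact hd x hx
  have hinj : Set.InjOn un X := by
    intro x hx x' hx' he
    have h2 := hu x hx
    rw [he, hu x' hx'] at h2
    injection h2 with h3 h4
    exact (Set.singleton_injective h4).symm
  refine Dn.use (l := l + 4) hp' ?_
  refine Pn.sum (B := un '' X) (A := fun b => {if ∃ x ∈ W, un x = b then 1 else 0}) (A' := A)
    (S := fun b => {x | x ∈ X ∧ un x = b}) (a := a) (p := p) ?_ ?_ ?_ ?_ ?_ (Or.inr (Or.inl rfl)) (Set.mem_insert _ _)
  · rintro _ ⟨x, hx, rfl⟩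
    beta_reduce
    have h2 : {x' | x' ∈ X ∧ un x' = un x} = {x} := by
      ext x'
      constructor
      · rintro ⟨h3, h4⟩
        exact hinj h3 hx h4
      · rintro rfl
        exact ⟨hx, rfl⟩
    have h3 : (∃ x' ∈ W, un x' = un x) ↔ x ∈ W := by
      constructor
      · rintro ⟨x', h4, h5⟩
        rwa [← hinj (hW h4) hx h5]
      · intro h4
        exact ⟨x, h4, rfl⟩
    rw [h2, hu x hx]
    simp only [h3]
  · intro b _ b' _ hbb
    rw [Function.onFun, Set.disjoint_left]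
    rintro x ⟨-, h2⟩ ⟨-, h3⟩
    exact hbb (h2.symm.trans h3)
  · rw [hp, Set.image_image]
  · rw [ha]
    congr 1
    ext x
    simp only [Set.mem_iUnion, Set.mem_image, Set.mem_ofPred_eq, exists_prop]
    constructor
    · intro hx
      exact ⟨un x, ⟨x, hx, rfl⟩, hx, rfl⟩
    · rintro ⟨b, -, hx, -⟩
      exact hx
  · intro c hc
    have h2 : ∑ᶠ b ∈ un '' X, c b = W.ncard := by
      rw [finsum_mem_image hinj]
      have h3 : ∑ᶠ x ∈ X, c (un x) = ∑ᶠ x ∈ X, if x ∈ W then 1 else 0 := by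
        refine finsum_mem_congr rfl fun x hx => ?_
        have h4 := hc (un x) (Set.mem_image_of_mem _ hx)
        have h5 : (∃ x' ∈ W, un x' = un x) ↔ x ∈ W := by
          constructor
          · rintro ⟨x', h4, h5⟩
            rwa [← hinj (hW h4) hx h5]
          · intro h4
            exact ⟨x, h4, rfl⟩
        simp only [h5] at h4
        exact h4
      rw [h3, finsum_mem_eq_finite_toFinset_sum _ (Set.toFinite X), ← Finset.card_filter,
        Set.ncard_eq_toFinset_card W (Set.toFinite W)]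
      congr 1
      ext x
      rw [Finset.mem_filter, Set.Finite.mem_toFinset, Set.Finite.mem_toFinset]
      exact ⟨fun h => h.2, fun h => ⟨hW h, h⟩⟩
    rw [h2]
    exact hA

end Pool.Agent.H42.CS
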