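import Pool.Agent.H42.CS.Axs
import Pool.Agent.H42.CS.Deb

/-!
# The circuit of the short refutation

Nodes (`q, q', p, u` are points of `Fin n`): the variables `vZ, vE, vJ, vF, vR`; `rep q`: `q` is the
least point of its class; `mi τ q u`: `u` is the least label of the square `τ` at `q`; `mm σ q ū`:
`rep q`, all `ū t` are the least labels, and `R σ q ū`; `yy σ q`: NO `mm σ q ū` is true (so the value of
the slot is the signed node `⟨yy σ q, false⟩`); the items `it (z true a q q')`: `rep q'`, `J a q q'`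
and the value of the slot `(a, true)` of `q`; `it (z false a q q')`: `rep q`, `J a q q'` and the value
of the slot `(a, false)` of `q'`; `it (ze q)`: `rep q` and `Z q`. `XX q` is the set of the items of the
vertex `q`, `P2 a q q'` the two items of a pair. All the other nodes are symmetric gates on these, or
conjunctions needed for the rules.

PROOF of `Nd_finite` and `Nd_card`. Every node is determined by its constructor and a bounded number of
parameters; for instance map a node injectively to `Fin 40 × (Fin (4 * (2 * d + 1) + 20 + 2 * d) → Fin m)`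
with `m` a bound such as `4 d + 3 * d * n + n + 2 ^ …`, or show the bound constructor by constructor
(`Nd d n` is equivalent to a sum of product types, `Nat.card_sum`, `Nat.card_prod`, `Nat.card_fun`).
Every parameter type has at most `c * n` elements (`c` depending on `d` only), except
`Slot d → Fin n` (`n ^ (2 d)`) and `Fin (2 d + 1) → Option (Cn d n)` (`(2 d n ^ 2 + n + 1) ^ (2 d + 1)`);
`c ≤ n ^ c'` for `n ≥ 2`.
-/

set_option autoImplicit false

namespace Pool.Agent.H42.CS

/-- The items. -/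
inductive Cn (d n : ℕ) : Type
  | z (b : Bool) (a : Fin d) (q q' : Fin n)
  | ze (q : Fin n)

/-- The nodes. -/
inductive Nd (d n : ℕ) : Type
  | vZ (q : Fin n)
  | vE (p q : Fin n)
  | vJ (a : Fin d) (p q : Fin n)
  | vF (τ : Sym2 (Slot d)) (q u : Fin n)
  | vR (σ : Slot d) (q : Fin n) (u : Slot d → Fin n)
  | rep (q : Fin n)
  | mi (τ : Sym2 (Slot d)) (q u : Fin n)
  | mm (σ : Slot d) (q : Fin n) (u : Slot d → Fin n)
  | yy (σ : Slot d) (q : Fin n)
  | it (x : Cn d n)
  | u1 (b : Bool) (x : Cn d n)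
  | pt (q : Fin n) (W : Fin (2 * d + 1) → Option (Cn d n))
  | ev (q : Fin n)
  | sx (j : Fin (3 * d * n + 3)) (q : Fin n)
  | s0 (j : Fin (3 * d * n + 3)) (q : Fin n)
  | p0 (j : Fin (3 * d * n + 3))
  | tx (j : Fin (3 * d * n + 3))
  | tot
  | sp (j : Fin 3) (a : Fin d) (q q' : Fin n)
  | o0 (a : Fin d) (q q' : Fin n)
  | pp
  | tp (j : Fin 3)
  | evz
  | one
  | pz (q : Fin n)
  | pf
  | odd
  | ps (b : Bool) (a : Fin d) (q q' : Fin n)

section

variable {d n : ℕ}

private def cnEq (d n : ℕ) : Cn d n → (Bool × Fin d × Fin n × Fin n) ⊕ Fin n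
  | .z b a q q' => .inl (b, a, q, q')
  | .ze q => .inr q

private theorem cnEq_inj : Function.Injective (cnEq d n) := by
  intro x y h
  rcases x with ⟨b, a, q, q'⟩ | q <;> rcases y with ⟨b', a', p, p'⟩ | p <;> simp_all [cnEq]

instance cn_fin : Finite (Cn d n) := Finite.of_injective _ (cnEq_inj (d := d) (n := n))

private theorem cn_card : Nat.card (Cn d n) ≤ 2 * d * n ^ 2 + n := by
  refine le_trans (Nat.card_le_card_of_injective _ (cnEq_inj (d := d) (n := n))) ?_
  rw [Nat.card_eq_fintype_card, Fintype.card_sum, Fintype.card_prod, Fintype.card_prod,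
    Fintype.card_prod, Fintype.card_bool, Fintype.card_fin, Fintype.card_fin]
  apply le_of_eq
  ring

/-- codes of the nodes -/
private abbrev Cd (d n : ℕ) : Type :=
  Fin 28 × Option (Fin n) × Option (Fin n) × Option (Fin d) × Option (Sym2 (Slot d)) ×
    Option (Slot d) × Bool × Option (Cn d n) × Fin (3 * d * n + 3) × Fin 3 ×
    Option (Slot d → Fin n) × (Fin (2 * d + 1) → Option (Cn d n))

private def dec : Cd d n → Nd d n := fun x =>
  match x with
  | (0, some q, _) => .vZ q
  | (1, some p, some q, _) => .vE p q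
  | (2, some p, some q, some a, _) => .vJ a p q
  | (3, some q, some u, _, some τ, _) => .vF τ q u
  | (4, some q, _, _, _, some σ, _, _, _, _, some u, _) => .vR σ q u
  | (5, some q, _) => .rep q
  | (6, some q, some u, _, some τ, _) => .mi τ q u
  | (7, some q, _, _, _, some σ, _, _, _, _, some u, _) => .mm σ q u
  | (8, some q, _, _, _, some σ, _) => .yy σ q
  | (9, _, _, _, _, _, _, some x, _) => .it x
  | (10, _, _, _, _, _, b, some x, _) => .u1 b x
  | (11, some q, _, _, _, _, _, _, _, _, _, W) => .pt q W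
  | (12, some q, _) => .ev q
  | (13, some q, _, _, _, _, _, _, j, _) => .sx j q
  | (14, some q, _, _, _, _, _, _, j, _) => .s0 j q
  | (15, _, _, _, _, _, _, _, j, _) => .p0 j
  | (16, _, _, _, _, _, _, _, j, _) => .tx j
  | (18, some q, some q', some a, _, _, _, _, _, j, _) => .sp j a q q'
  | (19, some q, some q', some a, _) => .o0 a q q'
  | (20, _) => .pp
  | (21, _, _, _, _, _, _, _, _, j, _) => .tp j
  | (22, _) => .evz
  | (23, _) => .one
  | (24, some q, _) => .pz q
  | (25, _) => .pf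
  | (26, _) => .odd
  | (27, some q, some q', some a, _, _, b, _) => .ps b a q q'
  | _ => .tot

private theorem dec_surj : Function.Surjective (dec (d := d) (n := n)) := by
  intro x
  cases x with
  | vZ q => exact ⟨(0, some q, none, none, none, none, true, none, 0, 0, none, fun _ => none), rfl⟩
  | vE p q => exact ⟨(1, some p, some q, none, none, none, true, none, 0, 0, none, fun _ => none), rfl⟩
  | vJ a p q => exact ⟨(2, some p, some q, some a, none, none, true, none, 0, 0, none, fun _ => none), rfl⟩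
  | vF τ q u => exact ⟨(3, some q, some u, none, some τ, none, true, none, 0, 0, none, fun _ => none), rfl⟩
  | vR σ q u => exact ⟨(4, some q, none, none, none, some σ, true, none, 0, 0, some u, fun _ => none), rfl⟩
  | rep q => exact ⟨(5, some q, none, none, none, none, true, none, 0, 0, none, fun _ => none), rfl⟩
  | mi τ q u => exact ⟨(6, some q, some u, none, some τ, none, true, none, 0, 0, none, fun _ => none), rfl⟩
  | mm σ q u => exact ⟨(7, some q, none, none, none, some σ, true, none, 0, 0, some u, fun _ => none), rfl⟩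
  | yy σ q => exact ⟨(8, some q, none, none, none, some σ, true, none, 0, 0, none, fun _ => none), rfl⟩
  | it x => exact ⟨(9, none, none, none, none, none, true, some x, 0, 0, none, fun _ => none), rfl⟩
  | u1 b x => exact ⟨(10, none, none, none, none, none, b, some x, 0, 0, none, fun _ => none), rfl⟩
  | pt q W => exact ⟨(11, some q, none, none, none, none, true, none, 0, 0, none, W), rfl⟩
  | ev q => exact ⟨(12, some q, none, none, none, none, true, none, 0, 0, none, fun _ => none), rfl⟩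
  | sx j q => exact ⟨(13, some q, none, none, none, none, true, none, j, 0, none, fun _ => none), rfl⟩
  | s0 j q => exact ⟨(14, some q, none, none, none, none, true, none, j, 0, none, fun _ => none), rfl⟩
  | p0 j => exact ⟨(15, none, none, none, none, none, true, none, j, 0, none, fun _ => none), rfl⟩
  | tx j => exact ⟨(16, none, none, none, none, none, true, none, j, 0, none, fun _ => none), rfl⟩
  | tot => exact ⟨(17, none, none, none, none, none, true, none, 0, 0, none, fun _ => none), rfl⟩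
  | sp j a q q' => exact ⟨(18, some q, some q', some a, none, none, true, none, 0, j, none, fun _ => none), rfl⟩
  | o0 a q q' => exact ⟨(19, some q, some q', some a, none, none, true, none, 0, 0, none, fun _ => none), rfl⟩
  | pp => exact ⟨(20, none, none, none, none, none, true, none, 0, 0, none, fun _ => none), rfl⟩
  | tp j => exact ⟨(21, none, none, none, none, none, true, none, 0, j, none, fun _ => none), rfl⟩
  | evz => exact ⟨(22, none, none, none, none, none, true, none, 0, 0, none, fun _ => none), rfl⟩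
  | one => exact ⟨(23, none, none, none, none, none, true, none, 0, 0, none, fun _ => none), rfl⟩
  | pz q => exact ⟨(24, some q, none, none, none, none, true, none, 0, 0, none, fun _ => none), rfl⟩
  | pf => exact ⟨(25, none, none, none, none, none, true, none, 0, 0, none, fun _ => none), rfl⟩
  | odd => exact ⟨(26, none, none, none, none, none, true, none, 0, 0, none, fun _ => none), rfl⟩
  | ps b a q q' => exact ⟨(27, some q, some q', some a, none, none, b, none, 0, 0, none, fun _ => none), rfl⟩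

instance Nd_finite : Finite (Nd d n) :=
  Finite.of_surjective _ (dec_surj (d := d) (n := n))

theorem Nd_card (d : ℕ) : ∃ c : ℕ, ∀ n : ℕ, 2 ≤ n → Nat.card (Nd d n) ≤ n ^ c := by
  have hpow : ∀ k n : ℕ, 2 ≤ n → k ≤ n ^ k := fun k n hn =>
    le_trans (Nat.lt_two_pow_self).le (Nat.pow_le_pow_left hn k)
  set S := Nat.card (Option (Sym2 (Slot d))) with hS
  -- the exponents
  refine ⟨28 + (2 + (2 + ((d + 1) + (S + ((2 * d + 1) + (2 + ((2 * d + 4 + 2) +
    ((3 * d + 3 + 1) + (3 + ((2 * d + 1) + (2 * d + 4 + 2) * (2 * d + 1))))))))))), ?_⟩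
  intro n hn
  have hn0 : 0 < n := by omega
  refine le_trans (Nat.card_le_card_of_surjective _ (dec_surj (d := d) (n := n))) ?_
  have h1 : n + 1 ≤ n ^ 2 := by nlinarith
  have hcn : Nat.card (Option (Cn d n)) ≤ n ^ (2 * d + 4 + 2) := by
    have h2 : Nat.card (Option (Cn d n)) = Nat.card (Cn d n) + 1 := Finite.card_option
    have h3 := cn_card (d := d) (n := n)
    have h4 : 2 * d * n ^ 2 + n + 1 ≤ (2 * d + 4) * n ^ 2 := by nlinarith
    calc Nat.card (Option (Cn d n)) ≤ 2 * d * n ^ 2 + n + 1 := by omega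
      _ ≤ (2 * d + 4) * n ^ 2 := h4
      _ ≤ n ^ (2 * d + 4) * n ^ 2 := Nat.mul_le_mul_right _ (hpow _ n hn)
      _ = n ^ (2 * d + 4 + 2) := by rw [← pow_add]
  have hA : Nat.card (Option (Fin n)) ≤ n ^ 2 := by
    rw [Finite.card_option, Nat.card_eq_fintype_card, Fintype.card_fin]
    exact h1
  have hB : Nat.card (Option (Fin d)) ≤ n ^ (d + 1) := by
    rw [Finite.card_option, Nat.card_eq_fintype_card, Fintype.card_fin]
    exact hpow _ n hn
  have hD : Nat.card (Option (Slot d)) ≤ n ^ (2 * d + 1) := by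
    rw [Finite.card_option, Nat.card_eq_fintype_card, Fintype.card_prod, Fintype.card_fin,
      Fintype.card_bool]
    have := hpow (2 * d + 1) n hn
    omega
  have hJ : Nat.card (Fin (3 * d * n + 3)) ≤ n ^ (3 * d + 3 + 1) := by
    rw [Nat.card_eq_fintype_card, Fintype.card_fin, pow_succ]
    have := hpow (3 * d + 3) n hn
    calc 3 * d * n + 3 ≤ (3 * d + 3) * n := by nlinarith
      _ ≤ _ := Nat.mul_le_mul_right _ this
  have hU : Nat.card (Option (Slot d → Fin n)) ≤ n ^ (2 * d + 1) := by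
    rw [Finite.card_option, Nat.card_eq_fintype_card, Fintype.card_fun, Fintype.card_prod,
      Fintype.card_fin, Fintype.card_bool, Fintype.card_fin, pow_succ, mul_comm d 2]
    have : 1 ≤ n ^ (2 * d) := Nat.one_le_pow _ _ hn0
    nlinarith
  have hW : Nat.card (Fin (2 * d + 1) → Option (Cn d n)) ≤
      n ^ ((2 * d + 4 + 2) * (2 * d + 1)) := by
    rw [Nat.card_fun, Nat.card_eq_fintype_card (α := Fin (2 * d + 1)), Fintype.card_fin, pow_mul]
    exact Nat.pow_le_pow_left hcn _
  have h28 : Nat.card (Fin 28) ≤ n ^ 28 := by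
    rw [Nat.card_eq_fintype_card, Fintype.card_fin]
    exact hpow 28 n hn
  have h3 : Nat.card (Fin 3) ≤ n ^ 3 := by
    rw [Nat.card_eq_fintype_card, Fintype.card_fin]
    exact hpow 3 n hn
  have h2 : Nat.card Bool ≤ n ^ 2 := by
    rw [Nat.card_eq_fintype_card, Fintype.card_bool]
    exact hpow 2 n hn
  have hSS : Nat.card (Option (Sym2 (Slot d))) ≤ n ^ S := hpow S n hn
  simp only [Nat.card_prod]
  rw [pow_add n 28, pow_add n 2, pow_add n 2, pow_add n (d + 1), pow_add n S,
    pow_add n (2 * d + 1), pow_add n 2, pow_add n (2 * d + 4 + 2), pow_add n (3 * d + 3 + 1),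
    pow_add n 3, pow_add n (2 * d + 1)]
  exact Nat.mul_le_mul h28 (Nat.mul_le_mul hA (Nat.mul_le_mul hA (Nat.mul_le_mul hB
    (Nat.mul_le_mul hSS (Nat.mul_le_mul hD (Nat.mul_le_mul h2 (Nat.mul_le_mul hcn
      (Nat.mul_le_mul hJ (Nat.mul_le_mul h3 (Nat.mul_le_mul hU hW))))))))))

/-- The items of the vertex `q`. -/
def XX (q : Fin n) : Set (Lit (Nd d n)) :=
  {x | (∃ a q', x = ⟨.it (.z true a q q'), true⟩) ∨ (∃ a q', x = ⟨.it (.z false a q' q), true⟩) ∨
    x = ⟨.it (.ze q), true⟩}

/-- The two items of a pair. -/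
def P2 (a : Fin d) (q q' : Fin n) : Set (Lit (Nd d n)) :=
  {⟨.it (.z true a q q'), true⟩, ⟨.it (.z false a q q'), true⟩}

/-- The items `z`. -/
def allZ : Set (Lit (Nd d n)) := {x | ∃ b a q q', x = ⟨.it (.z b a q q'), true⟩}

/-- All items. -/
def allI : Set (Lit (Nd d n)) := {x | ∃ c : Cn d n, x = ⟨.it c, true⟩}

/-- The items `ze`. -/
def allE : Set (Lit (Nd d n)) := {x | ∃ q, x = ⟨.it (.ze q), true⟩}

/-- The even numbers. -/
def Ev : Set ℕ := {c | Even c}

/-- The odd numbers. -/
def Od : Set ℕ := {c | ¬ Even c}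

open Classical in
/-- All numbers, if `j` is even; otherwise only `0`. -/
noncomputable def Aj (j : ℕ) : Set ℕ := if Even j then Set.univ else {0}

open Classical in
/-- The labels of the nodes. -/
noncomputable def gt : Nd d n → Gate (Atom (Re d) (Fin n)) (Nd d n)
  | .vZ q => .var (aZ q)
  | .vE p q => .var (aE p q)
  | .vJ a p q => .var (aJ a p q)
  | .vF τ q u => .var (aF τ q u)
  | .vR σ q u => .var (aR σ q u)
  | .rep q => .and {x | ∃ p, p < q ∧ x = ⟨.vE p q, false⟩}
  | .mi τ q u => .and ({⟨.vF τ q u, true⟩} ∪ {x | ∃ u', u' < u ∧ x = ⟨.vF τ q u', false⟩})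
  | .mm σ q u => .and ({⟨.rep q, true⟩, ⟨.vR σ q u, true⟩} ∪
      {x | ∃ t, x = ⟨.mi s(σ, t) q (u t), true⟩})
  | .yy σ q => .and {x | ∃ u, x = ⟨.mm σ q u, false⟩}
  | .it (.z true a q q') =>
      .and {⟨.rep q', true⟩, ⟨.vJ a q q', true⟩, ⟨.yy (a, true) q, false⟩}
  | .it (.z false a q q') =>
      .and {⟨.rep q, true⟩, ⟨.vJ a q q', true⟩, ⟨.yy (a, false) q', false⟩}
  | .it (.ze q) => .and {⟨.rep q, true⟩, ⟨.vZ q, true⟩}
  | .u1 b x => .sym {if b = true then 1 else 0} {⟨.it x, true⟩}
  | .pt q W => .and {y | ∃ x : Cn d n, (⟨.it x, true⟩ : Lit (Nd d n)) ∈ XX q ∧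
      y = ⟨.u1 (decide (∃ i, W i = some x)) x, true⟩}
  | .ev q => .sym Ev (XX q)
  | .sx j q => .sym {j.val} (XX q)
  | .s0 j q => .sym {0} {⟨.sx j q, true⟩}
  | .p0 j => .and {y | ∃ q, y = ⟨.s0 j q, true⟩}
  | .tx j => .sym (Aj j.val) {y | ∃ q, y = ⟨.sx j q, true⟩}
  | .tot => .sym Ev allI
  | .sp j a q q' => .sym {j.val} (P2 a q q')
  | .o0 a q q' => .sym {0} {⟨.sp 1 a q q', true⟩}
  | .pp => .and {y | ∃ a q q', y = ⟨.o0 a q q', true⟩}
  | .tp j => .sym (Aj j.val) {y | ∃ a q q', y = ⟨.sp j a q q', true⟩}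
  | .evz => .sym Ev allZ
  | .one => .sym {1} allE
  | .pz q => .and {y | ∃ q', y = ⟨.u1 (decide (q' = q)) (.ze q'), true⟩}
  | .pf => .and {⟨.evz, true⟩, ⟨.one, true⟩}
  | .odd => .sym Od allI
  | .ps b a q q' => .and {⟨.u1 b (.z true a q q'), true⟩, ⟨.u1 b (.z false a q q'), true⟩}

/-- The levels of the nodes. -/
def rk : Nd d n → ℕ
  | .vZ _ => 0
  | .vE _ _ => 0
  | .vJ _ _ _ => 0
  | .vF _ _ _ => 0
  | .vR _ _ _ => 0
  | .rep _ => 1
  | .mi _ _ _ => 1
  | .mm _ _ _ => 2
  | .yy _ _ => 3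
  | .it _ => 4
  | .u1 _ _ => 5
  | .pt _ _ => 6
  | .ev _ => 5
  | .sx _ _ => 5
  | .s0 _ _ => 6
  | .p0 _ => 7
  | .tx _ => 6
  | .tot => 5
  | .sp _ _ _ _ => 5
  | .o0 _ _ _ => 6
  | .pp => 7
  | .tp _ => 6
  | .evz => 5
  | .one => 5
  | .pz _ => 6
  | .pf => 6
  | .odd => 5
  | .ps _ _ _ _ => 6

theorem rk_lt (a : Nd d n) : ∀ x ∈ (gt a).children, rk x.node < rk a := by
  intro x hx
  rcases a with q | ⟨p, q⟩ | ⟨a, p, q⟩ | ⟨τ, q, u⟩ | ⟨σ, q, u⟩ | q | ⟨τ, q, u⟩ | ⟨σ, q, u⟩ |
    ⟨σ, q⟩ | c | ⟨b, c⟩ | ⟨q, W⟩ | q | ⟨j, q⟩ | ⟨j, q⟩ | j | j | _ | ⟨j, a, q, q'⟩ |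
    ⟨a, q, q'⟩ | _ | j | _ | _ | q | _ | _ | ⟨b, a, q, q'⟩
  case it =>
    rcases c with ⟨b, a, q, q'⟩ | q
    · cases b
      · simp only [gt, Gate.children, Set.mem_insert_iff, Set.mem_singleton_iff] at hx
        rcases hx with rfl | rfl | rfl <;> simp [rk]
      · simp only [gt, Gate.children, Set.mem_insert_iff, Set.mem_singleton_iff] at hx
        rcases hx with rfl | rfl | rfl <;> simp [rk]
    · simp only [gt, Gate.children, Set.mem_insert_iff, Set.mem_singleton_iff] at hx
      rcases hx with rfl | rfl <;> simp [rk]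
  all_goals
    simp only [gt, Gate.children, Set.mem_insert_iff, Set.mem_singleton_iff, Set.mem_union,
      Set.mem_setOf_eq, Set.mem_empty_iff_false, XX, P2, allZ, allI, allE] at hx
  case rep => obtain ⟨p, _, rfl⟩ := hx; simp [rk]
  case mi => rcases hx with rfl | ⟨p, _, rfl⟩ <;> simp [rk]
  case mm => rcases hx with (rfl | rfl) | ⟨t, rfl⟩ <;> simp [rk]
  case yy => obtain ⟨u, rfl⟩ := hx; simp [rk]
  case u1 => subst hx; simp [rk]
  case pt => obtain ⟨c, _, rfl⟩ := hx; simp [rk]
  case ev => rcases hx with ⟨a, q', rfl⟩ | ⟨a, q', rfl⟩ | rfl <;> simp [rk]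
  case sx => rcases hx with ⟨a, q', rfl⟩ | ⟨a, q', rfl⟩ | rfl <;> simp [rk]
  case s0 => subst hx; simp [rk]
  case p0 => obtain ⟨q, rfl⟩ := hx; simp [rk]
  case tx => obtain ⟨q, rfl⟩ := hx; simp [rk]
  case tot => obtain ⟨c, rfl⟩ := hx; simp [rk]
  case sp => rcases hx with rfl | rfl <;> simp [rk]
  case o0 => subst hx; simp [rk]
  case pp => obtain ⟨a, q, q', rfl⟩ := hx; simp [rk]
  case tp => obtain ⟨a, q, q', rfl⟩ := hx; simp [rk]
  case evz => obtain ⟨b, a, q, q', rfl⟩ := hx; simp [rk]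
  case one => obtain ⟨q, rfl⟩ := hx; simp [rk]
  case pz => obtain ⟨q, rfl⟩ := hx; simp [rk]
  case pf => rcases hx with rfl | rfl <;> simp [rk]
  case odd => obtain ⟨c, rfl⟩ := hx; simp [rk]
  case ps => rcases hx with rfl | rfl <;> simp [rk]

/-- The circuit. -/
noncomputable abbrev CC (d n : ℕ) : Circuit (Re d) (Fin n) where
  N := Nd d n
  gate := gt
  rank := rk
  rank_lt := rk_lt

theorem rk_le (a : Nd d n) : rk a ≤ 7 := by
  cases a <;> simp [rk]

/-- Refutation of assumptions in the circuit. -/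
abbrev PP (l : ℕ) (Γ : Set (Lit (Nd d n))) : Prop := Pn (T d) (CC d n) l Γ

/-- Derivation from assumptions in the circuit. -/
abbrev DD (l : ℕ) (Γ : Set (Lit (Nd d n))) (x : Lit (Nd d n)) : Prop :=
  Dn (T d) (CC d n) l Γ x

/-- `u` is derived to be the least label of `τ` at `q`. -/
def Lst (l : ℕ) (Γ : Set (Lit (Nd d n))) (τ : Sym2 (Slot d)) (q u : Fin n) : Prop :=
  DD l Γ ⟨.vF τ q u, true⟩ ∧ ∀ u', u' < u → DD l Γ ⟨.vF τ q u', false⟩

end

end Pool.Agent.H42.CS
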