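import Pool.Agent.H42.CS.Val

/-!
# Counting true members of invariant sets

`cnt S U f` is the number of the `x ∈ S` which are true at `ext U (U ⊔ Vn x.node) f`.

PROOF of `cnt_eq`: `gkl` with `ac h x = Lit.map (act h) x`, `Sp x = Vn x.node`, `Φ = tr`
(`tr_loc`, `tr_equi`), `W1 x = ext U (U ⊔ Vn x.node) f`, `W2 x = ext U' (U' ⊔ Vn x.node) f'`; they are
worlds on `U ⊔ Vn x.node ≥ Vs pr H ⊔ Vn x.node`, and agree with `f`, `f'` on `U`, `U'`, so with each other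
on `Vs pr H`.

`cnt_neg` (the same for the false members; used for the conjunctions): the same with `Φ = ¬ tr`.

`tr_ext`: if `Vn x.node ≤ U`, then `U ⊔ Vn x.node = U` and `ext U U f` agrees with `f` on `U`; `tr_loc`.

`val_sym_iff`: `val_sym` and `cnt_eq` with `H = stN a` (`Vs pr (stN a) = Vn a ≤ U`; `S` is invariant by
`stN_le_sym`). `val_and_iff`: `val_and` and `cnt_neg` (finite sets).

`line_iff`: a line `Λ` with `Vl Λ ≤ U`, `f'` a world on `U` that agrees on `Vl Λ` with the world `f` on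
`Vl Λ`: `cnt_eq` with `H = stS Λ`; `cnt = 0` iff no member is true.

`two` (two-level counting): apply `gkl` to pairs `(b, x)`: `X = β × Lit N`, `ac' h (b, x) =
(ac h b, Lit.map (act h) x)`, the set `{(b, x) | b ∈ B, x ∈ S b}`, `Sp (b, x) = Vn x.node`,
`Φ (b, x) f = tr x f`, `W1 (b, x) = ext (U ⊔ Sp' b) (U ⊔ Sp' b ⊔ Vn x.node) (ext U (U ⊔ Sp' b) f)`,
`W2 (b, x) = ext U (U ⊔ Vn x.node) f`. The number of the pairs with `Φ (W1)` is
`∑ᶠ b ∈ B, cnt (S b) (U ⊔ Sp' b) (ext U (U ⊔ Sp' b) f)`; the number with `Φ (W2)` is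
`cnt (⋃ b ∈ B, S b) U f` because the sets `S b` are pairwise disjoint.
-/

set_option autoImplicit false

namespace Pool.Agent.H42.CS

namespace Eng

variable {Rel : ℕ → Type} {P K G : Type} [Fintype K] [Group G] (E : Eng Rel P K G)

private theorem lit_fin (N : Type) [Finite N] : Finite (Lit N) :=
  Finite.of_injective (fun x : Lit N => (x.node, x.pos)) fun x y h => by
    have h1 := congrArg Prod.fst h
    have h2 := congrArg Prod.snd h
    exact Lit.ext h1 h2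

private theorem map_one' (x : Lit E.C.N) : Lit.map (E.act 1) x = x := by
  simp [Lit.map]

private theorem map_mul' (g h : G) (x : Lit E.C.N) :
    Lit.map (E.act (g * h)) x = Lit.map (E.act g) (Lit.map (E.act h) x) := by
  simp [Lit.map]

private theorem vn_map (g : G) (x : Lit E.C.N) : E.Vn (Lit.map (E.act g) x).node = E.Vn x.node :=
  E.Vn_act g x.node

omit [Fintype K] in
private theorem agr_le {g : Gad K} {U U' : Submodule (ZMod 2) (K → ZMod 2)} (hle : U ≤ U') {f f' : Wd K}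
    (h : g.Agr U' f f') : g.Agr U f f' := fun y hy hD => h y (hle hy) hD

private theorem gen (H : Subgroup G) (S : Set (Lit E.C.N)) (hS : H ≤ stS E.act S)
    {U U' : Submodule (ZMod 2) (K → ZMod 2)} {f f' : Wd K} (hU : Vs E.pr H ≤ U)
    (hU' : Vs E.pr H ≤ U') (ht : ∀ x ∈ S, E.toGad.Tame (U ⊔ E.Vn x.node))
    (ht' : ∀ x ∈ S, E.toGad.Tame (U' ⊔ E.Vn x.node)) (hf : E.toGad.IsW U f)
    (hf' : E.toGad.IsW U' f') (ha : E.toGad.Agr (Vs E.pr H) f f') (Φ : Lit E.C.N → Wd K → Prop)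
    (hloc : ∀ (x : Lit E.C.N) (f f' : Wd K), E.toGad.IsW (E.Vn x.node) f →
      E.toGad.Agr (E.Vn x.node) f f' → (Φ x f ↔ Φ x f'))
    (hequi : ∀ (g : G) (x : Lit E.C.N) (f : Wd K), E.toGad.IsW (E.Vn x.node) f →
      (Φ (Lit.map (E.act g) x) (sh (E.pr g) f) ↔ Φ x f)) :
    {x | x ∈ S ∧ Φ x (E.toGad.ext U (U ⊔ E.Vn x.node) f)}.ncard =
      {x | x ∈ S ∧ Φ x (E.toGad.ext U' (U' ⊔ E.Vn x.node) f')}.ncard := by
  refine E.gkl H (fun h x => Lit.map (E.act h) x) (E.map_one') (E.map_mul') S ?_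
    (fun x => E.Vn x.node) (fun g _ x _ => E.vn_map g x) Φ (fun x _ f f' => hloc x f f')
    (fun g _ x _ f => hequi g x f) (fun x => E.toGad.ext U (U ⊔ E.Vn x.node) f)
    (fun x => E.toGad.ext U' (U' ⊔ E.Vn x.node) f') ?_ ?_ ?_ ?_ ?_
  · intro g hg x hx
    have h1 : Lit.map (E.act g) '' S = S := hS hg
    rw [← h1]
    exact Set.mem_image_of_mem _ hx
  · intro g _ x _
    show E.toGad.ext U (U ⊔ E.Vn (Lit.map (E.act g) x).node) f = _
    rw [E.vn_map g x]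
  · intro g _ x _
    show E.toGad.ext U' (U' ⊔ E.Vn (Lit.map (E.act g) x).node) f' = _
    rw [E.vn_map g x]
  · intro x hx
    exact E.toGad.isW_mono (sup_le_sup_right hU _) (E.toGad.ext_isW le_sup_left (ht x hx) hf)
  · intro x hx
    exact E.toGad.isW_mono (sup_le_sup_right hU' _) (E.toGad.ext_isW le_sup_left (ht' x hx) hf')
  · intro x hx y hy hD
    have h1 := E.toGad.ext_agr le_sup_left (ht x hx) hf y (hU hy) hD
    have h2 := E.toGad.ext_agr le_sup_left (ht' x hx) hf' y (hU' hy) hD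
    show E.toGad.ext U (U ⊔ E.Vn x.node) f y = E.toGad.ext U' (U' ⊔ E.Vn x.node) f' y
    rw [← h1, ← h2]
    exact ha y hy hD

theorem cnt_eq (H : Subgroup G) (S : Set (Lit E.C.N)) (hS : H ≤ stS E.act S)
    {U U' : Submodule (ZMod 2) (K → ZMod 2)} {f f' : Wd K} (hU : Vs E.pr H ≤ U)
    (hU' : Vs E.pr H ≤ U') (ht : ∀ x ∈ S, E.toGad.Tame (U ⊔ E.Vn x.node))
    (ht' : ∀ x ∈ S, E.toGad.Tame (U' ⊔ E.Vn x.node)) (hf : E.toGad.IsW U f)
    (hf' : E.toGad.IsW U' f') (ha : E.toGad.Agr (Vs E.pr H) f f') :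
    E.cnt S U f = E.cnt S U' f' :=
  E.gen H S hS hU hU' ht ht' hf hf' ha E.tr (fun x f f' h1 h2 => E.tr_loc h1 h2)
    (fun g x f h1 => E.tr_equi g h1)

theorem cnt_neg (H : Subgroup G) (S : Set (Lit E.C.N)) (hS : H ≤ stS E.act S)
    {U U' : Submodule (ZMod 2) (K → ZMod 2)} {f f' : Wd K} (hU : Vs E.pr H ≤ U)
    (hU' : Vs E.pr H ≤ U') (ht : ∀ x ∈ S, E.toGad.Tame (U ⊔ E.Vn x.node))
    (ht' : ∀ x ∈ S, E.toGad.Tame (U' ⊔ E.Vn x.node)) (hf : E.toGad.IsW U f)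
    (hf' : E.toGad.IsW U' f') (ha : E.toGad.Agr (Vs E.pr H) f f') :
    (∀ x ∈ S, E.tr x (E.toGad.ext U (U ⊔ E.Vn x.node) f)) ↔
      ∀ x ∈ S, E.tr x (E.toGad.ext U' (U' ⊔ E.Vn x.node) f') := by
  have hfin := lit_fin E.C.N
  have h1 := E.gen H S hS hU hU' ht ht' hf hf' ha (fun x f => ¬ E.tr x f)
    (fun x f f' h1 h2 => not_congr (E.tr_loc h1 h2)) (fun g x f h1 => not_congr (E.tr_equi g h1))
  have h2 : ∀ (V : Lit E.C.N → Wd K), (∀ x ∈ S, E.tr x (V x)) ↔ {x | x ∈ S ∧ ¬ E.tr x (V x)}.ncard = 0 := by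
    intro V
    rw [Set.ncard_eq_zero (Set.toFinite _), Set.eq_empty_iff_forall_notMem]
    constructor
    · rintro h x ⟨hx, h3⟩
      exact h3 (h x hx)
    · intro h x hx
      by_contra h3
      exact h x ⟨hx, h3⟩
  rw [h2, h2, h1]

theorem tr_ext {x : Lit E.C.N} {U : Submodule (ZMod 2) (K → ZMod 2)} {f : Wd K}
    (hx : E.Vn x.node ≤ U) (ht : E.toGad.Tame U) (hf : E.toGad.IsW U f) :
    E.tr x (E.toGad.ext U (U ⊔ E.Vn x.node) f) ↔ E.tr x f := by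
  have h1 : U ⊔ E.Vn x.node = U := sup_eq_left.2 hx
  have h2 := E.toGad.ext_agr (U := U) (U' := U ⊔ E.Vn x.node) le_sup_left (by rw [h1]; exact ht) hf
  exact (E.tr_loc (E.toGad.isW_mono hx hf) (agr_le hx h2)).symm

private theorem tame_nn (a b : E.C.N) : E.toGad.Tame (E.Vn a ⊔ E.Vn b) :=
  E.Sm_tame (E.Sm_mono (by norm_num) le_rfl (E.Sm_sup (E.Sm_Vn a) (E.Sm_Vn b)))

private theorem tame_un {U : Submodule (ZMod 2) (K → ZMod 2)} (hS : E.Sm 5 U) (b : E.C.N) :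
    E.toGad.Tame (U ⊔ E.Vn b) :=
  E.Sm_tame (E.Sm_sup hS (E.Sm_Vn b))

private theorem tame_ln {U : Submodule (ZMod 2) (K → ZMod 2)} (hU : U ∈ E.fam) (b : E.C.N) :
    E.toGad.Tame (U ⊔ E.Vn b) :=
  E.Sm_tame (E.Sm_mono (by norm_num) le_rfl (E.Sm_sup (E.Sm_mem hU) (E.Sm_Vn b)))

theorem val_sym_iff {a : E.C.N} {A : Set ℕ} {S : Set (Lit E.C.N)} (h : E.C.gate a = .sym A S)
    {U : Submodule (ZMod 2) (K → ZMod 2)} {f : Wd K} (hU : E.Vn a ≤ U) (hS : E.Sm 5 U)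
    (hf : E.toGad.IsW U f) : E.val a f ↔ E.cnt S U f ∈ A := by
  rw [E.val_sym h, E.cnt_eq (stN E.act a) S (E.stN_le_sym h) (U := E.Vn a) (U' := U) (f := f) (f' := f)
    (le_refl (E.Vn a)) hU (fun x _ => E.tame_nn a x.node) (fun x _ => E.tame_un hS x.node)
    (E.toGad.isW_mono hU hf) hf (fun _ _ _ => rfl)]

theorem val_and_iff {a : E.C.N} {S : Set (Lit E.C.N)} (h : E.C.gate a = .and S)
    {U : Submodule (ZMod 2) (K → ZMod 2)} {f : Wd K} (hU : E.Vn a ≤ U) (hS : E.Sm 5 U)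
    (hf : E.toGad.IsW U f) :
    E.val a f ↔ ∀ x ∈ S, E.tr x (E.toGad.ext U (U ⊔ E.Vn x.node) f) := by
  rw [E.val_and h]
  exact E.cnt_neg (stN E.act a) S (E.stN_le_and h) (U := E.Vn a) (U' := U) (f := f) (f' := f)
    (le_refl (E.Vn a)) hU (fun x _ => E.tame_nn a x.node) (fun x _ => E.tame_un hS x.node)
    (E.toGad.isW_mono hU hf) hf (fun _ _ _ => rfl)

/-- The truth of a line at a world on a larger space `U`. -/
theorem line_iff {Λ : Set (Lit E.C.N)} (hΛ : E.Vl Λ ∈ E.fam)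
    {U : Submodule (ZMod 2) (K → ZMod 2)} {f f' : Wd K} (hU : E.Vl Λ ≤ U) (hS : E.Sm 5 U)
    (hf : E.toGad.IsW (E.Vl Λ) f) (hf' : E.toGad.IsW U f') (ha : E.toGad.Agr (E.Vl Λ) f f') :
    (∃ x ∈ Λ, E.tr x (E.toGad.ext (E.Vl Λ) (E.Vl Λ ⊔ E.Vn x.node) f)) ↔
      ∃ x ∈ Λ, E.tr x (E.toGad.ext U (U ⊔ E.Vn x.node) f') := by
  have hfin := lit_fin E.C.N
  have h1 := E.cnt_eq (stS E.act Λ) Λ le_rfl (U := E.Vl Λ) (U' := U) (f := f) (f' := f')
    (le_refl (E.Vl Λ)) hU (fun x _ => E.tame_ln hΛ x.node) (fun x _ => E.tame_un hS x.node) hf hf' ha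
  have h2 : ∀ (U : Submodule (ZMod 2) (K → ZMod 2)) (f : Wd K),
      (∃ x ∈ Λ, E.tr x (E.toGad.ext U (U ⊔ E.Vn x.node) f)) ↔ E.cnt Λ U f ≠ 0 := by
    intro U f
    unfold cnt
    rw [Ne, Set.ncard_eq_zero (Set.toFinite _), ← Ne, ← Set.nonempty_iff_ne_empty]
    rfl
  rw [h2, h2, h1]

/-- A true line is true at every world on a larger space. -/
theorem Tru_at {Λ : Set (Lit E.C.N)} (hT : E.Tru Λ) (hΛ : E.Vl Λ ∈ E.fam)
    {U : Submodule (ZMod 2) (K → ZMod 2)} {f : Wd K} (hU : E.Vl Λ ≤ U) (hS : E.Sm 5 U)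
    (hf : E.toGad.IsW U f) : ∃ x ∈ Λ, E.tr x (E.toGad.ext U (U ⊔ E.Vn x.node) f) :=
  (E.line_iff hΛ hU hS (E.toGad.isW_mono hU hf) hf (fun _ _ _ => rfl)).1
    (hT f (E.toGad.isW_mono hU hf))

/-- To prove a line true it suffices to find for every world `f` on `Vl Λ` a larger space, an
extension of `f` and a member that is true there. -/
theorem Tru_of {Λ : Set (Lit E.C.N)} (hΛ : E.Vl Λ ∈ E.fam)
    (h : ∀ f, E.toGad.IsW (E.Vl Λ) f → ∃ (U : Submodule (ZMod 2) (K → ZMod 2)) (f' : Wd K),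
      E.Vl Λ ≤ U ∧ E.Sm 5 U ∧ E.toGad.IsW U f' ∧ E.toGad.Agr (E.Vl Λ) f f' ∧
        ∃ x ∈ Λ, E.tr x (E.toGad.ext U (U ⊔ E.Vn x.node) f')) : E.Tru Λ := by
  intro f hf
  obtain ⟨U, f', h1, h2, h3, h4, h5⟩ := h f hf
  exact (E.line_iff hΛ h1 h2 hf h3 h4).2 h5

private theorem card_pairs {β X : Type} [Finite X] (B : Set β) (hB : B.Finite) (T : β → Set X) :
    {p : β × X | p.1 ∈ B ∧ p.2 ∈ T p.1}.ncard = ∑ᶠ b ∈ B, (T b).ncard := by
  induction B, hB using Set.Finite.induction_on with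
  | empty =>
    rw [finsum_mem_empty]
    have e : {p : β × X | p.1 ∈ (∅ : Set β) ∧ p.2 ∈ T p.1} = ∅ := by
      ext p
      simp
    rw [e, Set.ncard_empty]
  | @insert a B ha hB ih =>
    rw [finsum_mem_insert _ ha hB, ← ih]
    have e : {p : β × X | p.1 ∈ insert a B ∧ p.2 ∈ T p.1} =
        (Prod.mk a '' T a) ∪ {p : β × X | p.1 ∈ B ∧ p.2 ∈ T p.1} := by
      ext p
      simp only [Set.mem_setOf_eq, Set.mem_insert_iff, Set.mem_union, Set.mem_image]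
      constructor
      · rintro ⟨h1 | h1, h2⟩
        · left
          exact ⟨p.2, by rw [← h1]; exact h2, by rw [← h1]⟩
        · exact Or.inr ⟨h1, h2⟩
      · rintro (⟨x, hx, rfl⟩ | ⟨h1, h2⟩)
        · exact ⟨Or.inl rfl, hx⟩
        · exact ⟨Or.inr h1, h2⟩
    have hfin : {p : β × X | p.1 ∈ B ∧ p.2 ∈ T p.1}.Finite := by
      refine (hB.prod (Set.finite_univ (α := X))).subset ?_
      rintro p ⟨h1, _⟩
      exact ⟨h1, Set.mem_univ _⟩
    have hdis : Disjoint (Prod.mk a '' T a) {p : β × X | p.1 ∈ B ∧ p.2 ∈ T p.1} := by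
      rw [Set.disjoint_left]
      rintro _ ⟨x, _, rfl⟩ ⟨h2, _⟩
      exact ha h2
    rw [e, Set.ncard_union_eq hdis ((Set.toFinite _).image _) hfin,
      Set.ncard_image_of_injective _ (Prod.mk_right_injective a)]

theorem two {β : Type} (H : Subgroup G) (ac : G → β → β) (h1 : ∀ b, ac 1 b = b)
    (hm : ∀ g h b, ac (g * h) b = ac g (ac h b)) (B : Set β) (hBf : B.Finite)
    (hB : ∀ g ∈ H, ∀ b ∈ B, ac g b ∈ B) (Sp : β → Submodule (ZMod 2) (K → ZMod 2))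
    (hSp : ∀ g ∈ H, ∀ b ∈ B, Sp (ac g b) = Sp b) (S : β → Set (Lit E.C.N))
    (hS : ∀ g ∈ H, ∀ b ∈ B, S (ac g b) = Lit.map (E.act g) '' S b)
    (hdis : B.PairwiseDisjoint S) {U : Submodule (ZMod 2) (K → ZMod 2)} {f : Wd K}
    (hU : Vs E.pr H ≤ U) (hf : E.toGad.IsW U f) (ht0 : ∀ b ∈ B, E.toGad.Tame (U ⊔ Sp b))
    (ht : ∀ b ∈ B, ∀ x ∈ S b, E.toGad.Tame (U ⊔ Sp b ⊔ E.Vn x.node)) :
    ∑ᶠ b ∈ B, E.cnt (S b) (U ⊔ Sp b) (E.toGad.ext U (U ⊔ Sp b) f) =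
      E.cnt (⋃ b ∈ B, S b) U f := by
  have hfin := lit_fin E.C.N
  obtain ⟨W1, hW1⟩ : ∃ W1 : β × Lit E.C.N → Wd K, W1 = fun p =>
      E.toGad.ext (U ⊔ Sp p.1) (U ⊔ Sp p.1 ⊔ E.Vn p.2.node) (E.toGad.ext U (U ⊔ Sp p.1) f) := ⟨_, rfl⟩
  obtain ⟨W2, hW2⟩ : ∃ W2 : β × Lit E.C.N → Wd K, W2 = fun p =>
      E.toGad.ext U (U ⊔ E.Vn p.2.node) f := ⟨_, rfl⟩
  have htt : ∀ b ∈ B, ∀ x ∈ S b, E.toGad.Tame (U ⊔ E.Vn x.node) := fun b hb x hx =>
    E.toGad.tame_mono (sup_le_sup_right le_sup_left _) (ht b hb x hx)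
  have key := E.gkl H (fun h (p : β × Lit E.C.N) => (ac h p.1, Lit.map (E.act h) p.2))
    (fun p => by
      show (ac 1 p.1, Lit.map (E.act 1) p.2) = p
      rw [h1, E.map_one'])
    (fun g h p => by
      show (ac (g * h) p.1, Lit.map (E.act (g * h)) p.2) = _
      rw [hm, E.map_mul'])
    {p : β × Lit E.C.N | p.1 ∈ B ∧ p.2 ∈ S p.1}
    (fun g hg p hp => by
      refine ⟨hB g hg p.1 hp.1, ?_⟩
      show Lit.map (E.act g) p.2 ∈ S (ac g p.1)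
      rw [hS g hg p.1 hp.1]
      exact Set.mem_image_of_mem _ hp.2)
    (fun p => E.Vn p.2.node) (fun g _ p _ => E.vn_map g p.2) (fun p f => E.tr p.2 f)
    (fun p _ f f' h3 h4 => E.tr_loc h3 h4) (fun g _ p _ f h3 => E.tr_equi g h3) W1 W2
    (fun g hg p hp => by
      rw [hW1]
      show E.toGad.ext (U ⊔ Sp (ac g p.1)) (U ⊔ Sp (ac g p.1) ⊔ E.Vn (Lit.map (E.act g) p.2).node)
        (E.toGad.ext U (U ⊔ Sp (ac g p.1)) f) = _
      rw [hSp g hg p.1 hp.1, E.vn_map])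
    (fun g hg p hp => by
      rw [hW2]
      show E.toGad.ext U (U ⊔ E.Vn (Lit.map (E.act g) p.2).node) f = _
      rw [E.vn_map])
    (fun p hp => by
      rw [hW1]
      exact E.toGad.isW_mono (sup_le_sup_right (hU.trans le_sup_left) _)
        (E.toGad.ext_isW le_sup_left (ht p.1 hp.1 p.2 hp.2)
          (E.toGad.ext_isW le_sup_left (ht0 p.1 hp.1) hf)))
    (fun p hp => by
      rw [hW2]
      exact E.toGad.isW_mono (sup_le_sup_right hU _)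
        (E.toGad.ext_isW le_sup_left (htt p.1 hp.1 p.2 hp.2) hf))
    (fun p hp y hy hD => by
      have k1 := E.toGad.ext_agr le_sup_left (ht0 p.1 hp.1) hf y (hU hy) hD
      have k2 := E.toGad.ext_agr le_sup_left (ht p.1 hp.1 p.2 hp.2)
        (E.toGad.ext_isW le_sup_left (ht0 p.1 hp.1) hf) y (Submodule.mem_sup_left (hU hy)) hD
      have k3 := E.toGad.ext_agr le_sup_left (htt p.1 hp.1 p.2 hp.2) hf y (hU hy) hD
      rw [hW1, hW2]
      show E.toGad.ext (U ⊔ Sp p.1) (U ⊔ Sp p.1 ⊔ E.Vn p.2.node) (E.toGad.ext U (U ⊔ Sp p.1) f) y =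
        E.toGad.ext U (U ⊔ E.Vn p.2.node) f y
      rw [← k2, ← k1, ← k3])
  have hL : ∑ᶠ b ∈ B, E.cnt (S b) (U ⊔ Sp b) (E.toGad.ext U (U ⊔ Sp b) f) =
      {p : β × Lit E.C.N | p ∈ {p : β × Lit E.C.N | p.1 ∈ B ∧ p.2 ∈ S p.1} ∧ E.tr p.2 (W1 p)}.ncard := by
    rw [hW1]
    unfold cnt
    rw [← card_pairs B hBf]
    congr 1
    ext p
    simp only [Set.mem_setOf_eq, and_assoc]
  have hR : E.cnt (⋃ b ∈ B, S b) U f =
      {p : β × Lit E.C.N | p ∈ {p : β × Lit E.C.N | p.1 ∈ B ∧ p.2 ∈ S p.1} ∧ E.tr p.2 (W2 p)}.ncard := by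
    have hinj : Set.InjOn Prod.snd
        {p : β × Lit E.C.N | p ∈ {p : β × Lit E.C.N | p.1 ∈ B ∧ p.2 ∈ S p.1} ∧ E.tr p.2 (W2 p)} := by
      rintro ⟨b, x⟩ ⟨⟨hb, hx⟩, _⟩ ⟨b', x'⟩ ⟨⟨hb', hx'⟩, _⟩ hxx
      have hxx' : x = x' := hxx
      subst hxx'
      have hbb : b = b' := by
        by_contra hne
        have := Set.disjoint_left.1 (hdis hb hb' hne) hx
        exact this hx'
      rw [hbb]
    rw [← Set.ncard_image_of_injOn hinj]
    unfold cnt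
    congr 1
    ext x
    simp only [Set.mem_setOf_eq, Set.mem_iUnion, Set.mem_image]
    constructor
    · rintro ⟨⟨b, hb, hx⟩, h3⟩
      exact ⟨(b, x), ⟨⟨hb, hx⟩, by rw [hW2]; exact h3⟩, rfl⟩
    · rintro ⟨⟨b, x'⟩, ⟨⟨hb, hx⟩, h3⟩, rfl⟩
      rw [hW2] at h3
      exact ⟨⟨b, hb, hx⟩, h3⟩
  rw [hL, hR]
  exact key

end Eng

end Pool.Agent.H42.CS
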