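import Mathlib

/-!
# Refutations with symmetric gates and their symmetries

Propositional formulas are given by the nodes of a finite circuit (subformulas are shared) with
conjunctions and symmetric gates of unbounded fan-in; negation is a sign. A symmetric gate `sym A S`
says that the number of true members of `S` is an element of `A`; `A` is any set of natural numbers
(threshold gates, exact counting gates, counting gates modulo any number). The propositional
variables are the atomic statements `R (a 1, …, a k)` about the points of a universe `P`. The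
hypotheses are the instances over `P` of finitely many first-order axioms. A group of permutations
of `P` may act on the circuit and on the lines of a refutation.
-/

set_option autoImplicit false

namespace Pool.Agent.H42.CS

/-! ### First-order axioms -/

/-- One of the axioms, a first-order sentence `∀ x, (⋁ literals in x) ∨ ∃ y, (⋁ atoms in x, y)`,
`x` a tuple of `k` variables; `Rel r` is the set of the relation symbols with `r` arguments. -/
structure Ax (Rel : ℕ → Type) where
  /-- the number of the variables `x` -/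
  k : ℕ
  /-- the literals: atoms in `x` with their signs -/
  lits : Set ((Σ r : ℕ, Rel r × (Fin r → Fin k)) × Bool)
  /-- the atoms after the existential quantifier; the last variable is `y` -/
  ex : Set (Σ r : ℕ, Rel r × (Fin r → Fin (k + 1)))

/-- Propositional variables: the atomic statements `R (a 1, …, a k)` about points of `P`. -/
abbrev Atom (Rel : ℕ → Type) (P : Type) : Type := Σ r : ℕ, Rel r × (Fin r → P)

/-- The instance of `A` at the points `v`: a set of signed propositional variables, read as a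
disjunction. -/
def Ax.inst {Rel : ℕ → Type} {P : Type} (A : Ax Rel) (v : Fin A.k → P) : Set (Atom Rel P × Bool) :=
  {x | ∃ l ∈ A.lits, x = (⟨l.1.1, l.1.2.1, fun i => v (l.1.2.2 i)⟩, l.2)} ∪
    {x | ∃ l ∈ A.ex, ∃ y : P,
      x = (⟨l.1, l.2.1, fun i => (Fin.snoc v y : Fin (A.k + 1) → P) (l.2.2 i)⟩, true)}

/-! ### Circuits -/

/-- A signed node: the node itself (`pos = true`) or its negation (`pos = false`). -/
@[ext] structure Lit (N : Type) where
  /-- the node -/
  node : N
  /-- the sign -/
  pos : Bool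

/-- The negation of a signed node. -/
def Lit.neg {N : Type} (x : Lit N) : Lit N := ⟨x.node, !x.pos⟩

/-- Renaming of the node. -/
def Lit.map {N N' : Type} (g : N → N') (x : Lit N) : Lit N' := ⟨g x.node, x.pos⟩

/-- The label of a node: a variable, a conjunction of a set of signed nodes, or a symmetric gate
`sym A S`: the number of true members of `S` is an element of `A`. -/
inductive Gate (V N : Type) : Type
  | var (v : V)
  | and (S : Set (Lit N))
  | sym (A : Set ℕ) (S : Set (Lit N))

/-- The signed nodes that enter a gate. -/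
def Gate.children {V N : Type} : Gate V N → Set (Lit N)
  | .var _ => ∅
  | .and S => S
  | .sym _ S => S

/-- Renaming of the points and of the nodes in a label. -/
def Gate.map {Rel : ℕ → Type} {P N N' : Type} (f : P → P) (g : N → N') :
    Gate (Atom Rel P) N → Gate (Atom Rel P) N'
  | .var v => .var ⟨v.1, v.2.1, fun i => f (v.2.2 i)⟩
  | .and S => .and (Lit.map g '' S)
  | .sym A S => .sym A (Lit.map g '' S)

/-- A finite acyclic circuit over the universe `P`. -/
structure Circuit (Rel : ℕ → Type) (P : Type) where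
  /-- the nodes -/
  N : Type
  [fin : Finite N]
  /-- the label of a node -/
  gate : N → Gate (Atom Rel P) N
  /-- the level of a node -/
  rank : N → ℕ
  rank_lt : ∀ a, ∀ x ∈ (gate a).children, rank x.node < rank a

attribute [instance] Circuit.fin

/-! ### Refutations -/

/-- The rules. A line is a set `Λ` of signed nodes, read as the disjunction of its members; it
follows in one step from the lines in `Pr`. The hypotheses are the instances over `P` of the axioms
in `T` (`hyp`). The rules for the symmetric gates: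
* `cover`: for every number `c ≤ |S|` the line has a member `sym A S`, `c ∈ A`, or `¬ sym A S`,
  `c ∉ A`;
* `unit`: `¬ x, sym A {x}` if `1 ∈ A`, and `x, sym A {x}` if `0 ∈ A`;
* `sum`: from all `sym (A b) (S b)`, `b ∈ B`, the sets `S b` disjoint: `sym A' (⋃ S b)`, if every
  choice of `c b ∈ A b` has its sum in `A'`;
* `dist` (distribution): `F` is a family of disjoint sets of size at most `J`, `B j X` is the node
  `sym {j} X`, and `u j` says that the number of `X ∈ F` with exactly `j` true members is in `A j`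
  (`j ≤ J`); from all `u j`: `sym A' (⋃ F)`, if `∑ j * t j ∈ A'` for all `t j ∈ A j` with
  `∑ t j = |F|`. -/
inductive Step {Rel : ℕ → Type} {P : Type} (T : Set (Ax Rel)) (C : Circuit Rel P)
    (Pr : Set (Set (Lit C.N))) : Set (Lit C.N) → Prop
  | hyp {Λ : Set (Lit C.N)} {A : Ax Rel} {v : Fin A.k → P} : A ∈ T →
      (∀ x ∈ A.inst v, ∃ a, C.gate a = .var x.1 ∧ ⟨a, x.2⟩ ∈ Λ) → Step T C Pr Λ
  | ident {Λ : Set (Lit C.N)} {a b : C.N} : C.gate a = C.gate b → ⟨a, true⟩ ∈ Λ →
      ⟨b, false⟩ ∈ Λ → Step T C Pr Λ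
  | weak {Λ Δ : Set (Lit C.N)} : Δ ∈ Pr → Δ ⊆ Λ → Step T C Pr Λ
  | cut {Λ : Set (Lit C.N)} {a : C.N} : insert ⟨a, true⟩ Λ ∈ Pr → insert ⟨a, false⟩ Λ ∈ Pr →
      Step T C Pr Λ
  | andI {Λ S : Set (Lit C.N)} {a : C.N} : C.gate a = .and S → ⟨a, true⟩ ∈ Λ →
      (∀ x ∈ S, insert x Λ ∈ Pr) → Step T C Pr Λ
  | andE {Λ S : Set (Lit C.N)} {a : C.N} : C.gate a = .and S → ⟨a, false⟩ ∈ Λ →
      Λ ∪ Lit.neg '' S ∈ Pr → Step T C Pr Λ
  | cover {Λ S : Set (Lit C.N)} : (∀ c ≤ S.ncard, ∃ (a : C.N) (A : Set ℕ) (b : Bool),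
      C.gate a = .sym A S ∧ (c ∈ A ↔ b = true) ∧ ⟨a, b⟩ ∈ Λ) → Step T C Pr Λ
  | unit {Λ : Set (Lit C.N)} {a : C.N} {A : Set ℕ} {x : Lit C.N} : C.gate a = .sym A {x} →
      ⟨a, true⟩ ∈ Λ → (1 ∈ A ∧ x.neg ∈ Λ) ∨ (0 ∈ A ∧ x ∈ Λ) → Step T C Pr Λ
  | sum {Λ : Set (Lit C.N)} {a p : C.N} {B : Set C.N} {A : C.N → Set ℕ} {A' : Set ℕ}
      {S : C.N → Set (Lit C.N)} : (∀ b ∈ B, C.gate b = .sym (A b) (S b)) →
      B.PairwiseDisjoint S → C.gate p = .and ((fun b => ⟨b, true⟩) '' B) →
      C.gate a = .sym A' (⋃ b ∈ B, S b) →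
      (∀ c : C.N → ℕ, (∀ b ∈ B, c b ∈ A b) → ∑ᶠ b ∈ B, c b ∈ A') →
      ⟨p, false⟩ ∈ Λ → ⟨a, true⟩ ∈ Λ → Step T C Pr Λ
  | dist {Λ : Set (Lit C.N)} {a : C.N} {F : Set (Set (Lit C.N))} {J : ℕ}
      {B : ℕ → Set (Lit C.N) → C.N} {u : ℕ → C.N} {A : ℕ → Set ℕ} {A' : Set ℕ} :
      F.PairwiseDisjoint id → (∀ X ∈ F, X.ncard ≤ J) →
      (∀ j ≤ J, ∀ X ∈ F, C.gate (B j X) = .sym {j} X) →
      (∀ j ≤ J, C.gate (u j) = .sym (A j) ((fun X => ⟨B j X, true⟩) '' F)) →
      C.gate a = .sym A' (⋃₀ F) →
      (∀ t : ℕ → ℕ, (∀ j ≤ J, t j ∈ A j) → ∑ j ∈ Finset.range (J + 1), t j = F.ncard →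
        ∑ j ∈ Finset.range (J + 1), j * t j ∈ A') →
      (∀ j ≤ J, ⟨u j, false⟩ ∈ Λ) → ⟨a, true⟩ ∈ Λ → Step T C Pr Λ

/-- A refutation of the axioms in `T` over the universe `P`: a circuit and a set of lines, each of
which follows in one step from earlier ones; the empty line is among them. -/
structure Refutation {Rel : ℕ → Type} (T : Set (Ax Rel)) (P : Type) where
  /-- the circuit -/
  C : Circuit Rel P
  /-- the lines -/
  lines : Set (Set (Lit C.N))
  /-- the order of the lines -/
  order : Set (Lit C.N) → ℕ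
  step : ∀ Λ ∈ lines, Step T C {Δ | Δ ∈ lines ∧ order Δ < order Λ} Λ
  empty_mem : ∅ ∈ lines

/-- The size of a refutation: the number of nodes of the circuit plus the number of lines. -/
noncomputable def Refutation.size {Rel : ℕ → Type} {T : Set (Ax Rel)} {P : Type}
    (R : Refutation T P) : ℕ :=
  Nat.card R.C.N + R.lines.ncard

/-- The refutation is symmetric under the group `Γ` of permutations of the universe: `Γ` acts on the
nodes of the circuit compatibly with the labels, and the set of the lines is invariant. -/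
def Refutation.Symm {Rel : ℕ → Type} {T : Set (Ax Rel)} {P : Type} (R : Refutation T P)
    (Γ : Subgroup (Equiv.Perm P)) : Prop :=
  ∃ act : Γ →* Equiv.Perm R.C.N, ∀ σ : Γ,
    (∀ a, R.C.gate (act σ a) = (R.C.gate a).map (σ : Equiv.Perm P) (act σ)) ∧
      ∀ Λ ∈ R.lines, Lit.map (act σ) '' Λ ∈ R.lines

end Pool.Agent.H42.CS
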