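import Pool.Agent.H42.CS.Par

/-!
# The two items of a pair are equivalent; exactly one item `ze`

PROOF of `edge`, `b = true` (`b = false` is the mirror image: exchange the roles of `q`, `q'` and of the
slots). `Γ` contains `⟨it (z true a q q'), true⟩`, `⟨it (z false a q q'), false⟩`. By `Dn.andE`:
`rep q'`, `vJ a q q'`, `⟨yy (a, true) q, false⟩` are derived. `rep q` is derived: otherwise (`Dn.cases`)
`yy (a, true) q` is derived (`y_norep`): contradiction. Search the labels at `q` (`search_labels` with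
`S = univ`): `u`; put `v t := u s((a, true), t)`. `Dn.cases`/cut on `vR (a, true) q v`: if false then
`⟨yy (a, true) q, true⟩` (`y_false`): contradiction. So it is true, and `vR (a, false) q' v` is derived
(`r_flip true`). For every slot `t`: `Lst _ Γ s((a, false), t) q' (v t)`: `vF s((a, false), t) q' (v t)` by
`f_flip t true`; for `u' < v t`: `⟨vF s((a, false), t) q' u', false⟩`: `Dn.cases`; if it is true then
`vF s((a, true), t) q u'` by `f_flip t false`, which is refuted. So `⟨yy (a, false) q', false⟩` by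
`y_true`, and `⟨it (z false a q q'), true⟩` by `Dn.andT`: contradiction.

PROOF of `one_der`. Refute `{⟨one, false⟩}`. `Pn.search` with `q ↦ vZ q`; all false: z1 (`pn_ins`). Let `q`
be found: `vZ q` true, `vZ p` false for `p < q`. `rep q`: for `p < q` derive `⟨vE p q, false⟩`:
`Dn.cases`; if true then `vE q p` (`e_symm`), `vZ p` (`z_inv`): contradiction. So `it (ze q)` is derived
(`Dn.andT`). For `q' ≠ q` the item `it (ze q')` is refuted: `q' < q`: `vZ q'` is false; `q' > q`:
`Dn.cases` on `vZ q'`: true: `vE q q'` (`z_uni`), so `rep q'` is refuted (`rep_false`). `Dn.cnt` with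
`X = allE`, `W = {⟨it (ze q), true⟩}`, `p = pz q`, `a = one`.
-/

set_option autoImplicit false

namespace Pool.Agent.H42.CS

variable {d n l : ℕ} {Γ : Set (Lit (Nd d n))}

private theorem gt_z (b : Bool) (a : Fin d) (q q' : Fin n) :
    gt (.it (.z b a q q') : Nd d n) = .and {⟨.rep (if b then q' else q), true⟩,
      ⟨.vJ a q q', true⟩, ⟨.yy (a, b) (if b then q else q'), false⟩} := by
  cases b <;> rfl

private theorem dcases (y : Lit (Nd d n)) {x : Lit (Nd d n)} (h : DD l (insert y Γ) x)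
    (h' : DD l (insert y.neg Γ) x) : DD (l + 1) Γ x := Dn.cases y h h'

private theorem lst_mem {s : Fin n} {u : Sym2 (Slot d) → Fin n} (hΓ : LabS Finset.univ s u ⊆ Γ)
    (τ : Sym2 (Slot d)) : Lst l Γ τ s (u τ) :=
  ⟨Dn.mem (hΓ ⟨τ, Finset.mem_univ τ, Or.inl rfl⟩),
    fun u' hu' => Dn.mem (hΓ ⟨τ, Finset.mem_univ τ, Or.inr ⟨u', hu', rfl⟩⟩)⟩

private theorem core {a : Fin d} {q q' : Fin n} (b : Bool) (s t : Fin n)
    (hs : s = if b then q else q') (ht : t = if b then q' else q)
    (hJ : DD l Γ ⟨.vJ a q q', true⟩) (hy : DD l Γ ⟨.yy (a, b) s, false⟩)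
    (hr : DD l Γ ⟨.rep t, true⟩) (hn : DD l Γ ⟨.it (.z (!b) a q q'), false⟩) :
    PP (l + 47 + 6 * (Finset.univ : Finset (Sym2 (Slot d))).card) Γ := by
  -- `s` is a representative
  have hrs : DD (l + 20) Γ ⟨.rep s, true⟩ := by
    refine dcases (l := l + 19) ⟨.rep s, true⟩ (Dn.mem (Set.mem_insert _ _)) ?_
    have n1 : DD (0 + 10) (insert (⟨.rep s, false⟩ : Lit (Nd d n)) Γ) ⟨.yy (a, b) s, true⟩ :=
      y_norep (Dn.mem (Set.mem_insert _ _))
    have n2 : DD (l + 10) (insert (⟨.rep s, false⟩ : Lit (Nd d n)) Γ) ⟨.yy (a, b) s, false⟩ :=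
      Dn.mono hy (Set.subset_insert _ _) (by omega)
    have n3 : PP (l + 10 + 1) (insert (⟨.rep s, false⟩ : Lit (Nd d n)) Γ) :=
      Dn.contra (x := ⟨.yy (a, b) s, true⟩) (Dn.le n1 (by omega)) n2
    exact Dn.le (Dn.abs n3) (by omega)
  refine Pn.le (search_labels (l := l + 46) Finset.univ s fun u => ?_) (by omega)
  obtain ⟨Γ', hΓ'⟩ : ∃ Γ' : Set (Lit (Nd d n)), Γ' = Γ ∪ LabS Finset.univ s u := ⟨_, rfl⟩
  rw [← hΓ']
  have hsub : Γ ⊆ Γ' := by rw [hΓ']; exact Set.subset_union_left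
  have hlab : LabS Finset.univ s u ⊆ Γ' := by rw [hΓ']; exact Set.subset_union_right
  obtain ⟨v, hv⟩ : ∃ v : Slot d → Fin n, v = fun t => u s((a, b), t) := ⟨_, rfl⟩
  refine Pn.cut (l := l + 45) ⟨.vR (a, b) s v, true⟩ ?_ ?_
  · -- the value is defined
    obtain ⟨Δ, hΔ⟩ : ∃ Δ : Set (Lit (Nd d n)), Δ = insert ⟨.vR (a, b) s v, true⟩ Γ' := ⟨_, rfl⟩
    rw [← hΔ]
    have hsub' : Γ' ⊆ Δ := by rw [hΔ]; exact Set.subset_insert _ _
    have hRm : DD (l + 22) Δ ⟨.vR (a, b) (if b then q else q') v, true⟩ := by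
      apply Dn.mem
      rw [hΔ, ← hs]
      exact Set.mem_insert _ _
    have hJ' : DD (l + 22) Δ ⟨.vJ a q q', true⟩ := Dn.mono hJ (hsub.trans hsub') (by omega)
    have hr' : DD (l + 22) Δ ⟨.rep t, true⟩ := Dn.mono hr (hsub.trans hsub') (by omega)
    have hrs' : DD (l + 22) Δ ⟨.rep s, true⟩ := Dn.mono hrs (hsub.trans hsub') (by omega)
    have hn' : DD (l + 22) Δ ⟨.it (.z (!b) a q q'), false⟩ :=
      Dn.mono hn (hsub.trans hsub') (by omega)
    have hR' : DD (l + 22 + 3) Δ ⟨.vR (a, !b) t v, true⟩ := by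
      rw [ht]
      exact r_flip b hJ' hRm
    have hL : ∀ (k : ℕ) (τ : Sym2 (Slot d)), Lst k Δ τ s (u τ) := fun k τ =>
      lst_mem (hlab.trans hsub') τ
    have hlst : ∀ r : Slot d, Lst (l + 32) Δ s((a, !b), r) t (v r) := by
      intro r
      constructor
      · have h1 : DD (l + 22 + 3) Δ ⟨.vF s((a, !b), r) t (v r), true⟩ := by
          rw [ht]
          refine f_flip r b hJ' ?_
          rw [← hs, hv]
          exact (hL _ _).1
        exact Dn.le h1 (by omega)
      · intro u' hu'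
        have h1 : DD (l + 30) (insert (⟨.vF s((a, !b), r) t u', true⟩ : Lit (Nd d n)) Δ)
            ⟨.vF s((a, !b), r) t u', false⟩ := by
          have h2 : DD (l + 23) (insert (⟨.vF s((a, !b), r) t u', true⟩ : Lit (Nd d n)) Δ)
              ⟨.vF s((a, !b), r) (if !b then q else q') u', true⟩ := by
            apply Dn.mem
            have h3 : (if !b then q else q') = t := by
              rw [ht]
              cases b <;> rfl
            rw [h3]
            exact Set.mem_insert _ _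
          have h3 := f_flip r (!b) (Dn.mono hJ' (Set.subset_insert _ _) (by omega)) h2
          have h4 : DD (l + 23 + 3) (insert (⟨.vF s((a, !b), r) t u', true⟩ : Lit (Nd d n)) Δ)
              ⟨.vF s((a, b), r) s u', true⟩ := by
            have h5 : (if !b then q' else q) = s := by
              rw [hs]
              cases b <;> rfl
            rw [h5, Bool.not_not] at h3
            exact h3
          have h5 : DD (l + 23 + 3) (insert (⟨.vF s((a, !b), r) t u', true⟩ : Lit (Nd d n)) Δ)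
              ⟨.vF s((a, b), r) s u', false⟩ := by
            apply Dn.mem
            refine Set.mem_insert_of_mem _ (hsub' (hlab ?_))
            refine ⟨s((a, b), r), Finset.mem_univ _, Or.inr ⟨u', ?_, rfl⟩⟩
            rw [hv] at hu'
            exact hu'
          exact Dn.le (Dn.abs (Dn.contra (x := ⟨.vF s((a, b), r) s u', true⟩) h4 h5)) (by omega)
        exact Dn.le (dcases (l := l + 30) ⟨.vF s((a, !b), r) t u', true⟩ h1
          (Dn.mem (Set.mem_insert _ _))) (by omega)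
    have hyy : DD (l + 32 + 10) Δ ⟨.yy (a, !b) t, false⟩ :=
      y_true (Dn.le hr' (by omega)) hlst (Dn.le hR' (by omega))
    have hit : DD (l + 42 + 2) Δ ⟨.it (.z (!b) a q q'), true⟩ := by
      refine Dn.andT (C := CC d n) (a := .it (.z (!b) a q q')) (gt_z (!b) a q q') ?_
      rintro x (rfl | rfl | rfl)
      · have h3 : (if !b then q' else q) = s := by
          rw [hs]
          cases b <;> rfl
        rw [h3]
        exact Dn.le hrs' (by omega)
      · exact Dn.le hJ' (by omega)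
      · have h3 : (if !b then q else q') = t := by
          rw [ht]
          cases b <;> rfl
        rw [h3]
        exact hyy
    exact Dn.contra (x := ⟨.it (.z (!b) a q q'), true⟩) hit (Dn.le hn' (by omega))
  · -- the value is not defined
    obtain ⟨Δ, hΔ⟩ : ∃ Δ : Set (Lit (Nd d n)), Δ = insert ⟨.vR (a, b) s v, false⟩ Γ' := ⟨_, rfl⟩
    change PP (l + 45) (insert ⟨.vR (a, b) s v, false⟩ Γ')
    rw [← hΔ]
    have hsub' : Γ' ⊆ Δ := by rw [hΔ]; exact Set.subset_insert _ _
    have h1 : DD (l + 10) Δ ⟨.yy (a, b) s, true⟩ := by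
      refine y_false (u := v) (fun r => ?_) (Dn.mem ?_)
      · rw [hv]
        exact lst_mem (hlab.trans hsub') _
      · rw [hΔ]
        exact Set.mem_insert _ _
    have h2 : DD (l + 10) Δ ⟨.yy (a, b) s, false⟩ := Dn.mono hy (hsub.trans hsub') (by omega)
    exact Pn.le (Dn.contra (x := ⟨.yy (a, b) s, true⟩) h1 h2) (by omega)

theorem edge (d : ℕ) : ∃ l : ℕ, ∀ (n : ℕ) (b : Bool) (a : Fin d) (q q' : Fin n),
    PP l ({⟨.it (.z b a q q'), true⟩, ⟨.it (.z (!b) a q q'), false⟩} : Set (Lit (Nd d n))) := by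
  refine ⟨3 + 47 + 6 * (Finset.univ : Finset (Sym2 (Slot d))).card, fun n b a q q' => ?_⟩
  have h0 : DD 0 ({⟨.it (.z b a q q'), true⟩, ⟨.it (.z (!b) a q q'), false⟩} :
      Set (Lit (Nd d n))) ⟨.it (.z b a q q'), true⟩ := Dn.mem (Or.inl rfl)
  refine core (l := 3) (a := a) (q := q) (q' := q') b (if b then q else q') (if b then q' else q) rfl rfl ?_ ?_ ?_ ?_
  · exact Dn.andE (C := CC d n) (gt_z b a q q') (Or.inr (Or.inl rfl)) h0
  · exact Dn.andE (C := CC d n) (gt_z b a q q') (Or.inr (Or.inr rfl)) h0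
  · exact Dn.andE (C := CC d n) (gt_z b a q q') (Or.inl rfl) h0
  · exact Dn.mem (Or.inr rfl)

/-- the counting nodes of the items `ze` -/
private def unE (q : Fin n) : Lit (Nd d n) → Nd d n
  | ⟨.it (.ze q'), _⟩ => .u1 (decide (q' = q)) (.ze q')
  | _ => .one

theorem one_der (d : ℕ) : ∃ l : ℕ, ∀ n : ℕ, 0 < n →
    DD l (∅ : Set (Lit (Nd d n))) ⟨.one, true⟩ := by
  classical
  refine ⟨23, fun n _ => ?_⟩
  change PP 23 (insert (⟨.one, false⟩ : Lit (Nd d n)) ∅)
  refine Pn.search (C := CC d n) (l := 21) (fun q => Nd.vZ q) (fun q q' h => by injection h)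
    (fun q => ?_) ?_
  · obtain ⟨Γ, hΓ⟩ : ∃ Γ : Set (Lit (Nd d n)), Γ = insert (⟨.one, false⟩ : Lit (Nd d n)) ∅ ∪
      {⟨.vZ q, true⟩} ∪ {x | ∃ p, p < q ∧ x = ⟨.vZ p, false⟩} := ⟨_, rfl⟩
    change PP 21 (insert (⟨.one, false⟩ : Lit (Nd d n)) ∅ ∪
      {⟨.vZ q, true⟩} ∪ {x | ∃ p, p < q ∧ x = ⟨.vZ p, false⟩})
    rw [← hΓ]
    have m1 : (⟨.one, false⟩ : Lit (Nd d n)) ∈ Γ := by
      rw [hΓ]
      exact Or.inl (Or.inl (Or.inl rfl))
    have m2 : (⟨.vZ q, true⟩ : Lit (Nd d n)) ∈ Γ := by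
      rw [hΓ]
      exact Or.inl (Or.inr rfl)
    have m3 : ∀ p, p < q → (⟨.vZ p, false⟩ : Lit (Nd d n)) ∈ Γ := by
      intro p hp
      rw [hΓ]
      exact Or.inr ⟨p, hp, rfl⟩
    have hE : ∀ p, p < q → DD 10 Γ ⟨.vE p q, false⟩ := by
      intro p hp
      refine dcases (l := 9) ⟨.vE p q, true⟩ ?_ (Dn.mem (Set.mem_insert _ _))
      have h1 : DD (0 + 3) (insert (⟨.vE p q, true⟩ : Lit (Nd d n)) Γ) ⟨.vE q p, true⟩ :=
        e_symm (Dn.mem (Set.mem_insert _ _))
      have h2 : DD (0 + 3 + 3) (insert (⟨.vE p q, true⟩ : Lit (Nd d n)) Γ) ⟨.vZ p, true⟩ :=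
        z_inv (x := q) (Dn.mem (Set.mem_insert_of_mem _ m2)) h1
      exact Dn.le (Dn.abs (Dn.contra (x := ⟨.vZ p, true⟩) h2
        (Dn.mem (Set.mem_insert_of_mem _ (m3 p hp))))) (by omega)
    have hrep : DD 12 Γ ⟨.rep q, true⟩ := rep_true hE
    have hit : DD 14 Γ ⟨.it (.ze q), true⟩ := by
      refine Dn.andT (C := CC d n) (a := .it (.ze q)) (l := 12) rfl ?_
      rintro x (rfl | rfl)
      · exact hrep
      · exact Dn.mem m2
    have hoth : ∀ q', q' ≠ q → DD 14 Γ ⟨.it (.ze q'), false⟩ := by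
      intro q' hq'
      rcases lt_or_gt_of_ne hq' with h1 | h1
      · exact Dn.le (Dn.andF (C := CC d n) (a := .it (.ze q')) (l := 0)
          (x := ⟨.vZ q', true⟩) rfl (Or.inr rfl) (Dn.mem (m3 q' h1))) (by omega)
      · refine Dn.le (dcases (l := 9) ⟨.vZ q', true⟩ ?_ ?_) (by omega)
        · have h2 : DD (0 + 3) (insert (⟨.vZ q', true⟩ : Lit (Nd d n)) Γ) ⟨.vE q q', true⟩ :=
            z_uni (Dn.mem (Set.mem_insert_of_mem _ m2)) (Dn.mem (Set.mem_insert _ _))
          have h3 : DD (0 + 3 + 3) (insert (⟨.vZ q', true⟩ : Lit (Nd d n)) Γ)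
              ⟨.rep q', false⟩ := rep_false h1 h2
          exact Dn.andF (C := CC d n) (a := .it (.ze q')) (x := ⟨.rep q', true⟩) rfl
            (Or.inl rfl) h3
        · exact Dn.le (Dn.andF (C := CC d n) (a := .it (.ze q')) (l := 0)
            (x := ⟨.vZ q', true⟩) rfl (Or.inr rfl) (Dn.mem (Set.mem_insert _ _))) (by omega)
    have hcnt : DD (14 + 6) Γ ⟨.one, true⟩ := by
      refine Dn.cnt (C := CC d n) (X := allE) (W := {⟨.it (.ze q), true⟩}) (A := {1})
        (a := .one) (p := .pz q) (unE q) ?_ ?_ ?_ rfl ?_ ?_ ?_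
      · rintro x rfl
        exact ⟨q, rfl⟩
      · rintro x ⟨q', rfl⟩
        change gt (.u1 (decide (q' = q)) (.ze q')) = _
        by_cases h : q' = q
        · subst h
          rw [if_pos (Set.mem_singleton _)]
          simp [gt]
        · have h2 : (⟨.it (.ze q'), true⟩ : Lit (Nd d n)) ∉
              ({⟨.it (.ze q), true⟩} : Set (Lit (Nd d n))) := by
            intro h3
            have h4 := congrArg Lit.node (Set.mem_singleton_iff.1 h3)
            injection h4 with h5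
            injection h5 with h6
            exact h h6
          rw [if_neg h2]
          simp [gt, h]
      · have e : ({y | ∃ q', y = ⟨.u1 (decide (q' = q)) (.ze q'), true⟩} : Set (Lit (Nd d n))) =
            (fun x => ⟨unE q x, true⟩) '' allE := by
          ext y
          constructor
          · rintro ⟨q', rfl⟩
            exact ⟨⟨.it (.ze q'), true⟩, ⟨q', rfl⟩, rfl⟩
          · rintro ⟨x, ⟨q', rfl⟩, rfl⟩
            exact ⟨q', rfl⟩
        exact congrArg Gate.and e
      · rw [Set.ncard_singleton]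
        rfl
      · rintro x rfl
        exact hit
      · rintro x ⟨q', rfl⟩ hx
        refine hoth q' fun h => hx ?_
        rw [h]
        rfl
    exact Dn.contra (x := ⟨.one, true⟩) hcnt (Dn.mem m1)
  · refine Pn.le (pn_ins (l := 0) (Ins.z1 (d := d) (P := Fin n)) ?_) (by omega)
    rintro x ⟨q, rfl⟩
    exact ⟨.vZ q, rfl, Dn.mem (Or.inr ⟨q, rfl⟩)⟩

end Pool.Agent.H42.CS
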