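import Pool.Agent.H42.CS.Grd

/-!
# Worlds: extensions and differences; annihilators of subgroups

PROOF of `exists_primitive`: let `E := U ⊓ D` (all its members have weight at most `w`, and so have sums of
members). On the set `ZMod 2 × E` define `(a, y) + (b, y') := (a + b + kap y y', y + y')`: by `kap_comm`,
`kap_coc` (all six weights are fine) and `kap 0 y = 0` (from `kap_coc` at `0, 0, y` and `kap_self`:
`kap 0 0 + kap 0 y = kap 0 y + kap 0 y`), `kap_self` this is an abelian group of exponent 2. So it is a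
`ZMod 2`-vector space and the projection to `E` has a linear section `y ↦ (f y, y)`; then
`f (y + y') = f y + f y' + kap y y'`. Alternative proof: Zorn / induction on the dimension of a subspace
`E' ≤ E`: given `f` on `E'` and `v ∉ E'`, put `f (y + v) := f y + kap y v` for `y ∈ E'`; the four cases
follow from `kap_coc`.

PROOF of `ext_exists`: by `exists_primitive` for `U'` take `f0` with the cocycle property on `U' ⊓ D`. On
`U ⊓ D` the function `f + f0` is additive; extend this additive function on the subspace `U ⊓ D` to a linear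
function `l` on everything (`Submodule.exists_isCompl`/`LinearMap.exists_extend`); `f' := f0 + l`.

PROOF of `exists_shift`: `f + f'` is additive on `U' ⊓ D` and vanishes on `U ⊓ D`. There is a linear
functional `l` on `K → ZMod 2` which is 0 on `U` and equal to `f + f'` on `U' ⊓ D`: on
`U ⊔ (U' ⊓ D)` put `l (u + v) := (f + f') v`, well defined because `U ⊓ (U' ⊓ D) = U ⊓ D`
(`U ≤ U'`); extend it. Every linear functional on `K → ZMod 2` is `y ↦ t ⬝ᵥ y`, `t k := l (Pi.single k 1)`.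

PROOF of `Vs_perp`: the image `A` of `H` is an additive subgroup of `K → ZMod 2`, i.e. a subspace. If
`t ∉ A`, there is a linear functional vanishing on `A` and not at `t`
(`Submodule.exists_le_ker_of_notMem` or `Submodule.exists_dual_map_eq_bot_of_notMem`), i.e. `y` with
`a ⬝ᵥ y = 0` for `a ∈ A`, so `y ∈ Vs pr H`, and `t ⬝ᵥ y ≠ 0`: contradiction.

PROOF of `card_Vs`: `Nat.card (Vs pr H) = 2 ^ (card K - dim A)` with `A` the image of `H`
(e.g. `LinearMap.BilinForm.finrank_orthogonal` / `Submodule.finrank_add_finrank_dualAnnihilator_eq` or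
directly: `Vs pr H` is the dual of the quotient by `A`), and `2 ^ (card K - dim A)` is the index of `A` in
the image of `⊤`, which is at most `H.index`: the map `G → (K → ZMod 2) ⧸ A` is onto and constant on the
left cosets of `H`.
-/

set_option autoImplicit false

namespace Pool.Agent.H42.CS

variable {K : Type}

private theorem w2 (x : ZMod 2) : x + x = 0 := CharTwo.add_self_eq_zero x

private theorem wv2 (y : K → ZMod 2) : y + y = 0 := by
  funext i
  exact w2 (y i)

/-- the twisted extension of `E` by `ZMod 2` -/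
private structure TW (g : Gad K) (E : Submodule (ZMod 2) (K → ZMod 2)) : Type where
  a : ZMod 2
  y : E

private theorem TW.ext' {g : Gad K} {E : Submodule (ZMod 2) (K → ZMod 2)} {s t : TW g E}
    (h1 : s.a = t.a) (h2 : s.y = t.y) : s = t := by
  cases s
  cases t
  simp only at h1 h2
  subst h1 h2
  rfl

private theorem kap_zero (g : Gad K) (y : K → ZMod 2) (hy : y ∈ g.D) (hw : nm y ≤ g.w) :
    g.kap 0 y = 0 := by
  have h0 : nm (0 : K → ZMod 2) ≤ g.w := by
    have : nm (0 : K → ZMod 2) = 0 := by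
      unfold nm
      simp
    rw [this]
    exact Nat.zero_le _
  have h1 := g.kap_coc 0 0 y g.D.zero_mem g.D.zero_mem hy h0 h0 hw (by rwa [add_zero])
    (by rwa [zero_add]) (by rwa [add_zero, zero_add])
  rw [g.kap_self, add_zero, zero_add, zero_add, w2] at h1
  exact h1

private instance twAdd (g : Gad K) (E : Submodule (ZMod 2) (K → ZMod 2)) : Add (TW g E) :=
  ⟨fun s t => ⟨s.a + t.a + g.kap s.y t.y, s.y + t.y⟩⟩

private instance twZero (g : Gad K) (E : Submodule (ZMod 2) (K → ZMod 2)) : Zero (TW g E) :=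
  ⟨⟨0, 0⟩⟩

private instance twNeg (g : Gad K) (E : Submodule (ZMod 2) (K → ZMod 2)) : Neg (TW g E) :=
  ⟨fun s => s⟩

private abbrev twGroup (g : Gad K) (E : Submodule (ZMod 2) (K → ZMod 2))
    (hE : ∀ y ∈ E, y ∈ g.D ∧ nm y ≤ g.w) : AddCommGroup (TW g E) where
  nsmul := nsmulRec
  zsmul := zsmulRec
  add_assoc := by
    intro s t u
    apply TW.ext'
    · show (s.a + t.a + g.kap s.y t.y) + u.a + g.kap ((s.y + t.y : E) : K → ZMod 2) u.y =
        s.a + (t.a + u.a + g.kap t.y u.y) + g.kap s.y ((t.y + u.y : E) : K → ZMod 2)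
      have h := g.kap_coc s.y t.y u.y (hE _ s.y.2).1 (hE _ t.y.2).1 (hE _ u.y.2).1
        (hE _ s.y.2).2 (hE _ t.y.2).2 (hE _ u.y.2).2 (hE _ (E.add_mem s.y.2 t.y.2)).2
        (hE _ (E.add_mem t.y.2 u.y.2)).2 (hE _ (E.add_mem (E.add_mem s.y.2 t.y.2) u.y.2)).2
      rw [Submodule.coe_add, Submodule.coe_add]
      linear_combination h
    · exact add_assoc s.y t.y u.y
  zero_add := by
    intro s
    apply TW.ext'
    · show 0 + s.a + g.kap ((0 : E) : K → ZMod 2) s.y = s.a
      rw [Submodule.coe_zero, kap_zero g _ (hE _ s.y.2).1 (hE _ s.y.2).2, zero_add, add_zero]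
    · exact zero_add s.y
  add_zero := by
    intro s
    apply TW.ext'
    · show s.a + 0 + g.kap s.y ((0 : E) : K → ZMod 2) = s.a
      rw [g.kap_comm, Submodule.coe_zero, kap_zero g _ (hE _ s.y.2).1 (hE _ s.y.2).2, add_zero,
        add_zero]
    · exact add_zero s.y
  neg_add_cancel := by
    intro s
    apply TW.ext'
    · show s.a + s.a + g.kap s.y s.y = 0
      rw [g.kap_self, w2, add_zero]
    · show s.y + s.y = 0
      exact Subtype.ext (wv2 _)
  add_comm := by
    intro s t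
    apply TW.ext'
    · show s.a + t.a + g.kap s.y t.y = t.a + s.a + g.kap t.y s.y
      rw [g.kap_comm, add_comm s.a]
    · exact add_comm s.y t.y

theorem Gad.exists_primitive (g : Gad K) (U : Submodule (ZMod 2) (K → ZMod 2)) (ht : g.Tame U) :
    ∃ f, g.IsW U f := by
  classical
  set E := U ⊓ g.D with hE
  have hE' : ∀ y ∈ E, y ∈ g.D ∧ nm y ≤ g.w := fun y hy =>
    ⟨(Submodule.mem_inf.1 hy).2, ht y (Submodule.mem_inf.1 hy).1 (Submodule.mem_inf.1 hy).2⟩
  let _ : AddCommGroup (TW g E) := twGroup g E hE'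
  have h2 : ∀ s : TW g E, 2 • s = 0 := by
    intro s
    rw [two_nsmul]
    apply TW.ext'
    · show s.a + s.a + g.kap s.y s.y = 0
      rw [g.kap_self, w2, add_zero]
    · show s.y + s.y = 0
      exact Subtype.ext (wv2 _)
  let _ : Module (ZMod 2) (TW g E) := AddCommGroup.zmodModule h2
  let π0 : TW g E →+ E := AddMonoidHom.mk' (fun s => s.y) (fun s t => rfl)
  let π : TW g E →ₗ[ZMod 2] E := AddMonoidHom.toZModLinearMap 2 π0
  have hπ : ∀ s, π s = s.y := fun _ => rfl
  have hsur : Function.Surjective π := fun y => ⟨⟨0, y⟩, rfl⟩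
  obtain ⟨σ, hσ⟩ := π.exists_rightInverse_of_surjective (LinearMap.range_eq_top.2 hsur)
  have hσy : ∀ y : E, (σ y).y = y := fun y => by
    rw [← hπ]
    exact LinearMap.congr_fun hσ y
  refine ⟨fun y => if h : y ∈ E then (σ ⟨y, h⟩).a else 0, ?_⟩
  intro y hy hyD y' hy' hyD'
  have m1 : y ∈ E := Submodule.mem_inf.2 ⟨hy, hyD⟩
  have m2 : y' ∈ E := Submodule.mem_inf.2 ⟨hy', hyD'⟩
  have m3 : y + y' ∈ E := E.add_mem m1 m2
  show (if h : y + y' ∈ E then (σ ⟨y + y', h⟩).a else 0) = (if h : y ∈ E then (σ ⟨y, h⟩).a else 0) +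
    (if h : y' ∈ E then (σ ⟨y', h⟩).a else 0) + g.kap y y'
  rw [dif_pos m1, dif_pos m2, dif_pos m3]
  have h3 : σ ⟨y + y', m3⟩ = σ ⟨y, m1⟩ + σ ⟨y', m2⟩ := by
    rw [← map_add]
    rfl
  rw [h3]
  show (σ ⟨y, m1⟩).a + (σ ⟨y', m2⟩).a + g.kap (σ ⟨y, m1⟩).y (σ ⟨y', m2⟩).y = _
  rw [hσy, hσy]

theorem Gad.ext_exists (g : Gad K) {U U' : Submodule (ZMod 2) (K → ZMod 2)} (hle : U ≤ U')
    (ht : g.Tame U') {f : Wd K} (hf : g.IsW U f) : ∃ f', g.IsW U' f' ∧ g.Agr U f f' := by
  obtain ⟨f0, h0⟩ := g.exists_primitive U' ht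
  let h0' : (U ⊓ g.D : Submodule (ZMod 2) (K → ZMod 2)) →+ ZMod 2 :=
    AddMonoidHom.mk' (fun y => f y + f0 y) (by
      intro y y'
      have m1 := Submodule.mem_inf.1 y.2
      have m2 := Submodule.mem_inf.1 y'.2
      show f ((y : K → ZMod 2) + y') + f0 ((y : K → ZMod 2) + y') = (f y + f0 y) + (f y' + f0 y')
      rw [hf y m1.1 m1.2 y' m2.1 m2.2, h0 y (hle m1.1) m1.2 y' (hle m2.1) m2.2]
      linear_combination w2 (g.kap y y'))
  obtain ⟨l, hl⟩ := (AddMonoidHom.toZModLinearMap 2 h0').exists_extend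
  have hl' : ∀ y ∈ U, y ∈ g.D → l y = f y + f0 y := by
    intro y hy hyD
    have := LinearMap.congr_fun hl ⟨y, Submodule.mem_inf.2 ⟨hy, hyD⟩⟩
    exact this
  refine ⟨fun y => f0 y + l y, ?_, ?_⟩
  · intro y hy hyD y' hy' hyD'
    show f0 (y + y') + l (y + y') = (f0 y + l y) + (f0 y' + l y') + g.kap y y'
    rw [h0 y hy hyD y' hy' hyD', map_add]
    ring
  · intro y hy hyD
    show f y = f0 y + l y
    rw [hl' y hy hyD]
    linear_combination -w2 (f0 y)

theorem Gad.ext_isW (g : Gad K) {U U' : Submodule (ZMod 2) (K → ZMod 2)} (hle : U ≤ U')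
    (ht : g.Tame U') {f : Wd K} (hf : g.IsW U f) : g.IsW U' (g.ext U U' f) := by
  have h := g.ext_exists hle ht hf
  unfold Gad.ext
  rw [dif_pos h]
  exact h.choose_spec.1

theorem Gad.ext_agr (g : Gad K) {U U' : Submodule (ZMod 2) (K → ZMod 2)} (hle : U ≤ U')
    (ht : g.Tame U') {f : Wd K} (hf : g.IsW U f) : g.Agr U f (g.ext U U' f) := by
  have h := g.ext_exists hle ht hf
  unfold Gad.ext
  rw [dif_pos h]
  exact h.choose_spec.2

theorem Gad.exists_shift [Fintype K] (g : Gad K) {U U' : Submodule (ZMod 2) (K → ZMod 2)}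
    (hle : U ≤ U') {f f' : Wd K} (hf : g.IsW U' f) (hf' : g.IsW U' f') (ha : g.Agr U f f') :
    ∃ t : K → ZMod 2, (∀ y ∈ U, t ⬝ᵥ y = 0) ∧ g.Agr U' f' (sh t f) := by
  classical
  let E := U' ⊓ g.D
  let h0 : E →+ ZMod 2 := AddMonoidHom.mk' (fun y => f y + f' y) (by
    intro y y'
    have m1 := Submodule.mem_inf.1 y.2
    have m2 := Submodule.mem_inf.1 y'.2
    show f ((y : K → ZMod 2) + y') + f' ((y : K → ZMod 2) + y') = (f y + f' y) + (f y' + f' y')
    rw [hf y m1.1 m1.2 y' m2.1 m2.2, hf' y m1.1 m1.2 y' m2.1 m2.2]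
    linear_combination w2 (g.kap y y'))
  let h1 : E →ₗ[ZMod 2] ZMod 2 := AddMonoidHom.toZModLinearMap 2 h0
  have hh1 : ∀ y : E, h1 y = f y + f' y := fun _ => rfl
  let q : E →ₗ[ZMod 2] ((K → ZMod 2) ⧸ U) := U.mkQ.comp E.subtype
  have hmem : h1 ∈ (LinearMap.ker q).dualAnnihilator := by
    rw [Submodule.mem_dualAnnihilator]
    intro y hy
    rw [LinearMap.mem_ker] at hy
    have hyU : (y : K → ZMod 2) ∈ U := (Submodule.Quotient.mk_eq_zero U).1 hy
    rw [hh1, ha y hyU (Submodule.mem_inf.1 y.2).2]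
    exact w2 _
  rw [← LinearMap.range_dualMap_eq_dualAnnihilator_ker] at hmem
  obtain ⟨l', hl'⟩ := hmem
  let l : Module.Dual (ZMod 2) (K → ZMod 2) := l'.comp U.mkQ
  have hl : ∀ y : E, l y = f y + f' y := by
    intro y
    rw [← hh1, ← hl']
    rfl
  refine ⟨(dotProductEquiv (ZMod 2) K).symm l, ?_, ?_⟩
  · intro y hy
    have h3 : (dotProductEquiv (ZMod 2) K) ((dotProductEquiv (ZMod 2) K).symm l) y = l y := by
      rw [LinearEquiv.apply_symm_apply]
    have h4 : l y = 0 := by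
      show l' (U.mkQ y) = 0
      have : U.mkQ y = 0 := (Submodule.Quotient.mk_eq_zero U).2 hy
      rw [this, map_zero]
    rw [h4] at h3
    exact h3
  · intro y hy hyD
    have h3 : (dotProductEquiv (ZMod 2) K) ((dotProductEquiv (ZMod 2) K).symm l) y = l y := by
      rw [LinearEquiv.apply_symm_apply]
    have h4 := hl ⟨y, Submodule.mem_inf.2 ⟨hy, hyD⟩⟩
    have h5 : (dotProductEquiv (ZMod 2) K).symm l ⬝ᵥ y = f y + f' y := h3.trans h4
    show f' y = f y + (dotProductEquiv (ZMod 2) K).symm l ⬝ᵥ y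
    rw [h5]
    linear_combination -w2 (f y)

theorem Gad.isW_mono (g : Gad K) {U U' : Submodule (ZMod 2) (K → ZMod 2)} (hle : U ≤ U')
    {f : Wd K} (hf : g.IsW U' f) : g.IsW U f := by
  exact fun y hy hyD y' hy' hyD' => hf y (hle hy) hyD y' (hle hy') hyD'

theorem Gad.isW_congr (g : Gad K) {U : Submodule (ZMod 2) (K → ZMod 2)} {f f' : Wd K}
    (hf : g.IsW U f) (ha : g.Agr U f f') : g.IsW U f' := by
  intro y hy hyD y' hy' hyD'
  rw [← ha _ (U.add_mem hy hy') (g.D.add_mem hyD hyD'), ← ha y hy hyD, ← ha y' hy' hyD']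
  exact hf y hy hyD y' hy' hyD'

theorem Gad.isW_sh [Fintype K] (g : Gad K) {U : Submodule (ZMod 2) (K → ZMod 2)} {f : Wd K}
    (hf : g.IsW U f) (t : K → ZMod 2) : g.IsW U (sh t f) := by
  intro y hy hyD y' hy' hyD'
  show f (y + y') + t ⬝ᵥ (y + y') = (f y + t ⬝ᵥ y) + (f y' + t ⬝ᵥ y') + g.kap y y'
  rw [hf y hy hyD y' hy' hyD', dotProduct_add]
  ring

theorem Gad.tame_mono (g : Gad K) {U U' : Submodule (ZMod 2) (K → ZMod 2)} (hle : U ≤ U')
    (ht : g.Tame U') : g.Tame U := by
  intro y hy hyD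
  exact ht y (hle hy) hyD

theorem sh_sh [Fintype K] (t t' : K → ZMod 2) (f : Wd K) : sh t (sh t' f) = sh (t + t') f := by
  funext y
  show (f y + t' ⬝ᵥ y) + t ⬝ᵥ y = f y + (t + t') ⬝ᵥ y
  rw [add_dotProduct]
  ring

section

variable {G : Type} [Fintype K] [Group G] {pr : G → K → ZMod 2}

theorem Vs_anti {H H' : Subgroup G} (h : H ≤ H') : Vs pr H' ≤ Vs pr H := by
  intro y hy g hg
  exact hy g (h hg)

private theorem pr_one (hm : ∀ g h, pr (g * h) = pr g + pr h) : pr 1 = 0 := by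
  have h := hm 1 1
  rw [mul_one] at h
  rw [h, wv2]

private theorem pr_inv (hm : ∀ g h, pr (g * h) = pr g + pr h) (g : G) : pr g⁻¹ = pr g := by
  have h := hm g⁻¹ g
  rw [inv_mul_cancel, pr_one hm] at h
  have h2 := wv2 (pr g)
  have h3 : pr g⁻¹ + pr g = pr g + pr g := by rw [← h, h2]
  exact add_right_cancel h3

/-- the image of a subgroup -/
private def im (hm : ∀ g h, pr (g * h) = pr g + pr h) (H : Subgroup G) :
    Submodule (ZMod 2) (K → ZMod 2) where
  carrier := {v | ∃ g ∈ H, pr g = v}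
  add_mem' := by
    rintro _ _ ⟨g, hg, rfl⟩ ⟨h, hh, rfl⟩
    exact ⟨g * h, H.mul_mem hg hh, hm g h⟩
  zero_mem' := ⟨1, H.one_mem, pr_one hm⟩
  smul_mem' := by
    rintro r _ ⟨g, hg, rfl⟩
    rcases (show r = 0 ∨ r = 1 by revert r; decide) with rfl | rfl
    · exact ⟨1, H.one_mem, by rw [zero_smul, pr_one hm]⟩
    · exact ⟨g, hg, by rw [one_smul]⟩

theorem Vs_perp (hm : ∀ g h, pr (g * h) = pr g + pr h) (H : Subgroup G) (t : K → ZMod 2)
    (h : ∀ y ∈ Vs pr H, t ⬝ᵥ y = 0) : ∃ g ∈ H, pr g = t := by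
  classical
  by_contra hn
  have ht : t ∉ im hm H := hn
  obtain ⟨l, hl1, hl2⟩ := Submodule.exists_le_ker_of_notMem ht
  have hl : ∀ v, v ⬝ᵥ (dotProductEquiv (ZMod 2) K).symm l = l v := by
    intro v
    rw [dotProduct_comm]
    have h3 : (dotProductEquiv (ZMod 2) K) ((dotProductEquiv (ZMod 2) K).symm l) v = l v := by
      rw [LinearEquiv.apply_symm_apply]
    exact h3
  apply hl1
  rw [← hl]
  apply h
  intro g hg
  rw [hl]
  exact hl2 ⟨g, hg, rfl⟩

/-- `Vs` of conjugate subgroups; the conjugation is given elementwise. -/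
theorem Vs_conj (hm : ∀ g h, pr (g * h) = pr g + pr h) (H H' : Subgroup G) (g : G)
    (h : ∀ x, x ∈ H' ↔ g⁻¹ * x * g ∈ H) : Vs pr H' = Vs pr H := by
  have key : ∀ x : G, pr (g⁻¹ * x * g) = pr x := by
    intro x
    rw [hm, hm, pr_inv hm]
    have h2 := wv2 (pr g)
    calc pr g + pr x + pr g = pr x + (pr g + pr g) := by abel
      _ = pr x := by rw [h2, add_zero]
  apply le_antisymm
  · intro y hy x hx
    have h1 : g * x * g⁻¹ ∈ H' := by
      rw [h]
      have : g⁻¹ * (g * x * g⁻¹) * g = x := by group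
      rwa [this]
    have h2 := hy _ h1
    rw [← key (g * x * g⁻¹)] at h2
    have : g⁻¹ * (g * x * g⁻¹) * g = x := by group
    rwa [this] at h2
  · intro y hy x hx
    have h1 := hy _ ((h x).1 hx)
    rwa [key] at h1

theorem Vs_top (ho : Function.Surjective pr) : Vs pr (⊤ : Subgroup G) = ⊥ := by
  classical
  rw [eq_bot_iff]
  intro y hy
  rw [Submodule.mem_bot]
  funext i
  obtain ⟨g, hg⟩ := ho (Pi.single i 1)
  have h1 := hy g (Subgroup.mem_top g)
  rw [hg, single_dotProduct, one_mul] at h1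
  exact h1

theorem card_Vs [Finite G] (hm : ∀ g h, pr (g * h) = pr g + pr h)
    (ho : Function.Surjective pr) (H : Subgroup G) : Nat.card (Vs pr H) ≤ H.index := by
  classical
  have h1 : Vs pr H = (im hm H).dualAnnihilator.comap (dotProductEquiv (ZMod 2) K).toLinearMap := by
    ext y
    rw [Submodule.mem_comap, Submodule.mem_dualAnnihilator]
    constructor
    · rintro hy _ ⟨g, hg, rfl⟩
      show y ⬝ᵥ pr g = 0
      rw [dotProduct_comm]
      exact hy g hg
    · intro hy g hg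
      have h2 : y ⬝ᵥ pr g = 0 := hy (pr g) ⟨g, hg, rfl⟩
      rw [dotProduct_comm] at h2
      exact h2
  have h2 : Module.finrank (ZMod 2) (Vs pr H) =
      Module.finrank (ZMod 2) (im hm H).dualAnnihilator := by
    rw [h1]
    exact ((dotProductEquiv (ZMod 2) K).ofSubmodule' _).finrank_eq
  have h3 := Subspace.finrank_add_finrank_dualAnnihilator_eq (im hm H)
  have h4 := Submodule.finrank_quotient_add_finrank (im hm H)
  have h5 : Nat.card (Vs pr H) = Nat.card ((K → ZMod 2) ⧸ im hm H) := by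
    rw [Module.natCard_eq_pow_finrank (K := ZMod 2) (V := Vs pr H),
      Module.natCard_eq_pow_finrank (K := ZMod 2) (V := (K → ZMod 2) ⧸ im hm H)]
    congr 1
    omega
  rw [h5, Subgroup.index]
  let φ : G ⧸ H → (K → ZMod 2) ⧸ im hm H := Quotient.lift
    (fun g => Submodule.Quotient.mk (pr g)) (by
      intro a b hab
      have h6 : a⁻¹ * b ∈ H := QuotientGroup.leftRel_apply.1 hab
      rw [Submodule.Quotient.eq]
      refine ⟨a⁻¹ * b, h6, ?_⟩
      rw [hm, pr_inv hm]
      funext i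
      show pr a i + pr b i = pr a i - pr b i
      rw [CharTwo.sub_eq_add])
  have hφ : Function.Surjective φ := by
    intro x
    obtain ⟨v, rfl⟩ := Submodule.Quotient.mk_surjective _ x
    obtain ⟨g, rfl⟩ := ho v
    exact ⟨Quotient.mk _ g, rfl⟩
  exact Nat.card_le_card_of_surjective φ hφ

end

end Pool.Agent.H42.CS
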