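import Pool.Agent.H42.CS.Defs
import Pool.Agent.H42.CS.Wor

/-!
# The engine: truth values of symmetric circuits at worlds

A group `G` acts on the points (`ρ`) and on the nodes of a circuit (`act`), and is mapped onto
`F_2^K` by `pr`. A node `a` has the space `Vn a`, the annihilator of its stabiliser; it gets a truth
value `val a f` at every world `f` on `Vn a`; a gate reads the values of its children `x` at
extensions of `f` to `Vn a ⊔ Vn x`. Everything in this file is proved.
-/

set_option autoImplicit false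

namespace Pool.Agent.H42.CS

/-- The image of an atom. -/
def mapA {Rel : ℕ → Type} {P : Type} (f : P → P) (v : Atom Rel P) : Atom Rel P :=
  ⟨v.1, v.2.1, fun i => f (v.2.2 i)⟩

/-- The stabiliser of (all points of) an atom. -/
def stA {Rel : ℕ → Type} {P G : Type} [Group G] (ρ : G →* Equiv.Perm P) (v : Atom Rel P) :
    Subgroup G where
  carrier := {g | ∀ i, ρ g (v.2.2 i) = v.2.2 i}
  mul_mem' := by
    intro a b ha hb i
    rw [map_mul, Equiv.Perm.mul_apply, hb i, ha i]
  one_mem' := by
    intro i
    rw [map_one]; rfl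
  inv_mem' := by
    intro a ha i
    rw [map_inv, Equiv.Perm.inv_eq_iff_eq]
    exact (ha i).symm

/-- The stabiliser of a node. -/
def stN {N G : Type} [Group G] (act : G →* Equiv.Perm N) (a : N) : Subgroup G where
  carrier := {g | act g a = a}
  mul_mem' := by
    intro x y hx hy
    show act (x * y) a = a
    rw [map_mul, Equiv.Perm.mul_apply, hy, hx]
  one_mem' := by
    show act 1 a = a
    rw [map_one]; rfl
  inv_mem' := by
    intro x hx
    show act x⁻¹ a = a
    rw [map_inv, Equiv.Perm.inv_eq_iff_eq]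
    exact Eq.symm hx

theorem Lit.map_map {N N' N'' : Type} (f : N' → N'') (g : N → N') (x : Lit N) :
    (x.map g).map f = x.map (fun a => f (g a)) := rfl

theorem Lit.map_id' {N : Type} (x : Lit N) : x.map (fun a => a) = x := rfl

/-- The stabiliser of a set of signed nodes. -/
def stS {N G : Type} [Group G] (act : G →* Equiv.Perm N) (X : Set (Lit N)) : Subgroup G where
  carrier := {g | Lit.map (act g) '' X = X}
  mul_mem' := by
    intro x y hx hy
    show Lit.map (act (x * y)) '' X = X
    have h : (Lit.map (act (x * y)) : Lit N → Lit N) = Lit.map (act x) ∘ Lit.map (act y) := by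
      funext z
      simp [Lit.map]
    rw [h, Set.image_comp]
    rw [show Lit.map (act y) '' X = X from hy]
    exact hx
  one_mem' := by
    show Lit.map (act 1) '' X = X
    have h : (Lit.map (act 1) : Lit N → Lit N) = id := by
      funext z
      simp [Lit.map]
    rw [h, Set.image_id]
  inv_mem' := by
    intro x hx
    show Lit.map (act x⁻¹) '' X = X
    conv_lhs => rw [← (show Lit.map (act x) '' X = X from hx)]
    rw [← Set.image_comp]
    have h : (Lit.map (act x⁻¹) ∘ Lit.map (act x) : Lit N → Lit N) = id := by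
      funext z
      simp [Lit.map]
    rw [h, Set.image_id]

/-- The engine: the data. -/
structure Eng (Rel : ℕ → Type) (P K G : Type) [Fintype K] [Group G] extends Gad K where
  /-- the homomorphism onto `F_2^K` -/
  pr : G → K → ZMod 2
  pr_mul : ∀ g h, pr (g * h) = pr g + pr h
  pr_onto : Function.Surjective pr
  /-- the action on the points -/
  ρ : G →* Equiv.Perm P
  /-- the circuit -/
  C : Circuit Rel P
  /-- the action on the nodes -/
  act : G →* Equiv.Perm C.N
  gate_act : ∀ g a, C.gate (act g a) = (C.gate a).map (ρ g) (act g)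
  /-- the truth value of an atom at a world -/
  leaf : Atom Rel P → Wd K → Prop
  leaf_loc : ∀ v f f', toGad.Agr (Vs pr (stA ρ v)) f f' → (leaf v f ↔ leaf v f')
  leaf_equi : ∀ g v f, leaf (mapA (ρ g) v) (sh (pr g) f) ↔ leaf v f
  /-- the family of the spaces -/
  fam : Set (Submodule (ZMod 2) (K → ZMod 2))
  node_mem : ∀ a, Vs pr (stN act a) ∈ fam
  tame6 : ∀ l : Fin 6 → Submodule (ZMod 2) (K → ZMod 2), (∀ i, l i = ⊥ ∨ l i ∈ fam) →
    toGad.Tame (⨆ i, l i)

namespace Eng

variable {Rel : ℕ → Type} {P K G : Type} [Fintype K] [Group G] (E : Eng Rel P K G)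

/-- The space of a node. -/
def Vn (a : E.C.N) : Submodule (ZMod 2) (K → ZMod 2) := Vs E.pr (stN E.act a)

/-- The space of a set of signed nodes (of a line). -/
def Vl (X : Set (Lit E.C.N)) : Submodule (ZMod 2) (K → ZMod 2) := Vs E.pr (stS E.act X)

open Classical in
/-- The truth value of a node at a world on `Vn a`. -/
noncomputable def val (a : E.C.N) (f : Wd K) : Prop :=
  match h : E.C.gate a with
  | .var v => E.leaf v f
  | .and S => ∀ x : {x // x ∈ S},
      (val x.1.node (E.toGad.ext (E.Vn a) (E.Vn a ⊔ E.Vn x.1.node) f) ↔ x.1.pos = true)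
  | .sym A S => {x : Lit E.C.N | ∃ hx : x ∈ S,
      (val (⟨x, hx⟩ : {x // x ∈ S}).1.node
        (E.toGad.ext (E.Vn a) (E.Vn a ⊔ E.Vn x.node) f) ↔ x.pos = true)}.ncard ∈ A
termination_by E.C.rank a
decreasing_by
  · exact E.C.rank_lt a x.1 (by rw [h]; exact x.2)
  · exact E.C.rank_lt a x (by rw [h]; exact hx)

/-- The truth value of a signed node. -/
def tr (x : Lit E.C.N) (f : Wd K) : Prop := E.val x.node f ↔ x.pos = true

/-- The number of the true members of `S` at the world `f` on `U`. -/
noncomputable def cnt (S : Set (Lit E.C.N)) (U : Submodule (ZMod 2) (K → ZMod 2)) (f : Wd K) :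
    ℕ := {x | x ∈ S ∧ E.tr x (E.toGad.ext U (U ⊔ E.Vn x.node) f)}.ncard

theorem val_var {a : E.C.N} {v : Atom Rel P} (h : E.C.gate a = .var v) (f : Wd K) :
    E.val a f ↔ E.leaf v f := by
  unfold val
  split
  · next v' h' => rw [h] at h'; cases h'; rfl
  · next S h' => rw [h] at h'; cases h'
  · next A S h' => rw [h] at h'; cases h'

theorem val_and {a : E.C.N} {S : Set (Lit E.C.N)} (h : E.C.gate a = .and S) (f : Wd K) :
    E.val a f ↔ ∀ x ∈ S, E.tr x (E.toGad.ext (E.Vn a) (E.Vn a ⊔ E.Vn x.node) f) := by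
  unfold val
  split
  · next v' h' => rw [h] at h'; cases h'
  · next S' h' =>
      rw [h] at h'; cases h'
      constructor
      · intro H x hx; exact H ⟨x, hx⟩
      · intro H x; exact H x.1 x.2
  · next A S h' => rw [h] at h'; cases h'

theorem val_sym {a : E.C.N} {A : Set ℕ} {S : Set (Lit E.C.N)} (h : E.C.gate a = .sym A S)
    (f : Wd K) : E.val a f ↔ E.cnt S (E.Vn a) f ∈ A := by
  unfold val
  split
  · next v' h' => rw [h] at h'; cases h'
  · next S' h' => rw [h] at h'; cases h'
  · next A' S' h' =>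
      rw [h] at h'; cases h'
      have : {x : Lit E.C.N | ∃ hx : x ∈ S,
          (E.val (⟨x, hx⟩ : {x // x ∈ S}).1.node
            (E.toGad.ext (E.Vn a) (E.Vn a ⊔ E.Vn x.node) f) ↔ x.pos = true)} =
          {x | x ∈ S ∧ E.tr x (E.toGad.ext (E.Vn a) (E.Vn a ⊔ E.Vn x.node) f)} := by
        ext x
        simp only [Set.mem_setOf_eq, exists_prop]
        rfl
      rw [this]
      rfl

/-- `U` lies in the sum of at most `k` spaces of the family. -/
def Sm (k : ℕ) (U : Submodule (ZMod 2) (K → ZMod 2)) : Prop :=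
  ∃ l : Fin k → Submodule (ZMod 2) (K → ZMod 2), (∀ i, l i = ⊥ ∨ l i ∈ E.fam) ∧ U ≤ ⨆ i, l i

/-- The truth of a line. -/
def Tru (Λ : Set (Lit E.C.N)) : Prop :=
  ∀ f, E.toGad.IsW (E.Vl Λ) f →
    ∃ x ∈ Λ, E.tr x (E.toGad.ext (E.Vl Λ) (E.Vl Λ ⊔ E.Vn x.node) f)

/-- The sentence `A` is true: at every world on a tame space that contains the space `Y` of the
instance, some member of the instance is true at every world that agrees on `Y`. -/
def AxOK (A : Ax Rel) : Prop :=
  ∀ v : Fin A.k → P, ∃ Y ∈ E.fam, ∀ (U : Submodule (ZMod 2) (K → ZMod 2)) (f : Wd K), Y ≤ U →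
    E.toGad.Tame U → E.toGad.IsW U f →
      ∃ x ∈ A.inst v, ∀ f', E.toGad.Agr Y f f' → (E.leaf x.1 f' ↔ x.2 = true)

end Eng

end Pool.Agent.H42.CS
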