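import Pool.Agent.H42.CS.GrA

/-!
# Groups II: every permutation group contains cells

PROOF of `cells_of_orbits` by induction on `m`. `m = 0`: all orbits are points, so `K` is trivial;
take `r = 0`, `H = K`. Step: let `K` have orbits of size at most `2 ^ (m + 1)`. Let `J` be the set of
the nontrivial orbits of `K` (as a type: the subtype of `Set P` of the sets
`{y | ∃ g ∈ K, g x = y}` with `x` moved by `K`); for each `o ∈ J` choose a halving `O o`, `χ o` by
`halving` and put `Φ g o := χ o g`. `infoset` gives `r'` and `j`. Let `K' := {g ∈ K | Φ g = 0}`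
(a subgroup of `Equiv.Perm P`; a 2-group); an orbit of `K'` lies in one half of an orbit of `K`, so
it has size at most `2 ^ m` (trivial orbits of `K`: size 1). By the induction hypothesis there are
`r''` and cells `M''` with `M''.H ≤ K'` and `card K' ≤ 2 ^ (r'' * m)`. If `r'' ≤ r'`: take `H := K`,
the cells `C i b := O (j i) b`, `pr g i := χ (j i) g`, `r := r'`; `card K = card K' * 2 ^ r' ≤
2 ^ (r'' m + r') ≤ 2 ^ (r' (m + 1))`. If `r' < r''`: take `M''`: `card K ≤ 2 ^ (r'' m + r') ≤
2 ^ (r'' (m + 1))`. (Different orbits are disjoint, the halves of an orbit are disjoint, so all the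
`C i b` are disjoint, as `j` is injective.)

PROOF of `exists_cells`: let `K` be (the image in `Equiv.Perm (Fin n)` of) a Sylow 2-subgroup of `Γ`;
`2 ^ h ∣ card K` (`Sylow.card_eq_multiplicity` or `Sylow.dvd_card...`,
`Sylow.exists_subgroup_card_pow_prime` gives even a subgroup of order exactly `2 ^ h`, which is all
that is needed: take `K` of order `2 ^ h`). The orbits of `K` have sizes dividing `card K`
(`MulAction.card_orbit_mul_card_stabilizer_eq_card_group`), so powers of 2, and at most `n`, so at most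
`2 ^ (Nat.log 2 n)`. Apply `cells_of_orbits` with `m = Nat.log 2 n`: `2 ^ h ≤ 2 ^ (r * m)`.
-/

set_option autoImplicit false

namespace Pool.Agent.H42.CS

private theorem zm2b (a : ZMod 2) : a = 0 ∨ a = 1 := by
  revert a
  decide

/-- the orbit of a point -/
private def Orb {P : Type} (K : Subgroup (Equiv.Perm P)) (x : P) : Set P := {y | ∃ g ∈ K, g x = y}

private theorem orb_self {P : Type} (K : Subgroup (Equiv.Perm P)) (x : P) : x ∈ Orb K x :=
  ⟨1, K.one_mem, rfl⟩

private theorem orb_eq {P : Type} (K : Subgroup (Equiv.Perm P)) {x y : P} (h : y ∈ Orb K x) : Orb K y = Orb K x := by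
  obtain ⟨g, hg, rfl⟩ := h
  ext z
  constructor
  · rintro ⟨g', hg', rfl⟩
    exact ⟨g' * g, K.mul_mem hg' hg, rfl⟩
  · rintro ⟨g', hg', rfl⟩
    refine ⟨g' * g⁻¹, K.mul_mem hg' (K.inv_mem hg), ?_⟩
    rw [Equiv.Perm.mul_apply]
    congr 1
    exact g.symm_apply_apply x

theorem cells_of_orbits {P : Type} [Finite P] (m : ℕ) :
    ∀ K : Subgroup (Equiv.Perm P), IsPGroup 2 K →
      (∀ x : P, {y | ∃ g ∈ K, g x = y}.ncard ≤ 2 ^ m) →
      ∃ (r : ℕ) (M : Cells P r), M.H ≤ K ∧ Nat.card K ≤ 2 ^ (r * m) := by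
  classical
  induction m with
  | zero =>
    intro K _ hO
    have hK : K = ⊥ := by
      rw [eq_bot_iff]
      intro g hg
      rw [Subgroup.mem_bot]
      ext x
      have h1 := hO x
      rw [pow_zero] at h1
      exact (Set.ncard_le_one (Set.toFinite _)).1 h1 _ ⟨g, hg, rfl⟩ _ ⟨1, K.one_mem, rfl⟩
    refine ⟨0, ⟨K, fun i => i.elim0, fun _ i => i.elim0, fun _ _ => funext fun i => i.elim0,
      fun f => ⟨1, funext fun i => i.elim0⟩, fun i => i.elim0, fun i => i.elim0, fun _ i => i.elim0⟩, le_rfl, ?_⟩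
    rw [hK, Subgroup.card_bot]
    exact Nat.one_le_two_pow
  | succ m ih =>
    intro K hK hO
    let J : Type := {o : Set P // ∃ x, (∃ g ∈ K, g x ≠ x) ∧ o = Orb K x}
    have hJ : Finite J := Subtype.finite
    have hJx : ∀ o : J, ∃ x, (∃ g ∈ K, g x ≠ x) ∧ o.1 = Orb K x := fun o => o.2
    choose xo hxo hoe using hJx
    have hh := fun o : J => halving K hK (xo o) (hxo o)
    choose O χ hχm himg hdis huni hne hcard heq using hh
    have huni' : ∀ o : J, O o 0 ∪ O o 1 = o.1 := fun o => (huni o).trans (hoe o).symm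
    obtain ⟨r', j, hj, hsur, hcK⟩ := infoset (fun (g : K) (o : J) => χ o g)
      (fun g g' => funext fun o => hχm o g g')
    have hχ1 : ∀ o, χ o 1 = 0 := by
      intro o
      have h1 := hχm o 1 1
      rw [mul_one] at h1
      have h3 : χ o 1 + 0 = χ o 1 + χ o 1 := by rw [add_zero]; exact h1
      exact (add_left_cancel h3).symm
    let ψ : K →* Multiplicative (J → ZMod 2) :=
      { toFun := fun g => Multiplicative.ofAdd fun o => χ o g
        map_one' := by
          show Multiplicative.ofAdd (fun o => χ o 1) = 1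
          rw [show (fun o => χ o 1) = 0 from funext hχ1]
          rfl
        map_mul' := fun g g' => by
          show Multiplicative.ofAdd (fun o => χ o (g * g')) = _
          rw [show (fun o => χ o (g * g')) = (fun o => χ o g) + fun o => χ o g' from funext fun o => hχm o g g']
          rfl }
    have hψ : ∀ g : K, g ∈ ψ.ker ↔ (fun o => χ o g) = 0 := by
      intro g
      rw [MonoidHom.mem_ker]
      exact Iff.rfl
    let K' : Subgroup (Equiv.Perm P) := ψ.ker.map K.subtype
    have hK'K : K' ≤ K := Subgroup.map_subtype_le _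
    have hK'm : ∀ g ∈ K', ∃ h : g ∈ K, ∀ o, χ o ⟨g, h⟩ = 0 := by
      rintro _ ⟨g, hg, rfl⟩
      exact ⟨g.2, fun o => congrFun ((hψ g).1 hg) o⟩
    have hcK' : Nat.card K' = Nat.card {g : K // (fun o => χ o g) = 0} := by
      have h1 : Nat.card K' = Nat.card ψ.ker :=
        (Nat.card_congr (ψ.ker.equivMapOfInjective K.subtype K.subtype_injective).toEquiv).symm
      rw [h1]
      exact Nat.card_congr (Equiv.subtypeEquivRight fun g => hψ g)
    have hcard2 : ∀ (o : J) (b : ZMod 2), (O o b).ncard ≤ 2 ^ m := by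
      intro o b
      have h1 : 2 * (O o 0).ncard ≤ 2 ^ (m + 1) := by
        rw [hcard o]
        exact hO (xo o)
      have h2 : (O o 0).ncard ≤ 2 ^ m := by
        rw [pow_succ] at h1
        omega
      rcases zm2b b with rfl | rfl
      · exact h2
      · rw [← heq o]
        exact h2
    have hO' : ∀ x : P, {y | ∃ g ∈ K', g x = y}.ncard ≤ 2 ^ m := by
      intro x
      by_cases hx : ∃ g ∈ K, g x ≠ x
      · let o : J := ⟨Orb K x, x, hx, rfl⟩
        have h1 : x ∈ O o 0 ∪ O o 1 := by
          rw [huni' o]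
          exact orb_self K x
        obtain ⟨b, hb⟩ : ∃ b, x ∈ O o b := by
          rcases h1 with h1 | h1
          · exact ⟨0, h1⟩
          · exact ⟨1, h1⟩
        refine (Set.ncard_le_ncard ?_ (Set.toFinite _)).trans (hcard2 o b)
        rintro _ ⟨g, hg, rfl⟩
        obtain ⟨h2, h3⟩ := hK'm g hg
        have h4 := himg o ⟨g, h2⟩ b
        rw [h3 o, add_zero] at h4
        rw [← h4]
        exact ⟨x, hb, rfl⟩
      · push Not at hx
        have h1 : {y | ∃ g ∈ K', g x = y} ⊆ {x} := by
          rintro _ ⟨g, hg, rfl⟩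
          exact hx g (hK'K hg)
        refine (Set.ncard_le_ncard h1 (Set.toFinite _)).trans ?_
        rw [Set.ncard_singleton]
        exact Nat.one_le_two_pow
    obtain ⟨r'', M'', hM'', hc''⟩ := ih K' (hK.to_le hK'K) hO'
    have hcard' : Nat.card K = Nat.card K' * 2 ^ r' := by
      rw [hcK']
      exact hcK
    rcases le_or_gt r'' r' with hr | hr
    · have hsub : ∀ (o : J) (b : ZMod 2), O o b ⊆ o.1 := by
        intro o b
        rw [← huni' o]
        rcases zm2b b with rfl | rfl
        · exact Set.subset_union_left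
        · exact Set.subset_union_right
      refine ⟨r', ⟨K, fun i b => O (j i) b, fun g i => χ (j i) g, fun g g' => funext fun i => hχm (j i) g g', hsur,
        fun i b => hne (j i) b, fun i b i' c hic => ?_, fun g i b => himg (j i) g b⟩, le_rfl, ?_⟩
      · by_cases hii : i = i'
        · subst hii
          have hbc : b ≠ c := fun h => hic (by rw [h])
          rcases zm2b b with rfl | rfl <;> rcases zm2b c with rfl | rfl
          · exact absurd rfl hbc
          · exact hdis (j i)
          · exact (hdis (j i)).symm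
          · exact absurd rfl hbc
        · rw [Set.disjoint_left]
          intro y hy hy'
          apply hii
          apply hj
          apply Subtype.ext
          have h1 := hsub _ _ hy
          have h2 := hsub _ _ hy'
          rw [hoe] at h1 h2
          rw [hoe, hoe, ← orb_eq K h1, ← orb_eq K h2]
      · rw [hcard']
        calc Nat.card K' * 2 ^ r' ≤ 2 ^ (r'' * m) * 2 ^ r' := Nat.mul_le_mul_right _ hc''
          _ = 2 ^ (r'' * m + r') := (pow_add _ _ _).symm
          _ ≤ 2 ^ (r' * (m + 1)) := Nat.pow_le_pow_right (by norm_num) (by nlinarith)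
    · refine ⟨r'', M'', hM''.trans hK'K, ?_⟩
      rw [hcard']
      calc Nat.card K' * 2 ^ r' ≤ 2 ^ (r'' * m) * 2 ^ r' := Nat.mul_le_mul_right _ hc''
        _ = 2 ^ (r'' * m + r') := (pow_add _ _ _).symm
        _ ≤ 2 ^ (r'' * (m + 1)) := Nat.pow_le_pow_right (by norm_num) (by nlinarith)

theorem exists_cells {n : ℕ} (Γ : Subgroup (Equiv.Perm (Fin n))) (h : ℕ)
    (hd : 2 ^ h ∣ Nat.card Γ) :
    ∃ (r : ℕ) (M : Cells (Fin n) r), M.H ≤ Γ ∧ h ≤ r * Nat.log 2 n := by
  have hf : Fact (Nat.Prime 2) := ⟨Nat.prime_two⟩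
  obtain ⟨K₀, hK₀⟩ := Sylow.exists_subgroup_card_pow_prime (G := Γ) 2 hd
  let K : Subgroup (Equiv.Perm (Fin n)) := K₀.map Γ.subtype
  have hcK : Nat.card K = 2 ^ h := by
    rw [← hK₀]
    exact (Nat.card_congr (K₀.equivMapOfInjective Γ.subtype Γ.subtype_injective).toEquiv).symm
  have hKΓ : K ≤ Γ := Subgroup.map_subtype_le _
  obtain ⟨r, M, hM, hc⟩ := cells_of_orbits (Nat.log 2 n) K (IsPGroup.of_card hcK) (fun x => by
    have h1 : {y | ∃ g ∈ K, g x = y} = MulAction.orbit K x := by
      ext y
      constructor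
      · rintro ⟨g, hg, hy⟩
        exact ⟨⟨g, hg⟩, hy⟩
      · rintro ⟨g, hy⟩
        exact ⟨g.1, g.2, hy⟩
    rw [h1, ← MulAction.index_stabilizer]
    have h2 : (MulAction.stabilizer K x).index ∣ 2 ^ h := by
      rw [← hcK]
      exact Subgroup.index_dvd_card _
    obtain ⟨a, -, ha⟩ := (Nat.dvd_prime_pow Nat.prime_two).1 h2
    have h3 : (MulAction.stabilizer K x).index ≤ n := by
      rw [MulAction.index_stabilizer]
      have h4 := Set.ncard_le_ncard (Set.subset_univ (MulAction.orbit K x)) (Set.toFinite _)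
      rwa [Set.ncard_univ, Nat.card_fin] at h4
    rw [ha] at h3 ⊢
    have hn : n ≠ 0 := by
      intro h0
      rw [h0] at h3
      exact absurd h3 (by have := Nat.one_le_two_pow (n := a); omega)
    exact Nat.pow_le_pow_right (by norm_num) ((Nat.le_log_iff_pow_le (by norm_num) hn).2 h3))
  refine ⟨r, M, hM.trans hKΓ, ?_⟩
  rw [hcK] at hc
  exact (Nat.pow_le_pow_iff_right (by norm_num)).1 hc

end Pool.Agent.H42.CS
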