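import Pool.Agent.H42.CS.Mo2
import Pool.Agent.H42.CS.Eng

/-!
# The lower bound: preparations

PROOF of `exists_placing`: `{x | inB L x} ⊕ {s | isS L s} × Bool` is finite with at most
`L ^ d + 2 * (L ^ d * d ^ 2) ≤ r` elements (`box_fin`, `isS_fin`): an injection into `Fin r`; extend the
two maps outside arbitrarily (`r > 0`).

PROOF of `index_stN`, `index_stS`: `stN act a` is the stabiliser of `a` for the action of `G` on the
nodes; the index is the size of the orbit (the map `G ⧸ stN → N`, `g ↦ act g a` is injective), at most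
`Nat.card N`. The same for `Λ` in the finite invariant set `lines`.

PROOF of `card_csp`: the finite sets `s` with at most `k` elements are the images (without `none`) of the
functions `Fin k → Option K`; `csp s` is in bijection with the functions on `s`.

PROOF of `size_ge_two`: if the circuit has no node then `∅` is the only line, and no step leads to it:
every instance has a member (`Ins` over a nonempty `P`; use `T_ins`), `weak` would need an earlier line
`∅`, all other rules need a node (cover: `c = 0`). So there is a node, and a line.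
-/

set_option autoImplicit false

namespace Pool.Agent.H42.CS

/-- the code of a point of the box -/
private def enc {d : ℕ} (L : ℕ) (hL : 0 < L) (x : Pt d) : Fin d → Fin L :=
  fun i => ⟨(x i).toNat % L, Nat.mod_lt _ hL⟩

private theorem enc_inj {d L : ℕ} (hL : 0 < L) {x x' : Pt d} (hx : inB L x) (hx' : inB L x')
    (h : enc L hL x = enc L hL x') : x = x' := by
  funext i
  have h1 := congrFun h i
  unfold enc at h1
  rw [Fin.mk.injEq] at h1
  obtain ⟨a1, a2⟩ := hx i
  obtain ⟨b1, b2⟩ := hx' i
  rw [Nat.mod_eq_of_lt (by omega), Nat.mod_eq_of_lt (by omega)] at h1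
  omega

theorem exists_placing {d L r : ℕ} (hL : 0 < L) (hr : L ^ d * (1 + 2 * d ^ 2) ≤ r) :
    ∃ (cv : Pt d → Fin r) (cand : Sq d → Bool → Fin r),
      Set.InjOn cv {x | inB L x} ∧
      (∀ s b s' b', isS L s → isS L s' → cand s b = cand s' b' → s = s' ∧ b = b') ∧
      ∀ x s b, inB L x → isS L s → cv x ≠ cand s b := by
  have hcard : Fintype.card ((Fin d → Fin L) ⊕ ((Fin d → Fin L) × Fin d × Fin d × Bool)) ≤
      Fintype.card (Fin r) := by
    rw [Fintype.card_sum, Fintype.card_prod, Fintype.card_prod, Fintype.card_prod,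
      Fintype.card_fun, Fintype.card_fin, Fintype.card_fin, Fintype.card_bool, Fintype.card_fin]
    refine le_trans (le_of_eq ?_) hr
    ring
  obtain ⟨e⟩ := Function.Embedding.nonempty_of_card_le hcard
  refine ⟨fun x => e (Sum.inl (enc L hL x)), fun s b => e (Sum.inr (enc L hL s.1, s.2.1, s.2.2, b)),
    ?_, ?_, ?_⟩
  · intro x hx x' hx' h
    exact enc_inj hL hx hx' (Sum.inl.inj (e.injective h))
  · intro s b s' b' hs hs' h
    have h1 := Sum.inr.inj (e.injective h)
    rw [Prod.mk.injEq, Prod.mk.injEq, Prod.mk.injEq] at h1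
    obtain ⟨h2, h3, h4, h5⟩ := h1
    exact ⟨Prod.ext (enc_inj hL hs.2.1 hs'.2.1 h2) (Prod.ext h3 h4), h5⟩
  · intro x s b _ _ h
    exact Sum.inl_ne_inr (e.injective h)

private theorem idx_le {G X : Type} [Group G] (H : Subgroup G) (S : Set X) [Finite S] (f : G → X)
    (hf : ∀ g, f g ∈ S) (h : ∀ g g', f g = f g' → g⁻¹ * g' ∈ H) : H.index ≤ Nat.card S := by
  unfold Subgroup.index
  apply Nat.card_le_card_of_injective (fun q : G ⧸ H => (⟨f q.out, hf _⟩ : S))
  intro q q' hq
  have h1 : f q.out = f q'.out := congrArg Subtype.val hq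
  have h2 := QuotientGroup.eq.2 (h _ _ h1)
  rw [QuotientGroup.out_eq', QuotientGroup.out_eq'] at h2
  exact h2

theorem index_stN {N G : Type} [Finite N] [Group G] (act : G →* Equiv.Perm N) (a : N) :
    (stN act a).index ≤ Nat.card N := by
  rw [← Nat.card_univ (α := N)]
  apply idx_le (stN act a) Set.univ (fun g => act g a) (fun _ => Set.mem_univ _)
  intro g g' h
  show act (g⁻¹ * g') a = a
  have h' : act g a = act g' a := h
  rw [map_mul, Equiv.Perm.mul_apply, ← h', map_inv, Equiv.Perm.inv_eq_iff_eq]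

private theorem finLit (N : Type) [Finite N] : Finite (Lit N) :=
  Finite.of_injective (fun x : Lit N => (x.node, x.pos)) fun x y h => by
    have h1 := Prod.mk.inj h
    exact Lit.ext h1.1 h1.2

theorem index_stS {N G : Type} [Finite N] [Group G] (act : G →* Equiv.Perm N)
    (lines : Set (Set (Lit N))) (h : ∀ g, ∀ Λ ∈ lines, Lit.map (act g) '' Λ ∈ lines)
    (Λ : Set (Lit N)) (hΛ : Λ ∈ lines) : (stS act Λ).index ≤ lines.ncard := by
  have := finLit N
  rw [← Nat.card_coe_set_eq]
  apply idx_le (stS act Λ) lines (fun g => Lit.map (act g) '' Λ) (fun g => h g Λ hΛ)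
  intro g g' hg
  show Lit.map (act (g⁻¹ * g')) '' Λ = Λ
  have h1 : (Lit.map (act (g⁻¹ * g')) : Lit N → Lit N) = Lit.map (act g⁻¹) ∘ Lit.map (act g') := by
    funext z
    simp [Lit.map]
  have h2 : (Lit.map (act g⁻¹) ∘ Lit.map (act g) : Lit N → Lit N) = id := by
    funext z
    simp [Lit.map]
  have hg' : Lit.map (act g) '' Λ = Lit.map (act g') '' Λ := hg
  rw [h1, Set.image_comp, ← hg', ← Set.image_comp, h2, Set.image_id]

theorem card_csp {K : Type} [Fintype K] (k : ℕ) :
    {A : Submodule (ZMod 2) (K → ZMod 2) | ∃ s : Finset K, s.card ≤ k ∧ A = csp s}.ncard ≤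
      (Fintype.card K + 1) ^ k ∧
    ∀ s : Finset K, s.card ≤ k → Nat.card (csp s : Submodule (ZMod 2) (K → ZMod 2)) ≤ 2 ^ k := by
  classical
  constructor
  · let F : (Fin k → Option K) → Submodule (ZMod 2) (K → ZMod 2) := fun φ =>
      csp (Finset.univ.filter fun x : K => ∃ i, φ i = some x)
    have hsub : {A : Submodule (ZMod 2) (K → ZMod 2) | ∃ s : Finset K, s.card ≤ k ∧ A = csp s} ⊆
        Set.range F := by
      rintro A ⟨s, hs, rfl⟩
      refine ⟨fun i => if h : (i : ℕ) < s.card then some (s.equivFin.symm ⟨i, h⟩ : s).1 else none, ?_⟩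
      show csp _ = csp s
      congr 1
      ext x
      rw [Finset.mem_filter]
      constructor
      · rintro ⟨_, i, hi⟩
        beta_reduce at hi
        by_cases h : (i : ℕ) < s.card
        · rw [dif_pos h] at hi
          have h1 := Option.some.inj hi
          rw [← h1]
          exact (s.equivFin.symm ⟨i, h⟩ : s).2
        · rw [dif_neg h] at hi
          exact absurd hi (by simp)
      · intro hx
        refine ⟨Finset.mem_univ _, ⟨(s.equivFin ⟨x, hx⟩ : Fin s.card), (s.equivFin ⟨x, hx⟩).2.trans_le hs⟩, ?_⟩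
        beta_reduce
        rw [dif_pos (s.equivFin ⟨x, hx⟩).2]
        congr 1
        have h1 : (⟨((s.equivFin ⟨x, hx⟩ : Fin s.card) : ℕ), (s.equivFin ⟨x, hx⟩).2⟩ : Fin s.card) =
            s.equivFin ⟨x, hx⟩ := Fin.ext rfl
        rw [h1, Equiv.symm_apply_apply]
    have h1 := Set.ncard_le_ncard hsub (Set.finite_range F)
    refine h1.trans ?_
    rw [← Nat.card_coe_set_eq]
    refine (Nat.card_le_card_of_surjective (Set.rangeFactorization F) Set.rangeFactorization_surjective).trans ?_
    rw [Nat.card_eq_fintype_card, Fintype.card_fun, Fintype.card_option, Fintype.card_fin]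
  · intro s hs
    have h1 : Nat.card (csp s : Submodule (ZMod 2) (K → ZMod 2)) ≤ Nat.card (s → ZMod 2) := by
      apply Nat.card_le_card_of_injective
        (fun (y : (csp s : Submodule (ZMod 2) (K → ZMod 2))) (i : s) => (y : K → ZMod 2) i)
      intro y y' h
      apply Subtype.ext
      funext i
      by_cases hi : i ∈ s
      · exact congrFun h ⟨i, hi⟩
      · rw [y.2 i hi, y'.2 i hi]
    refine h1.trans ?_
    rw [Nat.card_eq_fintype_card, Fintype.card_fun, ZMod.card, Fintype.card_coe]
    exact Nat.pow_le_pow_right (by norm_num) hs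

private theorem ins_ne {d : ℕ} {P : Type} [hP : Nonempty P] {Λ : Set (Atom (Re d) P × Bool)} (h : Ins Λ) :
    Λ.Nonempty := by
  obtain ⟨p⟩ := hP
  cases h with
  | er x => exact ⟨_, Set.mem_singleton _⟩
  | es x y => exact ⟨_, Set.mem_insert _ _⟩
  | et x y z => exact ⟨_, Set.mem_insert _ _⟩
  | jf a x y z => exact ⟨_, Set.mem_insert _ _⟩
  | ji a x y z => exact ⟨_, Set.mem_insert _ _⟩
  | je a x y x' y' => exact ⟨_, Set.mem_insert _ _⟩
  | rp a q u => exact ⟨_, Or.inl rfl⟩
  | rn a q u => exact ⟨_, Or.inl rfl⟩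
  | r5 a b q q' u => exact ⟨_, Set.mem_insert _ _⟩
  | f6 a t b q q' u => exact ⟨_, Set.mem_insert _ _⟩
  | f7 τ q => exact ⟨_, p, rfl⟩
  | v8 W q u => exact ⟨_, Or.inr rfl⟩
  | z1 => exact ⟨_, p, rfl⟩
  | z2 x y => exact ⟨_, Set.mem_insert _ _⟩
  | z3 x y => exact ⟨_, Set.mem_insert _ _⟩

private theorem no_step {d n : ℕ} [Nonempty (Fin n)] (C : Circuit (Re d) (Fin n)) (hemp : IsEmpty C.N)
    (Pr : Set (Set (Lit C.N))) (hPr : ∀ Δ, Δ ∉ Pr) (Λ : Set (Lit C.N)) (h : Step (T d) C Pr Λ) : False := by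
  cases h with
  | @hyp A v hA h =>
    obtain ⟨x, hx⟩ := ins_ne (T_ins A hA v)
    obtain ⟨a, _⟩ := h x hx
    exact hemp.false a
  | @ident a b h1 h2 h3 => exact hemp.false a
  | @weak Δ h1 h2 => exact hPr Δ h1
  | @cut a h1 h2 => exact hemp.false a
  | @andI S a h1 h2 h3 => exact hemp.false a
  | @andE S a h1 h2 h3 => exact hemp.false a
  | @cover S h1 =>
    obtain ⟨a, _⟩ := h1 0 (Nat.zero_le _)
    exact hemp.false a
  | @unit a A x h1 h2 h3 => exact hemp.false a
  | @sum a p B A A' S h1 h2 h3 h4 h5 h6 h7 => exact hemp.false a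
  | @dist a F J B u A A' h1 h2 h3 h4 h5 h6 h7 h8 => exact hemp.false a

theorem size_ge_two {d n : ℕ} (hn : 0 < n) (R : Refutation (T d) (Fin n)) : 2 ≤ R.size := by
  have hP : Nonempty (Fin n) := ⟨⟨0, hn⟩⟩
  have hfin : Finite R.C.N := R.C.fin
  have hfl := finLit R.C.N
  have h1 : 1 ≤ R.lines.ncard := by
    have h2 : 0 < R.lines.ncard := (Set.ncard_pos (Set.toFinite _)).2 ⟨∅, R.empty_mem⟩
    exact h2
  have h2 : 1 ≤ Nat.card R.C.N := by
    have hne : Nonempty R.C.N := by
      by_contra hemp
      rw [not_nonempty_iff] at hemp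
      have hall : ∀ Δ : Set (Lit R.C.N), Δ = ∅ := by
        intro Δ
        ext x
        exact isEmptyElim x.node
      refine no_step R.C hemp _ (fun Δ hΔ => ?_) ∅ (R.step ∅ R.empty_mem)
      have h3 : R.order Δ < R.order ∅ := hΔ.2
      rw [hall Δ] at h3
      exact lt_irrefl _ h3
    exact Nat.card_pos
  unfold Refutation.size
  omega

end Pool.Agent.H42.CS
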