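import Pool.Agent.H42.CS.Grd

/-!
# Random choice of the cells of the squares

PROOF. Let `Y` be the finite set of all `y ∈ l 0 ⊔ … ⊔ l 5`, `l i ∈ Sp ∪ {⊥}`, that have more than `w`
nonzero values: at most `(M + 1) ^ 6 * M ^ 6` of them, because a sum of six spaces with at most `M`
members each has at most `M ^ 6` members (`M ≥ 1` if `Sp` is nonempty; a member of the sum is a sum of
members) and there are at most `(M + 1) ^ 6` six-tuples; `(M + 1) ^ 6 * M ^ 6 ≤ (2 M) ^ 12` (for
`M ≥ 1`; if `Sp = ∅` then all the sums are `⊥` and any `b` works). For a fixed `y ∈ Y` call `b` bad for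
`y` if all `k` with `y k ≠ 0` have the form `cand i (b i)`. If there is a bad `b` at all, then the support
of `y` is `{cand i (b i) : i ∈ A}` for a set `A` of at least `w + 1` indices, and (injectivity of `cand`)
every bad `b'` has `b' i = b i` for `i ∈ A`: at most `2 ^ (|I| - w - 1)` bad functions. Since
`(2 M) ^ 12 * 2 ^ (|I| - w - 1) < 2 ^ |I|`, some `b` is bad for no `y ∈ Y`.
-/

set_option autoImplicit false

namespace Pool.Agent.H42.CS

open Classical in
private theorem bad_card {K I : Type} [Fintype K] [Fintype I] (cand : I → Bool → K)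
    (hinj : ∀ i b i' b', cand i b = cand i' b' → i = i' ∧ b = b') (w : ℕ) (y : K → ZMod 2)
    (hy : w + 1 ≤ nm y) :
    (Finset.univ.filter fun b : I → Bool => ∀ k, y k ≠ 0 → ∃ i, k = cand i (b i)).card * 2 ^ (w + 1) ≤
      2 ^ Fintype.card I := by
  rcases Finset.eq_empty_or_nonempty
    (Finset.univ.filter fun b : I → Bool => ∀ k, y k ≠ 0 → ∃ i, k = cand i (b i)) with h0 | ⟨b0, hb0⟩
  · rw [h0, Finset.card_empty, Nat.zero_mul]
    exact Nat.zero_le _
  · have hb := (Finset.mem_filter.1 hb0).2
    obtain ⟨A, hA⟩ : ∃ A : Finset I, A = Finset.univ.filter fun i => y (cand i (b0 i)) ≠ 0 := ⟨_, rfl⟩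
    have h1 : nm y ≤ A.card := by
      unfold nm
      have h2 : {e | y e ≠ 0} ⊆ ((A.image fun i => cand i (b0 i) : Finset K) : Set K) := by
        intro k hk
        obtain ⟨i, hi⟩ := hb k hk
        rw [Finset.mem_coe, Finset.mem_image]
        refine ⟨i, ?_, hi.symm⟩
        rw [hA, Finset.mem_filter]
        refine ⟨Finset.mem_univ _, ?_⟩
        rw [← hi]
        exact hk
      calc {e | y e ≠ 0}.ncard ≤ ((A.image fun i => cand i (b0 i) : Finset K) : Set K).ncard :=
            Set.ncard_le_ncard h2 (Finset.finite_toSet _)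
        _ = (A.image fun i => cand i (b0 i)).card := Set.ncard_coe_finset _
        _ ≤ A.card := Finset.card_image_le
    have h3 : (Finset.univ.filter fun b : I → Bool => ∀ k, y k ≠ 0 → ∃ i, k = cand i (b i)) ⊆
        Fintype.piFinset fun i => if i ∈ A then {b0 i} else Finset.univ := by
      intro b hbb
      have hb' := (Finset.mem_filter.1 hbb).2
      rw [Fintype.mem_piFinset]
      intro i
      by_cases hi : i ∈ A
      · rw [if_pos hi, Finset.mem_singleton]
        have h4 : y (cand i (b0 i)) ≠ 0 := by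
          rw [hA, Finset.mem_filter] at hi
          exact hi.2
        obtain ⟨i', hi'⟩ := hb' _ h4
        obtain ⟨h5, h6⟩ := hinj _ _ _ _ hi'
        rw [h6, h5]
      · rw [if_neg hi]
        exact Finset.mem_univ _
    have h4 : (Fintype.piFinset fun i : I => if i ∈ A then ({b0 i} : Finset Bool) else Finset.univ).card =
        2 ^ (Fintype.card I - A.card) := by
      rw [Fintype.card_piFinset]
      have h5 : ∀ i : I, (if i ∈ A then ({b0 i} : Finset Bool) else Finset.univ).card = if i ∈ A then 1 else 2 := by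
        intro i
        split_ifs
        · exact Finset.card_singleton _
        · rfl
      rw [Finset.prod_congr rfl fun i _ => h5 i, Finset.prod_ite, Finset.prod_const_one, one_mul, Finset.prod_const]
      congr 1
      rw [← Finset.card_compl]
      congr 1
      ext i
      simp
    have h5 : A.card ≤ Fintype.card I := Finset.card_le_univ A
    calc _ ≤ 2 ^ (Fintype.card I - A.card) * 2 ^ (w + 1) :=
          Nat.mul_le_mul_right _ ((Finset.card_le_card h3).trans (le_of_eq h4))
      _ = 2 ^ (Fintype.card I - A.card + (w + 1)) := (pow_add _ _ _).symm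
      _ ≤ 2 ^ Fintype.card I := Nat.pow_le_pow_right (by norm_num) (by omega)

theorem random_cells {K I : Type} [Finite K] [Finite I] (cand : I → Bool → K)
    (hinj : ∀ i b i' b', cand i b = cand i' b' → i = i' ∧ b = b')
    (Sp : Set (Submodule (ZMod 2) (K → ZMod 2))) (M w : ℕ) (hSp : Sp.ncard ≤ M)
    (hc : ∀ A ∈ Sp, Nat.card A ≤ M) (hM : (2 * M) ^ 12 < 2 ^ (w + 1)) :
    ∃ b : I → Bool, ∀ l : Fin 6 → Submodule (ZMod 2) (K → ZMod 2), (∀ i, l i = ⊥ ∨ l i ∈ Sp) →
      ∀ y ∈ ⨆ i, l i, (∀ k, y k ≠ 0 → ∃ i, k = cand i (b i)) → nm y ≤ w := by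
  classical
  have : Fintype K := Fintype.ofFinite K
  have : Fintype I := Fintype.ofFinite I
  have : Finite (Submodule (ZMod 2) (K → ZMod 2)) :=
    Finite.of_injective (fun A : Submodule (ZMod 2) (K → ZMod 2) => (A : Set (K → ZMod 2))) SetLike.coe_injective
  -- the union of the spaces
  obtain ⟨Z, hZ⟩ : ∃ Z : Finset (K → ZMod 2), Z = insert 0 (Finset.univ.filter fun y => ∃ A ∈ Sp, y ∈ A) := ⟨_, rfl⟩
  have hZc : Z.card ≤ 1 + M * M := by
    have h1 : (Finset.univ.filter fun y : K → ZMod 2 => ∃ A ∈ Sp, y ∈ A).card ≤ M * M := by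
      have h2 : (Finset.univ.filter fun y : K → ZMod 2 => ∃ A ∈ Sp, y ∈ A) ⊆
          (Set.toFinite Sp).toFinset.biUnion fun A => Finset.univ.filter fun y => y ∈ A := by
        intro y hy
        obtain ⟨A, hA, hyA⟩ := (Finset.mem_filter.1 hy).2
        rw [Finset.mem_biUnion]
        exact ⟨A, (Set.Finite.mem_toFinset _).2 hA, Finset.mem_filter.2 ⟨Finset.mem_univ _, hyA⟩⟩
      refine (Finset.card_le_card h2).trans ((Finset.card_biUnion_le_card_mul _ _ M fun A hA => ?_).trans ?_)
      · have h3 := hc A ((Set.Finite.mem_toFinset _).1 hA)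
        rw [Nat.card_eq_fintype_card] at h3
        refine le_trans (le_of_eq ?_) h3
        rw [Fintype.card_subtype]
      · refine Nat.mul_le_mul_right _ ?_
        rw [← Set.ncard_eq_toFinset_card]
        exact hSp
    rw [hZ]
    refine (Finset.card_insert_le _ _).trans ?_
    omega
  obtain ⟨Y, hY⟩ : ∃ Y : Finset (K → ZMod 2), Y = (Fintype.piFinset fun _ : Fin 6 => Z).image fun z => ∑ i, z i := ⟨_, rfl⟩
  have hYc : Y.card ≤ (1 + M * M) ^ 6 := by
    rw [hY]
    refine Finset.card_image_le.trans ?_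
    rw [Fintype.card_piFinset, Finset.prod_const, Finset.card_univ, Fintype.card_fin]
    exact Nat.pow_le_pow_left hZc 6
  have hYm : ∀ l : Fin 6 → Submodule (ZMod 2) (K → ZMod 2), (∀ i, l i = ⊥ ∨ l i ∈ Sp) → ∀ y ∈ ⨆ i, l i, y ∈ Y := by
    intro l hl y hy
    rw [Submodule.mem_iSup_iff_exists_finsupp] at hy
    obtain ⟨f, hf, hfy⟩ := hy
    rw [hY, Finset.mem_image]
    refine ⟨fun i => f i, ?_, ?_⟩
    · rw [Fintype.mem_piFinset]
      intro i
      rw [hZ, Finset.mem_insert, Finset.mem_filter]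
      rcases hl i with h | h
      · left
        have h1 := hf i
        rw [h, Submodule.mem_bot] at h1
        exact h1
      · right
        exact ⟨Finset.mem_univ _, l i, h, hf i⟩
    · rw [← hfy, Finsupp.sum_fintype]
      intro i
      rfl
  by_contra hcon
  push Not at hcon
  rcases Nat.eq_zero_or_pos M with hM0 | hM0
  · -- no spaces
    obtain ⟨l, hl, y, hy, _, hw⟩ := hcon fun _ => true
    have hS : Sp = ∅ := by
      rw [hM0] at hSp
      exact (Set.ncard_eq_zero (Set.toFinite Sp)).1 (Nat.le_zero.1 hSp)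
    have h1 : ⨆ i, l i = ⊥ := by
      rw [iSup_eq_bot]
      intro i
      rcases hl i with h | h
      · exact h
      · rw [hS] at h
        exact absurd h (Set.notMem_empty _)
    rw [h1, Submodule.mem_bot] at hy
    rw [hy] at hw
    unfold nm at hw
    simp at hw
  · have h1 : (Finset.univ : Finset (I → Bool)) ⊆ (Y.filter fun y => w + 1 ≤ nm y).biUnion fun y =>
        Finset.univ.filter fun b : I → Bool => ∀ k, y k ≠ 0 → ∃ i, k = cand i (b i) := by
      intro b _
      obtain ⟨l, hl, y, hy, h2, h3⟩ := hcon b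
      rw [Finset.mem_biUnion]
      exact ⟨y, Finset.mem_filter.2 ⟨hYm l hl y hy, h3⟩, Finset.mem_filter.2 ⟨Finset.mem_univ _, h2⟩⟩
    have h2 := Finset.card_le_card h1
    rw [Finset.card_univ, Fintype.card_fun, Fintype.card_bool] at h2
    have h3 : 2 ^ Fintype.card I * 2 ^ (w + 1) ≤ Y.card * 2 ^ Fintype.card I := by
      calc 2 ^ Fintype.card I * 2 ^ (w + 1)
          ≤ (∑ y ∈ Y.filter fun y => w + 1 ≤ nm y, (Finset.univ.filter fun b : I → Bool =>
              ∀ k, y k ≠ 0 → ∃ i, k = cand i (b i)).card) * 2 ^ (w + 1) :=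
            Nat.mul_le_mul_right _ (h2.trans Finset.card_biUnion_le)
        _ = ∑ y ∈ Y.filter fun y => w + 1 ≤ nm y, (Finset.univ.filter fun b : I → Bool =>
              ∀ k, y k ≠ 0 → ∃ i, k = cand i (b i)).card * 2 ^ (w + 1) := Finset.sum_mul _ _ _
        _ ≤ ∑ y ∈ Y.filter fun y => w + 1 ≤ nm y, 2 ^ Fintype.card I :=
            Finset.sum_le_sum fun y hy => bad_card cand hinj w y (Finset.mem_filter.1 hy).2
        _ = (Y.filter fun y => w + 1 ≤ nm y).card * 2 ^ Fintype.card I := by
            rw [Finset.sum_const, smul_eq_mul]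
        _ ≤ Y.card * 2 ^ Fintype.card I := Nat.mul_le_mul_right _ (Finset.card_filter_le _ _)
    have h4 : 2 ^ (w + 1) ≤ Y.card := by
      have h5 : 0 < 2 ^ Fintype.card I := by positivity
      rw [mul_comm] at h3
      exact Nat.le_of_mul_le_mul_right h3 h5
    have h5 : (1 + M * M) ^ 6 ≤ (2 * M) ^ 12 := by
      have h6 : 1 + M * M ≤ (2 * M) ^ 2 := by nlinarith
      calc (1 + M * M) ^ 6 ≤ ((2 * M) ^ 2) ^ 6 := Nat.pow_le_pow_left h6 6
        _ = (2 * M) ^ 12 := by rw [← pow_mul]
    omega

end Pool.Agent.H42.CS
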