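import Pool.Agent.H42.CS.Cnt

/-!
# Soundness of the rules cover, unit and sum

Conventions as in Ru1: `f` a world on `Vl Λ`, `Tru_of`, `U`, `f'` an extension of `f` to `U`.

* `sound_cover`: take `a0, A0` for `c = 0`; `U := Vl Λ ⊔ Vn a0`, `f'`; `c := cnt S U f' ≤ S.ncard`
  (finite). Take `a, A, b` for this `c`; `U' := U ⊔ Vn a`, `f''` an extension of `f'`. By `cnt_eq` with
  `H = stN a0` (`stN_le_sym`) `cnt S U' f'' = c`. By `val_sym_iff`: `val a f'' ↔ c ∈ A ↔ b = true`; so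
  `⟨a, b⟩` is true at `f''`.
* `sound_unit`: `U := Vl Λ ⊔ Vn a ⊔ Vn x.node`; `cnt {x} U f' = 1` if `tr x f'` and `0` otherwise
  (`tr_ext`). `val_sym_iff`.
* `sound_sum`: `U := Vl Λ ⊔ Vn p ⊔ Vn a` (`Sm 3`). If `¬ val p f'` then `⟨p, false⟩` is true. Otherwise by
  `val_and_iff` for every `b ∈ B` the node `b` is true at `w b := ext U (U ⊔ Vn b) f'`, so
  `c b := cnt (S b) (U ⊔ Vn b) (w b) ∈ A b` (`val_sym_iff`; `U ⊔ Vn b` is `Sm 4`). By `two` with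
  `β = N`, `ac g b = act g b`, `H = stN p`, `Sp = Vn`: `∑ᶠ b ∈ B, c b = cnt (⋃ b ∈ B, S b) U f'`
  [`B` is `H`-invariant: by `stN_le_and` the set `{⟨b, true⟩ : b ∈ B}` is invariant. `S (act g b) =
  Lit.map (act g) '' S b` for `b, act g b ∈ B`: by `gate_act` `gate (act g b) = sym (A b) (image of S b)`
  and also `= sym (A (act g b)) (S (act g b))`.] The hypothesis `hc` for `c` (put `c b := cnt …` for all
  `b`) gives `cnt (⋃ …) U f' ∈ A'`, so `val a f'` (`val_sym_iff`).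
-/

set_option autoImplicit false

namespace Pool.Agent.H42.CS

namespace Eng

variable {Rel : ℕ → Type} {P K G : Type} [Fintype K] [Group G] (E : Eng Rel P K G)

private theorem fin_lit {N : Type} [Finite N] : Finite (Lit N) :=
  Finite.of_injective (fun x : Lit N => (x.node, x.pos)) (by
    intro x y h
    exact Lit.ext (congrArg Prod.fst h) (congrArg Prod.snd h))

omit [Fintype K] in
private theorem agr_mono {g : Gad K} {U U' : Submodule (ZMod 2) (K → ZMod 2)} (hle : U ≤ U') {f f' : Wd K}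
    (h : g.Agr U' f f') : g.Agr U f f' := fun y hy hD => h y (hle hy) hD

omit [Fintype K] in
private theorem agr_trans {g : Gad K} {U U' : Submodule (ZMod 2) (K → ZMod 2)} (hle : U ≤ U')
    {f f' f'' : Wd K} (h : g.Agr U f f') (h' : g.Agr U' f' f'') : g.Agr U f f'' :=
  fun y hy hD => (h y hy hD).trans (h' y (hle hy) hD)

theorem sound_cover {Λ S : Set (Lit E.C.N)} (hΛ : E.Vl Λ ∈ E.fam)
    (h : ∀ c ≤ S.ncard, ∃ (a : E.C.N) (A : Set ℕ) (b : Bool),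
      E.C.gate a = .sym A S ∧ (c ∈ A ↔ b = true) ∧ ⟨a, b⟩ ∈ Λ) : E.Tru Λ := by
  have : Finite (Lit E.C.N) := fin_lit
  refine E.Tru_of hΛ fun f hf => ?_
  obtain ⟨a0, A0, b0, hg0, -, -⟩ := h 0 (Nat.zero_le _)
  obtain ⟨U, hU⟩ : ∃ U, U = E.Vl Λ ⊔ E.Vn a0 := ⟨_, rfl⟩
  have hU1 : E.Vl Λ ≤ U := by
    rw [hU]
    exact le_sup_left
  have hU2 : E.Vn a0 ≤ U := by
    rw [hU]
    exact le_sup_right
  have hS2 : E.Sm 2 U := by
    rw [hU]
    exact E.Sm_sup (E.Sm_mem hΛ) (E.Sm_Vn a0)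
  have hT : E.toGad.Tame U := E.Sm_tame (E.Sm_mono (by norm_num) le_rfl hS2)
  obtain ⟨f', hf', ha'⟩ := E.toGad.ext_exists hU1 hT hf
  obtain ⟨c, hc⟩ : ∃ c, c = E.cnt S U f' := ⟨_, rfl⟩
  have hcS : c ≤ S.ncard := by
    rw [hc]
    exact Set.ncard_le_ncard (fun x hx => hx.1) (Set.toFinite S)
  obtain ⟨a, A, b, hg, hcb, hm⟩ := h c hcS
  obtain ⟨U', hU'⟩ : ∃ U', U' = U ⊔ E.Vn a := ⟨_, rfl⟩
  have hU1' : U ≤ U' := by
    rw [hU']
    exact le_sup_left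
  have hU2' : E.Vn a ≤ U' := by
    rw [hU']
    exact le_sup_right
  have hS3 : E.Sm 3 U' := by
    rw [hU']
    exact E.Sm_sup hS2 (E.Sm_Vn a)
  have hT' : E.toGad.Tame U' := E.Sm_tame (E.Sm_mono (by norm_num) le_rfl hS3)
  obtain ⟨f'', hf'', ha''⟩ := E.toGad.ext_exists hU1' hT' hf'
  have hcnt : E.cnt S U f' = E.cnt S U' f'' :=
    E.cnt_eq (stN E.act a0) S (E.stN_le_sym hg0) hU2 (hU2.trans hU1')
      (fun x _ => E.Sm_tame (E.Sm_mono (by norm_num) le_rfl (E.Sm_sup hS2 (E.Sm_Vn x.node))))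
      (fun x _ => E.Sm_tame (E.Sm_mono (by norm_num) le_rfl (E.Sm_sup hS3 (E.Sm_Vn x.node))))
      hf' hf'' (agr_mono hU2 ha'')
  have hS5 : E.Sm 5 U' := E.Sm_mono (by norm_num) le_rfl hS3
  refine ⟨U', f'', hU1.trans hU1', hS5, hf'', agr_trans hU1 ha' ha'', ⟨a, b⟩, hm, ?_⟩
  refine (E.tr_ext (x := ⟨a, b⟩) hU2' hT' hf'').2 ?_
  show E.val a f'' ↔ b = true
  rw [E.val_sym_iff hg hU2' hS5 hf'', ← hcnt, ← hc]
  exact hcb

theorem sound_unit {Λ : Set (Lit E.C.N)} (hΛ : E.Vl Λ ∈ E.fam) {a : E.C.N} {A : Set ℕ}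
    {x : Lit E.C.N} (h : E.C.gate a = .sym A {x}) (ha : ⟨a, true⟩ ∈ Λ)
    (hx : (1 ∈ A ∧ x.neg ∈ Λ) ∨ (0 ∈ A ∧ x ∈ Λ)) : E.Tru Λ := by
  have : Finite (Lit E.C.N) := fin_lit
  refine E.Tru_of hΛ fun f hf => ?_
  obtain ⟨U, hU⟩ : ∃ U, U = E.Vl Λ ⊔ E.Vn a ⊔ E.Vn x.node := ⟨_, rfl⟩
  have hU1 : E.Vl Λ ≤ U := by
    rw [hU]
    exact le_sup_left.trans le_sup_left
  have hU2 : E.Vn a ≤ U := by
    rw [hU]
    exact le_sup_right.trans le_sup_left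
  have hU3 : E.Vn x.node ≤ U := by
    rw [hU]
    exact le_sup_right
  have hS3 : E.Sm 3 U := by
    rw [hU]
    exact E.Sm_sup (E.Sm_sup (E.Sm_mem hΛ) (E.Sm_Vn a)) (E.Sm_Vn x.node)
  have hT : E.toGad.Tame U := E.Sm_tame (E.Sm_mono (by norm_num) le_rfl hS3)
  have hS5 : E.Sm 5 U := E.Sm_mono (by norm_num) le_rfl hS3
  obtain ⟨f', hf', ha'⟩ := E.toGad.ext_exists hU1 hT hf
  have hext := E.tr_ext (x := x) hU3 hT hf'
  by_cases ht : E.tr x f'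
  · have hcnt : E.cnt {x} U f' = 1 := by
      unfold cnt
      have h1 : {y | y ∈ ({x} : Set (Lit E.C.N)) ∧ E.tr y (E.toGad.ext U (U ⊔ E.Vn y.node) f')} =
          {x} := by
        ext y
        simp only [Set.mem_setOf_eq, Set.mem_singleton_iff]
        refine ⟨fun h => h.1, fun h => ⟨h, ?_⟩⟩
        rw [h]
        exact hext.2 ht
      rw [h1, Set.ncard_singleton]
    rcases hx with ⟨h1, h2⟩ | ⟨h1, h2⟩
    · refine ⟨U, f', hU1, hS5, hf', ha', ⟨a, true⟩, ha, ?_⟩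
      refine (E.tr_ext (x := ⟨a, true⟩) hU2 hT hf').2 ?_
      show E.val a f' ↔ true = true
      rw [E.val_sym_iff h hU2 hS5 hf', hcnt]
      exact ⟨fun _ => rfl, fun _ => h1⟩
    · exact ⟨U, f', hU1, hS5, hf', ha', x, h2, hext.2 ht⟩
  · have hcnt : E.cnt {x} U f' = 0 := by
      unfold cnt
      have h1 : {y | y ∈ ({x} : Set (Lit E.C.N)) ∧ E.tr y (E.toGad.ext U (U ⊔ E.Vn y.node) f')} =
          ∅ := by
        ext y
        simp only [Set.mem_setOf_eq, Set.mem_singleton_iff, Set.mem_empty_iff_false, iff_false]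
        rintro ⟨rfl, h3⟩
        exact ht (hext.1 h3)
      rw [h1, Set.ncard_empty]
    rcases hx with ⟨h1, h2⟩ | ⟨h1, h2⟩
    · refine ⟨U, f', hU1, hS5, hf', ha', x.neg, h2, ?_⟩
      rw [E.tr_neg]
      exact fun h3 => ht (hext.1 h3)
    · refine ⟨U, f', hU1, hS5, hf', ha', ⟨a, true⟩, ha, ?_⟩
      refine (E.tr_ext (x := ⟨a, true⟩) hU2 hT hf').2 ?_
      show E.val a f' ↔ true = true
      rw [E.val_sym_iff h hU2 hS5 hf', hcnt]
      exact ⟨fun _ => rfl, fun _ => h1⟩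

theorem sound_sum {Λ : Set (Lit E.C.N)} (hΛ : E.Vl Λ ∈ E.fam) {a p : E.C.N} {B : Set E.C.N}
    {A : E.C.N → Set ℕ} {A' : Set ℕ} {S : E.C.N → Set (Lit E.C.N)}
    (hB : ∀ b ∈ B, E.C.gate b = .sym (A b) (S b)) (hdis : B.PairwiseDisjoint S)
    (hp : E.C.gate p = .and ((fun b => ⟨b, true⟩) '' B))
    (ha : E.C.gate a = .sym A' (⋃ b ∈ B, S b))
    (hc : ∀ c : E.C.N → ℕ, (∀ b ∈ B, c b ∈ A b) → ∑ᶠ b ∈ B, c b ∈ A')
    (hpΛ : ⟨p, false⟩ ∈ Λ) (haΛ : ⟨a, true⟩ ∈ Λ) : E.Tru Λ := by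
  refine E.Tru_of hΛ fun f hf => ?_
  obtain ⟨U, hU⟩ : ∃ U, U = E.Vl Λ ⊔ E.Vn p ⊔ E.Vn a := ⟨_, rfl⟩
  have hU1 : E.Vl Λ ≤ U := by
    rw [hU]
    exact le_sup_left.trans le_sup_left
  have hU2 : E.Vn p ≤ U := by
    rw [hU]
    exact le_sup_right.trans le_sup_left
  have hU3 : E.Vn a ≤ U := by
    rw [hU]
    exact le_sup_right
  have hS3 : E.Sm 3 U := by
    rw [hU]
    exact E.Sm_sup (E.Sm_sup (E.Sm_mem hΛ) (E.Sm_Vn p)) (E.Sm_Vn a)
  have hT : E.toGad.Tame U := E.Sm_tame (E.Sm_mono (by norm_num) le_rfl hS3)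
  have hS5 : E.Sm 5 U := E.Sm_mono (by norm_num) le_rfl hS3
  obtain ⟨f', hf', ha'⟩ := E.toGad.ext_exists hU1 hT hf
  by_cases hv : E.val p f'
  · have h4 : ∀ b, E.Sm 4 (U ⊔ E.Vn b) := fun b => E.Sm_sup hS3 (E.Sm_Vn b)
    have hT4 : ∀ b, E.toGad.Tame (U ⊔ E.Vn b) := fun b =>
      E.Sm_tame (E.Sm_mono (by norm_num) le_rfl (h4 b))
    have hall := (E.val_and_iff hp hU2 hS5 hf').1 hv
    have hcA : ∀ b ∈ B, E.cnt (S b) (U ⊔ E.Vn b) (E.toGad.ext U (U ⊔ E.Vn b) f') ∈ A b := by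
      intro b hb
      have h5 : E.tr (⟨b, true⟩ : Lit E.C.N) (E.toGad.ext U (U ⊔ E.Vn b) f') :=
        hall ⟨b, true⟩ ⟨b, hb, rfl⟩
      have h6 : E.val b (E.toGad.ext U (U ⊔ E.Vn b) f') := h5.2 rfl
      exact (E.val_sym_iff (hB b hb) le_sup_right (E.Sm_mono (by norm_num) le_rfl (h4 b))
        (E.toGad.ext_isW le_sup_left (hT4 b) hf')).1 h6
    have hBinv : ∀ g ∈ stN E.act p, ∀ b ∈ B, E.act g b ∈ B := by
      intro g hg b hb
      have h5 : Lit.map (E.act g) '' ((fun b => (⟨b, true⟩ : Lit E.C.N)) '' B) =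
          (fun b => (⟨b, true⟩ : Lit E.C.N)) '' B := E.stN_le_and hp hg
      have h6 : (⟨E.act g b, true⟩ : Lit E.C.N) ∈ (fun b => (⟨b, true⟩ : Lit E.C.N)) '' B := by
        rw [← h5]
        exact ⟨⟨b, true⟩, ⟨b, hb, rfl⟩, rfl⟩
      obtain ⟨b', hb', h7⟩ := h6
      have h8 : b' = E.act g b := congrArg Lit.node h7
      rw [← h8]
      exact hb'
    have hSact : ∀ g ∈ stN E.act p, ∀ b ∈ B, S (E.act g b) = Lit.map (E.act g) '' S b := by
      intro g hg b hb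
      have h5 := E.gate_act g b
      rw [hB b hb, hB _ (hBinv g hg b hb)] at h5
      simp only [Gate.map, Gate.sym.injEq] at h5
      exact h5.2
    have htwo := E.two (stN E.act p) (fun g b => E.act g b)
      (fun b => by
        show E.act 1 b = b
        rw [map_one]
        rfl)
      (fun g h b => by
        show E.act (g * h) b = E.act g (E.act h b)
        rw [map_mul]
        rfl) B (Set.toFinite B) hBinv E.Vn (fun g _ b _ => E.Vn_act g b) S hSact hdis hU2 hf'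
      (fun b _ => hT4 b)
      (fun b _ x _ => E.Sm_tame (E.Sm_mono (by norm_num) le_rfl (E.Sm_sup (h4 b) (E.Sm_Vn x.node))))
    have hsum := hc (fun b => E.cnt (S b) (U ⊔ E.Vn b) (E.toGad.ext U (U ⊔ E.Vn b) f')) hcA
    have hsum' : E.cnt (⋃ b ∈ B, S b) U f' ∈ A' := by
      rw [← htwo]
      exact hsum
    refine ⟨U, f', hU1, hS5, hf', ha', ⟨a, true⟩, haΛ, ?_⟩
    refine (E.tr_ext (x := ⟨a, true⟩) hU3 hT hf').2 ?_
    show E.val a f' ↔ true = true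
    rw [E.val_sym_iff ha hU3 hS5 hf']
    exact ⟨fun _ => rfl, fun _ => hsum'⟩
  · refine ⟨U, f', hU1, hS5, hf', ha', ⟨p, false⟩, hpΛ, ?_⟩
    refine (E.tr_ext (x := ⟨p, false⟩) hU2 hT hf').2 ?_
    show E.val p f' ↔ false = true
    exact ⟨fun h => absurd h hv, fun h => absurd h (by decide)⟩

end Eng

end Pool.Agent.H42.CS
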