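import Pool.Agent.H42.CS.Cnt

/-!
# Soundness of the distribution rule

For a set `X` of signed nodes put `χ X f := cnt X (Vl X) f`, a number defined for worlds `f` on
`Vl X`.
(i) `cntX_loc`, `cntX_equi`: if `X` occurs in a gate (`gate b = sym A X`, so that `Vl X ≤ Vn b` and
`Vl X` is `Sm 1`), then `χ X` is local: equal at worlds that agree on `Vl X` (`cnt_eq` with
`H = stS X`), equivariant: `χ (g X) (sh (pr g) f) = χ X f` [`g X := Lit.map (act g) '' X`,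
`Vl (g X) = Vl X` (`Vl_act`): the left side is the number of the `x ∈ X` such that `Lit.map (act g) x` is
true at `ext V (V ⊔ Vn x.node) (sh (pr g) f)`, `V = Vl X`; by `tr_equi` this says that `x` is true at
`W1 x := sh (pr g) (ext V (V ⊔ Vn x.node) (sh (pr g) f))` (`sh (pr g) (sh (pr g) h) = h` in
characteristic 2); compare with `W2 x := ext V (V ⊔ Vn x.node) f` by `gkl`, `H = stS X`], and
`cnt X U f = χ X f` for every `Sm 5` space `U ≥ Vl X` and world `f` on `U` (`cnt_eq`).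
(ii) `node_val`: if `gate b = sym {j} X`, `U ≥ Vn b` is `Sm 5`, `f` a world on `U`: `val b f ↔
χ X f = j` (`val_sym_iff` and (i)).

PROOF of `sound_dist`. `U := Vl Λ ⊔ Vn a ⊔ Vn (u 0)` (`Sm 3`), `f'` an extension of `f` to `U`. Suppose
that no member of `Λ` is true at (the extensions of) `f'`. For `j ≤ J` put `U j := U ⊔ Vn (u j)`
(`Sm 4`), `w j := ext U (U j) f'`. `⟨u j, false⟩ ∈ Λ` is not true at `w j`, so `u j` is true there, and by
`val_sym_iff` `t j := cnt {⟨B j X, true⟩ : X ∈ F} (U j) (w j) ∈ A j`. The nodes `B j X`, `X ∈ F`, are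
different for different `X`, so `t j` is the number of the `X ∈ F` with
`χ X (ext (U j) (U j ⊔ Vn (B j X)) (w j)) = j` (`node_val`; `U j ⊔ Vn (B j X)` is `Sm 5`).
FACTS: for `g ∈ stN (u j)`, `j ≤ J`, `X ∈ F`: `act g (B j X)` is again some `B j X'` with `X' ∈ F`
(`stN_le_sym`), and comparing the gates `X' = g X`; so `F` is invariant under `stN (u j)` and
`B j (g X) = act g (B j X)` for `g ∈ stN (u j)`.
STEP 1: `t j` = the number of the `X ∈ F` with `χ X (ext (U j) (U j ⊔ Vl X) (w j)) = j`: `gkl` with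
`H = stN (u j)`, `X = Set (Lit N)`, `ac g X = Lit.map (act g) '' X`, the set `F`, `Sp X = Vl X`,
`Φ X f = (χ X f = j)`, `W1 X = ext (U j) (U j ⊔ Vn (B j X)) (w j)`, `W2 X = ext (U j) (U j ⊔ Vl X) (w j)`
(invariant: `Vn (B j (g X)) = Vn (B j X)`, `Vl (g X) = Vl X`).
STEP 2: this is `τ j` := the number of the `X ∈ F` with `χ X (ext U (U ⊔ Vl X) f') = j`: `gkl` with
`H = stN (u 0)` (`F` is invariant under it, `Vn (u 0) ≤ U`), `W1 X = ext (U j) (U j ⊔ Vl X) (w j)`,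
`W2 X = ext U (U ⊔ Vl X) f'`: both agree with `f'` on `U`.
STEP 3: every `X ∈ F` has `χ X (…) ≤ X.ncard ≤ J`, so `∑ j ≤ J, τ j = F.ncard` and
`∑ j ≤ J, j * τ j = ∑ᶠ X ∈ F, χ X (ext U (U ⊔ Vl X) f') = ∑ᶠ X ∈ F, cnt X (U ⊔ Vl X) (ext U (U ⊔ Vl X)
f')` (by (i)) `= cnt (⋃₀ F) U f'` by `two` with `β = Set (Lit N)`, `S = id`, `Sp = Vl`, `B = F`,
`H = stN (u 0)`.
So `cnt (⋃₀ F) U f' ∈ A'` by the hypothesis on `t`, and `val a f'`: `⟨a, true⟩ ∈ Λ` is true: contradiction.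
(`F` is finite as `N` is finite.)
-/

set_option autoImplicit false

namespace Pool.Agent.H42.CS

private theorem ru3_fin {N : Type} [Finite N] : Finite (Lit N) :=
  Finite.of_injective (fun x : Lit N => (x.node, x.pos)) fun x y h => by
    rw [Prod.mk.injEq] at h
    exact Lit.ext h.1 h.2

private theorem ru3_map_inj {N : Type} {G : Type} [Group G] (act : G →* Equiv.Perm N) (g : G) :
    Function.Injective (Lit.map (act g) : Lit N → Lit N) := by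
  intro x y h
  have h1 := congrArg Lit.node h
  have h2 := congrArg Lit.pos h
  exact Lit.ext ((act g).injective h1) h2

private theorem ru3_map_one {N : Type} {G : Type} [Group G] (act : G →* Equiv.Perm N) (x : Lit N) :
    Lit.map (act 1) x = x := by
  rw [map_one]
  rfl

private theorem ru3_map_mul {N : Type} {G : Type} [Group G] (act : G →* Equiv.Perm N) (g h : G) (x : Lit N) :
    Lit.map (act (g * h)) x = Lit.map (act g) (Lit.map (act h) x) := by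
  rw [map_mul]
  rfl

private theorem ru3_im_one {N : Type} {G : Type} [Group G] (act : G →* Equiv.Perm N) (X : Set (Lit N)) :
    Lit.map (act 1) '' X = X := by
  have h : (Lit.map (act 1) : Lit N → Lit N) = id := funext fun x => ru3_map_one act x
  rw [h, Set.image_id]

private theorem ru3_im_mul {N : Type} {G : Type} [Group G] (act : G →* Equiv.Perm N) (g h : G)
    (X : Set (Lit N)) : Lit.map (act (g * h)) '' X = Lit.map (act g) '' (Lit.map (act h) '' X) := by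
  rw [← Set.image_comp]
  congr 1
  exact funext fun x => ru3_map_mul act g h x

private theorem ru3_sh0 {K : Type} [Fintype K] (f : Wd K) (t : K → ZMod 2) : sh t (sh t f) = f := by
  rw [sh_sh]
  have h : t + t = 0 := by
    funext k
    exact CharTwo.add_self_eq_zero _
  rw [h]
  funext y
  show f y + (0 : K → ZMod 2) ⬝ᵥ y = f y
  rw [zero_dotProduct, add_zero]

namespace Eng

variable {Rel : ℕ → Type} {P K G : Type} [Fintype K] [Group G] (E : Eng Rel P K G)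

theorem cntX_loc {X : Set (Lit E.C.N)} {b : E.C.N} {A : Set ℕ} (h : E.C.gate b = .sym A X)
    {U U' : Submodule (ZMod 2) (K → ZMod 2)} {f f' : Wd K} (hU : E.Vl X ≤ U)
    (hU' : E.Vl X ≤ U') (hS : E.Sm 5 U) (hS' : E.Sm 5 U') (hf : E.toGad.IsW U f)
    (hf' : E.toGad.IsW U' f') (ha : E.toGad.Agr (E.Vl X) f f') :
    E.cnt X U f = E.cnt X U' f' := by
  refine E.cnt_eq (stS E.act X) X le_rfl hU hU' (fun x _ => ?_) (fun x _ => ?_) hf hf' ha
  · exact E.Sm_tame (E.Sm_sup hS (E.Sm_Vn x.node))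
  · exact E.Sm_tame (E.Sm_sup hS' (E.Sm_Vn x.node))

private theorem ru3_Vl_le {X : Set (Lit E.C.N)} {b : E.C.N} {A : Set ℕ} (h : E.C.gate b = .sym A X) :
    E.Vl X ≤ E.Vn b := Vs_anti (E.stN_le_sym h)

private theorem ru3_Vl_Sm {X : Set (Lit E.C.N)} {b : E.C.N} {A : Set ℕ} (h : E.C.gate b = .sym A X) :
    E.Sm 1 (E.Vl X) := E.Sm_mono le_rfl (E.ru3_Vl_le h) (E.Sm_Vn b)

theorem cntX_equi {X : Set (Lit E.C.N)} {b : E.C.N} {A : Set ℕ} (h : E.C.gate b = .sym A X)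
    (g : G) {f : Wd K} (hf : E.toGad.IsW (E.Vl X) f) :
    E.cnt (Lit.map (E.act g) '' X) (E.Vl X) (sh (E.pr g) f) = E.cnt X (E.Vl X) f := by
  obtain ⟨V, hV⟩ : ∃ V, V = E.Vl X := ⟨_, rfl⟩
  have ht : ∀ x : Lit E.C.N, E.toGad.Tame (V ⊔ E.Vn x.node) := by
    intro x
    rw [hV]
    exact E.Sm_tame (E.Sm_mono (by norm_num : 1 + 1 ≤ 6) le_rfl (E.Sm_sup (E.ru3_Vl_Sm h) (E.Sm_Vn x.node)))
  rw [← hV] at hf ⊢
  have hf2 : E.toGad.IsW V (sh (E.pr g) f) := E.toGad.isW_sh hf _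
  have hk := E.gkl (X := Lit E.C.N) (stS E.act X) (fun h x => Lit.map (E.act h) x) (fun x => ru3_map_one E.act x)
    (fun g h x => ru3_map_mul E.act g h x) X
    (fun h hh x hx => by
      have h1 : Lit.map (E.act h) '' X = X := hh
      rw [← h1]
      exact Set.mem_image_of_mem _ hx)
    (fun x => E.Vn x.node) (fun h _ x _ => E.Vn_act h x.node) (fun x f => E.tr x f)
    (fun x _ f f' hf ha => E.tr_loc hf ha) (fun h _ x _ f hf => E.tr_equi h hf)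
    (fun x => sh (E.pr g) (E.toGad.ext V (V ⊔ E.Vn x.node) (sh (E.pr g) f)))
    (fun x => E.toGad.ext V (V ⊔ E.Vn x.node) f)
    (fun h _ x _ => by
      show sh (E.pr g) (E.toGad.ext V (V ⊔ E.Vn (E.act h x.node)) (sh (E.pr g) f)) = _
      rw [E.Vn_act])
    (fun h _ x _ => by
      show E.toGad.ext V (V ⊔ E.Vn (E.act h x.node)) f = _
      rw [E.Vn_act])
    (fun x _ => by
      have h1 := E.toGad.isW_sh (E.toGad.ext_isW (le_sup_left : V ≤ V ⊔ E.Vn x.node) (ht x) hf2) (E.pr g)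
      rw [hV] at h1 ⊢
      exact h1)
    (fun x _ => by
      have h1 := E.toGad.ext_isW (le_sup_left : V ≤ V ⊔ E.Vn x.node) (ht x) hf
      rw [hV] at h1 ⊢
      exact h1)
    (fun x _ => by
      have h1 := E.toGad.ext_agr (le_sup_left : V ≤ V ⊔ E.Vn x.node) (ht x) hf2
      have h2 := E.toGad.ext_agr (le_sup_left : V ≤ V ⊔ E.Vn x.node) (ht x) hf
      intro y hy hyD
      have hyV : y ∈ V := by rw [hV]; exact hy
      have h3 := h1 y hyV hyD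
      have h4 := h2 y hyV hyD
      have h5 := congrFun (ru3_sh0 f (E.pr g)) y
      show E.toGad.ext V (V ⊔ E.Vn x.node) (sh (E.pr g) f) y + E.pr g ⬝ᵥ y = _
      rw [← h3, ← h4]
      exact h5)
  refine Eq.trans ?_ hk
  have hset : {x | x ∈ Lit.map (E.act g) '' X ∧ E.tr x (E.toGad.ext V (V ⊔ E.Vn x.node) (sh (E.pr g) f))} =
      Lit.map (E.act g) '' {x | x ∈ X ∧ E.tr x (sh (E.pr g) (E.toGad.ext V (V ⊔ E.Vn x.node) (sh (E.pr g) f)))} := by
    have key : ∀ x : Lit E.C.N, E.tr (Lit.map (E.act g) x) (E.toGad.ext V (V ⊔ E.Vn (Lit.map (E.act g) x).node)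
        (sh (E.pr g) f)) ↔ E.tr x (sh (E.pr g) (E.toGad.ext V (V ⊔ E.Vn x.node) (sh (E.pr g) f))) := by
      intro x
      have e1 : E.Vn (Lit.map (E.act g) x).node = E.Vn x.node := E.Vn_act g x.node
      rw [e1]
      have h1 := E.toGad.isW_sh (E.toGad.ext_isW (le_sup_left : V ≤ V ⊔ E.Vn x.node) (ht x) hf2) (E.pr g)
      have h2 := E.tr_equi g (x := x) (E.toGad.isW_mono (le_sup_right : E.Vn x.node ≤ V ⊔ E.Vn x.node) h1)
      rw [ru3_sh0] at h2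
      exact h2
    ext y
    constructor
    · rintro ⟨⟨x, hx, rfl⟩, h2⟩
      exact ⟨x, ⟨hx, (key x).1 h2⟩, rfl⟩
    · rintro ⟨x, ⟨hx, h2⟩, rfl⟩
      exact ⟨⟨x, hx, rfl⟩, (key x).2 h2⟩
  show {x | x ∈ Lit.map (E.act g) '' X ∧ E.tr x (E.toGad.ext V (V ⊔ E.Vn x.node) (sh (E.pr g) f))}.ncard = _
  rw [hset, Set.ncard_image_of_injective _ (ru3_map_inj E.act g)]

/-- the weighted count -/
private theorem ru3_count {β : Type} (F : Set β) (hF : F.Finite) (c : β → ℕ) (J : ℕ) (hc : ∀ X ∈ F, c X ≤ J) :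
    ∑ j ∈ Finset.range (J + 1), {X | X ∈ F ∧ c X = j}.ncard = F.ncard ∧
      ∑ j ∈ Finset.range (J + 1), j * {X | X ∈ F ∧ c X = j}.ncard = ∑ᶠ X ∈ F, c X := by
  classical
  have h1 : ∀ j, {X | X ∈ F ∧ c X = j}.ncard = (hF.toFinset.filter fun X => c X = j).card := by
    intro j
    rw [← Set.ncard_coe_finset]
    congr 1
    ext X
    simp
  have hmaps : ∀ X ∈ hF.toFinset, c X ∈ Finset.range (J + 1) := by
    intro X hX
    rw [Finset.mem_range]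
    have := hc X ((hF.mem_toFinset).1 hX)
    omega
  simp only [h1]
  constructor
  · rw [Set.ncard_eq_toFinset_card _ hF]
    exact (Finset.card_eq_sum_card_fiberwise hmaps).symm
  · rw [finsum_mem_eq_finite_toFinset_sum _ hF, ← Finset.sum_fiberwise_of_maps_to hmaps]
    refine Finset.sum_congr rfl fun j _ => ?_
    rw [Finset.sum_congr rfl (fun X hX => (Finset.mem_filter.1 hX).2), Finset.sum_const, smul_eq_mul, mul_comm]

/-- the change of the worlds -/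
private theorem ru3_chg {F : Set (Set (Lit E.C.N))} {b0 : Set (Lit E.C.N) → E.C.N} {A0 : Set (Lit E.C.N) → Set ℕ}
    (hb : ∀ X ∈ F, E.C.gate (b0 X) = .sym (A0 X) X) (H : Subgroup G)
    (hinv : ∀ g ∈ H, ∀ X ∈ F, Lit.map (E.act g) '' X ∈ F) (j : ℕ) (W1 W2 : Set (Lit E.C.N) → Wd K)
    (hW1 : ∀ g ∈ H, ∀ X ∈ F, W1 (Lit.map (E.act g) '' X) = W1 X)
    (hW2 : ∀ g ∈ H, ∀ X ∈ F, W2 (Lit.map (E.act g) '' X) = W2 X)
    (hw1 : ∀ X ∈ F, E.toGad.IsW (Vs E.pr H ⊔ E.Vl X) (W1 X))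
    (hw2 : ∀ X ∈ F, E.toGad.IsW (Vs E.pr H ⊔ E.Vl X) (W2 X))
    (ha : ∀ X ∈ F, E.toGad.Agr (Vs E.pr H) (W1 X) (W2 X)) :
    {X | X ∈ F ∧ E.cnt X (E.Vl X) (W1 X) = j}.ncard = {X | X ∈ F ∧ E.cnt X (E.Vl X) (W2 X) = j}.ncard := by
  refine E.gkl (X := Set (Lit E.C.N)) H (fun g X => Lit.map (E.act g) '' X) (fun X => ru3_im_one E.act X)
    (fun g h X => ru3_im_mul E.act g h X) F hinv E.Vl (fun g _ X _ => E.Vl_act g X)
    (fun X f => E.cnt X (E.Vl X) f = j) ?_ ?_ W1 W2 hW1 hW2 hw1 hw2 ha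
  · intro X hX f f' hf hag
    have hS : E.Sm 5 (E.Vl X) := E.Sm_mono (by norm_num) le_rfl (E.ru3_Vl_Sm (hb X hX))
    have h1 := E.cntX_loc (hb X hX) le_rfl le_rfl hS hS hf (E.toGad.isW_congr hf hag) hag
    rw [h1]
  · intro g _ X hX f hf
    have h1 := E.cntX_equi (hb X hX) g hf
    show E.cnt (Lit.map (E.act g) '' X) (E.Vl (Lit.map (E.act g) '' X)) (sh (E.pr g) f) = j ↔ _
    rw [E.Vl_act, h1]

theorem sound_dist {Λ : Set (Lit E.C.N)} (hΛ : E.Vl Λ ∈ E.fam) {a : E.C.N}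
    {F : Set (Set (Lit E.C.N))} {J : ℕ} {B : ℕ → Set (Lit E.C.N) → E.C.N} {u : ℕ → E.C.N}
    {A : ℕ → Set ℕ} {A' : Set ℕ} (hF : F.PairwiseDisjoint id) (hJ : ∀ X ∈ F, X.ncard ≤ J)
    (hB : ∀ j ≤ J, ∀ X ∈ F, E.C.gate (B j X) = .sym {j} X)
    (hu : ∀ j ≤ J, E.C.gate (u j) = .sym (A j) ((fun X => ⟨B j X, true⟩) '' F))
    (ha : E.C.gate a = .sym A' (⋃₀ F))
    (ht : ∀ t : ℕ → ℕ, (∀ j ≤ J, t j ∈ A j) →
      ∑ j ∈ Finset.range (J + 1), t j = F.ncard → ∑ j ∈ Finset.range (J + 1), j * t j ∈ A')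
    (huΛ : ∀ j ≤ J, ⟨u j, false⟩ ∈ Λ) (haΛ : ⟨a, true⟩ ∈ Λ) : E.Tru Λ := by
  have hfin : Finite (Lit E.C.N) := ru3_fin
  have hfin2 : Finite (Set (Lit E.C.N)) := inferInstance
  have hFfin : F.Finite := Set.toFinite F
  -- the spaces
  have s1 : ∀ {W : Submodule (ZMod 2) (K → ZMod 2)} {k : ℕ}, E.Sm k W → k ≤ 5 → E.Sm 5 W :=
    fun h hk => E.Sm_mono hk le_rfl h
  have t1 : ∀ {W : Submodule (ZMod 2) (K → ZMod 2)} {k : ℕ}, E.Sm k W → k ≤ 6 → E.toGad.Tame W :=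
    fun h hk => E.Sm_tame (E.Sm_mono hk le_rfl h)
  obtain ⟨U, hU⟩ : ∃ U, U = E.Vl Λ ⊔ E.Vn a ⊔ E.Vn (u 0) := ⟨_, rfl⟩
  have hUS : E.Sm 3 U := by
    rw [hU]
    exact E.Sm_sup (E.Sm_sup (E.Sm_mem hΛ) (E.Sm_Vn a)) (E.Sm_Vn (u 0))
  have hUl : E.Vl Λ ≤ U := by rw [hU]; exact le_sup_left.trans le_sup_left
  have hUa : E.Vn a ≤ U := by rw [hU]; exact le_sup_right.trans le_sup_left
  have hU0 : E.Vn (u 0) ≤ U := by rw [hU]; exact le_sup_right
  -- the invariance of `F`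
  have inv : ∀ j ≤ J, ∀ g ∈ stN E.act (u j), ∀ X ∈ F, Lit.map (E.act g) '' X ∈ F ∧
      B j (Lit.map (E.act g) '' X) = E.act g (B j X) := by
    intro j hj g hg X hX
    have h1 : Lit.map (E.act g) '' ((fun X => (⟨B j X, true⟩ : Lit E.C.N)) '' F) =
        (fun X => (⟨B j X, true⟩ : Lit E.C.N)) '' F := E.stN_le_sym (hu j hj) hg
    have h2 : (⟨E.act g (B j X), true⟩ : Lit E.C.N) ∈ (fun X => (⟨B j X, true⟩ : Lit E.C.N)) '' F := by
      rw [← h1]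
      exact ⟨⟨B j X, true⟩, ⟨X, hX, rfl⟩, rfl⟩
    obtain ⟨X', hX', h3⟩ := h2
    have h4 : B j X' = E.act g (B j X) := congrArg Lit.node h3
    have h5 := hB j hj X' hX'
    rw [h4, E.gate_act, hB j hj X hX] at h5
    have h6 : Lit.map (E.act g) '' X = X' := by
      have h7 : (Gate.sym {j} (Lit.map (E.act g) '' X) : Gate (Atom Rel P) E.C.N) = .sym {j} X' := h5
      exact (Gate.sym.inj h7).2
    rw [h6]
    exact ⟨hX', h4⟩
  have binj : ∀ j ≤ J, Set.InjOn (fun X => (⟨B j X, true⟩ : Lit E.C.N)) F := by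
    intro j hj X hX Y hY h
    have h1 : B j X = B j Y := congrArg Lit.node h
    have h2 := hB j hj X hX
    rw [h1, hB j hj Y hY] at h2
    exact (Gate.sym.inj h2).2.symm
  have hVlS : ∀ X ∈ F, E.Sm 1 (E.Vl X) := fun X hX => E.ru3_Vl_Sm (hB 0 (Nat.zero_le _) X hX)
  refine E.Tru_of hΛ fun f hf => ?_
  obtain ⟨f', hf'⟩ : ∃ f', f' = E.toGad.ext (E.Vl Λ) U f := ⟨_, rfl⟩
  have htU : E.toGad.Tame U := t1 hUS (by norm_num)
  have hw' : E.toGad.IsW U f' := by rw [hf']; exact E.toGad.ext_isW hUl htU hf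
  have hag' : E.toGad.Agr (E.Vl Λ) f f' := by rw [hf']; exact E.toGad.ext_agr hUl htU hf
  refine ⟨U, f', hUl, s1 hUS (by norm_num), hw', hag', ?_⟩
  by_contra hno
  push Not at hno
  -- the worlds `w j`
  have hUjS : ∀ j, E.Sm 4 (U ⊔ E.Vn (u j)) := fun j => E.Sm_sup hUS (E.Sm_Vn (u j))
  obtain ⟨w, hw⟩ : ∃ w : ℕ → Wd K, w = fun j => E.toGad.ext U (U ⊔ E.Vn (u j)) f' := ⟨_, rfl⟩
  have hwW : ∀ j, E.toGad.IsW (U ⊔ E.Vn (u j)) (w j) := by
    intro j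
    rw [hw]
    exact E.toGad.ext_isW le_sup_left (t1 (hUjS j) (by norm_num)) hw'
  have hwA : ∀ j, E.toGad.Agr U f' (w j) := by
    intro j
    rw [hw]
    exact E.toGad.ext_agr le_sup_left (t1 (hUjS j) (by norm_num)) hw'
  have hval : ∀ j ≤ J, E.val (u j) (w j) := by
    intro j hj
    have h1 := hno _ (huΛ j hj)
    by_contra h2
    refine h1 ?_
    show E.val (u j) (E.toGad.ext U (U ⊔ E.Vn (u j)) f') ↔ false = true
    constructor
    · intro h3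
      refine absurd ?_ h2
      rw [hw]
      exact h3
    · intro h3
      exact absurd h3 (by decide)
  obtain ⟨t, htd⟩ : ∃ t : ℕ → ℕ, t = fun j => E.cnt ((fun X => ⟨B j X, true⟩) '' F) (U ⊔ E.Vn (u j)) (w j) :=
    ⟨_, rfl⟩
  have htA : ∀ j ≤ J, t j ∈ A j := by
    intro j hj
    rw [htd]
    exact (E.val_sym_iff (hu j hj) le_sup_right (s1 (hUjS j) (by norm_num)) (hwW j)).1 (hval j hj)
  -- the numbers
  obtain ⟨c, hc⟩ : ∃ c : Set (Lit E.C.N) → ℕ, c = fun X => E.cnt X (E.Vl X) (E.toGad.ext U (U ⊔ E.Vl X) f') :=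
    ⟨_, rfl⟩
  have ht0 : ∀ X ∈ F, E.toGad.Tame (U ⊔ E.Vl X) := fun X hX => t1 (E.Sm_sup hUS (hVlS X hX)) (by norm_num)
  have hteq : ∀ j ≤ J, t j = {X | X ∈ F ∧ c X = j}.ncard := by
    intro j hj
    have hBj := hB j hj
    have hS5 : ∀ X, E.Sm 5 (U ⊔ E.Vn (u j) ⊔ E.Vn (B j X)) := fun X => E.Sm_sup (hUjS j) (E.Sm_Vn _)
    have hT5 : ∀ X, E.toGad.Tame (U ⊔ E.Vn (u j) ⊔ E.Vn (B j X)) := fun X => t1 (hS5 X) (by norm_num)
    have hT5' : ∀ X ∈ F, E.toGad.Tame (U ⊔ E.Vn (u j) ⊔ E.Vl X) := fun X hX =>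
      t1 (E.Sm_sup (hUjS j) (hVlS X hX)) (by norm_num)
    have hVB : ∀ X ∈ F, E.Vl X ≤ E.Vn (B j X) := fun X hX => E.ru3_Vl_le (hBj X hX)
    -- step 0
    have e0 : t j = {X | X ∈ F ∧ E.cnt X (E.Vl X)
        (E.toGad.ext (U ⊔ E.Vn (u j)) (U ⊔ E.Vn (u j) ⊔ E.Vn (B j X)) (w j)) = j}.ncard := by
      have key : ∀ X ∈ F, (E.tr ⟨B j X, true⟩
          (E.toGad.ext (U ⊔ E.Vn (u j)) (U ⊔ E.Vn (u j) ⊔ E.Vn (B j X)) (w j)) ↔
          E.cnt X (E.Vl X) (E.toGad.ext (U ⊔ E.Vn (u j)) (U ⊔ E.Vn (u j) ⊔ E.Vn (B j X)) (w j)) = j) := by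
        intro X hX
        have hW := E.toGad.ext_isW (le_sup_left : U ⊔ E.Vn (u j) ≤ U ⊔ E.Vn (u j) ⊔ E.Vn (B j X)) (hT5 X) (hwW j)
        have h1 := E.val_sym_iff (hBj X hX) (le_sup_right : E.Vn (B j X) ≤ U ⊔ E.Vn (u j) ⊔ E.Vn (B j X))
          (hS5 X) hW
        have hle : E.Vl X ≤ U ⊔ E.Vn (u j) ⊔ E.Vn (B j X) := (hVB X hX).trans le_sup_right
        have h2 := E.cntX_loc (hBj X hX) hle le_rfl (hS5 X) (s1 (hVlS X hX) (by norm_num)) hW
          (E.toGad.isW_mono hle hW) (fun y _ _ => rfl)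
        rw [h2] at h1
        have h3 : E.tr ⟨B j X, true⟩ (E.toGad.ext (U ⊔ E.Vn (u j)) (U ⊔ E.Vn (u j) ⊔ E.Vn (B j X)) (w j)) ↔
            E.val (B j X) (E.toGad.ext (U ⊔ E.Vn (u j)) (U ⊔ E.Vn (u j) ⊔ E.Vn (B j X)) (w j)) := by
          show (E.val (B j X) _ ↔ true = true) ↔ _
          simp
        rw [h3, h1, Set.mem_singleton_iff]
      rw [htd]
      show {x | x ∈ (fun X => (⟨B j X, true⟩ : Lit E.C.N)) '' F ∧
        E.tr x (E.toGad.ext (U ⊔ E.Vn (u j)) (U ⊔ E.Vn (u j) ⊔ E.Vn x.node) (w j))}.ncard = _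
      have hset : {x | x ∈ (fun X => (⟨B j X, true⟩ : Lit E.C.N)) '' F ∧
          E.tr x (E.toGad.ext (U ⊔ E.Vn (u j)) (U ⊔ E.Vn (u j) ⊔ E.Vn x.node) (w j))} =
          (fun X => (⟨B j X, true⟩ : Lit E.C.N)) '' {X | X ∈ F ∧ E.cnt X (E.Vl X)
            (E.toGad.ext (U ⊔ E.Vn (u j)) (U ⊔ E.Vn (u j) ⊔ E.Vn (B j X)) (w j)) = j} := by
        ext y
        constructor
        · rintro ⟨⟨X, hX, rfl⟩, h2⟩
          exact ⟨X, ⟨hX, (key X hX).1 h2⟩, rfl⟩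
        · rintro ⟨X, ⟨hX, h2⟩, rfl⟩
          exact ⟨⟨X, hX, rfl⟩, (key X hX).2 h2⟩
      rw [hset]
      exact ((binj j hj).mono fun X hX => hX.1).ncard_image
    -- step 1
    have e1 : {X | X ∈ F ∧ E.cnt X (E.Vl X)
        (E.toGad.ext (U ⊔ E.Vn (u j)) (U ⊔ E.Vn (u j) ⊔ E.Vn (B j X)) (w j)) = j}.ncard =
        {X | X ∈ F ∧ E.cnt X (E.Vl X)
        (E.toGad.ext (U ⊔ E.Vn (u j)) (U ⊔ E.Vn (u j) ⊔ E.Vl X) (w j)) = j}.ncard := by
      refine E.ru3_chg hBj (stN E.act (u j)) (fun g hg X hX => (inv j hj g hg X hX).1) j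
        (fun X => E.toGad.ext (U ⊔ E.Vn (u j)) (U ⊔ E.Vn (u j) ⊔ E.Vn (B j X)) (w j))
        (fun X => E.toGad.ext (U ⊔ E.Vn (u j)) (U ⊔ E.Vn (u j) ⊔ E.Vl X) (w j)) ?_ ?_ ?_ ?_ ?_
      · intro g hg X hX
        show E.toGad.ext (U ⊔ E.Vn (u j)) (U ⊔ E.Vn (u j) ⊔ E.Vn (B j (Lit.map (E.act g) '' X))) (w j) = _
        rw [(inv j hj g hg X hX).2, E.Vn_act]
      · intro g _ X _
        show E.toGad.ext (U ⊔ E.Vn (u j)) (U ⊔ E.Vn (u j) ⊔ E.Vl (Lit.map (E.act g) '' X)) (w j) = _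
        rw [E.Vl_act]
      · intro X hX
        refine E.toGad.isW_mono ?_ (E.toGad.ext_isW le_sup_left (hT5 X) (hwW j))
        exact sup_le_sup le_sup_right (hVB X hX)
      · intro X hX
        refine E.toGad.isW_mono ?_ (E.toGad.ext_isW le_sup_left (hT5' X hX) (hwW j))
        exact sup_le_sup le_sup_right le_rfl
      · intro X hX y hy hyD
        have hy' : y ∈ U ⊔ E.Vn (u j) := (le_sup_right : E.Vn (u j) ≤ U ⊔ E.Vn (u j)) hy
        have a1 := E.toGad.ext_agr le_sup_left (hT5 X) (hwW j) y hy' hyD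
        have a2 := E.toGad.ext_agr le_sup_left (hT5' X hX) (hwW j) y hy' hyD
        rw [← a1, ← a2]
    -- step 2
    have e2 : {X | X ∈ F ∧ E.cnt X (E.Vl X)
        (E.toGad.ext (U ⊔ E.Vn (u j)) (U ⊔ E.Vn (u j) ⊔ E.Vl X) (w j)) = j}.ncard =
        {X | X ∈ F ∧ E.cnt X (E.Vl X) (E.toGad.ext U (U ⊔ E.Vl X) f') = j}.ncard := by
      refine E.ru3_chg hBj (stN E.act (u 0)) (fun g hg X hX => (inv 0 (Nat.zero_le _) g hg X hX).1) j
        (fun X => E.toGad.ext (U ⊔ E.Vn (u j)) (U ⊔ E.Vn (u j) ⊔ E.Vl X) (w j))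
        (fun X => E.toGad.ext U (U ⊔ E.Vl X) f') ?_ ?_ ?_ ?_ ?_
      · intro g _ X _
        show E.toGad.ext (U ⊔ E.Vn (u j)) (U ⊔ E.Vn (u j) ⊔ E.Vl (Lit.map (E.act g) '' X)) (w j) = _
        rw [E.Vl_act]
      · intro g _ X _
        show E.toGad.ext U (U ⊔ E.Vl (Lit.map (E.act g) '' X)) f' = _
        rw [E.Vl_act]
      · intro X hX
        refine E.toGad.isW_mono ?_ (E.toGad.ext_isW le_sup_left (hT5' X hX) (hwW j))
        exact sup_le_sup (hU0.trans le_sup_left) le_rfl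
      · intro X hX
        refine E.toGad.isW_mono ?_ (E.toGad.ext_isW le_sup_left (ht0 X hX) hw')
        exact sup_le_sup hU0 le_rfl
      · intro X hX y hy hyD
        have hyU : y ∈ U := hU0 hy
        have hy' : y ∈ U ⊔ E.Vn (u j) := (le_sup_left : U ≤ U ⊔ E.Vn (u j)) hyU
        have a1 := E.toGad.ext_agr le_sup_left (hT5' X hX) (hwW j) y hy' hyD
        have a2 := E.toGad.ext_agr le_sup_left (ht0 X hX) hw' y hyU hyD
        have a3 := hwA j y hyU hyD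
        rw [← a1, ← a2, a3]
    rw [e0, e1, e2, hc]
  have hcJ : ∀ X ∈ F, c X ≤ J := by
    intro X hX
    refine le_trans ?_ (hJ X hX)
    rw [hc]
    exact Set.ncard_le_ncard (fun x hx => hx.1) (Set.toFinite X)
  obtain ⟨n1, n2⟩ := ru3_count F hFfin c J hcJ
  have n1' : ∑ j ∈ Finset.range (J + 1), t j = F.ncard := by
    rw [← n1]
    refine Finset.sum_congr rfl fun j hj => hteq j ?_
    have := Finset.mem_range.1 hj
    omega
  have n2' : ∑ j ∈ Finset.range (J + 1), j * t j = ∑ᶠ X ∈ F, c X := by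
    rw [← n2]
    refine Finset.sum_congr rfl fun j hj => ?_
    rw [hteq j (by have := Finset.mem_range.1 hj; omega)]
  have hfinal := ht t htA n1'
  rw [n2'] at hfinal
  have htwo := E.two (β := Set (Lit E.C.N)) (stN E.act (u 0)) (fun g X => Lit.map (E.act g) '' X)
    (fun X => ru3_im_one E.act X) (fun g h X => ru3_im_mul E.act g h X) F hFfin
    (fun g hg X hX => (inv 0 (Nat.zero_le _) g hg X hX).1) E.Vl (fun g _ X _ => E.Vl_act g X) id
    (fun g _ X _ => rfl) hF (U := U) (f := f') hU0 hw' ht0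
    (fun X hX x _ => t1 (E.Sm_sup (E.Sm_sup hUS (hVlS X hX)) (E.Sm_Vn x.node)) (by norm_num))
  have hcc : ∑ᶠ X ∈ F, c X = ∑ᶠ X ∈ F, E.cnt (id X) (U ⊔ E.Vl X) (E.toGad.ext U (U ⊔ E.Vl X) f') := by
    refine finsum_mem_congr rfl fun X hX => ?_
    rw [hc]
    have hW := E.toGad.ext_isW (le_sup_left : U ≤ U ⊔ E.Vl X) (ht0 X hX) hw'
    exact E.cntX_loc (hB 0 (Nat.zero_le _) X hX) le_rfl le_sup_right (s1 (hVlS X hX) (by norm_num))
      (s1 (E.Sm_sup hUS (hVlS X hX)) (by norm_num)) (E.toGad.isW_mono le_sup_right hW) hW (fun y _ _ => rfl)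
  rw [hcc, htwo] at hfinal
  have hun : (⋃ X ∈ F, id X) = ⋃₀ F := by
    rw [Set.sUnion_eq_biUnion]
    rfl
  rw [hun] at hfinal
  have hva : E.val a f' := (E.val_sym_iff ha hUa (s1 hUS (by norm_num)) hw').2 hfinal
  refine hno ⟨a, true⟩ haΛ ?_
  have hte := E.tr_ext (x := ⟨a, true⟩) (U := U) (f := f') hUa htU hw'
  rw [hte]
  show E.val a f' ↔ true = true
  simp [hva]

end Eng

end Pool.Agent.H42.CS
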