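import Pool.Agent.H42.CS.Mo4
import Pool.Agent.H42.CS.Snd
import Pool.Agent.H42.CS.Ran
import Pool.Agent.H42.CS.Lo1

/-!
# The lower bound

PROOF of `lower`. By contradiction let `(4 * B) ^ 12 < 2 ^ (w + 1)`, `w = L ^ (d - 2) / 100`.
`act : M.H →* Perm R.C.N` is the restriction of the action of `Γ` (`Subgroup.inclusion hΓ`).
`fam := {Vs M.pr (stN act a)} ∪ {Vs M.pr (stS act Λ) : Λ ∈ R.lines} ∪ {csp s : s.card ≤ k8 d}`.
`fam.ncard ≤ Nat.card N + R.lines.ncard + (r + 1) ^ k8 d ≤ 2 * B` (`card_csp`); every `A ∈ fam` has at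
most `B` elements (`card_Vs`, `index_stN`, `index_stS`, `card_csp`, `2 ^ k8 d ≤ B`).
`exists_placing` gives `cv`, `cand`; `random_cells` with `I = {s // isS L s}`, the bound `M := 2 * B`
gives `b`; `j s := cand s (b s)` for the squares of the box. `grid_gad` gives `g`, `c`. This is a `Dat`.
The `Eng`: `toGad := g`, `pr := M.pr`, `ρ := M.H.subtype`, `C := R.C`, `act`, `leaf := D.leaf` (`leaf_loc`,
`leaf_equi`), `fam`; `tame6`: for `y ∈ ⨆ i, l i` in `g.D` the support of `y` lies in the cells `j s`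
(second property of `grid_gad`), so `nm y ≤ w`. `P = Fin n` is nonempty since the cells are nonempty.
`Eng.engine` with `AxOK` (which is `ClOK` for all instances) from `ins_ok` and `T_ins` gives the
contradiction.
-/

set_option autoImplicit false

namespace Pool.Agent.H42.CS

theorem lower {d n r L : ℕ} (hd : 3 ≤ d) (hL : 100 * d ≤ L) (hr : L ^ d * (1 + 2 * d ^ 2) ≤ r)
    (M : Cells (Fin n) r) (Γ : Subgroup (Equiv.Perm (Fin n))) (hΓ : M.H ≤ Γ)
    (R : Refutation (T d) (Fin n)) (hR : R.Symm Γ) (B : ℕ) (hB : R.size ≤ B)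
    (hB2 : (2 * (r + 1)) ^ k8 d ≤ B) : 2 ^ (L ^ (d - 2) / 100 + 1) ≤ (4 * B) ^ 12 := by
  classical
  by_contra hcon
  have hcon' : (4 * B) ^ 12 < 2 ^ (L ^ (d - 2) / 100 + 1) := not_le.mp hcon
  have hd0 : 0 < d := by omega
  have hLpos : 0 < L := by omega
  have hLd : 0 < L ^ d := pow_pos hLpos d
  have hrpos : 0 < r := by
    have : 0 < L ^ d * (1 + 2 * d ^ 2) := Nat.mul_pos hLd (by positivity)
    omega
  obtain ⟨actΓ, hact⟩ := hR
  let inc : M.H →* Γ := Subgroup.inclusion hΓ
  let act : M.H →* Equiv.Perm R.C.N := actΓ.comp inc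
  have hgate : ∀ (g : M.H) (a : R.C.N), R.C.gate (act g a) =
      (R.C.gate a).map (M.H.subtype g : Equiv.Perm (Fin n)) (act g) := by
    intro g a
    exact (hact (inc g)).1 a
  have hlines : ∀ (g : M.H), ∀ Λ ∈ R.lines, Lit.map (act g) '' Λ ∈ R.lines :=
    fun g Λ h => (hact (inc g)).2 Λ h
  let cs : Set (Submodule (ZMod 2) (Fin r → ZMod 2)) :=
    {A | ∃ s : Finset (Fin r), s.card ≤ k8 d ∧ A = csp s}
  let fam : Set (Submodule (ZMod 2) (Fin r → ZMod 2)) :=
    Set.range (fun a => Vs M.pr (stN act a)) ∪ ((fun Λ => Vs M.pr (stS act Λ)) '' R.lines) ∪ cs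
  have hfamdef : fam = Set.range (fun a => Vs M.pr (stN act a)) ∪
    ((fun Λ => Vs M.pr (stS act Λ)) '' R.lines) ∪ cs := rfl
  have hcs := card_csp (K := Fin r) (k8 d)
  have hLF : Finite (Lit R.C.N) := by
    refine Finite.of_injective (fun x : Lit R.C.N => (x.node, x.pos)) ?_
    intro x y hxy
    have h1 := congrArg Prod.fst hxy
    have h2 := congrArg Prod.snd hxy
    exact Lit.ext h1 h2
  have hlfin : R.lines.Finite := Set.toFinite _
  have hpow1 : (r + 1) ^ k8 d ≤ B := le_trans (Nat.pow_le_pow_left (by omega) _) hB2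
  have hpow2 : 2 ^ k8 d ≤ B := le_trans (Nat.pow_le_pow_left (by omega) _) hB2
  have hsz : Nat.card R.C.N + R.lines.ncard ≤ B := hB
  have hfam_card : fam.ncard ≤ 2 * B := by
    rw [hfamdef]
    have h1 := Set.ncard_union_le (Set.range (fun a => Vs M.pr (stN act a)) ∪
      ((fun Λ => Vs M.pr (stS act Λ)) '' R.lines)) cs
    have h2 := Set.ncard_union_le (Set.range (fun a => Vs M.pr (stN act a)))
      ((fun Λ => Vs M.pr (stS act Λ)) '' R.lines)
    have h3 : (Set.range (fun a => Vs M.pr (stN act a))).ncard ≤ Nat.card R.C.N := by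
      rw [← Set.image_univ]
      refine le_trans (Set.ncard_image_le (Set.toFinite _)) ?_
      rw [Set.ncard_univ]
    have h4 : ((fun Λ => Vs M.pr (stS act Λ)) '' R.lines).ncard ≤ R.lines.ncard :=
      Set.ncard_image_le hlfin
    have h5 : cs.ncard ≤ (r + 1) ^ k8 d := by
      have := hcs.1
      rwa [Fintype.card_fin] at this
    omega
  have hfam_le : ∀ A ∈ fam, Nat.card A ≤ 2 * B := by
    intro A hA
    rcases hA with (⟨a, rfl⟩ | ⟨Λ, hΛ, rfl⟩) | ⟨s, hs, rfl⟩
    · have h1 := card_Vs M.pr_mul M.pr_onto (stN act a)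
      have h2 := index_stN act a
      show Nat.card (Vs M.pr (stN act a)) ≤ 2 * B
      omega
    · have h1 := card_Vs M.pr_mul M.pr_onto (stS act Λ)
      have h2 := index_stS act R.lines hlines Λ hΛ
      show Nat.card (Vs M.pr (stS act Λ)) ≤ 2 * B
      omega
    · have := hcs.2 s hs
      omega
  obtain ⟨cv, cand, hcv, hcand, hne⟩ := exists_placing hLpos hr
  have hSF : Finite {s : Sq d // isS L s} := (isS_fin L).1.to_subtype
  obtain ⟨b, hb⟩ := random_cells (K := Fin r) (I := {s : Sq d // isS L s})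
    (fun s β => cand s.1 β) (by
      intro s β s' β' h
      obtain ⟨h1, h2⟩ := hcand s.1 β s'.1 β' s.2 s'.2 h
      exact ⟨Subtype.ext h1, h2⟩) fam (2 * B) (L ^ (d - 2) / 100) hfam_card hfam_le
    (by rw [← mul_assoc]; exact hcon')
  let j : Sq d → Fin r := fun s => if h : isS L s then cand s (b ⟨s, h⟩) else cand s true
  have hjv : ∀ s (h : isS L s), j s = cand s (b ⟨s, h⟩) := by
    intro s h
    exact dif_pos h
  have hj : Set.InjOn j {s | isS L s} := by
    intro s hs s' hs' h
    rw [hjv s hs, hjv s' hs'] at h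
    exact (hcand _ _ _ _ hs hs' h).1
  obtain ⟨g, c, hw, hsupp, hye, hlaw⟩ := grid_gad hd L hL j hj
  let D : Dat d L r (Fin n) :=
    { M := M, cv := cv, cv_inj := hcv, j := j, j_inj := hj
      cv_ne := by
        intro x s hx hs
        rw [hjv s hs]
        exact hne x s _ hx hs
      g := g, c := c, ye_mem := hye, law := hlaw }
  have hNE : Nonempty (Fin n) := ⟨(M.ne ⟨0, hrpos⟩ 0).some⟩
  let E : Eng (Re d) (Fin n) (Fin r) M.H :=
    { toGad := g
      pr := M.pr
      pr_mul := M.pr_mul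
      pr_onto := M.pr_onto
      ρ := M.H.subtype
      C := R.C
      act := act
      gate_act := hgate
      leaf := D.leaf
      leaf_loc := by
        intro v f f' h
        apply D.leaf_loc v f f'
        intro y hy hyD
        apply h y _ hyD
        intro g' hg'
        exact hy g' hg'
      leaf_equi := by
        intro g' v f
        exact D.leaf_equi g' v f
      fam := fam
      node_mem := by
        intro a
        exact Or.inl (Or.inl ⟨a, rfl⟩)
      tame6 := by
        intro l hl y hy hyD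
        rw [hw]
        apply hb l hl y hy
        intro k hk
        obtain ⟨s, hs, hjs⟩ := hsupp y hyD k hk
        refine ⟨⟨s, hs⟩, ?_⟩
        rw [← hjs, hjv s hs] }
  refine E.engine (T := T d) ?_ R.lines R.order R.step ?_ R.empty_mem
  · intro A hA v
    exact D.ins_ok hd0 hLpos fam (fun s hs => Or.inr ⟨s, hs, rfl⟩) (T_ins A hA v)
  · intro Λ hΛ
    exact Or.inl (Or.inr ⟨Λ, hΛ, rfl⟩)

end Pool.Agent.H42.CS
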