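import Pool.Agent.H42.CS.Upa
import Pool.Agent.H42.CS.Low
import Pool.Agent.H42.CS.Num
import Pool.Agent.H42.CS.Sym
import Pool.Agent.H42.CS.GrB

set_option autoImplicit false

namespace Pool.Agent.H42.CS

theorem final (δ : ℝ) (h0 : 0 < δ) (h1 : δ < 1) :
    ∃ (Rel : ℕ → Type) (T : Set (Ax Rel)) (C : ℕ), 0 < C ∧ T.Finite ∧
      (∀ A ∈ T, A.lits.Finite ∧ A.ex.Finite) ∧
      ∀ n : ℕ, 2 ≤ n → ∀ Γ : Subgroup (Equiv.Perm (Fin n)),
        (∃ R : Refutation T (Fin n), R.Symm Γ ∧ R.size ≤ Nat.card Γ * n ^ C ∧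
          ∀ a, R.C.rank a ≤ C) ∧
        ∀ h : ℕ, 2 ^ h ∣ Nat.card Γ → ∀ R : Refutation T (Fin n), R.Symm Γ →
          (2 : ℝ) ^ (((h : ℝ) / Real.logb 2 n) ^ (1 - δ) / C) ≤ R.size := by
  obtain ⟨d, C1, hd, hC1, hnum⟩ := numeric k8 δ h0 h1
  obtain ⟨c2, hup⟩ := upper d
  refine ⟨Re d, T d, max C1 (max c2 7), by omega, T_finite d, fun A hA => T_lits A hA, ?_⟩
  intro n hn Γ
  constructor
  · obtain ⟨R, hs, hr⟩ := hup n hn
    obtain ⟨R', hsym, hsize, hrank⟩ := symmetrize R Γ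
    refine ⟨R', hsym, ?_, ?_⟩
    · calc R'.size ≤ Nat.card Γ * R.size := hsize
        _ ≤ Nat.card Γ * n ^ c2 := by gcongr
        _ ≤ Nat.card Γ * n ^ max C1 (max c2 7) := by
          gcongr
          · omega
          · omega
    · intro a
      exact le_trans (hrank 7 hr a) (by omega)
  · intro h hdiv R hR
    obtain ⟨r, M, hM, hh⟩ := exists_cells Γ h hdiv
    exact hnum _ (le_max_left _ _) r n h R.size hn hh (size_ge_two (by omega) R)
      (fun L hL hr => lower hd hL hr M Γ hM R hR _ (le_max_left _ _) (le_max_right _ _))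

end Pool.Agent.H42.CS
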