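import Pool.Agent.H42.CS.GId

/-!
# Grid II: small fillings

PROOF. For `p` in the box put `zp e := cob L (pth z0 p) e + z0 e`. Then `Sup L zp`,
`dl L zp = dl L z0` (`dl_add`, `dl_cob`), and for an edge `e = (x, a)` of the box, by `pth_id`,
`zp e = ∑ b > a, ∑ t ∈ btw (p b) (x b), dl L z0 (mix x p b t, a, b)`. So `nm zp` is at most the number
of the tuples `(x, a, b, t)`, `(x, a)` an edge, `b > a`, `t ∈ btw (p b) (x b)`, with
`dl L z0 (mix x p b t, a, b) ≠ 0` (each nonzero sum has a nonzero term). Sum over all `p` in the box: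
`∑ p, nm zp ≤ ∑ over squares s = (y, a, b) with dl L z0 s ≠ 0 of the number of pairs (p, x) with
mix x p b (y b) = y and y b ∈ btw (p b) (x b)`. For such a pair `x i = y i` for `i < b` and `p i = y i`
for `i > b`; so the pair is determined by `p i` (`i < b`), `x i` (`i > b`), and `p b`, `x b`: that is,
the map `(p, x) ↦ (the function i ↦ if i < b then p i else if i > b then x i else p b, x b)` is
injective on them, into (box) × `[0, L)`: at most `L ^ d * L` pairs. Hence
`∑ p, nm zp ≤ nm (dl L z0) * L ^ d * L`, and as there are `L ^ d` points `p` (`box_fin`), some `p` has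
`nm zp ≤ L * nm (dl L z0)`. (If `L = 0` there are no edges, and `z := 0` works since `dl L z0 = 0`.)
-/

set_option autoImplicit false

namespace Pool.Agent.H42.CS

/-- The relation between a base point, an edge and a square. -/
private def Rl {d : ℕ} (p : Pt d) (e : Ed d) (s : Sq d) : Prop :=
  s.2.1 = e.2 ∧ s.1 = mix e.1 p s.2.2 (s.1 s.2.2)

private theorem mix_self {d : ℕ} (x p : Pt d) (b : Fin d) (t : ℤ) : mix x p b t b = t := by
  simp [mix]

/-- The chain for the base point `p`. -/
private theorem zp_spec {d : ℕ} (L : ℕ) (z0 : Ed d → ZMod 2) (h0 : Sup L z0) (p : Pt d)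
    (hp : inB L p) : Sup L (cob L (pth z0 p) + z0) ∧
    dl L (cob L (pth z0 p) + z0) = dl L z0 ∧
    ∀ e, (cob L (pth z0 p) + z0) e ≠ 0 → isE L e ∧ ∃ s, dl L z0 s ≠ 0 ∧ Rl p e s := by
  have hsup : Sup L (cob L (pth z0 p) + z0) := by
    intro e he
    rw [Pi.add_apply, h0 e he, add_zero]
    unfold cob
    rw [if_neg he]
  refine ⟨hsup, by rw [dl_add, dl_cob, zero_add], fun e he => ?_⟩
  have hE : isE L e := by
    by_contra hE
    exact he (hsup e hE)
  refine ⟨hE, ?_⟩
  obtain ⟨x, a⟩ := e
  have h1 := pth_id L z0 p x a hp hE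
  have h2 : (cob L (pth z0 p) + z0) (x, a) =
      z0 (x, a) + pth z0 p x + pth z0 p (x + un a) := by
    rw [Pi.add_apply]
    unfold cob
    rw [if_pos hE]
    ring
  rw [h2, h1] at he
  obtain ⟨b, _, hb⟩ := Finset.exists_ne_zero_of_sum_ne_zero he
  obtain ⟨t, _, ht⟩ := Finset.exists_ne_zero_of_sum_ne_zero hb
  refine ⟨(mix x p b t, a, b), ht, rfl, ?_⟩
  change mix x p b t = mix x p b (mix x p b t b)
  rw [mix_self]

open Classical in
/-- The number of the pairs of a base point and an edge for one square. -/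
private theorem pairs {d : ℕ} (L : ℕ) (B : Finset (Pt d)) (hB : ∀ x, x ∈ B ↔ inB L x)
    (E : Finset (Ed d)) (hE : ∀ e, e ∈ E ↔ isE L e) (s : Sq d) :
    ∑ p ∈ B, (E.filter fun e => Rl p e s).card ≤ B.card * L := by
  have h1 : (Finset.Ico (0 : ℤ) L).card = L := by simp
  have h2 : B.card * L = (B ×ˢ Finset.Ico (0 : ℤ) L).card := by
    rw [Finset.card_product, h1]
  rw [h2, ← Finset.card_sigma]
  obtain ⟨y, a, b⟩ := s
  refine Finset.card_le_card_of_injOn
    (fun q => ((fun i => if i < b then q.1 i else if b < i then q.2.1 i else q.1 b), q.2.1 b))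
    ?_ ?_
  · rintro ⟨p, x, a'⟩ hq
    rw [Finset.mem_coe, Finset.mem_sigma, Finset.mem_filter] at hq
    obtain ⟨hp, he, _⟩ := hq
    rw [hB] at hp
    have hx : inB L x := ((hE _).1 he).1
    rw [Finset.mem_coe, Finset.mem_product, hB, Finset.mem_Ico]
    refine ⟨fun i => ?_, hx b⟩
    change 0 ≤ (if i < b then p i else if b < i then x i else p b) ∧
      (if i < b then p i else if b < i then x i else p b) < (L : ℤ)
    split_ifs
    · exact hp i
    · exact hx i
    · exact hp b
  · rintro ⟨p, x, a'⟩ hq ⟨p', x', a''⟩ hq' heq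
    rw [Finset.mem_coe, Finset.mem_sigma, Finset.mem_filter] at hq hq'
    obtain ⟨_, _, ha, hm⟩ := hq
    obtain ⟨_, _, ha', hm'⟩ := hq'
    have ea : a' = a'' := ha.symm.trans ha'
    have e1 := (Prod.ext_iff.1 heq).1
    have e2 : x b = x' b := (Prod.ext_iff.1 heq).2
    have hy : ∀ i, y i = if i < b then x i else if i = b then y b else p i := fun i =>
      congrFun hm i
    have hy' : ∀ i, y i = if i < b then x' i else if i = b then y b else p' i := fun i =>
      congrFun hm' i
    have e3 : ∀ i, (if i < b then p i else if b < i then x i else p b) =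
        (if i < b then p' i else if b < i then x' i else p' b) := fun i => congrFun e1 i
    have hxx : x = x' := by
      funext i
      rcases lt_trichotomy i b with hi | hi | hi
      · have g1 := hy i
        have g2 := hy' i
        rw [if_pos hi] at g1 g2
        rw [← g1, ← g2]
      · rw [hi]
        exact e2
      · have g := e3 i
        rwa [if_neg hi.not_gt, if_pos hi, if_neg hi.not_gt, if_pos hi] at g
    have hpp : p = p' := by
      funext i
      rcases lt_trichotomy i b with hi | hi | hi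
      · have g := e3 i
        rwa [if_pos hi, if_pos hi] at g
      · have g := e3 b
        rw [if_neg (lt_irrefl b), if_neg (lt_irrefl b), if_neg (lt_irrefl b),
          if_neg (lt_irrefl b)] at g
        rw [hi]
        exact g
      · have g1 := hy i
        have g2 := hy' i
        rw [if_neg hi.not_gt, if_neg hi.ne'] at g1 g2
        rw [← g1, ← g2]
    rw [hxx, hpp, ea]

open Classical in
theorem fill {d : ℕ} (L : ℕ) (z0 : Ed d → ZMod 2) (h0 : Sup L z0) :
    ∃ z : Ed d → ZMod 2, Sup L z ∧ dl L z = dl L z0 ∧ nm z ≤ L * nm (dl L z0) := by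
  by_cases hne : ∃ p : Pt d, inB L p
  · set B : Finset (Pt d) := (box_fin (d := d) L).1.toFinset with hBdef
    have hB : ∀ x, x ∈ B ↔ inB L x := fun x => by
      rw [hBdef, Set.Finite.mem_toFinset]
      rfl
    set E : Finset (Ed d) := (isE_fin (d := d) L).toFinset with hEdef
    have hE : ∀ e, e ∈ E ↔ isE L e := fun e => by
      rw [hEdef, Set.Finite.mem_toFinset]
      rfl
    have hfin : {s : Sq d | dl L z0 s ≠ 0}.Finite := by
      refine (isS_fin (d := d) L).1.subset fun s hs => ?_
      by_contra hS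
      apply hs
      change dl L z0 s = 0
      have hS' : ¬ isS L s := hS
      unfold dl
      rw [if_neg hS']
    set T : Finset (Sq d) := hfin.toFinset with hTdef
    have hT : ∀ s, s ∈ T ↔ dl L z0 s ≠ 0 := fun s => by
      rw [hTdef, Set.Finite.mem_toFinset]
      rfl
    have hTc : nm (dl L z0) = T.card := by
      unfold nm
      rw [hTdef, Set.ncard_eq_toFinset_card _ hfin]
    have hBne : B.Nonempty := by
      obtain ⟨p, hp⟩ := hne
      exact ⟨p, (hB p).2 hp⟩
    have hbd : ∀ p ∈ B, nm (cob L (pth z0 p) + z0) ≤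
        ∑ s ∈ T, (E.filter fun e => Rl p e s).card := by
      intro p hp
      obtain ⟨_, _, h3⟩ := zp_spec L z0 h0 p ((hB p).1 hp)
      refine le_trans ?_ Finset.card_biUnion_le
      unfold nm
      rw [← Set.ncard_coe_finset]
      refine Set.ncard_le_ncard (fun e he => ?_) (Finset.finite_toSet _)
      obtain ⟨h4, s, hs, hR⟩ := h3 e he
      rw [Finset.mem_coe, Finset.mem_biUnion]
      exact ⟨s, (hT s).2 hs, Finset.mem_filter.2 ⟨(hE e).2 h4, hR⟩⟩
    have hsum : ∑ p ∈ B, nm (cob L (pth z0 p) + z0) ≤ ∑ _p ∈ B, L * nm (dl L z0) := by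
      calc ∑ p ∈ B, nm (cob L (pth z0 p) + z0) ≤
            ∑ p ∈ B, ∑ s ∈ T, (E.filter fun e => Rl p e s).card := Finset.sum_le_sum hbd
        _ = ∑ s ∈ T, ∑ p ∈ B, (E.filter fun e => Rl p e s).card := Finset.sum_comm
        _ ≤ ∑ _s ∈ T, B.card * L := Finset.sum_le_sum fun s _ => pairs L B hB E hE s
        _ = ∑ _p ∈ B, L * nm (dl L z0) := by
            rw [Finset.sum_const, Finset.sum_const, hTc, smul_eq_mul, smul_eq_mul]
            ring
    obtain ⟨p, hp, hle⟩ := Finset.exists_le_of_sum_le hBne hsum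
    obtain ⟨h1, h2, _⟩ := zp_spec L z0 h0 p ((hB p).1 hp)
    exact ⟨_, h1, h2, hle⟩
  · refine ⟨0, fun e _ => rfl, ?_, ?_⟩
    · have h1 : ∀ z : Ed d → ZMod 2, dl L z = 0 := by
        intro z
        funext s
        unfold dl
        rw [if_neg fun hs => hne ⟨_, hs.2.1⟩]
        rfl
      rw [h1, h1]
    · have h1 : nm (0 : Ed d → ZMod 2) = 0 := by
        unfold nm
        simp
      rw [h1]
      exact Nat.zero_le _

end Pool.Agent.H42.CS
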