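import Pool.Agent.H42.CS.GId

/-!
# Grid III: closed chains are cuts; isoperimetry; the sign of a small closed chain

PROOF of `closed_cut`. Take `f := pth z 0` (path sums from the vertex `0`, which is in the box if `L > 0`;
if `L = 0` both sides are 0 because there are no edges). By `pth_id` with vanishing `dl`:
`z (x, a) = f x + f (x + un a)` for every edge of the box; off the box both sides are 0.

PROOF of `iso`. For a pair `(p, x)` of points of the box with `f p = 0`, `f x = 1`: `pth_cob` gives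
`pth (cob L f) p x = 1`, so there are `b` and `t ∈ btw (p b) (x b)` with
`cob L f (mix x p b t, b) ≠ 0`. For a given edge `(y, b)` the pairs `(p, x)` with
`mix x p b (y b) = y`: `x i = y i` for `i < b`, `p i = y i` for `i > b`; the pair is determined by the
function `i ↦ if i < b then p i else if i > b then x i else p b` (in the box) and `x b ∈ [0, L)`: at most
`L ^ (d + 1)` pairs.

PROOF of `cob_inj`: `f + f'` has coboundary 0, so by `pth_cob` it is constant on the box:
`0 = pth 0 p x = (f + f') p + (f + f') x`.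

PROOF of `small_cut`: `closed_cut` gives `f`; `iso` gives for `A = {f = 1}`, `B = {f = 0}` (in the box;
`|A| + |B| = L ^ d` as `ZMod 2` has two elements): `|A| |B| ≤ nm z * L ^ (d + 1)`. Replace `f` by `f + 1`
if `|A| > |B|` (same coboundary); so `|B| ≥ L ^ d / 2` and `|A| L ^ d ≤ 2 nm z L ^ (d + 1)`,
`|A| ≤ 2 L nm z`, `8 |A| ≤ 16 L nm z < L * L ^ (d - 1) = L ^ d` (`d ≥ 1`, `L ≥ 1`).

PROOF of `sg_eq`: if `z = cob L f'` with `8 |{f' = 1}| < L ^ d` then by `cob_inj` `f = f'` or `f = f' + 1` on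
the box; the second would give `L ^ d = |{f = 1}| + |{f' = 1}| < L ^ d / 4`. So `f 0 = f' 0` (`0` is in
the box as `L > 0`, which follows from `8 * _ < L ^ d` and `hd`).

PROOF of `sg_add`: small cuts `f, f', f''` of `z, z', z + z'` (`small_cut`); `cob L (f + f') =
cob L f''`; by `cob_inj` `f'' = f + f'` on the box or `f'' = f + f' + 1`; in the second case
`L ^ d ≤ |{f''= 1}| + |{f = 1}| + |{f' = 1}| < 3 L ^ d / 8`: impossible. So `f'' 0 = f 0 + f' 0`, and
`sg_eq` three times.

PROOF of `sg_star`: `sg_eq` with `f = Pi.single x 1`.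
-/

set_option autoImplicit false

namespace Pool.Agent.H42.CS

private theorem z2_add_self (a : ZMod 2) : a + a = 0 := by
  revert a
  decide

private theorem z2_cases (a : ZMod 2) : a = 0 ∨ a = 1 := by
  revert a
  decide

private theorem inB_zero {d L : ℕ} (hL : 1 ≤ L) : inB L (0 : Pt d) := by
  intro i
  rw [Pi.zero_apply]
  omega

private theorem box_pos {d L : ℕ} (hd : 1 ≤ d) {x : Pt d} (hx : inB L x) : 1 ≤ L := by
  have h := hx ⟨0, by omega⟩
  omega

private theorem card_split {d : ℕ} (L : ℕ) (f : Pt d → ZMod 2) :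
    {x | inB L x ∧ f x = 1}.ncard + {x | inB L x ∧ f x = 0}.ncard = L ^ d := by
  have hfin := (box_fin (d := d) L).1
  have hdis : Disjoint {x | inB L x ∧ f x = 1} {x | inB L x ∧ f x = 0} := by
    rw [Set.disjoint_left]
    rintro x ⟨-, h1⟩ ⟨-, h2⟩
    rw [h1] at h2
    exact absurd h2 (by decide)
  rw [← (box_fin (d := d) L).2, ← Set.ncard_union_eq hdis (hfin.subset fun x hx => hx.1) (hfin.subset fun x hx => hx.1)]
  congr 1
  ext x
  constructor
  · rintro (h | h)
    · exact h.1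
    · exact h.1
  · intro h
    rcases z2_cases (f x) with h1 | h1
    · exact Or.inr ⟨h, h1⟩
    · exact Or.inl ⟨h, h1⟩

theorem closed_cut {d : ℕ} (L : ℕ) (z : Ed d → ZMod 2) (hz : Sup L z) (h : dl L z = 0) :
    ∃ f : Pt d → ZMod 2, z = cob L f := by
  refine ⟨pth z 0, ?_⟩
  funext e
  obtain ⟨x, a⟩ := e
  unfold cob
  by_cases he : isE L (x, a)
  · rw [if_pos he]
    have h0 : inB L (0 : Pt d) := inB_zero (box_pos (by have := a.2; omega) he.1)
    have h1 := pth_id L z 0 x a h0 he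
    have h2 : ∑ b ∈ Finset.univ.filter (fun b => a < b), ∑ t ∈ btw ((0 : Pt d) b) (x b),
        dl L z (mix x 0 b t, a, b) = 0 := by
      refine Finset.sum_eq_zero fun b _ => Finset.sum_eq_zero fun t _ => ?_
      rw [h]
      rfl
    rw [h2] at h1
    have h3 := z2_add_self (pth z 0 x + pth z 0 (x + un a))
    change z (x, a) = pth z 0 x + pth z 0 (x + un a)
    linear_combination h1 - h3
  · rw [if_neg he, hz _ he]

theorem iso {d : ℕ} (L : ℕ) (f : Pt d → ZMod 2) :
    {x | inB L x ∧ f x = 1}.ncard * {x | inB L x ∧ f x = 0}.ncard ≤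
      nm (cob L f) * L ^ (d + 1) := by
  classical
  obtain ⟨A, hA⟩ : ∃ A : Set (Pt d), A = {x | inB L x ∧ f x = 1} := ⟨_, rfl⟩
  obtain ⟨B, hB⟩ : ∃ B : Set (Pt d), B = {x | inB L x ∧ f x = 0} := ⟨_, rfl⟩
  rw [← hA, ← hB]
  have hex : ∀ q : Pt d × Pt d, q ∈ A ×ˢ B → ∃ u : Fin d × ℤ, u.2 ∈ btw (q.2 u.1) (q.1 u.1) ∧
      cob L f (mix q.1 q.2 u.1 u.2, u.1) ≠ 0 := by
    rintro ⟨x, p⟩ ⟨hx, hp⟩
    rw [hA] at hx
    rw [hB] at hp
    have h1 := pth_cob L f p x hp.1 hx.1
    rw [hp.2, hx.2, zero_add] at h1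
    have h2 : pth (cob L f) p x ≠ 0 := by
      rw [h1]
      exact one_ne_zero
    unfold pth at h2
    obtain ⟨b, -, hb⟩ := Finset.exists_ne_zero_of_sum_ne_zero h2
    obtain ⟨t, ht, ht2⟩ := Finset.exists_ne_zero_of_sum_ne_zero hb
    exact ⟨(b, t), ht, ht2⟩
  have hd0 : ∀ q : Pt d × Pt d, q ∈ A ×ˢ B → Nonempty (Fin d) := fun q hq => ⟨(hex q hq).choose.1⟩
  by_cases hne : (A ×ˢ B).Nonempty
  swap
  · rw [← Set.ncard_prod, Set.not_nonempty_iff_eq_empty.1 hne, Set.ncard_empty]
    exact Nat.zero_le _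
  obtain ⟨q0, hq0⟩ := hne
  obtain ⟨b0⟩ := hd0 q0 hq0
  -- the choice of the edge
  obtain ⟨u, hu⟩ : ∃ u : Pt d × Pt d → Fin d × ℤ, ∀ q ∈ A ×ˢ B, (u q).2 ∈ btw (q.2 (u q).1) (q.1 (u q).1) ∧
      cob L f (mix q.1 q.2 (u q).1 (u q).2, (u q).1) ≠ 0 := by
    refine ⟨fun q => if h : q ∈ A ×ˢ B then (hex q h).choose else (b0, 0), fun q hq => ?_⟩
    simp only [dif_pos hq]
    exact (hex q hq).choose_spec
  obtain ⟨Ψ, hΨ⟩ : ∃ Ψ : Pt d × Pt d → Ed d × (Pt d × ℤ), ∀ q, Ψ q = ((mix q.1 q.2 (u q).1 (u q).2, (u q).1),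
      (fun i => if i ≤ (u q).1 then q.2 i else q.1 i), q.1 (u q).1) := ⟨_, fun _ => rfl⟩
  have hfinE : {e : Ed d | cob L f e ≠ 0}.Finite := by
    refine (isE_fin (d := d) L).subset fun e he => ?_
    by_contra h
    apply he
    unfold cob
    exact if_neg h
  have hT : ({e : Ed d | cob L f e ≠ 0} ×ˢ ({x : Pt d | inB L x} ×ˢ Set.Ico (0 : ℤ) L)).Finite :=
    hfinE.prod ((box_fin (d := d) L).1.prod (Set.finite_Ico _ _))
  have hmaps : ∀ q ∈ A ×ˢ B, Ψ q ∈ {e : Ed d | cob L f e ≠ 0} ×ˢ ({x : Pt d | inB L x} ×ˢ Set.Ico (0 : ℤ) L) := by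
    intro q hq
    rw [hΨ]
    have hq1 : inB L q.1 := by
      have := hq.1
      rw [hA] at this
      exact this.1
    have hq2 : inB L q.2 := by
      have := hq.2
      rw [hB] at this
      exact this.1
    refine ⟨(hu q hq).2, ?_, hq1 _⟩
    intro i
    change 0 ≤ (if i ≤ (u q).1 then q.2 i else q.1 i) ∧ (if i ≤ (u q).1 then q.2 i else q.1 i) < (L : ℤ)
    split_ifs
    · exact hq2 i
    · exact hq1 i
  have hinj : Set.InjOn Ψ (A ×ˢ B) := by
    intro q hq q' hq' h
    rw [hΨ, hΨ] at h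
    have h1 : (u q).1 = (u q').1 := congrArg (fun w => w.1.2) h
    have h2 : mix q.1 q.2 (u q).1 (u q).2 = mix q'.1 q'.2 (u q').1 (u q').2 := congrArg (fun w => w.1.1) h
    have h3 : (fun i => if i ≤ (u q).1 then q.2 i else q.1 i) = fun i => if i ≤ (u q').1 then q'.2 i else q'.1 i :=
      congrArg (fun w => w.2.1) h
    have h4 : q.1 (u q).1 = q'.1 (u q').1 := congrArg (fun w => w.2.2) h
    rw [← h1] at h2 h3 h4
    have k2 := fun i => congrFun h2 i
    have k3 := fun i => congrFun h3 i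
    simp only [mix] at k2 k3
    apply Prod.ext
    · funext i
      have a2 := k2 i
      have a3 := k3 i
      rcases lt_trichotomy i (u q).1 with h5 | h5 | h5
      · rw [if_pos h5, if_pos h5] at a2
        exact a2
      · rw [h5]
        exact h4
      · rw [if_neg (not_le.2 h5), if_neg (not_le.2 h5)] at a3
        exact a3
    · funext i
      have a2 := k2 i
      have a3 := k3 i
      by_cases h5 : i ≤ (u q).1
      · rw [if_pos h5, if_pos h5] at a3
        exact a3
      · have h6 : ¬ i < (u q).1 := fun h => h5 h.le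
        have h7 : ¬ i = (u q).1 := fun h => h5 h.le
        rw [if_neg h6, if_neg h7, if_neg h6, if_neg h7] at a2
        exact a2
  have hfin := Set.ncard_le_ncard_of_injOn Ψ hmaps hinj hT
  rw [Set.ncard_prod, Set.ncard_prod, Set.ncard_prod, (box_fin (d := d) L).2] at hfin
  have h8 : (Set.Ico (0 : ℤ) L).ncard = L := by
    rw [← Finset.coe_Ico, Set.ncard_coe_finset, Int.card_Ico]
    omega
  rw [h8, ← pow_succ] at hfin
  exact hfin

theorem cob_inj {d : ℕ} (L : ℕ) (f f' : Pt d → ZMod 2) (h : cob L f = cob L f') :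
    ∃ c : ZMod 2, ∀ x, inB L x → f' x = f x + c := by
  refine ⟨f 0 + f' 0, fun x hx => ?_⟩
  by_cases hL : 1 ≤ L
  · have h1 := pth_cob L f 0 x (inB_zero hL) hx
    have h2 := pth_cob L f' 0 x (inB_zero hL) hx
    rw [h, h2] at h1
    have h3 := z2_add_self (f' 0)
    linear_combination h1 - h3
  · have hd : d = 0 := by
      by_contra hd
      exact hL (box_pos (by omega) hx)
    subst hd
    have : x = 0 := Subsingleton.elim _ _
    rw [this]
    have h3 := z2_add_self (f 0)
    linear_combination -h3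

private theorem small_arith {d L a b n : ℕ} (hd : 1 ≤ d) (hL : 1 ≤ L) (hab : a + b = L ^ d) (hle : a ≤ b)
    (hi : a * b ≤ n * L ^ (d + 1)) (hs : 16 * n < L ^ (d - 1)) : 8 * a < L ^ d := by
  have hLd : 0 < L ^ d := by positivity
  have h1 : a * L ^ d ≤ (2 * n * L) * L ^ d := by
    calc a * L ^ d = a * (a + b) := by rw [hab]
      _ ≤ a * (b + b) := Nat.mul_le_mul_left _ (by omega)
      _ = 2 * (a * b) := by ring
      _ ≤ 2 * (n * L ^ (d + 1)) := Nat.mul_le_mul_left _ hi
      _ = (2 * n * L) * L ^ d := by ring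
  have h2 : a ≤ 2 * n * L := Nat.le_of_mul_le_mul_right h1 hLd
  have h3 : 16 * n * L < L ^ (d - 1) * L := Nat.mul_lt_mul_of_pos_right hs (by omega)
  have h4 : L ^ (d - 1) * L = L ^ d := by
    rw [← pow_succ]
    congr 1
    omega
  calc 8 * a ≤ 8 * (2 * n * L) := Nat.mul_le_mul_left _ h2
    _ = 16 * n * L := by ring
    _ < L ^ d := by rw [← h4]; exact h3

private theorem cob_one {d : ℕ} (L : ℕ) (f : Pt d → ZMod 2) : cob L (fun x => f x + 1) = cob L f := by
  funext e
  unfold cob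
  split_ifs
  · have h := z2_add_self (1 : ZMod 2)
    linear_combination h
  · rfl

theorem small_cut {d : ℕ} (hd : 1 ≤ d) (L : ℕ) (hL : 1 ≤ L) (z : Ed d → ZMod 2) (hz : Sup L z)
    (h : dl L z = 0) (hs : 16 * nm z < L ^ (d - 1)) :
    ∃ f : Pt d → ZMod 2, z = cob L f ∧ 8 * {x | inB L x ∧ f x = 1}.ncard < L ^ d := by
  obtain ⟨f, hf⟩ := closed_cut L z hz h
  have hab := card_split L f
  have hi := iso L f
  rw [← hf] at hi
  rcases le_total {x | inB L x ∧ f x = 1}.ncard {x | inB L x ∧ f x = 0}.ncard with hle | hle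
  · exact ⟨f, hf, small_arith hd hL hab hle hi hs⟩
  · refine ⟨fun x => f x + 1, by rw [cob_one]; exact hf, ?_⟩
    have e : {x | inB L x ∧ f x + 1 = 1} = {x | inB L x ∧ f x = 0} := by
      ext x
      constructor
      · rintro ⟨h1, h2⟩
        exact ⟨h1, by linear_combination h2⟩
      · rintro ⟨h1, h2⟩
        exact ⟨h1, by linear_combination h2⟩
    rw [e]
    rw [add_comm] at hab
    rw [mul_comm] at hi
    exact small_arith hd hL hab hle hi hs

theorem sg_eq {d : ℕ} (hd : 1 ≤ d) (L : ℕ) (f : Pt d → ZMod 2)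
    (hs : 8 * {x | inB L x ∧ f x = 1}.ncard < L ^ d) : sg L (cob L f) = f 0 := by
  have hL : 1 ≤ L := by
    by_contra hL
    have : L = 0 := by omega
    rw [this, zero_pow (by omega)] at hs
    omega
  unfold sg
  rcases z2_cases (f 0) with h0 | h0
  · rw [if_neg, h0]
    rintro ⟨f', h1, h2, h3⟩
    obtain ⟨c, hc⟩ := cob_inj L f f' h1
    have hc1 : c = 1 := by
      have h4 := hc 0 (inB_zero hL)
      rw [h3, h0, zero_add] at h4
      exact h4.symm
    have e : {x | inB L x ∧ f' x = 1} = {x | inB L x ∧ f x = 0} := by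
      ext x
      constructor
      · rintro ⟨h4, h5⟩
        have h6 := hc x h4
        exact ⟨h4, by linear_combination h5 - h6 - hc1⟩
      · rintro ⟨h4, h5⟩
        have h6 := hc x h4
        exact ⟨h4, by linear_combination h5 + h6 + hc1⟩
    rw [e] at h2
    have h4 := card_split L f
    omega
  · rw [if_pos ⟨f, rfl, hs, h0⟩, h0]

theorem sg_zero {d : ℕ} (hd : 1 ≤ d) (L : ℕ) (hL : 1 ≤ L) :
    sg L (0 : Ed d → ZMod 2) = 0 := by
  have h1 : cob L (0 : Pt d → ZMod 2) = 0 := by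
    funext e
    unfold cob
    split_ifs
    · exact add_zero 0
    · rfl
  have h2 : {x : Pt d | inB L x ∧ (0 : Pt d → ZMod 2) x = 1} = ∅ := by
    ext x
    simp
  have h3 := sg_eq hd L (0 : Pt d → ZMod 2) (by
    rw [h2, Set.ncard_empty, mul_zero]
    positivity)
  rw [h1] at h3
  exact h3

theorem sg_add {d : ℕ} (hd : 1 ≤ d) (L : ℕ) (hL : 1 ≤ L) (z z' : Ed d → ZMod 2) (hz : Sup L z)
    (hz' : Sup L z') (h : dl L z = 0) (h' : dl L z' = 0) (hs : 16 * nm z < L ^ (d - 1))
    (hs' : 16 * nm z' < L ^ (d - 1)) (hs'' : 16 * nm (z + z') < L ^ (d - 1)) :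
    sg L (z + z') = sg L z + sg L z' := by
  have hz'' : Sup L (z + z') := fun e he => by rw [Pi.add_apply, hz e he, hz' e he, add_zero]
  have h'' : dl L (z + z') = 0 := by rw [dl_add, h, h', add_zero]
  obtain ⟨f, hf, hc⟩ := small_cut hd L hL z hz h hs
  obtain ⟨f', hf', hc'⟩ := small_cut hd L hL z' hz' h' hs'
  obtain ⟨f'', hf'', hc''⟩ := small_cut hd L hL (z + z') hz'' h'' hs''
  have h1 : cob L (f + f') = cob L f'' := by rw [cob_add, ← hf, ← hf', hf'']
  obtain ⟨c, hcc⟩ := cob_inj L _ _ h1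
  have hc0 : c = 0 := by
    rcases z2_cases c with h2 | h2
    · exact h2
    · exfalso
      have hsub : {x : Pt d | inB L x} ⊆ ({x | inB L x ∧ f x = 1} ∪ {x | inB L x ∧ f' x = 1}) ∪
          {x | inB L x ∧ f'' x = 1} := by
        intro x hx
        have h3 := hcc x hx
        rw [h2, Pi.add_apply] at h3
        rcases z2_cases (f x) with h4 | h4
        · rcases z2_cases (f' x) with h5 | h5
          · refine Or.inr ⟨hx, ?_⟩
            rw [h3, h4, h5, add_zero, zero_add]
          · exact Or.inl (Or.inr ⟨hx, h5⟩)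
        · exact Or.inl (Or.inl ⟨hx, h4⟩)
      have hfin := (box_fin (d := d) L).1
      have h3 := Set.ncard_le_ncard hsub
        (((hfin.subset fun x hx => hx.1).union (hfin.subset fun x hx => hx.1)).union (hfin.subset fun x hx => hx.1))
      have h4 := Set.ncard_union_le ({x | inB L x ∧ f x = 1} ∪ {x | inB L x ∧ f' x = 1}) {x | inB L x ∧ f'' x = 1}
      have h5 := Set.ncard_union_le {x | inB L x ∧ f x = 1} {x | inB L x ∧ f' x = 1}
      rw [(box_fin (d := d) L).2] at h3
      omega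
  have h2 := hcc 0 (inB_zero hL)
  rw [hc0, add_zero, Pi.add_apply] at h2
  have e1 := sg_eq hd L f hc
  have e2 := sg_eq hd L f' hc'
  have e3 := sg_eq hd L f'' hc''
  rw [← hf] at e1
  rw [← hf'] at e2
  rw [← hf''] at e3
  rw [e1, e2, e3, h2]

theorem sg_star {d : ℕ} (hd : 1 ≤ d) (L : ℕ) (hL : 8 < L ^ d) (x : Pt d) (hx : inB L x) :
    sg L (cob L (Pi.single x 1)) = if x = 0 then 1 else 0 := by
  have h1 : {y : Pt d | inB L y ∧ (Pi.single x 1 : Pt d → ZMod 2) y = 1} = {x} := by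
    ext y
    rw [Set.mem_singleton_iff]
    constructor
    · rintro ⟨-, h2⟩
      by_contra h3
      rw [Pi.single_eq_of_ne h3] at h2
      exact absurd h2 (by decide)
    · rintro rfl
      exact ⟨hx, Pi.single_eq_same _ _⟩
  rw [sg_eq hd L _ (by rw [h1, Set.ncard_singleton]; omega), Pi.single_apply]
  by_cases h : x = 0
  · rw [if_pos h, if_pos h.symm]
  · rw [if_neg h, if_neg (fun h' => h h'.symm)]

end Pool.Agent.H42.CS
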