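import Pool.Agent.H42.CS.GFil
import Pool.Agent.H42.CS.GIso

/-!
# Grid IV: the gadget of the grid

`iot L j` is linear, injective on the functions supported on the squares of the box; `nm (iot L j v) =
nm v` for them (`j` is injective there). DEFINITIONS. `D := {y | ∃ z, Sup L z ∧ y = iot L j (dl L z)}`
(a submodule), `w := L ^ (d - 2) / 100`. For `y ∈ D` choose by `fill` a filling `Z y`: `Sup L (Z y)`,
`iot L j (dl L (Z y)) = y`, `nm (Z y) ≤ L * nm y`; `Z 0 := 0`; `Z y := 0` for `y ∉ D`.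
`kap y y' := sg L (Z y + Z y' + Z (y + y'))`. `c e := sg L (Pi.single e 1 + Z (ye L j e))` for an edge
`e` of the box, `0` otherwise.

`kap_comm`: commutativity of the addition. `kap_self`: `y + y = 0`, `Z y + Z y + Z 0 = 0`,
`sg_zero`. `kap_coc`: write `u = Z y + Z y' + Z (y + y')`, `u' = Z (y+y') + Z y'' + Z (y+y'+y'')`; both are
closed (`dl` is linear and `iot` is injective on the functions supported on the squares), of size at most
`3 L w`; their sum is `Z y + Z y' + Z y'' + Z (y+y'+y'')`, of size at most `4 L w`;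
`16 * 4 * L * w ≤ 64 / 100 * L ^ (d - 1) < L ^ (d - 1)`; so by `sg_add` the left side is
`sg L (Z y + Z y' + Z y'' + Z (y+y'+y''))`; likewise the right side.

VERTEX LAW. For a set `A` of slots of `x` with `isE` put `cA := ∑ σ ∈ A, Pi.single (ed x σ) 1`
(`nm cA ≤ 2 d`), `yA := iot L j (dl L cA) = ∑ σ ∈ A, ye L j (ed x σ)` (in `U` and in `D`, so
`nm yA ≤ w` by tameness) and `φ A := f yA + sg L (cA + Z yA)`. CLAIM
`φ (insert σ A) = φ A + φ {σ}`: `f (yA + y{σ}) = f yA + f y{σ} + kap yA y{σ}` (`IsW`), and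
`sg (cA + c{σ} + Z (yA + y{σ})) = sg (cA + Z yA) + sg (c{σ} + Z y{σ}) + sg (Z yA + Z y{σ} +
Z (yA + y{σ}))` by `sg_add` twice (all the closed chains that occur have size at most `2 d + 3 L w` and
`16 (2 d + 3 L w) < L ^ (d - 1)` as `L ≥ 100 d`, `d ≥ 3`: `32 d ≤ L ≤ L ^ (d - 1) / 100`,
`48 L w ≤ 48 / 100 * L ^ (d - 1)`). So `φ (all slots with isE) = ∑ φ {σ}`, the left side of the law. And for
`A` = all slots with `isE`: `cA = cob L (Pi.single x 1)`, `dl L cA = 0`, `yA = 0`, `Z 0 = 0`,
`f 0 = 0` (`IsW` at `0, 0`: `f 0 = f 0 + f 0 + kap 0 0`), so `φ A = sg L (cob L (Pi.single x 1)) = [x = 0]`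
(`sg_star`).

DOT FORMULA (`ye_dot`): `dl L (Pi.single e 1) s = 1` iff `s` is a square of the box which contains the edge
`e`; for `e = ed x σ` these are exactly the `sq x σ t` with `isS L (sq x σ t)` (then `t.1 ≠ σ.1`), and
`t ↦ sq x σ t` is injective on these `t`. `p ⬝ᵥ iot L j v = ∑ s, p (j s) * v s`.
-/

set_option autoImplicit false

namespace Pool.Agent.H42.CS

/-! ### The image of the functions on the squares -/

private theorem dbl {α : Type} (f : α → ZMod 2) : f + f = 0 := by
  funext a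
  exact CharTwo.add_self_eq_zero (f a)

private theorem iot_at {d : ℕ} {K : Type} (L : ℕ) (j : Sq d → K) (hj : Set.InjOn j {s | isS L s})
    (v : Sq d → ZMod 2) (s : Sq d) (hs : isS L s) : iot L j v (j s) = v s := by
  unfold iot
  have e : {s' : Sq d | isS L s' ∧ j s' = j s} = {s} := by
    ext s'
    simp only [Set.mem_ofPred_eq, Set.mem_singleton_iff]
    exact ⟨fun h => hj h.1 hs h.2, fun h => by rw [h]; exact ⟨hs, rfl⟩⟩
  rw [e, finsum_mem_singleton]

private theorem iot_ne {d : ℕ} {K : Type} (L : ℕ) (j : Sq d → K) (v : Sq d → ZMod 2) (k : K)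
    (h : iot L j v k ≠ 0) : ∃ s, isS L s ∧ j s = k := by
  by_contra hne
  push Not at hne
  apply h
  unfold iot
  have e : {s : Sq d | isS L s ∧ j s = k} = ∅ := by
    ext s
    simp only [Set.mem_ofPred_eq, Set.mem_empty_iff_false, iff_false, not_and]
    exact fun hs => hne s hs
  rw [e, finsum_mem_empty]

private theorem iot_add {d : ℕ} {K : Type} (L : ℕ) (j : Sq d → K) (v v' : Sq d → ZMod 2) :
    iot L j (v + v') = iot L j v + iot L j v' := by
  funext k
  have hf : {s : Sq d | isS L s ∧ j s = k}.Finite := (isS_fin L).1.subset fun s hs => hs.1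
  simp only [iot, Pi.add_apply]
  exact finsum_mem_add_distrib hf

private theorem iot_zero {d : ℕ} {K : Type} (L : ℕ) (j : Sq d → K) : iot L j 0 = 0 := by
  funext k
  simp only [iot, Pi.zero_apply]
  exact finsum_mem_zero _

private theorem dl_zero {d : ℕ} (L : ℕ) : dl L (0 : Ed d → ZMod 2) = 0 := by
  funext s
  simp [dl]

private theorem dl_off {d : ℕ} (L : ℕ) (z : Ed d → ZMod 2) (s : Sq d) (hs : ¬ isS L s) :
    dl L z s = 0 := by
  unfold dl
  exact if_neg hs

private theorem lin_add {d : ℕ} {K : Type} (L : ℕ) (j : Sq d → K) (z z' : Ed d → ZMod 2) :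
    iot L j (dl L (z + z')) = iot L j (dl L z) + iot L j (dl L z') := by
  rw [dl_add, iot_add]

private theorem lin_zero {d : ℕ} {K : Type} (L : ℕ) (j : Sq d → K) :
    iot L j (dl L (0 : Ed d → ZMod 2)) = 0 := by
  rw [dl_zero, iot_zero]

private theorem lin_inj {d : ℕ} {K : Type} (L : ℕ) (j : Sq d → K)
    (hj : Set.InjOn j {s | isS L s}) (z : Ed d → ZMod 2) (h : iot L j (dl L z) = 0) :
    dl L z = 0 := by
  funext s
  by_cases hs : isS L s
  · rw [← iot_at L j hj (dl L z) s hs, h]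
    rfl
  · exact dl_off L z s hs

private theorem nm_lin {d : ℕ} {K : Type} (L : ℕ) (j : Sq d → K)
    (hj : Set.InjOn j {s | isS L s}) (z : Ed d → ZMod 2) :
    nm (iot L j (dl L z)) = nm (dl L z) := by
  unfold nm
  have hS : ∀ s, dl L z s ≠ 0 → isS L s := fun s hs => by
    by_contra h
    exact hs (dl_off L z s h)
  have e : {k | iot L j (dl L z) k ≠ 0} = j '' {s | dl L z s ≠ 0} := by
    ext k
    simp only [Set.mem_ofPred_eq, Set.mem_image]
    constructor
    · intro hk
      obtain ⟨s, hs, rfl⟩ := iot_ne L j _ k hk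
      exact ⟨s, by rwa [iot_at L j hj _ s hs] at hk, rfl⟩
    · rintro ⟨s, hs, rfl⟩
      rwa [iot_at L j hj _ s (hS s hs)]
  rw [e, Set.InjOn.ncard_image]
  intro s hs s' hs' h
  exact hj (hS s hs) (hS s' hs') h

/-! ### Squares at an edge -/

private theorem sum_sq {d : ℕ} (L : ℕ) (x : Pt d) (σ : Slot d) (s : Sq d) (hs : isS L s) :
    (open Classical in ∑ t : Slot d, (if sq x σ t = s then (1 : ZMod 2) else 0)) =
      dl L (Pi.single (ed x σ) 1) s := by
  classical
  obtain ⟨y, a, b⟩ := s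
  have hab : a < b := hs.1
  obtain ⟨X, hX⟩ : ∃ X : Pt d, X = x + off σ := ⟨_, rfl⟩
  obtain ⟨α, hα⟩ : ∃ α : Fin d, α = σ.1 := ⟨_, rfl⟩
  have he : ed x σ = (X, α) := by rw [ed, hX, hα]
  have hsq : ∀ t : Slot d, sq x σ t = (X + off t, min α t.1, max α t.1) := by
    intro t
    rw [sq, hX, hα]
  have hR : dl L (Pi.single (ed x σ) 1) (y, a, b) =
      (if (y, a) = (X, α) then (1 : ZMod 2) else 0) + (if (y + un b, a) = (X, α) then 1 else 0) +
      (if (y, b) = (X, α) then 1 else 0) + (if (y + un a, b) = (X, α) then 1 else 0) := by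
    unfold dl
    rw [if_pos hs, he]
    simp only [Pi.single_apply]
  rw [hR, Fintype.sum_prod_type]
  simp only [Fintype.sum_bool, hsq]
  have h1 : ∀ c : Fin d, ((X + off (c, true), min α c, max α c) = (y, a, b) ↔
      y = X ∧ min α c = a ∧ max α c = b) := by
    intro c
    simp only [Prod.mk.injEq, off, if_true, add_zero]
    constructor
    · rintro ⟨h1, h2⟩; exact ⟨h1.symm, h2⟩
    · rintro ⟨h1, h2⟩; exact ⟨h1.symm, h2⟩
  have h2 : ∀ c : Fin d, ((X + off (c, false), min α c, max α c) = (y, a, b) ↔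
      y + un c = X ∧ min α c = a ∧ max α c = b) := by
    intro c
    simp only [Prod.mk.injEq, off]
    constructor
    · rintro ⟨h1, h2⟩
      refine ⟨?_, h2⟩
      rw [← h1]
      simp
    · rintro ⟨h1, h2⟩
      refine ⟨?_, h2⟩
      rw [← h1]
      simp
  simp only [h1, h2, Prod.mk.injEq]
  by_cases hαa : α = a
  · have hc : ∀ c : Fin d, (min α c = a ∧ max α c = b) ↔ c = b := by
      intro c
      rw [hαa]
      constructor
      · rintro ⟨h3, h4⟩
        rcases le_total a c with h5 | h5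
        · rwa [max_eq_right h5] at h4
        · rw [max_eq_left h5] at h4
          exact absurd h4 hab.ne
      · rintro rfl
        exact ⟨min_eq_left hab.le, max_eq_right hab.le⟩
    simp only [hc]
    rw [Finset.sum_eq_single b]
    · simp [hαa, hab.ne']
    · intro c _ hcb
      simp [hcb]
    · intro h
      exact absurd (Finset.mem_univ _) h
  · by_cases hαb : α = b
    · have hc : ∀ c : Fin d, (min α c = a ∧ max α c = b) ↔ c = a := by
        intro c
        rw [hαb]
        constructor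
        · rintro ⟨h3, h4⟩
          rcases le_total b c with h5 | h5
          · rw [min_eq_left h5] at h3
            exact absurd h3 hab.ne'
          · rwa [min_eq_right h5] at h3
        · rintro rfl
          exact ⟨min_eq_right hab.le, max_eq_left hab.le⟩
      simp only [hc]
      rw [Finset.sum_eq_single a]
      · simp [hαb, hab.ne]
      · intro c _ hcb
        simp [hcb]
      · intro h
        exact absurd (Finset.mem_univ _) h
    · have hc : ∀ c : Fin d, (min α c = a ∧ max α c = b) ↔ False := by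
        intro c
        constructor
        · rintro ⟨h3, h4⟩
          rcases le_total α c with h5 | h5
          · rw [min_eq_left h5] at h3
            exact hαa h3
          · rw [max_eq_left h5] at h4
            exact hαb h4
        · exact False.elim
      simp only [hc]
      simp [Ne.symm hαa, Ne.symm hαb]

private theorem dot_iot {d : ℕ} {K : Type} [Fintype K] (L : ℕ) (j : Sq d → K)
    (hj : Set.InjOn j {s | isS L s}) (p : K → ZMod 2) (v : Sq d → ZMod 2) :
    p ⬝ᵥ iot L j v = ∑ s ∈ (isS_fin (d := d) L).1.toFinset, p (j s) * v s := by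
  classical
  unfold dotProduct
  have h1 : ∑ k, p k * iot L j v k =
      ∑ k ∈ ((isS_fin (d := d) L).1.toFinset).image j, p k * iot L j v k := by
    symm
    apply Finset.sum_subset (Finset.subset_univ _)
    intro k _ hk
    have h2 : iot L j v k = 0 := by
      by_contra h3
      obtain ⟨s, hs, rfl⟩ := iot_ne L j v k h3
      exact hk (Finset.mem_image_of_mem _ ((Set.Finite.mem_toFinset _).2 hs))
    rw [h2, mul_zero]
  rw [h1, Finset.sum_image]
  · refine Finset.sum_congr rfl fun s hs => ?_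
    have hs1 : isS L s := (isS_fin (d := d) L).1.mem_toFinset.1 hs
    rw [iot_at L j hj v s hs1]
  · intro s hs s' hs' h
    exact hj ((Set.Finite.mem_toFinset _).1 hs) ((Set.Finite.mem_toFinset _).1 hs') h

theorem ye_dot {d : ℕ} {K : Type} [Fintype K] (L : ℕ) (j : Sq d → K)
    (hj : Set.InjOn j {s | isS L s}) (x : Pt d) (σ : Slot d) (hx : inB L x)
    (he : isE L (ed x σ)) (p : K → ZMod 2) :
    (open Classical in p ⬝ᵥ ye L j (ed x σ) =
      ∑ t : Slot d, if isS L (sq x σ t) then p (j (sq x σ t)) else 0) := by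
  classical
  unfold ye
  rw [dot_iot L j hj]
  have h1 : ∀ s ∈ (isS_fin (d := d) L).1.toFinset, p (j s) * dl L (Pi.single (ed x σ) 1) s =
      ∑ t : Slot d, if sq x σ t = s then p (j s) else 0 := by
    intro s hs
    have hs1 : isS L s := (isS_fin (d := d) L).1.mem_toFinset.1 hs
    rw [← sum_sq L x σ s hs1, Finset.mul_sum]
    refine Finset.sum_congr rfl fun t _ => ?_
    split_ifs <;> simp
  rw [Finset.sum_congr rfl h1, Finset.sum_comm]
  refine Finset.sum_congr rfl fun t _ => ?_
  rw [Finset.sum_ite_eq]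
  simp only [Set.Finite.mem_toFinset, Set.mem_ofPred_eq]

theorem ye_supp {d : ℕ} {K : Type} (L : ℕ) (j : Sq d → K)
    (hj : Set.InjOn j {s | isS L s}) (x : Pt d) (σ : Slot d) (hx : inB L x)
    (he : isE L (ed x σ)) (k : K) (hk : ye L j (ed x σ) k ≠ 0) :
    ∃ t : Slot d, isS L (sq x σ t) ∧ k = j (sq x σ t) := by
  classical
  unfold ye at hk
  obtain ⟨s, hs, rfl⟩ := iot_ne L j _ k hk
  rw [iot_at L j hj _ s hs, ← sum_sq L x σ s hs] at hk
  obtain ⟨t, -, ht⟩ := Finset.exists_ne_zero_of_sum_ne_zero hk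
  by_cases h : sq x σ t = s
  · exact ⟨t, by rw [h]; exact hs, by rw [h]⟩
  · exact absurd (if_neg h) ht

/-! ### Chains -/

private theorem Sup_add {d : ℕ} (L : ℕ) {z z' : Ed d → ZMod 2} (h : Sup L z) (h' : Sup L z') :
    Sup L (z + z') := fun e he => by
  rw [Pi.add_apply, h e he, h' e he, add_zero]

private theorem Sup_single {d : ℕ} (L : ℕ) {e : Ed d} (he : isE L e) :
    Sup L (Pi.single e 1 : Ed d → ZMod 2) := fun e' he' =>
  Pi.single_eq_of_ne (fun h => he' (by rw [h]; exact he)) 1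

private theorem nm_add' {d : ℕ} (L : ℕ) {z z' : Ed d → ZMod 2} (h : Sup L z) (h' : Sup L z') :
    nm (z + z') ≤ nm z + nm z' := by
  unfold nm
  have hf : {e | z e ≠ 0}.Finite := (isE_fin L).subset fun e he => by_contra fun hh => he (h e hh)
  have hf' : {e | z' e ≠ 0}.Finite := (isE_fin L).subset fun e he => by_contra fun hh => he (h' e hh)
  refine (Set.ncard_le_ncard (t := {e | z e ≠ 0} ∪ {e | z' e ≠ 0}) ?_ (hf.union hf')).trans
    (Set.ncard_union_le _ _)
  intro e he
  by_contra hne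
  simp only [Set.mem_union, Set.mem_ofPred_eq, not_or, not_not] at hne
  apply he
  rw [Pi.add_apply, hne.1, hne.2, add_zero]

private theorem nm_single {d : ℕ} (e : Ed d) : nm (Pi.single e 1 : Ed d → ZMod 2) ≤ 1 := by
  unfold nm
  refine (Set.ncard_le_ncard (t := {e}) ?_ (Set.finite_singleton e)).trans
    (Set.ncard_singleton e).le
  intro e' he'
  by_contra hne
  exact he' (Pi.single_eq_of_ne hne 1)

/-- the space of the images of the coboundaries -/
private noncomputable def DD {d : ℕ} {K : Type} (L : ℕ) (j : Sq d → K) :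
    Submodule (ZMod 2) (K → ZMod 2) where
  carrier := {y | ∃ z, Sup L z ∧ y = iot L j (dl L z)}
  add_mem' := by
    rintro _ _ ⟨z, hz, rfl⟩ ⟨z', hz', rfl⟩
    exact ⟨z + z', Sup_add L hz hz', by rw [lin_add]⟩
  zero_mem' := ⟨0, fun _ _ => rfl, by rw [lin_zero]⟩
  smul_mem' := by
    rintro c _ ⟨z, hz, rfl⟩
    have hc : c = 0 ∨ c = 1 := by
      revert c
      decide
    rcases hc with rfl | rfl
    · exact ⟨0, fun _ _ => rfl, by rw [zero_smul, lin_zero]⟩
    · exact ⟨z, hz, one_smul _ _⟩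

private theorem ex_Z {d : ℕ} {K : Type} (L : ℕ) (j : Sq d → K) (hj : Set.InjOn j {s | isS L s}) :
    ∃ Z : (K → ZMod 2) → (Ed d → ZMod 2), Z 0 = 0 ∧ (∀ y, Sup L (Z y)) ∧
      ∀ y ∈ DD L j, iot L j (dl L (Z y)) = y ∧ nm (Z y) ≤ L * nm y := by
  have h : ∀ y : K → ZMod 2, ∃ z : Ed d → ZMod 2, Sup L z ∧ (y = 0 → z = 0) ∧
      (y ∈ DD L j → iot L j (dl L z) = y ∧ nm z ≤ L * nm y) := by
    intro y
    by_cases hy0 : y = 0
    · refine ⟨0, fun _ _ => rfl, fun _ => rfl, fun _ => ⟨by rw [lin_zero, hy0], ?_⟩⟩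
      have : nm (0 : Ed d → ZMod 2) = 0 := by
        unfold nm
        simp
      rw [this]
      exact Nat.zero_le _
    · by_cases hy : y ∈ DD L j
      · obtain ⟨z0, hz0, hy'⟩ := hy
        obtain ⟨z, hz, hz1, hz2⟩ := fill L z0 hz0
        refine ⟨z, hz, fun h0 => absurd h0 hy0, fun _ => ⟨by rw [hz1, hy'], ?_⟩⟩
        rw [hy', nm_lin L j hj]
        exact hz2
      · exact ⟨0, fun _ _ => rfl, fun _ => rfl, fun h => absurd h hy⟩
  choose Z hZ1 hZ2 hZ3 using h
  exact ⟨Z, hZ2 0 rfl, hZ1, hZ3⟩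

private theorem coc_aux {d : ℕ} {K : Type} (hd : 1 ≤ d) (L : ℕ) (hL : 1 ≤ L) (j : Sq d → K)
    (hj : Set.InjOn j {s | isS L s}) (Z : (K → ZMod 2) → (Ed d → ZMod 2))
    (hZS : ∀ y, Sup L (Z y))
    (hZ : ∀ y ∈ DD L j, iot L j (dl L (Z y)) = y ∧ nm (Z y) ≤ L * nm y) (w : ℕ)
    (hw : 64 * (L * w) < L ^ (d - 1)) (y y' y'' : K → ZMod 2) (hy : y ∈ DD L j)
    (hy' : y' ∈ DD L j) (hy'' : y'' ∈ DD L j) (n1 : nm y ≤ w) (n2 : nm y' ≤ w) (n3 : nm y'' ≤ w)
    (n12 : nm (y + y') ≤ w) (n123 : nm (y + y' + y'') ≤ w) :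
    sg L (Z y + Z y' + Z (y + y')) + sg L (Z (y + y') + Z y'' + Z (y + y' + y'')) =
      sg L (Z y + Z y' + Z y'' + Z (y + y' + y'')) := by
  have hyy : y + y' ∈ DD L j := (DD L j).add_mem hy hy'
  have hyyy : y + y' + y'' ∈ DD L j := (DD L j).add_mem hyy hy''
  have b1 : nm (Z y) ≤ L * w := (hZ y hy).2.trans (Nat.mul_le_mul_left L n1)
  have b2 : nm (Z y') ≤ L * w := (hZ y' hy').2.trans (Nat.mul_le_mul_left L n2)
  have b3 : nm (Z y'') ≤ L * w := (hZ y'' hy'').2.trans (Nat.mul_le_mul_left L n3)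
  have b12 : nm (Z (y + y')) ≤ L * w := (hZ _ hyy).2.trans (Nat.mul_le_mul_left L n12)
  have b123 : nm (Z (y + y' + y'')) ≤ L * w := (hZ _ hyyy).2.trans (Nat.mul_le_mul_left L n123)
  have s1 : Sup L (Z y + Z y') := Sup_add L (hZS _) (hZS _)
  have s2 : Sup L (Z y + Z y' + Z (y + y')) := Sup_add L s1 (hZS _)
  have s3 : Sup L (Z (y + y') + Z y'') := Sup_add L (hZS _) (hZS _)
  have s4 : Sup L (Z (y + y') + Z y'' + Z (y + y' + y'')) := Sup_add L s3 (hZS _)
  have s5 : Sup L (Z y + Z y' + Z y'') := Sup_add L s1 (hZS _)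
  have e : (Z y + Z y' + Z (y + y')) + (Z (y + y') + Z y'' + Z (y + y' + y'')) =
      Z y + Z y' + Z y'' + Z (y + y' + y'') := by
    have h1 := dbl (Z (y + y'))
    calc (Z y + Z y' + Z (y + y')) + (Z (y + y') + Z y'' + Z (y + y' + y'')) =
          Z y + Z y' + Z y'' + Z (y + y' + y'') + (Z (y + y') + Z (y + y')) := by abel
      _ = _ := by rw [h1, add_zero]
  have m1 : nm (Z y + Z y' + Z (y + y')) ≤ 3 * (L * w) := by
    have h1 := nm_add' L s1 (hZS (y + y'))
    have h2 := nm_add' L (hZS y) (hZS y')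
    omega
  have m2 : nm (Z (y + y') + Z y'' + Z (y + y' + y'')) ≤ 3 * (L * w) := by
    have h1 := nm_add' L s3 (hZS (y + y' + y''))
    have h2 := nm_add' L (hZS (y + y')) (hZS y'')
    omega
  have m3 : nm (Z y + Z y' + Z y'' + Z (y + y' + y'')) ≤ 4 * (L * w) := by
    have h1 := nm_add' L s5 (hZS (y + y' + y''))
    have h2 := nm_add' L s1 (hZS y'')
    have h3 := nm_add' L (hZS y) (hZS y')
    omega
  have c1 : dl L (Z y + Z y' + Z (y + y')) = 0 := by
    apply lin_inj L j hj
    rw [lin_add, lin_add, (hZ y hy).1, (hZ y' hy').1, (hZ _ hyy).1]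
    exact dbl _
  have c2 : dl L (Z (y + y') + Z y'' + Z (y + y' + y'')) = 0 := by
    apply lin_inj L j hj
    rw [lin_add, lin_add, (hZ _ hyy).1, (hZ y'' hy'').1, (hZ _ hyyy).1]
    exact dbl _
  have := sg_add hd L hL _ _ s2 s4 c1 c2 (by omega) (by omega) (by rw [e]; omega)
  rw [← this, e]

private theorem star_eq {d : ℕ} (L : ℕ) (x : Pt d) :
    (open Classical in ∑ σ ∈ Finset.univ.filter (fun σ : Slot d => isE L (ed x σ)),
      (Pi.single (ed x σ) 1 : Ed d → ZMod 2)) = cob L (Pi.single x 1) := by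
  classical
  funext e
  obtain ⟨y, a⟩ := e
  rw [Finset.sum_apply, Finset.sum_filter, Fintype.sum_prod_type]
  rw [Finset.sum_eq_single a]
  · rw [Fintype.sum_bool]
    have h1 : ed x (a, true) = (x, a) := by simp [ed, off]
    have h2 : ed x (a, false) = (x - un a, a) := by simp [ed, off, sub_eq_add_neg]
    rw [h1, h2]
    unfold cob
    by_cases hE : isE L (y, a)
    · rw [if_pos hE]
      simp only [Pi.single_apply, Prod.mk.injEq, and_true]
      have h3 : (if isE L (x, a) then (if y = x then (1 : ZMod 2) else 0) else 0) =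
          if y = x then 1 else 0 := by
        by_cases h : y = x
        · rw [← h, if_pos hE]
        · simp [h]
      have h4 : (if isE L (x - un a, a) then (if y = x - un a then (1 : ZMod 2) else 0) else 0) =
          if y + un a = x then 1 else 0 := by
        have h5 : y = x - un a ↔ y + un a = x := eq_sub_iff_add_eq
        by_cases h : y = x - un a
        · rw [← h, if_pos hE, if_pos rfl, if_pos (h5.1 h)]
        · rw [if_neg h, if_neg (fun h6 => h (h5.2 h6))]
          simp
      rw [h3, h4]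
    · rw [if_neg hE]
      have h3 : (if isE L (x, a) then (Pi.single (x, a) 1 : Ed d → ZMod 2) (y, a) else 0) = 0 := by
        split_ifs with h
        · exact Pi.single_eq_of_ne (fun h6 => hE (by rw [h6]; exact h)) 1
        · rfl
      have h4 : (if isE L (x - un a, a) then
          (Pi.single (x - un a, a) 1 : Ed d → ZMod 2) (y, a) else 0) = 0 := by
        split_ifs with h
        · exact Pi.single_eq_of_ne (fun h6 => hE (by rw [h6]; exact h)) 1
        · rfl
      rw [h3, h4, add_zero]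
  · intro c _ hc
    apply Finset.sum_eq_zero
    intro t _
    split_ifs with h
    · refine Pi.single_eq_of_ne (fun h6 => hc ?_) 1
      have := congrArg Prod.snd h6
      exact this.symm
    · rfl
  · intro h
    exact absurd (Finset.mem_univ _) h

theorem grid_gad {d : ℕ} {K : Type} [Fintype K] (hd : 3 ≤ d) (L : ℕ) (hL : 100 * d ≤ L)
    (j : Sq d → K) (hj : Set.InjOn j {s | isS L s}) :
    ∃ (g : Gad K) (c : Ed d → ZMod 2), g.w = L ^ (d - 2) / 100 ∧
      (∀ y ∈ g.D, ∀ k, y k ≠ 0 → ∃ s, isS L s ∧ j s = k) ∧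
      (∀ e, isE L e → ye L j e ∈ g.D) ∧
      ∀ (U : Submodule (ZMod 2) (K → ZMod 2)) (f : Wd K), g.Tame U → g.IsW U f →
        ∀ x : Pt d, inB L x → (∀ σ : Slot d, isE L (ed x σ) → ye L j (ed x σ) ∈ U) →
          (open Classical in (∑ σ : Slot d, if isE L (ed x σ) then
            f (ye L j (ed x σ)) + c (ed x σ) else 0) = if x = 0 then 1 else 0) := by
  classical
  obtain ⟨Z, hZ0, hZS, hZ⟩ := ex_Z L j hj
  have hd1 : 1 ≤ d := by omega
  have hL1 : 1 ≤ L := by omega
  obtain ⟨w, hw⟩ : ∃ w, w = L ^ (d - 2) / 100 := ⟨_, rfl⟩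
  have hw1 : 100 * w ≤ L ^ (d - 2) := by
    rw [hw]
    exact Nat.mul_div_le _ _
  have hw2 : 100 * (L * w) ≤ L ^ (d - 1) := by
    have h1 : L ^ (d - 1) = L * L ^ (d - 2) := by
      rw [← pow_succ']
      congr 1
      omega
    rw [h1]
    calc 100 * (L * w) = L * (100 * w) := by ring
      _ ≤ L * L ^ (d - 2) := Nat.mul_le_mul_left L hw1
  have hX : 30000 * d ≤ L ^ (d - 1) := by
    calc 30000 * d = 300 * (100 * d) := by ring
      _ ≤ L * L := Nat.mul_le_mul (by omega) hL
      _ = L ^ 2 := (pow_two L).symm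
      _ ≤ L ^ (d - 1) := Nat.pow_le_pow_right hL1 (by omega)
  have hw64 : 64 * (L * w) < L ^ (d - 1) := by omega
  have h8 : 8 < L ^ d := by
    calc 8 < L := by omega
      _ = L ^ 1 := (pow_one L).symm
      _ ≤ L ^ d := Nat.pow_le_pow_right hL1 hd1
  refine ⟨{ D := DD L j, w := w, kap := fun y y' => sg L (Z y + Z y' + Z (y + y')),
            kap_comm := ?_, kap_self := ?_, kap_coc := ?_ },
    fun e => sg L (Pi.single e 1 + Z (ye L j e)), hw, ?_, ?_, ?_⟩
  · intro y y'
    show sg L (Z y + Z y' + Z (y + y')) = sg L (Z y' + Z y + Z (y' + y))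
    rw [add_comm (Z y) (Z y'), add_comm y y']
  · intro y
    show sg L (Z y + Z y + Z (y + y)) = 0
    rw [dbl, dbl, hZ0, add_zero]
    exact sg_zero hd1 L hL1
  · intro y y' y'' hy hy' hy'' n1 n2 n3 n12 n23 n123
    show sg L (Z y + Z y' + Z (y + y')) + sg L (Z (y + y') + Z y'' + Z (y + y' + y'')) =
      sg L (Z y' + Z y'' + Z (y' + y'')) + sg L (Z y + Z (y' + y'') + Z (y + (y' + y'')))
    rw [coc_aux hd1 L hL1 j hj Z hZS hZ w hw64 y y' y'' hy hy' hy'' n1 n2 n3 n12 n123]
    have e1 : y + (y' + y'') = y' + y'' + y := by abel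
    have e2 : y + y' + y'' = y' + y'' + y := by abel
    have h1 := coc_aux hd1 L hL1 j hj Z hZS hZ w hw64 y' y'' y hy' hy'' hy n2 n3 n1 n23
      (by rw [← e2]; exact n123)
    rw [e1, e2, add_comm (Z y) (Z (y' + y'')), h1]
    congr 1
    abel
  · rintro y ⟨z, hz, rfl⟩ k hk
    exact iot_ne L j _ k hk
  · intro e he
    exact ⟨Pi.single e 1, Sup_single L he, rfl⟩
  · intro U f hT hW x hx hU
    have hT' : ∀ y ∈ U, y ∈ DD L j → nm y ≤ w := hT
    have hW' : ∀ y ∈ U, y ∈ DD L j → ∀ y' ∈ U, y' ∈ DD L j →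
        f (y + y') = f y + f y' + sg L (Z y + Z y' + Z (y + y')) := hW
    have hf0 : f 0 = 0 := by
      have h1 := hW' 0 U.zero_mem (DD L j).zero_mem 0 U.zero_mem (DD L j).zero_mem
      rw [add_zero, hZ0, add_zero, add_zero, sg_zero hd1 L hL1, add_zero] at h1
      have h2 : f 0 + f 0 = 0 := CharTwo.add_self_eq_zero _
      rw [h1, h2]
    have key : ∀ A : Finset (Slot d), A ⊆ Finset.univ.filter (fun σ : Slot d => isE L (ed x σ)) →
        Sup L (∑ σ ∈ A, (Pi.single (ed x σ) 1 : Ed d → ZMod 2)) ∧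
        iot L j (dl L (∑ σ ∈ A, (Pi.single (ed x σ) 1 : Ed d → ZMod 2))) ∈ U ∧
        nm (∑ σ ∈ A, (Pi.single (ed x σ) 1 : Ed d → ZMod 2)) ≤ A.card ∧
        f (iot L j (dl L (∑ σ ∈ A, (Pi.single (ed x σ) 1 : Ed d → ZMod 2)))) +
          sg L (∑ σ ∈ A, (Pi.single (ed x σ) 1 : Ed d → ZMod 2) +
            Z (iot L j (dl L (∑ σ ∈ A, (Pi.single (ed x σ) 1 : Ed d → ZMod 2))))) =
          ∑ σ ∈ A, (f (ye L j (ed x σ)) + sg L (Pi.single (ed x σ) 1 + Z (ye L j (ed x σ)))) := by
      intro A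
      induction A using Finset.induction_on with
      | empty =>
        intro _
        simp only [Finset.sum_empty, Finset.card_empty]
        rw [lin_zero]
        refine ⟨fun _ _ => rfl, U.zero_mem, ?_, ?_⟩
        · unfold nm
          simp
        · rw [hZ0, hf0, add_zero, zero_add]
          exact sg_zero hd1 L hL1
      | insert σ A hσ ih =>
        intro hA
        obtain ⟨i1, i2, i3, i4⟩ := ih ((Finset.subset_insert _ _).trans hA)
        have hσE : isE L (ed x σ) := (Finset.mem_filter.1 (hA (Finset.mem_insert_self _ _))).2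
        rw [Finset.sum_insert hσ, Finset.sum_insert hσ, Finset.card_insert_of_notMem hσ, ← i4]
        have hcard : A.card ≤ d * 2 := by
          have h1 := Finset.card_le_univ A
          have h2 : Fintype.card (Slot d) = d * 2 := by
            rw [Fintype.card_prod, Fintype.card_fin, Fintype.card_bool]
          omega
        obtain ⟨cA, hcA⟩ : ∃ cA : Ed d → ZMod 2, cA = ∑ σ ∈ A, (Pi.single (ed x σ) 1 : Ed d → ZMod 2) :=
          ⟨_, rfl⟩
        rw [← hcA] at i1 i2 i3 ⊢
        obtain ⟨c1, hc1⟩ : ∃ c1 : Ed d → ZMod 2, c1 = Pi.single (ed x σ) 1 := ⟨_, rfl⟩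
        have S1 : Sup L c1 := by rw [hc1]; exact Sup_single L hσE
        have N1 : nm c1 ≤ 1 := by rw [hc1]; exact nm_single _
        have hyσ : ye L j (ed x σ) = iot L j (dl L c1) := by rw [ye, hc1]
        have hyU := hU σ hσE
        rw [hyσ] at hyU ⊢
        rw [← hc1, lin_add]
        obtain ⟨yA, hyA⟩ : ∃ yA : K → ZMod 2, yA = iot L j (dl L cA) := ⟨_, rfl⟩
        obtain ⟨y1, hy1⟩ : ∃ y1 : K → ZMod 2, y1 = iot L j (dl L c1) := ⟨_, rfl⟩
        have DA : yA ∈ DD L j := ⟨cA, i1, hyA⟩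
        have D1 : y1 ∈ DD L j := ⟨c1, S1, hy1⟩
        rw [← hyA] at i2 ⊢
        rw [← hy1] at hyU ⊢
        have hUs : y1 + yA ∈ U := U.add_mem hyU i2
        have hDs : y1 + yA ∈ DD L j := (DD L j).add_mem D1 DA
        have b1 : nm (Z y1) ≤ L * w := (hZ y1 D1).2.trans (Nat.mul_le_mul_left L (hT' y1 hyU D1))
        have bA : nm (Z yA) ≤ L * w := (hZ yA DA).2.trans (Nat.mul_le_mul_left L (hT' yA i2 DA))
        have bs : nm (Z (y1 + yA)) ≤ L * w :=
          (hZ _ hDs).2.trans (Nat.mul_le_mul_left L (hT' _ hUs hDs))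
        refine ⟨Sup_add L S1 i1, hUs, (nm_add' L S1 i1).trans (by omega), ?_⟩
        rw [hW' y1 hyU D1 yA i2 DA]
        -- the three closed chains
        have sa : Sup L (c1 + Z y1) := Sup_add L S1 (hZS _)
        have sb : Sup L (cA + Z yA) := Sup_add L i1 (hZS _)
        have sc0 : Sup L (Z y1 + Z yA) := Sup_add L (hZS _) (hZS _)
        have sc : Sup L (Z y1 + Z yA + Z (y1 + yA)) := Sup_add L sc0 (hZS _)
        have sab : Sup L ((c1 + Z y1) + (cA + Z yA)) := Sup_add L sa sb
        have na : nm (c1 + Z y1) ≤ 1 + L * w := (nm_add' L S1 (hZS _)).trans (by omega)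
        have nb : nm (cA + Z yA) ≤ d * 2 + L * w := (nm_add' L i1 (hZS _)).trans (by omega)
        have nab : nm ((c1 + Z y1) + (cA + Z yA)) ≤ (1 + L * w) + (d * 2 + L * w) :=
          (nm_add' L sa sb).trans (by omega)
        have nc : nm (Z y1 + Z yA + Z (y1 + yA)) ≤ 3 * (L * w) := by
          have h1 := nm_add' L sc0 (hZS (y1 + yA))
          have h2 := nm_add' L (hZS y1) (hZS yA)
          omega
        have nabc := nm_add' L sab sc
        have ca : dl L (c1 + Z y1) = 0 := by
          apply lin_inj L j hj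
          rw [lin_add, ← hy1, (hZ y1 D1).1]
          exact dbl _
        have cb : dl L (cA + Z yA) = 0 := by
          apply lin_inj L j hj
          rw [lin_add, ← hyA, (hZ yA DA).1]
          exact dbl _
        have cab : dl L ((c1 + Z y1) + (cA + Z yA)) = 0 := by
          rw [dl_add, ca, cb, add_zero]
        have cc : dl L (Z y1 + Z yA + Z (y1 + yA)) = 0 := by
          apply lin_inj L j hj
          rw [lin_add, lin_add, (hZ y1 D1).1, (hZ yA DA).1, (hZ _ hDs).1]
          exact dbl _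
        have e : c1 + cA + Z (y1 + yA) =
            ((c1 + Z y1) + (cA + Z yA)) + (Z y1 + Z yA + Z (y1 + yA)) := by
          have h1 := dbl (Z y1)
          have h2 := dbl (Z yA)
          calc c1 + cA + Z (y1 + yA) = c1 + cA + Z (y1 + yA) + 0 + 0 := by rw [add_zero, add_zero]
            _ = c1 + cA + Z (y1 + yA) + (Z y1 + Z y1) + (Z yA + Z yA) := by rw [h1, h2]
            _ = _ := by abel
        rw [e, sg_add hd1 L hL1 _ _ sab sc cab cc (by omega) (by omega) (by omega),
          sg_add hd1 L hL1 _ _ sa sb ca cb (by omega) (by omega) (by omega)]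
        have h2 : sg L (Z y1 + Z yA + Z (y1 + yA)) + sg L (Z y1 + Z yA + Z (y1 + yA)) = 0 :=
          CharTwo.add_self_eq_zero _
        linear_combination h2
    obtain ⟨-, -, -, k4⟩ := key _ (Finset.Subset.refl _)
    rw [star_eq, dl_cob, iot_zero, hZ0, hf0, zero_add, add_zero, sg_star hd1 L h8 x hx,
      Finset.sum_filter] at k4
    exact k4.symm

end Pool.Agent.H42.CS
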