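import Pool.Agent.H42.CS.Grd

/-!
# Grid I: finiteness, and the path identity

PROOF of `pth_id`. Write `y := x + un a`. Split the sum over `b` in `pth z p x` and `pth z p y`.
For `b < a`: `mix x p b t = mix y p b t` (they use only coordinates before `b` of `x`) and `x b = y b`:
the terms are equal and cancel. For `b = a`: `btw (p a) (x a)` and `btw (p a) (x a + 1)` differ exactly
in the step `x a` (added if `p a ≤ x a`, removed if `p a > x a`), so the terms differ by
`z (mix x p a (x a), a)`. For `b > a`: `mix y p b t = mix x p b t + un a`, `x b = y b`, and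
`z (m, b) + z (m + un a, b) = dl L z (m, a, b) + z (m, a) + z (m + un b, a)`, `m = mix x p b t`
(the square `(m, a, b)` is in the box, since `p` and `x`, `y` are and `t, t + 1` are between `p b` and
`x b`). The sum over `t ∈ btw (p b) (x b)` of `z (m, a) + z (m + un b, a)` telescopes to
`z (mix x p b (p b), a) + z (mix x p b (x b), a)` (`m + un b = mix x p b (t + 1)`). Now
`mix x p b (x b) = mix x p (b + 1) (p (b + 1))` (if `b` is not last), and `mix x p b (x b) = x` for the
last `b`, `mix x p (a + 1) (p (a + 1)) = mix x p a (x a)`. So the sum over `b > a` telescopes to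
`z (mix x p a (x a), a) + z (x, a)`. Everything is in characteristic 2. (To telescope over
`b : Fin d` it may be convenient to define `m' k := fun i => if i.val < k then x i else p i` for
`k : ℕ`, so that `mix x p b (p b) = m' b`, `mix x p b (x b) = m' (b + 1)`, and to use
`Finset.sum_range` lemmas.)

PROOF of `pth_cob`: the same telescoping: the sum over `t` telescopes to `f (mix x p b (p b)) +
f (mix x p b (x b))`, the sum over `b` to `f p + f x`. (All the edges `(mix x p b t, b)` with
`t ∈ btw (p b) (x b)` are in the box.)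
-/

set_option autoImplicit false

namespace Pool.Agent.H42.CS

private theorem gi_two (u : ZMod 2) : u + u = 0 := CharTwo.add_self_eq_zero u

private theorem box_eq {d : ℕ} (L : ℕ) : {x : Pt d | inB L x} =
    ((Fintype.piFinset fun _ : Fin d => Finset.Ico (0 : ℤ) (L : ℤ) : Finset (Pt d)) : Set (Pt d)) := by
  ext x
  rw [Finset.mem_coe, Fintype.mem_piFinset]
  exact forall_congr' fun i => Finset.mem_Ico.symm

theorem box_fin {d : ℕ} (L : ℕ) :
    {x : Pt d | inB L x}.Finite ∧ {x : Pt d | inB L x}.ncard = L ^ d := by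
  rw [box_eq]
  refine ⟨Finset.finite_toSet _, ?_⟩
  rw [Set.ncard_coe_finset, Fintype.card_piFinset, Finset.prod_const, Finset.card_univ, Fintype.card_fin,
    Int.card_Ico, sub_zero, Int.toNat_natCast]

theorem isE_fin {d : ℕ} (L : ℕ) : {e : Ed d | isE L e}.Finite := by
  refine ((box_fin (d := d) L).1.prod (Set.finite_univ (α := Fin d))).subset ?_
  rintro ⟨x, a⟩ h
  exact ⟨h.1, Set.mem_univ _⟩

theorem isS_fin {d : ℕ} (L : ℕ) :
    {s : Sq d | isS L s}.Finite ∧ {s : Sq d | isS L s}.ncard ≤ L ^ d * d ^ 2 := by
  have hsub : {s : Sq d | isS L s} ⊆ {x : Pt d | inB L x} ×ˢ (Set.univ : Set (Fin d × Fin d)) := by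
    rintro ⟨x, a⟩ h
    exact ⟨h.2.1, Set.mem_univ _⟩
  have hfin := (box_fin (d := d) L).1.prod (Set.finite_univ (α := Fin d × Fin d))
  refine ⟨hfin.subset hsub, (Set.ncard_le_ncard hsub hfin).trans (le_of_eq ?_)⟩
  rw [Set.ncard_prod, (box_fin (d := d) L).2, Set.ncard_univ, Nat.card_prod, Nat.card_fin, pow_two]

private theorem un_self {d : ℕ} (a : Fin d) : un a a = 1 := Pi.single_eq_same a 1

private theorem un_ne {d : ℕ} {a i : Fin d} (h : i ≠ a) : un a i = 0 := Pi.single_eq_of_ne h 1

private theorem un_nonneg {d : ℕ} (a i : Fin d) : 0 ≤ un a i := by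
  by_cases h : i = a
  · rw [h, un_self]
    norm_num
  · rw [un_ne h]

private theorem mem_btw {p x t : ℤ} : t ∈ btw p x ↔ min p x ≤ t ∧ t < max p x := Finset.mem_Ico

private theorem mix_un {d : ℕ} (x p : Pt d) (b : Fin d) (t : ℤ) :
    mix x p b t + un b = mix x p b (t + 1) := by
  funext i
  rw [Pi.add_apply]
  unfold mix
  by_cases h : i = b
  · subst h
    rw [if_neg (lt_irrefl i), if_pos rfl, if_neg (lt_irrefl i), if_pos rfl, un_self]
  · rw [un_ne h, add_zero]
    split_ifs <;> rfl

private theorem mix_in {d : ℕ} {L : ℕ} {p x : Pt d} (hp : inB L p) (hx : inB L x) {b : Fin d} {t : ℤ}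
    (h0 : 0 ≤ t) (h1 : t < L) : inB L (mix x p b t) := by
  intro i
  unfold mix
  split_ifs
  · exact hx i
  · exact ⟨h0, h1⟩
  · exact hp i

/-- The edges of a path between points of the box are in the box. -/
theorem mix_isE {d : ℕ} {L : ℕ} {p x : Pt d} (hp : inB L p) (hx : inB L x) {b : Fin d} {t : ℤ}
    (ht : t ∈ btw (p b) (x b)) : isE L (mix x p b t, b) := by
  rw [mem_btw] at ht
  have h1 := hp b
  have h2 := hx b
  refine ⟨mix_in hp hx (by omega) (by omega), ?_⟩
  show inB L (mix x p b t + un b)
  rw [mix_un]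
  exact mix_in hp hx (by omega) (by omega)

private theorem tel_le (g : ℤ → ZMod 2) (u : ℤ) (n : ℕ) :
    ∑ t ∈ Finset.Ico u (u + n), (g t + g (t + 1)) = g u + g (u + n) := by
  induction n with
  | zero =>
    have e : Finset.Ico u (u + ((0 : ℕ) : ℤ)) = ∅ := by
      ext t
      simp
    rw [e, Finset.sum_empty, Nat.cast_zero, add_zero, gi_two]
  | succ n ih =>
    have e : Finset.Ico u (u + ((n + 1 : ℕ) : ℤ)) = insert (u + (n : ℤ)) (Finset.Ico u (u + (n : ℤ))) := by
      ext t
      rw [Finset.mem_insert, Finset.mem_Ico, Finset.mem_Ico]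
      push_cast
      omega
    have hn : (u + (n : ℤ)) ∉ Finset.Ico u (u + (n : ℤ)) := by
      rw [Finset.mem_Ico]
      omega
    rw [e, Finset.sum_insert hn, ih]
    have e2 : u + ((n + 1 : ℕ) : ℤ) = u + n + 1 := by
      push_cast
      ring
    rw [e2]
    have h := gi_two (g (u + (n : ℤ)))
    linear_combination h

private theorem tel (g : ℤ → ZMod 2) (u v : ℤ) :
    ∑ t ∈ btw u v, (g t + g (t + 1)) = g u + g v := by
  rcases le_total u v with h | h
  · obtain ⟨n, hn⟩ := Int.le.dest h
    unfold btw
    rw [min_eq_left h, max_eq_right h, ← hn]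
    exact tel_le g u n
  · obtain ⟨n, hn⟩ := Int.le.dest h
    unfold btw
    rw [min_eq_right h, max_eq_left h, ← hn, add_comm (g (v + (n : ℤ)))]
    exact tel_le g v n

private theorem btw_step (g : ℤ → ZMod 2) (u v : ℤ) :
    ∑ t ∈ btw u v, g t + ∑ t ∈ btw u (v + 1), g t = g v := by
  rcases le_or_gt u v with h | h
  · have e : btw u (v + 1) = insert v (btw u v) := by
      ext t
      rw [Finset.mem_insert, mem_btw, mem_btw]
      omega
    have hn : v ∉ btw u v := by
      rw [mem_btw]
      omega
    rw [e, Finset.sum_insert hn]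
    have h2 := gi_two (∑ t ∈ btw u v, g t)
    linear_combination h2
  · have e : btw u v = insert v (btw u (v + 1)) := by
      ext t
      rw [Finset.mem_insert, mem_btw, mem_btw]
      omega
    have hn : v ∉ btw u (v + 1) := by
      rw [mem_btw]
      omega
    rw [e, Finset.sum_insert hn]
    have h2 := gi_two (∑ t ∈ btw u (v + 1), g t)
    linear_combination h2

/-- the first `k` coordinates from `x`, the others from `p` -/
private def mp {d : ℕ} (x p : Pt d) (k : ℕ) : Pt d := fun i => if i.val < k then x i else p i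

private theorem mix_p {d : ℕ} (x p : Pt d) (b : Fin d) : mix x p b (p b) = mp x p b.val := by
  funext i
  unfold mix mp
  by_cases h1 : i < b
  · rw [if_pos h1, if_pos (by exact h1)]
  · have h3 : ¬ i.val < b.val := h1
    rw [if_neg h1, if_neg h3]
    by_cases h2 : i = b
    · rw [if_pos h2, h2]
    · rw [if_neg h2]

private theorem mix_x {d : ℕ} (x p : Pt d) (b : Fin d) : mix x p b (x b) = mp x p (b.val + 1) := by
  funext i
  unfold mix mp
  by_cases h1 : i < b
  · have h3 : i.val < b.val := h1
    rw [if_pos h1, if_pos (by omega)]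
  · have h3 : ¬ i.val < b.val := h1
    rw [if_neg h1]
    by_cases h2 : i = b
    · rw [if_pos h2, if_pos (by rw [h2]; omega), h2]
    · have h4 : i.val ≠ b.val := fun h => h2 (Fin.ext h)
      rw [if_neg h2, if_neg (by omega)]

private theorem mp_zero {d : ℕ} (x p : Pt d) : mp x p 0 = p := by
  funext i
  unfold mp
  rw [if_neg (by omega)]

private theorem mp_top {d : ℕ} (x p : Pt d) : mp x p d = x := by
  funext i
  unfold mp
  rw [if_pos i.isLt]

private theorem tel_all (G : ℕ → ZMod 2) (n : ℕ) :
    ∑ i ∈ Finset.range n, (G i + G (i + 1)) = G 0 + G n := by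
  induction n with
  | zero => rw [Finset.sum_range_zero, gi_two]
  | succ n ih =>
    rw [Finset.sum_range_succ, ih]
    have h := gi_two (G n)
    linear_combination h

private theorem tel_gt (G : ℕ → ZMod 2) (a n : ℕ) (h : a + 1 ≤ n) :
    ∑ i ∈ Finset.range n, (if a < i then G i + G (i + 1) else 0) = G (a + 1) + G n := by
  induction n, h using Nat.le_induction with
  | base =>
    rw [gi_two]
    refine Finset.sum_eq_zero fun i hi => ?_
    rw [Finset.mem_range] at hi
    rw [if_neg (by omega)]
  | succ n hn ih =>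
    rw [Finset.sum_range_succ, ih, if_pos (by omega)]
    have h := gi_two (G n)
    linear_combination h

private theorem tel_fin {d : ℕ} (G : ℕ → ZMod 2) (a : Fin d) :
    ∑ b ∈ Finset.univ.filter (fun b : Fin d => a < b), (G b.val + G (b.val + 1)) =
      G (a.val + 1) + G d := by
  rw [Finset.sum_filter, ← tel_gt G a.val d a.isLt,
    ← Fin.sum_univ_eq_sum_range (fun i => if a.val < i then G i + G (i + 1) else 0) d]
  rfl

theorem pth_id {d : ℕ} (L : ℕ) (z : Ed d → ZMod 2) (p x : Pt d) (a : Fin d) (hp : inB L p)
    (hx : isE L (x, a)) :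
    z (x, a) + pth z p x + pth z p (x + un a) =
      ∑ b ∈ Finset.univ.filter (fun b => a < b), ∑ t ∈ btw (p b) (x b),
        dl L z (mix x p b t, a, b) := by
  have hx1 : inB L x := hx.1
  have hy1 : inB L (x + un a) := hx.2
  have hmixy : ∀ (b : Fin d), a < b → ∀ t, mix (x + un a) p b t = mix x p b t + un a := by
    intro b hb t
    funext i
    rw [Pi.add_apply]
    unfold mix
    by_cases h1 : i < b
    · rw [if_pos h1, if_pos h1]
      rfl
    · rw [if_neg h1, if_neg h1]
      have h3 : i ≠ a := fun h => h1 (h ▸ hb)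
      rw [un_ne h3, add_zero]
  have hmixs : ∀ (b : Fin d), b ≤ a → ∀ t, mix (x + un a) p b t = mix x p b t := by
    intro b hb t
    funext i
    unfold mix
    by_cases h1 : i < b
    · have h3 : i ≠ a := (h1.trans_le hb).ne
      rw [if_pos h1, if_pos h1, Pi.add_apply, un_ne h3, add_zero]
    · rw [if_neg h1, if_neg h1]
  -- the terms
  have hT : ∀ b : Fin d, (∑ t ∈ btw (p b) (x b), z (mix x p b t, b)) +
      (∑ t ∈ btw (p b) ((x + un a) b), z (mix (x + un a) p b t, b)) =
      (if b = a then z (mix x p a (x a), a) else 0) +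
      (if a < b then (∑ t ∈ btw (p b) (x b), dl L z (mix x p b t, a, b)) +
        (z (mp x p b.val, a) + z (mp x p (b.val + 1), a)) else 0) := by
    intro b
    rcases lt_trichotomy b a with hb | hb | hb
    · rw [if_neg hb.ne, if_neg (not_lt.2 hb.le), add_zero, Pi.add_apply, un_ne hb.ne, add_zero]
      have e : ∀ t, z (mix (x + un a) p b t, b) = z (mix x p b t, b) := fun t => by
        rw [hmixs b hb.le t]
      rw [Finset.sum_congr rfl fun t _ => e t]
      exact gi_two _
    · subst hb
      rw [if_pos rfl, if_neg (lt_irrefl b), add_zero, Pi.add_apply, un_self]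
      have e : ∀ t, z (mix (x + un b) p b t, b) = z (mix x p b t, b) := fun t => by
        rw [hmixs b le_rfl t]
      rw [Finset.sum_congr rfl fun t _ => e t]
      exact btw_step (fun t => z (mix x p b t, b)) (p b) (x b)
    · rw [if_neg hb.ne', if_pos hb, zero_add, Pi.add_apply, un_ne hb.ne', add_zero]
      rw [← mix_p, ← mix_x, ← tel (fun t => z (mix x p b t, a)) (p b) (x b), ← Finset.sum_add_distrib,
        ← Finset.sum_add_distrib]
      refine Finset.sum_congr rfl fun t ht => ?_
      have hE1 := mix_isE hp hx1 ht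
      have hE2 := mix_isE (b := b) (t := t) hp hy1 (by
        rw [Pi.add_apply, un_ne hb.ne', add_zero]
        exact ht)
      have hS : isS L (mix x p b t, a, b) := by
        refine ⟨hb, hE1.1, ?_⟩
        show inB L (mix x p b t + un a + un b)
        rw [← hmixy b hb]
        exact hE2.2
      have hdl : dl L z (mix x p b t, a, b) = z (mix x p b t, a) + z (mix x p b t + un b, a) +
          z (mix x p b t, b) + z (mix x p b t + un a, b) := by
        unfold dl
        rw [if_pos hS]
      rw [hdl, hmixy b hb, mix_un]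
      have h1 := gi_two (z (mix x p b t, a))
      have h2 := gi_two (z (mix x p b (t + 1), a))
      linear_combination -h1 - h2
  have hpth : pth z p x + pth z p (x + un a) = z (mix x p a (x a), a) +
      (∑ b ∈ Finset.univ.filter (fun b => a < b), ∑ t ∈ btw (p b) (x b), dl L z (mix x p b t, a, b)) +
      (z (mp x p (a.val + 1), a) + z (mp x p d, a)) := by
    unfold pth
    rw [← Finset.sum_add_distrib, Finset.sum_congr rfl fun b _ => hT b, Finset.sum_add_distrib,
      Finset.sum_ite_eq' Finset.univ a (fun _ => z (mix x p a (x a), a)), if_pos (Finset.mem_univ a),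
      ← Finset.sum_filter, Finset.sum_add_distrib, tel_fin (fun k => z (mp x p k, a)) a, ← add_assoc]
  rw [add_assoc, hpth, mp_top, ← mix_x]
  have h1 := gi_two (z (mix x p a (x a), a))
  have h2 := gi_two (z (x, a))
  linear_combination h1 + h2

theorem pth_cob {d : ℕ} (L : ℕ) (f : Pt d → ZMod 2) (p x : Pt d) (hp : inB L p)
    (hx : inB L x) : pth (cob L f) p x = f p + f x := by
  have h1 : ∀ b : Fin d, ∑ t ∈ btw (p b) (x b), cob L f (mix x p b t, b) =
      f (mp x p b.val) + f (mp x p (b.val + 1)) := by
    intro b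
    rw [← mix_p, ← mix_x, ← tel (fun t => f (mix x p b t)) (p b) (x b)]
    refine Finset.sum_congr rfl fun t ht => ?_
    unfold cob
    rw [if_pos (mix_isE hp hx ht)]
    show f (mix x p b t) + f (mix x p b t + un b) = _
    rw [mix_un]
  unfold pth
  rw [Finset.sum_congr rfl fun b _ => h1 b,
    Fin.sum_univ_eq_sum_range (fun i => f (mp x p i) + f (mp x p (i + 1))) d,
    tel_all (fun k => f (mp x p k)) d, mp_zero, mp_top]

/-- The coboundary of a coboundary is zero. -/
theorem dl_cob {d : ℕ} (L : ℕ) (f : Pt d → ZMod 2) : dl L (cob L f) = 0 := by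
  funext s
  obtain ⟨x, a, b⟩ := s
  unfold dl
  split_ifs with hS
  · obtain ⟨hab, h1, h2⟩ := hS
    have hab' : a < b := hab
    have h1' : inB L x := h1
    have h2' : inB L (x + un a + un b) := h2
    have ha : inB L (x + un a) := by
      intro i
      have k1 := h1' i
      have k2 := h2' i
      have k3 := un_nonneg a i
      have k4 := un_nonneg b i
      rw [Pi.add_apply, Pi.add_apply] at k2
      rw [Pi.add_apply]
      omega
    have hb : inB L (x + un b) := by
      intro i
      have k1 := h1' i
      have k2 := h2' i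
      have k3 := un_nonneg a i
      have k4 := un_nonneg b i
      rw [Pi.add_apply, Pi.add_apply] at k2
      rw [Pi.add_apply]
      omega
    have hba : x + un b + un a = x + un a + un b := by
      rw [add_assoc, add_comm (un b), ← add_assoc]
    show cob L f (x, a) + cob L f (x + un b, a) + cob L f (x, b) + cob L f (x + un a, b) = 0
    unfold cob
    rw [if_pos (show isE L (x, a) from ⟨h1', ha⟩),
      if_pos (show isE L (x + un b, a) from ⟨hb, by
        show inB L (x + un b + un a)
        rw [hba]
        exact h2'⟩),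
      if_pos (show isE L (x, b) from ⟨h1', hb⟩),
      if_pos (show isE L (x + un a, b) from ⟨ha, h2'⟩)]
    show f x + f (x + un a) + (f (x + un b) + f (x + un b + un a)) + (f x + f (x + un b)) +
      (f (x + un a) + f (x + un a + un b)) = 0
    rw [hba]
    have k1 := gi_two (f x)
    have k2 := gi_two (f (x + un a))
    have k3 := gi_two (f (x + un b))
    have k4 := gi_two (f (x + un a + un b))
    linear_combination k1 + k2 + k3 + k4
  · rfl

theorem dl_add {d : ℕ} (L : ℕ) (z z' : Ed d → ZMod 2) : dl L (z + z') = dl L z + dl L z' := by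
  funext s
  rw [Pi.add_apply]
  unfold dl
  split_ifs
  · simp only [Pi.add_apply]
    ring
  · rw [add_zero]

theorem cob_add {d : ℕ} (L : ℕ) (f f' : Pt d → ZMod 2) : cob L (f + f') = cob L f + cob L f' := by
  funext s
  rw [Pi.add_apply]
  unfold cob
  split_ifs
  · simp only [Pi.add_apply]
    ring
  · rw [add_zero]

end Pool.Agent.H42.CS
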