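import Pool.Agent.H42.CS.Eng

/-!
# The counting lemma

PROOF of `gkl`. For `x ∈ S` the worlds `W1 x`, `W2 x` on `Vs pr H ⊔ Sp x` agree on `Vs pr H`; by
`Gad.exists_shift` (`U = Vs pr H`) there is `t` with `t ⬝ᵥ y = 0` on `Vs pr H` and `W1 x` agrees with
`sh t (W2 x)` on `Vs pr H ⊔ Sp x`; by `Vs_perp` `t = pr g` with `g ∈ H`. Choose `g` as a function
`γ (W1 x, W2 x, Sp x)` of the three (`Classical.choose` of an existence statement in which `x` occurs
only through these three): so `γ` is the same for `x` and `ac h x`, `h ∈ H`. The map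
`F x := ac (γ x)⁻¹ x` maps `S` to `S`, with the inverse `x ↦ ac (γ x) x` (γ is constant along `H`-orbits in
`S`: `γ (F x) = γ x`, as `W1, W2, Sp` are invariant). And `Φ x (W1 x) ↔ Φ x (sh (pr g) (W2 x))`
(`hloc`, both agree on `Sp x` and `W1 x` is a world there) `↔ Φ (ac g⁻¹ x) (W2 x)` (`hequi` at the point
`ac g⁻¹ x`, whose space is `Sp x`, and the world `W2 x`, a world on `Sp x`), `↔ Φ (F x) (W2 (F x))`
(invariance of `W2`). So `F` restricts to a bijection between the two sets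
(`Set.ncard_congr`, or `Set.BijOn.ncard_eq`...).
No finiteness is needed.
-/

set_option autoImplicit false

namespace Pool.Agent.H42.CS

namespace Eng

variable {Rel : ℕ → Type} {P K G : Type} [Fintype K] [Group G] (E : Eng Rel P K G)

omit [Fintype K] in
private theorem agr_mono {g : Gad K} {U U' : Submodule (ZMod 2) (K → ZMod 2)} (hle : U ≤ U') {f f' : Wd K}
    (h : g.Agr U' f f') : g.Agr U f f' := fun y hy hD => h y (hle hy) hD

open Classical in
/-- The element which transforms one world into the other one. -/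
private noncomputable def gam (H : Subgroup G) (f1 f2 : Wd K) (V : Submodule (ZMod 2) (K → ZMod 2)) : G :=
  if h : ∃ g ∈ H, E.toGad.Agr (Vs E.pr H ⊔ V) f1 (sh (E.pr g) f2) then h.choose else 1

private theorem gam_mem (H : Subgroup G) (f1 f2 : Wd K) (V : Submodule (ZMod 2) (K → ZMod 2)) :
    E.gam H f1 f2 V ∈ H := by
  unfold gam
  split
  · next h => exact h.choose_spec.1
  · exact H.one_mem

private theorem gam_agr (H : Subgroup G) {f1 f2 : Wd K} {V : Submodule (ZMod 2) (K → ZMod 2)}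
    (h : ∃ g ∈ H, E.toGad.Agr (Vs E.pr H ⊔ V) f1 (sh (E.pr g) f2)) :
    E.toGad.Agr (Vs E.pr H ⊔ V) f1 (sh (E.pr (E.gam H f1 f2 V)) f2) := by
  unfold gam
  rw [dif_pos h]
  exact h.choose_spec.2

theorem gkl {X : Type} (H : Subgroup G) (ac : G → X → X) (h1 : ∀ x, ac 1 x = x)
    (hm : ∀ g h x, ac (g * h) x = ac g (ac h x)) (S : Set X)
    (hS : ∀ g ∈ H, ∀ x ∈ S, ac g x ∈ S) (Sp : X → Submodule (ZMod 2) (K → ZMod 2))
    (hSp : ∀ g ∈ H, ∀ x ∈ S, Sp (ac g x) = Sp x) (Φ : X → Wd K → Prop)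
    (hloc : ∀ x ∈ S, ∀ f f', E.toGad.IsW (Sp x) f → E.toGad.Agr (Sp x) f f' →
      (Φ x f ↔ Φ x f'))
    (hequi : ∀ g ∈ H, ∀ x ∈ S, ∀ f, E.toGad.IsW (Sp x) f →
      (Φ (ac g x) (sh (E.pr g) f) ↔ Φ x f))
    (W1 W2 : X → Wd K) (hW1 : ∀ g ∈ H, ∀ x ∈ S, W1 (ac g x) = W1 x)
    (hW2 : ∀ g ∈ H, ∀ x ∈ S, W2 (ac g x) = W2 x)
    (hw1 : ∀ x ∈ S, E.toGad.IsW (Vs E.pr H ⊔ Sp x) (W1 x))
    (hw2 : ∀ x ∈ S, E.toGad.IsW (Vs E.pr H ⊔ Sp x) (W2 x))
    (ha : ∀ x ∈ S, E.toGad.Agr (Vs E.pr H) (W1 x) (W2 x)) :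
    {x | x ∈ S ∧ Φ x (W1 x)}.ncard = {x | x ∈ S ∧ Φ x (W2 x)}.ncard := by
  obtain ⟨γ, hγ⟩ : ∃ γ : X → G, γ = fun x => E.gam H (W1 x) (W2 x) (Sp x) := ⟨_, rfl⟩
  have hm' : ∀ x, γ x ∈ H := fun x => by
    rw [hγ]
    exact E.gam_mem H _ _ _
  have hinv : ∀ g ∈ H, ∀ x ∈ S, γ (ac g x) = γ x := fun g hg x hx => by
    rw [hγ]
    show E.gam H (W1 (ac g x)) (W2 (ac g x)) (Sp (ac g x)) = E.gam H (W1 x) (W2 x) (Sp x)
    rw [hW1 g hg x hx, hW2 g hg x hx, hSp g hg x hx]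
  have hagr : ∀ x ∈ S, E.toGad.Agr (Vs E.pr H ⊔ Sp x) (W1 x) (sh (E.pr (γ x)) (W2 x)) := fun x hx => by
    rw [hγ]
    refine E.gam_agr H ?_
    obtain ⟨t, ht, h2⟩ := E.toGad.exists_shift (le_sup_left : Vs E.pr H ≤ Vs E.pr H ⊔ Sp x) (hw2 x hx) (hw1 x hx)
      (fun y hy hD => (ha x hx y hy hD).symm)
    obtain ⟨g, hg, hgt⟩ := Vs_perp E.pr_mul H t ht
    exact ⟨g, hg, by rw [hgt]; exact h2⟩
  have hΦ : ∀ x ∈ S, (Φ x (W1 x) ↔ Φ (ac (γ x)⁻¹ x) (W2 (ac (γ x)⁻¹ x))) := fun x hx => by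
    have hi := H.inv_mem (hm' x)
    rw [hloc x hx (W1 x) (sh (E.pr (γ x)) (W2 x)) (E.toGad.isW_mono le_sup_right (hw1 x hx))
      (agr_mono le_sup_right (hagr x hx))]
    have h2 := hequi (γ x) (hm' x) (ac (γ x)⁻¹ x) (hS _ hi x hx) (W2 x) (by
      rw [hSp _ hi x hx]
      exact E.toGad.isW_mono le_sup_right (hw2 x hx))
    rw [← hm, mul_inv_cancel, h1] at h2
    rw [h2, hW2 _ hi x hx]
  refine Set.ncard_congr (fun x _ => ac (γ x)⁻¹ x) ?_ ?_ ?_
  · rintro x ⟨hx, h2⟩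
    exact ⟨hS _ (H.inv_mem (hm' x)) x hx, (hΦ x hx).1 h2⟩
  · rintro x y ⟨hx, _⟩ ⟨hy, _⟩ h2
    have h3 : ∀ z ∈ S, ac (γ (ac (γ z)⁻¹ z)) (ac (γ z)⁻¹ z) = z := fun z hz => by
      rw [hinv _ (H.inv_mem (hm' z)) z hz, ← hm, mul_inv_cancel, h1]
    have h4 := h3 x hx
    have h2' : ac (γ x)⁻¹ x = ac (γ y)⁻¹ y := h2
    rw [h2', h3 y hy] at h4
    exact h4.symm
  · rintro y ⟨hy, h2⟩
    have h3 : ac (γ (ac (γ y) y))⁻¹ (ac (γ y) y) = y := by
      rw [hinv _ (hm' y) y hy, ← hm, inv_mul_cancel, h1]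
    refine ⟨ac (γ y) y, ⟨hS _ (hm' y) y hy, ?_⟩, h3⟩
    rw [hΦ _ (hS _ (hm' y) y hy), h3]
    exact h2

/-! ### Simple facts about spaces -/

theorem Sm_tame {U : Submodule (ZMod 2) (K → ZMod 2)} (h : E.Sm 6 U) : E.toGad.Tame U := by
  obtain ⟨l, hl, hU⟩ := h
  exact E.toGad.tame_mono hU (E.tame6 l hl)

theorem Sm_mono {k k' : ℕ} (hk : k ≤ k') {U U' : Submodule (ZMod 2) (K → ZMod 2)} (hle : U' ≤ U)
    (h : E.Sm k U) : E.Sm k' U' := by
  obtain ⟨l, hl, hU⟩ := h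
  refine ⟨fun i => if hi : i.1 < k then l ⟨i.1, hi⟩ else ⊥, fun i => ?_, hle.trans (hU.trans ?_)⟩
  · by_cases hi : i.1 < k
    · simp only [dif_pos hi]
      exact hl _
    · left
      simp only [dif_neg hi]
  · refine iSup_le fun i => ?_
    refine le_trans (le_of_eq ?_) (le_iSup _ (⟨i.1, lt_of_lt_of_le i.2 hk⟩ : Fin k'))
    simp only [dif_pos i.2]

theorem Sm_sup {k k' : ℕ} {U U' : Submodule (ZMod 2) (K → ZMod 2)} (h : E.Sm k U)
    (h' : E.Sm k' U') : E.Sm (k + k') (U ⊔ U') := by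
  obtain ⟨l, hl, hU⟩ := h
  obtain ⟨l', hl', hU'⟩ := h'
  refine ⟨Fin.append l l', fun i => ?_, sup_le (hU.trans ?_) (hU'.trans ?_)⟩
  · refine Fin.addCases (fun j => ?_) (fun j => ?_) i
    · rw [Fin.append_left]
      exact hl j
    · rw [Fin.append_right]
      exact hl' j
  · refine iSup_le fun i => ?_
    refine le_trans (le_of_eq ?_) (le_iSup _ (Fin.castAdd k' i))
    rw [Fin.append_left]
  · refine iSup_le fun i => ?_
    refine le_trans (le_of_eq ?_) (le_iSup _ (Fin.natAdd k i))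
    rw [Fin.append_right]

theorem Sm_mem {U : Submodule (ZMod 2) (K → ZMod 2)} (h : U ∈ E.fam) : E.Sm 1 U := by
  exact ⟨fun _ => U, fun _ => Or.inr h, le_iSup (fun _ : Fin 1 => U) 0⟩

theorem Sm_Vn (a : E.C.N) : E.Sm 1 (E.Vn a) := by
  exact E.Sm_mem (E.node_mem a)

/-- The space of the image of a node is the same (the stabilisers are conjugate). -/
theorem Vn_act (g : G) (a : E.C.N) : E.Vn (E.act g a) = E.Vn a := by
  refine Vs_conj E.pr_mul (stN E.act a) (stN E.act (E.act g a)) g fun x => ?_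
  show E.act x (E.act g a) = E.act g a ↔ E.act (g⁻¹ * x * g) a = a
  rw [map_mul, map_mul, map_inv, Equiv.Perm.mul_apply, Equiv.Perm.mul_apply, Equiv.Perm.inv_eq_iff_eq]

theorem Vl_act (g : G) (X : Set (Lit E.C.N)) : E.Vl (Lit.map (E.act g) '' X) = E.Vl X := by
  have hc : ∀ x y : G, (Lit.map (E.act (x * y)) : Lit E.C.N → Lit E.C.N) = Lit.map (E.act x) ∘ Lit.map (E.act y) := by
    intro x y
    funext z
    simp [Lit.map]
  have h1 : (Lit.map (E.act 1) : Lit E.C.N → Lit E.C.N) = id := by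
    funext z
    simp [Lit.map]
  refine Vs_conj E.pr_mul (stS E.act X) (stS E.act (Lit.map (E.act g) '' X)) g fun x => ?_
  show Lit.map (E.act x) '' (Lit.map (E.act g) '' X) = Lit.map (E.act g) '' X ↔
    Lit.map (E.act (g⁻¹ * x * g)) '' X = X
  rw [mul_assoc, hc, hc, Set.image_comp, Set.image_comp]
  constructor
  · intro h
    rw [h, ← Set.image_comp, ← hc, inv_mul_cancel, h1, Set.image_id]
  · intro h
    have h2 := congrArg (fun Y => Lit.map (E.act g) '' Y) h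
    have h2' : Lit.map (E.act g) '' (Lit.map (E.act g⁻¹) '' (Lit.map (E.act x) '' (Lit.map (E.act g) '' X))) =
        Lit.map (E.act g) '' X := h2
    rw [← Set.image_comp, ← hc, mul_inv_cancel, h1, Set.image_id] at h2'
    exact id h2' 

/-- The stabiliser of a node stabilises the set of its children. -/
theorem stN_le_and {a : E.C.N} {S : Set (Lit E.C.N)} (h : E.C.gate a = .and S) :
    stN E.act a ≤ stS E.act S := by
  intro g hg
  have h1 := E.gate_act g a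
  have h2 : E.act g a = a := hg
  rw [h2, h] at h1
  simp only [Gate.map, Gate.and.injEq] at h1
  exact h1.symm

theorem stN_le_sym {a : E.C.N} {A : Set ℕ} {S : Set (Lit E.C.N)} (h : E.C.gate a = .sym A S) :
    stN E.act a ≤ stS E.act S := by
  intro g hg
  have h1 := E.gate_act g a
  have h2 : E.act g a = a := hg
  rw [h2, h] at h1
  simp only [Gate.map, Gate.sym.injEq] at h1
  exact h1.2.symm

/-- The stabiliser of a node labelled by an atom fixes the points of the atom. -/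
theorem stN_le_var {a : E.C.N} {v : Atom Rel P} (h : E.C.gate a = .var v) :
    stN E.act a ≤ stA E.ρ v := by
  intro g hg i
  have h1 := E.gate_act g a
  have h2 : E.act g a = a := hg
  rw [h2, h] at h1
  simp only [Gate.map, Gate.var.injEq] at h1
  obtain ⟨n, r, u⟩ := v
  simp only [Sigma.mk.injEq, heq_eq_eq, true_and, Prod.mk.injEq] at h1
  exact (congrFun h1 i).symm

theorem Vs_stA_le {a : E.C.N} {v : Atom Rel P} (h : E.C.gate a = .var v) :
    Vs E.pr (stA E.ρ v) ≤ E.Vn a := by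
  exact Vs_anti (E.stN_le_var h)

end Eng

end Pool.Agent.H42.CS
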