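import Pool.Agent.H42.CS.Grd

/-!
# Groups I: halvings of orbits of 2-groups; information sets

PROOF of `halving`. Let `S` be the stabiliser of `x` in `K`; `S ≠ ⊤`. Since `K` is a finite 2-group
and `S` is a proper subgroup, there is a subgroup `M` of index 2 with `S ≤ M` (a maximal subgroup
containing `S`; in a nilpotent group it is normal, of prime index; or: take a chain of subgroups by
`Sylow.exists_subgroup_card_pow_prime_le` between `S` and `K`: a subgroup `M ≥ S` with
`card M = card K / 2`). `M` has index 2, so it is normal. `O 0 := M x`, `O 1 := {g x | g ∉ M}`,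
`χ g := 0` if `g ∈ M`, `1` otherwise (a homomorphism, as the index is 2:
`Subgroup.mul_mem_iff_of_index_two`). `O 0` and `O 1` are disjoint: `m x = g x` gives
`g⁻¹ m ∈ S ≤ M`. The union is the orbit. `g '' O b = O (b + χ g)` is clear.

PROOF of `infoset`. The image `V` of `Φ` is a subspace of `J → ZMod 2` (a subgroup is a subspace over
`ZMod 2`). Choose a maximal set of coordinates `j : Fin r → J` which are linearly independent as
functionals on `V` (e.g. `exists_linearIndependent` / a basis of the span of the coordinate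
functionals restricted to `V` chosen among them): then every coordinate functional on `V` is a
combination of the chosen ones (this gives the last claim), and the chosen ones together map `V`
onto `Fin r → ZMod 2` (linear independence of functionals). Counting: the map
`g ↦ (fun i => Φ g (j i))` is a surjective homomorphism with kernel `{g | Φ g = 0}`. An alternative:
induction on the number of the coordinates (`Finset.induction` over `J`), adding a coordinate if it is
not constant `0` on the kernel of the coordinates before.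
-/

set_option autoImplicit false

namespace Pool.Agent.H42.CS

private theorem zm2 (a : ZMod 2) : a = 0 ∨ a = 1 := by
  revert a
  decide

private theorem zm2_add (a : ZMod 2) : a + a = 0 := by
  revert a
  decide

private theorem z11 : (0 : ZMod 2) = 1 + 1 := by decide

private theorem z01 : ¬ (0 : ZMod 2) = 0 + 1 := by decide

private theorem z10 : ¬ (0 : ZMod 2) = 1 + 0 := by decide

private theorem z01' : ¬ (0 : ZMod 2) + 1 = 0 := by decide

theorem halving {P : Type} [Finite P] (K : Subgroup (Equiv.Perm P)) (hK : IsPGroup 2 K) (x : P)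
    (hx : ∃ g ∈ K, g x ≠ x) :
    ∃ (O : ZMod 2 → Set P) (χ : K → ZMod 2), (∀ g g' : K, χ (g * g') = χ g + χ g') ∧
      (∀ (g : K) (b : ZMod 2), (g : Equiv.Perm P) '' O b = O (b + χ g)) ∧
      Disjoint (O 0) (O 1) ∧ O 0 ∪ O 1 = {y | ∃ g ∈ K, g x = y} ∧ (∀ b, (O b).Nonempty) ∧
      2 * (O 0).ncard = {y | ∃ g ∈ K, g x = y}.ncard ∧ (O 0).ncard = (O 1).ncard := by
  classical
  have hf : Fact (Nat.Prime 2) := ⟨Nat.prime_two⟩
  let S : Subgroup K := (MulAction.stabilizer (Equiv.Perm P) x).comap K.subtype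
  have hSm : ∀ g : K, g ∈ S ↔ (g : Equiv.Perm P) x = x := fun g => Iff.rfl
  obtain ⟨n, hn⟩ := (IsPGroup.iff_card).1 hK
  obtain ⟨k, hk⟩ := (IsPGroup.iff_card).1 (hK.to_subgroup S)
  have hST : S ≠ ⊤ := by
    intro h
    obtain ⟨g, hg, hgx⟩ := hx
    exact hgx ((hSm ⟨g, hg⟩).1 (h ▸ Subgroup.mem_top _))
  have hkn : k < n := by
    by_contra hle
    have h1 : Nat.card S ≤ Nat.card K := Subgroup.card_le_card_group S
    have h2 : Nat.card K ≤ Nat.card S := by
      rw [hn, hk]
      exact Nat.pow_le_pow_right (by norm_num) (not_lt.1 hle)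
    exact hST (Subgroup.eq_top_of_card_eq S (le_antisymm h1 h2))
  obtain ⟨M, hM, hSM⟩ := Sylow.exists_subgroup_card_pow_prime_le (G := K) 2 (n := k) (m := n - 1) (by
    rw [hn]
    exact Nat.pow_dvd_pow 2 (Nat.sub_le _ _)) S hk (by omega)
  have hidx : M.index = 2 := by
    have h1 := Subgroup.card_mul_index M
    rw [hM, hn] at h1
    have h2 : 2 ^ n = 2 ^ (n - 1) * 2 := by
      rw [← pow_succ]
      congr 1
      omega
    rw [h2] at h1
    exact Nat.eq_of_mul_eq_mul_left (by positivity) h1
  let χ : K → ZMod 2 := fun g => if g ∈ M then 0 else 1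
  have hχ0 : ∀ g, χ g = 0 ↔ g ∈ M := by
    intro g
    by_cases h : g ∈ M
    · simp [χ, h]
    · simp [χ, h]
  have hχm : ∀ g g' : K, χ (g * g') = χ g + χ g' := by
    intro g g'
    have h1 := Subgroup.mul_mem_iff_of_index_two hidx (a := g) (b := g')
    by_cases hg : g ∈ M
    · by_cases hg' : g' ∈ M
      · have h2 : g * g' ∈ M := h1.2 (by simp [hg, hg'])
        simp [χ, hg, hg', h2]
      · have h2 : g * g' ∉ M := fun h => by
          have := h1.1 h
          simp [hg, hg'] at this
        simp [χ, hg, hg', h2]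
    · by_cases hg' : g' ∈ M
      · have h2 : g * g' ∉ M := fun h => by
          have := h1.1 h
          simp [hg, hg'] at this
        simp [χ, hg, hg', h2]
      · have h2 : g * g' ∈ M := h1.2 (by simp [hg, hg'])
        simp only [χ, hg, hg', h2, if_true, if_false]
        exact z11
  have hχi : ∀ g : K, χ g⁻¹ = χ g := by
    intro g
    have h1 := hχm g⁻¹ g
    rw [inv_mul_cancel] at h1
    have h2 : χ 1 = 0 := (hχ0 1).2 M.one_mem
    rw [h2] at h1
    rcases zm2 (χ g⁻¹) with h3 | h3 <;> rcases zm2 (χ g) with h4 | h4 <;> rw [h3, h4] at h1 ⊢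
    · exact absurd h1 z01
    · exact absurd h1 z10
  let O : ZMod 2 → Set P := fun b => {y | ∃ g : K, χ g = b ∧ (g : Equiv.Perm P) x = y}
  have himg : ∀ (g : K) (b : ZMod 2), (g : Equiv.Perm P) '' O b = O (b + χ g) := by
    intro g b
    ext y
    constructor
    · rintro ⟨_, ⟨g', h1, rfl⟩, rfl⟩
      refine ⟨g * g', ?_, ?_⟩
      · rw [hχm, h1, add_comm]
      · rw [Subgroup.coe_mul, Equiv.Perm.mul_apply]
    · rintro ⟨g', h1, rfl⟩
      refine ⟨((g⁻¹ * g' : K) : Equiv.Perm P) x, ⟨g⁻¹ * g', ?_, rfl⟩, ?_⟩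
      · rw [hχm, hχi, h1, add_comm b, ← add_assoc, zm2_add, zero_add]
      · rw [← Equiv.Perm.mul_apply, ← Subgroup.coe_mul, mul_inv_cancel_left]
  have hdis : Disjoint (O 0) (O 1) := by
    rw [Set.disjoint_left]
    rintro _ ⟨g, h1, rfl⟩ ⟨g', h2, h3⟩
    have h4 : g⁻¹ * g' ∈ S := by
      rw [hSm, Subgroup.coe_mul, Equiv.Perm.mul_apply, h3, ← Equiv.Perm.mul_apply, ← Subgroup.coe_mul,
        inv_mul_cancel, Subgroup.coe_one, Equiv.Perm.one_apply]
    have h5 := (hχ0 _).2 (hSM h4)
    rw [hχm, hχi, h1, h2] at h5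
    exact absurd h5 z01'
  have huni : O 0 ∪ O 1 = {y | ∃ g ∈ K, g x = y} := by
    ext y
    constructor
    · rintro (⟨g, -, h⟩ | ⟨g, -, h⟩)
      · exact ⟨g, g.2, h⟩
      · exact ⟨g, g.2, h⟩
    · rintro ⟨g, hg, h⟩
      rcases zm2 (χ ⟨g, hg⟩) with h1 | h1
      · exact Or.inl ⟨⟨g, hg⟩, h1, h⟩
      · exact Or.inr ⟨⟨g, hg⟩, h1, h⟩
  have hex1 : ∃ g : K, χ g = 1 := by
    by_contra hcon
    push Not at hcon
    have h1 : M = ⊤ := by
      rw [eq_top_iff]
      intro g _
      exact (hχ0 g).1 ((zm2 (χ g)).resolve_right (hcon g))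
    rw [h1, Subgroup.index_top] at hidx
    exact absurd hidx (by norm_num)
  obtain ⟨g₁, hg₁⟩ := hex1
  have hne : ∀ b, (O b).Nonempty := by
    intro b
    rcases zm2 b with rfl | rfl
    · exact ⟨x, 1, (hχ0 1).2 M.one_mem, rfl⟩
    · exact ⟨_, g₁, hg₁, rfl⟩
  have hcard : (O 0).ncard = (O 1).ncard := by
    have h1 := himg g₁ 0
    rw [hg₁, zero_add] at h1
    rw [← h1, Set.ncard_image_of_injective _ (g₁ : Equiv.Perm P).injective]
  refine ⟨O, χ, hχm, himg, hdis, huni, hne, ?_, hcard⟩
  rw [← huni, Set.ncard_union_eq hdis (Set.toFinite _) (Set.toFinite _), ← hcard, two_mul]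

theorem infoset {K J : Type} [Group K] [Finite K] [Finite J] (Φ : K → J → ZMod 2)
    (hΦ : ∀ g g', Φ (g * g') = Φ g + Φ g') :
    ∃ (r : ℕ) (j : Fin r → J), Function.Injective j ∧
      Function.Surjective (fun (g : K) (i : Fin r) => Φ g (j i)) ∧
      Nat.card K = Nat.card {g : K // Φ g = 0} * 2 ^ r := by
  classical
  have := Fintype.ofFinite J
  let A : Finset (Finset J) := Finset.univ.filter fun s => ∀ f : J → ZMod 2, ∃ g : K, ∀ i ∈ s, Φ g i = f i
  have hA : A.Nonempty := ⟨∅, by
    rw [Finset.mem_filter]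
    exact ⟨Finset.mem_univ _, fun f => ⟨1, fun i hi => absurd hi (Finset.notMem_empty i)⟩⟩⟩
  obtain ⟨s, hs, hmax⟩ := A.exists_max_image (fun s => s.card) hA
  have hs' : ∀ f : J → ZMod 2, ∃ g : K, ∀ i ∈ s, Φ g i = f i := (Finset.mem_filter.1 hs).2
  have hker : ∀ g : K, (∀ i ∈ s, Φ g i = 0) → Φ g = 0 := by
    intro g₀ hg₀
    by_contra hne
    obtain ⟨j, hj⟩ : ∃ j, Φ g₀ j ≠ 0 := by
      by_contra hcon
      push Not at hcon
      exact hne (funext hcon)
    have hj1 : Φ g₀ j = 1 := (zm2 _).resolve_left hj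
    have hjs : j ∉ s := fun h => hj (hg₀ j h)
    have h1 : insert j s ∈ A := by
      rw [Finset.mem_filter]
      refine ⟨Finset.mem_univ _, fun f => ?_⟩
      obtain ⟨g, hg⟩ := hs' f
      by_cases h2 : Φ g j = f j
      · refine ⟨g, fun i hi => ?_⟩
        rcases Finset.mem_insert.1 hi with rfl | hi
        · exact h2
        · exact hg i hi
      · refine ⟨g * g₀, fun i hi => ?_⟩
        rw [hΦ, Pi.add_apply]
        rcases Finset.mem_insert.1 hi with rfl | hi
        · rw [hj1]
          rcases zm2 (Φ g i) with h3 | h3 <;> rcases zm2 (f i) with h4 | h4 <;> rw [h3, h4] at h2 ⊢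
          · exact absurd rfl h2
          · decide
          · decide
          · exact absurd rfl h2
        · rw [hg i hi, hg₀ i hi, add_zero]
    have h2 := hmax _ h1
    rw [Finset.card_insert_of_notMem hjs] at h2
    omega
  let e : Fin s.card ≃ s := (Fintype.equivFinOfCardEq (Fintype.card_coe s)).symm
  have hsur : Function.Surjective (fun (g : K) (i : Fin s.card) => Φ g (e i : J)) := by
    intro f
    obtain ⟨g, hg⟩ := hs' fun j => if h : j ∈ s then f (e.symm ⟨j, h⟩) else 0
    refine ⟨g, funext fun i => ?_⟩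
    have h1 := hg (e i) (e i).2
    show Φ g (e i : J) = f i
    rw [h1, dif_pos (e i).2]
    congr 1
    exact e.symm_apply_apply i
  refine ⟨s.card, fun i => (e i : J), fun a b hab => e.injective (Subtype.ext hab), hsur, ?_⟩
  let ψ : K →* Multiplicative (Fin s.card → ZMod 2) :=
    { toFun := fun g => Multiplicative.ofAdd fun i => Φ g (e i : J)
      map_one' := by
        have h1 := hΦ 1 1
        rw [mul_one] at h1
        have h2 : Φ 1 = 0 := by
          have h3 : Φ 1 + 0 = Φ 1 + Φ 1 := by rw [add_zero]; exact h1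
          exact (add_left_cancel h3).symm
        show Multiplicative.ofAdd (fun i => Φ 1 (e i : J)) = 1
        rw [h2]
        rfl
      map_mul' := fun g g' => by
        show Multiplicative.ofAdd (fun i => Φ (g * g') (e i : J)) = _
        rw [hΦ]
        rfl }
  have h1 := Subgroup.card_mul_index ψ.ker
  rw [Subgroup.index_ker] at h1
  have h2 : Nat.card ψ.range = 2 ^ s.card := by
    have h3 : ψ.range = ⊤ := MonoidHom.range_eq_top.2 fun y => by
      obtain ⟨g, hg⟩ := hsur (Multiplicative.toAdd y)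
      exact ⟨g, hg⟩
    rw [h3, Subgroup.card_top]
    have h4 : Nat.card (Multiplicative (Fin s.card → ZMod 2)) = Nat.card (Fin s.card → ZMod 2) := rfl
    rw [h4, Nat.card_fun, Nat.card_fin, Nat.card_zmod]
  rw [h2] at h1
  rw [← h1]
  congr 1
  refine Nat.card_congr (Equiv.subtypeEquivRight fun g => ?_)
  rw [MonoidHom.mem_ker]
  constructor
  · intro h
    refine hker g fun i hi => ?_
    have h3 := congrFun (show (fun i => Φ g (e i : J)) = 0 from h) (e.symm ⟨i, hi⟩)
    rw [Equiv.apply_symm_apply] at h3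
    exact h3
  · intro h
    show Multiplicative.ofAdd (fun i => Φ g (e i : J)) = 1
    rw [h]
    rfl

end Pool.Agent.H42.CS
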