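import Pool.Agent.H42.CS.Cir

/-!
# Local derivations in the circuit I

Everything is a short combination of the rules in Der, Deb; the gates of `CC d n` are `gt`
(`show`/`rfl`). The levels are generous: use `Dn.le`, `Dn.mono` to align them.

* `pn_ins`, `dn_ins`: `ins_T` and `Pn.clause`, `Dn.clause`.
* `rep_true`, `mi_true`: `Dn.andT`. `rep_false`: `Dn.andF` with the member `⟨vE p q, false⟩`.
  `mi_false`: `v < u`: `⟨vF τ q v, false⟩` is derived: `Dn.andF` with the member `⟨vF τ q v, true⟩`;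
  `v > u`: the member `⟨vF τ q u, false⟩` of `mi τ q v`.
* `y_true`: all members of `mm σ q u` are derived, so `mm σ q u` is (`Dn.andT`), and `⟨mm σ q u, false⟩`
  is a member of `yy σ q`: `Dn.andF`. `y_false`: for every `v`: `⟨mm σ q v, false⟩`: if `v = u`:
  `vR σ q u` is refuted; otherwise `v t ≠ u t` for some `t`: `mi_false`. Then `Dn.andT`. `y_norep`:
  every `mm σ q v` has the member `rep q`.
* `e_refl` … `z_inv`: `dn_ins` with the instances er, es, jf, ji, je, r5, f6, z2, z3.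
* `search_F`: `Pn.search` with `v u = vF τ q u`; the case that all are false: `pn_ins` with f7.
  `search_labels`: induction on `S` (`Finset.induction`): for `insert τ S` search `τ` and then `S` (for
  `u` on `S` and the found label on `τ` use `Function.update u τ _`; the set of assumptions only matters
  up to inclusion: `Pn.mono`).
-/

set_option autoImplicit false

namespace Pool.Agent.H42.CS

variable {d n l : ℕ} {Γ : Set (Lit (Nd d n))}

theorem pn_ins {Λ : Set (Atom (Re d) (Fin n) × Bool)} (h : Ins Λ)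
    (hΛ : ∀ x ∈ Λ, ∃ a : Nd d n, gt a = .var x.1 ∧ DD l Γ ⟨a, !x.2⟩) : PP (l + 2) Γ := by
  obtain ⟨A, hA, v, rfl⟩ := ins_T Λ h
  exact Pn.clause hA v hΛ

theorem dn_ins {Λ : Set (Atom (Re d) (Fin n) × Bool)} (h : Ins Λ)
    {x0 : Atom (Re d) (Fin n) × Bool} {a0 : Nd d n} (ha0 : gt a0 = .var x0.1)
    (hΛ : ∀ x ∈ Λ, x ≠ x0 → ∃ a : Nd d n, gt a = .var x.1 ∧ DD l Γ ⟨a, !x.2⟩) :
    DD (l + 3) Γ ⟨a0, x0.2⟩ := by
  obtain ⟨A, hA, v, rfl⟩ := ins_T Λ h
  exact Dn.clause hA v ha0 hΛ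

theorem rep_true {q : Fin n} (h : ∀ p, p < q → DD l Γ ⟨.vE p q, false⟩) :
    DD (l + 2) Γ ⟨.rep q, true⟩ := by
  refine Dn.andT (C := CC d n) (a := .rep q) rfl ?_
  rintro x ⟨p, hp, rfl⟩
  exact h p hp

theorem rep_false {p q : Fin n} (hp : p < q) (h : DD l Γ ⟨.vE p q, true⟩) :
    DD (l + 3) Γ ⟨.rep q, false⟩ :=
  Dn.andF (C := CC d n) (a := .rep q) (x := ⟨.vE p q, false⟩) rfl ⟨p, hp, rfl⟩ h

theorem mi_true {τ : Sym2 (Slot d)} {q u : Fin n} (h : Lst l Γ τ q u) :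
    DD (l + 2) Γ ⟨.mi τ q u, true⟩ := by
  refine Dn.andT (C := CC d n) (a := .mi τ q u) rfl ?_
  rintro x (rfl | ⟨u', hu', rfl⟩)
  · exact h.1
  · exact h.2 u' hu'

theorem mi_false {τ : Sym2 (Slot d)} {q u v : Fin n} (h : Lst l Γ τ q u) (hv : v ≠ u) :
    DD (l + 3) Γ ⟨.mi τ q v, false⟩ := by
  rcases lt_or_gt_of_ne hv with h1 | h1
  · exact Dn.andF (C := CC d n) (a := .mi τ q v) (x := ⟨.vF τ q v, true⟩) rfl (Or.inl rfl)
      (h.2 v h1)
  · exact Dn.andF (C := CC d n) (a := .mi τ q v) (x := ⟨.vF τ q u, false⟩) rfl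
      (Or.inr ⟨u, h1, rfl⟩) h.1

theorem y_true {σ : Slot d} {q : Fin n} {u : Slot d → Fin n}
    (hr : DD l Γ ⟨.rep q, true⟩) (hu : ∀ t, Lst l Γ s(σ, t) q (u t))
    (hR : DD l Γ ⟨.vR σ q u, true⟩) : DD (l + 10) Γ ⟨.yy σ q, false⟩ := by
  have h1 : DD (l + 2 + 2) Γ ⟨.mm σ q u, true⟩ := by
    refine Dn.andT (C := CC d n) (a := .mm σ q u) rfl ?_
    rintro x ((rfl | rfl) | ⟨t, rfl⟩)
    · exact Dn.le hr (by omega)
    · exact Dn.le hR (by omega)
    · exact mi_true (hu t)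
  have h2 : DD (l + 2 + 2 + 3) Γ ⟨.yy σ q, false⟩ :=
    Dn.andF (C := CC d n) (a := .yy σ q) (x := ⟨.mm σ q u, false⟩) rfl ⟨u, rfl⟩ h1
  exact Dn.le h2 (by omega)

theorem y_false {σ : Slot d} {q : Fin n} {u : Slot d → Fin n}
    (hu : ∀ t, Lst l Γ s(σ, t) q (u t)) (hR : DD l Γ ⟨.vR σ q u, false⟩) :
    DD (l + 10) Γ ⟨.yy σ q, true⟩ := by
  have h1 : ∀ v, DD (l + 6) Γ ⟨.mm σ q v, false⟩ := by
    intro v
    by_cases hv : v = u
    · subst hv
      have h2 : DD (l + 3) Γ ⟨.mm σ q v, false⟩ :=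
        Dn.andF (C := CC d n) (a := .mm σ q v) (x := ⟨.vR σ q v, true⟩) rfl
          (Or.inl (Or.inr rfl)) hR
      exact Dn.le h2 (by omega)
    · obtain ⟨t, ht⟩ : ∃ t, v t ≠ u t := by
        by_contra hc
        push Not at hc
        exact hv (funext hc)
      exact Dn.andF (C := CC d n) (a := .mm σ q v) (x := ⟨.mi s(σ, t) q (v t), true⟩) rfl
        (Or.inr ⟨t, rfl⟩) (mi_false (hu t) ht)
  have h2 : DD (l + 6 + 2) Γ ⟨.yy σ q, true⟩ := by
    refine Dn.andT (C := CC d n) (a := .yy σ q) rfl ?_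
    rintro x ⟨v, rfl⟩
    exact h1 v
  exact Dn.le h2 (by omega)

theorem y_norep {σ : Slot d} {q : Fin n} (hr : DD l Γ ⟨.rep q, false⟩) :
    DD (l + 10) Γ ⟨.yy σ q, true⟩ := by
  have h2 : DD (l + 3 + 2) Γ ⟨.yy σ q, true⟩ := by
    refine Dn.andT (C := CC d n) (a := .yy σ q) rfl ?_
    rintro x ⟨v, rfl⟩
    exact Dn.andF (C := CC d n) (a := .mm σ q v) (x := ⟨.rep q, true⟩) rfl
      (Or.inl (Or.inl rfl)) hr
  exact Dn.le h2 (by omega)

theorem e_refl (q : Fin n) : DD 3 Γ ⟨.vE q q, true⟩ := by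
  refine dn_ins (l := 0) (Ins.er q) (x0 := (aE q q, true)) (a0 := .vE q q) rfl ?_
  rintro x rfl hne
  exact absurd rfl hne

theorem e_symm {p q : Fin n} (h : DD l Γ ⟨.vE p q, true⟩) : DD (l + 3) Γ ⟨.vE q p, true⟩ := by
  refine dn_ins (Ins.es p q) (x0 := (aE q p, true)) (a0 := .vE q p) rfl ?_
  rintro x (rfl | rfl) hne
  · exact ⟨.vE p q, rfl, h⟩
  · exact absurd rfl hne

theorem j_fun {a : Fin d} {p q q' : Fin n} (h : DD l Γ ⟨.vJ a p q, true⟩)
    (h' : DD l Γ ⟨.vJ a p q', true⟩) : DD (l + 3) Γ ⟨.vE q q', true⟩ := by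
  refine dn_ins (Ins.jf a p q q') (x0 := (aE q q', true)) (a0 := .vE q q') rfl ?_
  rintro x (rfl | rfl | rfl) hne
  · exact ⟨.vJ a p q, rfl, h⟩
  · exact ⟨.vJ a p q', rfl, h'⟩
  · exact absurd rfl hne

theorem j_inj {a : Fin d} {p p' q : Fin n} (h : DD l Γ ⟨.vJ a p q, true⟩)
    (h' : DD l Γ ⟨.vJ a p' q, true⟩) : DD (l + 3) Γ ⟨.vE p p', true⟩ := by
  refine dn_ins (Ins.ji a p p' q) (x0 := (aE p p', true)) (a0 := .vE p p') rfl ?_
  rintro x (rfl | rfl | rfl) hne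
  · exact ⟨.vJ a p q, rfl, h⟩
  · exact ⟨.vJ a p' q, rfl, h'⟩
  · exact absurd rfl hne

theorem j_inv {a : Fin d} {p p' q q' : Fin n} (h : DD l Γ ⟨.vJ a p q, true⟩)
    (h1 : DD l Γ ⟨.vE p p', true⟩) (h2 : DD l Γ ⟨.vE q q', true⟩) :
    DD (l + 3) Γ ⟨.vJ a p' q', true⟩ := by
  refine dn_ins (Ins.je a p q p' q') (x0 := (aJ a p' q', true)) (a0 := .vJ a p' q') rfl ?_
  rintro x (rfl | rfl | rfl | rfl) hne
  · exact ⟨.vJ a p q, rfl, h⟩
  · exact ⟨.vE p p', rfl, h1⟩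
  · exact ⟨.vE q q', rfl, h2⟩
  · exact absurd rfl hne

theorem r_flip {a : Fin d} (b : Bool) {q q' : Fin n} {u : Slot d → Fin n}
    (h : DD l Γ ⟨.vJ a q q', true⟩) (h' : DD l Γ ⟨.vR (a, b) (if b then q else q') u, true⟩) :
    DD (l + 3) Γ ⟨.vR (a, !b) (if b then q' else q) u, true⟩ := by
  refine dn_ins (Ins.r5 a b q q' u) (x0 := (aR (a, !b) (if b then q' else q) u, true))
    (a0 := .vR (a, !b) (if b then q' else q) u) rfl ?_
  rintro x (rfl | rfl | rfl) hne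
  · exact ⟨.vJ a q q', rfl, h⟩
  · exact ⟨.vR (a, b) (if b then q else q') u, rfl, h'⟩
  · exact absurd rfl hne

theorem f_flip {a : Fin d} (t : Slot d) (b : Bool) {q q' u : Fin n}
    (h : DD l Γ ⟨.vJ a q q', true⟩)
    (h' : DD l Γ ⟨.vF s((a, b), t) (if b then q else q') u, true⟩) :
    DD (l + 3) Γ ⟨.vF s((a, !b), t) (if b then q' else q) u, true⟩ := by
  refine dn_ins (Ins.f6 a t b q q' u)
    (x0 := (aF s((a, !b), t) (if b then q' else q) u, true))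
    (a0 := .vF s((a, !b), t) (if b then q' else q) u) rfl ?_
  rintro x (rfl | rfl | rfl) hne
  · exact ⟨.vJ a q q', rfl, h⟩
  · exact ⟨.vF s((a, b), t) (if b then q else q') u, rfl, h'⟩
  · exact absurd rfl hne

theorem z_uni {x y : Fin n} (h : DD l Γ ⟨.vZ x, true⟩) (h' : DD l Γ ⟨.vZ y, true⟩) :
    DD (l + 3) Γ ⟨.vE x y, true⟩ := by
  refine dn_ins (Ins.z2 x y) (x0 := (aE x y, true)) (a0 := .vE x y) rfl ?_
  rintro z (rfl | rfl | rfl) hne
  · exact ⟨.vZ x, rfl, h⟩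
  · exact ⟨.vZ y, rfl, h'⟩
  · exact absurd rfl hne

theorem z_inv {x y : Fin n} (h : DD l Γ ⟨.vZ x, true⟩) (h' : DD l Γ ⟨.vE x y, true⟩) :
    DD (l + 3) Γ ⟨.vZ y, true⟩ := by
  refine dn_ins (Ins.z3 x y) (x0 := (aZ y, true)) (a0 := .vZ y) rfl ?_
  rintro z (rfl | rfl | rfl) hne
  · exact ⟨.vZ x, rfl, h⟩
  · exact ⟨.vE x y, rfl, h'⟩
  · exact absurd rfl hne

theorem search_F (τ : Sym2 (Slot d)) (q : Fin n)
    (h : ∀ u, PP l (Γ ∪ {⟨.vF τ q u, true⟩} ∪ {x | ∃ u', u' < u ∧ x = ⟨.vF τ q u', false⟩})) :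
    PP (l + 5) Γ := by
  have h1 : PP (l + 2) (Γ ∪ {x | ∃ u, x = (⟨.vF τ q u, false⟩ : Lit (Nd d n))}) := by
    refine pn_ins (Ins.f7 τ q) ?_
    rintro x ⟨u, rfl⟩
    exact ⟨.vF τ q u, rfl, Dn.mem (Or.inr ⟨u, rfl⟩)⟩
  have h2 : PP (l + 2 + 2) Γ :=
    Pn.search (C := CC d n) (fun u => Nd.vF τ q u) (fun u v huv => by
      injection huv) (fun u => Pn.le (h u) (by omega)) h1
  exact Pn.le h2 (by omega)

/-- The facts that the `u τ`, `τ ∈ S`, are the least labels at `q`. -/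
def LabS (S : Finset (Sym2 (Slot d))) (q : Fin n) (u : Sym2 (Slot d) → Fin n) :
    Set (Lit (Nd d n)) :=
  {x | ∃ τ ∈ S, x = ⟨.vF τ q (u τ), true⟩ ∨ ∃ u', u' < u τ ∧ x = ⟨.vF τ q u', false⟩}

theorem search_labels (S : Finset (Sym2 (Slot d))) (q : Fin n)
    (h : ∀ u : Sym2 (Slot d) → Fin n, PP l (Γ ∪ LabS S q u)) : PP (l + 1 + 6 * S.card) Γ := by
  classical
  induction S using Finset.induction_on generalizing Γ l with
  | empty =>
    have h1 := h (fun _ => q)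
    refine Pn.mono h1 ?_ (by omega)
    rintro x (hx | ⟨τ, hτ, -⟩)
    · exact hx
    · exact absurd hτ (Finset.notMem_empty τ)
  | insert τ S hτ ih =>
    rw [Finset.card_insert_of_notMem hτ]
    have h1 : PP (l + 1 + 1 + 6 * S.card + 5) Γ := by
      refine search_F τ q fun v => ?_
      refine ih (l := l + 1) fun u => ?_
      refine Pn.mono (h (Function.update u τ v)) ?_ (Nat.lt_succ_self l)
      rintro x (hx | ⟨τ', hτ', hx⟩)
      · exact Or.inl (Or.inl (Or.inl hx))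
      · rcases Finset.mem_insert.1 hτ' with rfl | hS
        · rw [Function.update_self] at hx
          rcases hx with rfl | ⟨u', hu', rfl⟩
          · exact Or.inl (Or.inl (Or.inr rfl))
          · exact Or.inl (Or.inr ⟨u', hu', rfl⟩)
        · have hne : τ' ≠ τ := fun h2 => hτ (h2 ▸ hS)
          rw [Function.update_of_ne hne] at hx
          exact Or.inr ⟨τ', hS, hx⟩
    exact Pn.le h1 (by omega)

end Pool.Agent.H42.CS
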