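import Pool.Agent.H42.CS.Mod

/-!
# The clauses are true in the model I

`ClOK g leaf fam Λ`: the clause `Λ` is true in the sense needed by the engine. `csp s` is the space of
the vectors supported on the finite set `s` of cells.

PROOF of `ins_ok_easy` (the truth values do not depend on the world; `hd`, `hR` exclude v8, rp, rn, r5:
they have a member with `aR`; for v8 because there is a slot):
* er, es, et: `pE` is an equivalence relation. jf: `x ∈ blk (cv v)`, `y, z ∈ blk (cv (v + un a))`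
  (`vert_unique`), so `pE y z` (`blk_disj`). ji: similarly (`v + un a = v' + un a`). je: `pE x x'` and
  `x ∈ blk (cv v)` give `x' ∈ blk (cv v)`.
* f6: `q ∈ blk (cv v)`, `q' ∈ blk (cv (v + un a))`, `sq v (a, true) t = sq (v + un a) (a, false) t`
  (`sq_shift`); `pF` at `s((a, b), t)` is about all representations `τ = s(σ, t')`; note that
  `sq x σ t = sq x t σ`, and `s(σ, t) = s(σ', t')` means `(σ, t) = (σ', t')` or `(t', σ')`.
* f7: `pF τ q u` holds for some `u`: `τ = s(σ, t)`; if `q ∈ blk (cv x)` with `inB x` and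
  `isS (sq x σ t)`, take `u` in the (nonempty) cell `j (sq x σ t)`; otherwise any `u` (e.g. `q`).
* z1: the cell `cv 0` is nonempty. z2: if `q, q' ∈ blk (cv 0)`: for every `x` in the box
  `q ∈ blk (cv x)` iff `cv x = cv 0` (`blk_disj`) iff `q' ∈ blk (cv x)`. z3: `inB L 0` (`hL`).
-/

set_option autoImplicit false

namespace Pool.Agent.H42.CS

/-- The number of the labels of a vertex. -/
def k8 (d : ℕ) : ℕ := Fintype.card (Sym2 (Slot d))

/-- The truth of a clause in the engine. -/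
def ClOK {Rel : ℕ → Type} {P K : Type} (g : Gad K) (leaf : Atom Rel P → Wd K → Prop)
    (fam : Set (Submodule (ZMod 2) (K → ZMod 2))) (Λ : Set (Atom Rel P × Bool)) : Prop :=
  ∃ Y ∈ fam, ∀ (U : Submodule (ZMod 2) (K → ZMod 2)) (f : Wd K), Y ≤ U → g.Tame U →
    g.IsW U f → ∃ x ∈ Λ, ∀ f', g.Agr Y f f' → (leaf x.1 f' ↔ x.2 = true)

/-- The vectors supported on `s`. -/
def csp {K : Type} (s : Finset K) : Submodule (ZMod 2) (K → ZMod 2) where
  carrier := {y | ∀ k, k ∉ s → y k = 0}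
  add_mem' := by
    intro a b ha hb k hk
    rw [Pi.add_apply, ha k hk, hb k hk, add_zero]
  zero_mem' := by
    intro k _
    rfl
  smul_mem' := by
    intro c a ha k hk
    rw [Pi.smul_apply, ha k hk, smul_zero]

namespace Dat

variable {d L r : ℕ} {P : Type} (D : Dat d L r P)

/-- The squares at the two ends of an edge. -/
theorem sq_shift (x : Pt d) (a : Fin d) (t : Slot d) :
    sq (x + un a) (a, false) t = sq x (a, true) t ∧ ed (x + un a) (a, false) = ed x (a, true) ∧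
      ed x (a, true) = (x, a) := by
  refine ⟨?_, ?_, ?_⟩
  · simp [sq, off]
  · simp [ed, off]
  · simp [ed, off]

private theorem m2_sq (x : Pt d) {σ t σ' t' : Slot d} (h : s(σ, t) = s(σ', t')) :
    sq x σ t = sq x σ' t' := by
  rcases Sym2.eq_iff.1 h with ⟨rfl, rfl⟩ | ⟨rfl, rfl⟩
  · rfl
  · simp only [sq]
    rw [add_right_comm, min_comm, max_comm]

private theorem m2_f {Λ : Set (Atom (Re d) P × Bool)}
    (hno : ¬ ∃ x ∈ Λ, ∀ f, (D.leaf x.1 f ↔ x.2 = true)) {v : Atom (Re d) P}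
    (hm : (v, false) ∈ Λ) {p : Prop} (hv : ∀ f, D.leaf v f ↔ p) : p := by
  by_contra hp
  exact hno ⟨_, hm, fun f => (hv f).trans ⟨fun h => absurd h hp, fun h => absurd h (by simp)⟩⟩

private theorem m2_t {Λ : Set (Atom (Re d) P × Bool)}
    (hno : ¬ ∃ x ∈ Λ, ∀ f, (D.leaf x.1 f ↔ x.2 = true)) {v : Atom (Re d) P}
    (hm : (v, true) ∈ Λ) {p : Prop} (hv : ∀ f, D.leaf v f ↔ p) : ¬ p :=
  fun hp => hno ⟨_, hm, fun f => (hv f).trans ⟨fun _ => rfl, fun _ => hp⟩⟩

private theorem m2_pE {w : Pt d} {q q' : P} (hw : inB L w) (hq : q ∈ D.blk (D.cv w))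
    (hq' : q' ∈ D.blk (D.cv w)) : D.pE q q' := by
  intro x hx
  constructor
  · intro h
    rw [D.vert_unique hx hw h hq]
    exact hq'
  · intro h
    rw [D.vert_unique hx hw h hq']
    exact hq

private theorem m2_zero (hL : 0 < L) : inB L (0 : Pt d) := fun i => by
  simp [hL]

/-- The clauses without `aR`, except v8. -/
theorem ins_ok_easy (hd : 0 < d) (hL : 0 < L) {Λ : Set (Atom (Re d) P × Bool)} (h : Ins Λ)
    (hR : ∀ x ∈ Λ, ∀ σ q u, x.1 ≠ aR σ q u) [Nonempty P] :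
    ∃ x ∈ Λ, ∀ f, (D.leaf x.1 f ↔ x.2 = true) := by
  by_contra hno
  cases h with
  | er x => exact D.m2_t hno rfl (D.leaf_aE x x) fun _ _ => Iff.rfl
  | es x y =>
    have h1 := D.m2_f hno (Or.inl rfl) (D.leaf_aE x y)
    exact D.m2_t hno (Or.inr rfl) (D.leaf_aE y x) fun z hz => (h1 z hz).symm
  | et x y z =>
    have h1 := D.m2_f hno (Or.inl rfl) (D.leaf_aE x y)
    have h2 := D.m2_f hno (Or.inr (Or.inl rfl)) (D.leaf_aE y z)
    exact D.m2_t hno (Or.inr (Or.inr rfl)) (D.leaf_aE x z) fun w hw => (h1 w hw).trans (h2 w hw)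
  | jf a x y z =>
    obtain ⟨v, hv, h1, h2⟩ := D.m2_f hno (Or.inl rfl) (D.leaf_aJ a x y)
    obtain ⟨v', hv', h3, h4⟩ := D.m2_f hno (Or.inr (Or.inl rfl)) (D.leaf_aJ a x z)
    have e : v = v' := D.vert_unique hv.1 hv'.1 h1 h3
    rw [← e] at h4
    exact D.m2_t hno (Or.inr (Or.inr rfl)) (D.leaf_aE y z) (D.m2_pE hv.2 h2 h4)
  | ji a x y z =>
    obtain ⟨v, hv, h1, h2⟩ := D.m2_f hno (Or.inl rfl) (D.leaf_aJ a x z)
    obtain ⟨v', hv', h3, h4⟩ := D.m2_f hno (Or.inr (Or.inl rfl)) (D.leaf_aJ a y z)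
    have e : v = v' := add_right_cancel (D.vert_unique hv.2 hv'.2 h2 h4)
    rw [← e] at h3
    exact D.m2_t hno (Or.inr (Or.inr rfl)) (D.leaf_aE x y) (D.m2_pE hv.1 h1 h3)
  | je a x y x' y' =>
    obtain ⟨v, hv, h1, h2⟩ := D.m2_f hno (Or.inl rfl) (D.leaf_aJ a x y)
    have h3 := D.m2_f hno (Or.inr (Or.inl rfl)) (D.leaf_aE x x')
    have h4 := D.m2_f hno (Or.inr (Or.inr (Or.inl rfl))) (D.leaf_aE y y')
    exact D.m2_t hno (Or.inr (Or.inr (Or.inr rfl))) (D.leaf_aJ a x' y')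
      ⟨v, hv, (h3 v hv.1).1 h1, (h4 _ hv.2).1 h2⟩
  | rp a q u => exact hR _ (Or.inl rfl) _ _ _ rfl
  | rn a q u => exact hR _ (Or.inl rfl) _ _ _ rfl
  | r5 a b q q' u => exact hR _ (Or.inr (Or.inl rfl)) _ _ _ rfl
  | f6 a t b q q' u =>
    obtain ⟨v, hv, h1, h2⟩ := D.m2_f hno (Or.inl rfl) (D.leaf_aJ a q q')
    have h3 := D.m2_f hno (Or.inr (Or.inl rfl)) (D.leaf_aF s((a, b), t) (if b then q else q') u)
    refine D.m2_t hno (Or.inr (Or.inr rfl))
      (D.leaf_aF s((a, !b), t) (if b then q' else q) u) ?_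
    cases b with
    | true =>
      intro x σ t' hs hx hq hS
      have hq' : q' ∈ D.blk (D.cv x) := hq
      have e := D.vert_unique hx hv.2 hq' h2
      rw [← m2_sq x hs] at hS ⊢
      subst e
      have e2 : sq (v + un a) (a, !true) t = sq v (a, true) t := (sq_shift v a t).1
      rw [e2] at hS ⊢
      exact h3 v (a, true) t rfl hv.1 h1 hS
    | false =>
      intro x σ t' hs hx hq hS
      have hq' : q ∈ D.blk (D.cv x) := hq
      have e := D.vert_unique hx hv.1 hq' h1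
      rw [← m2_sq x hs] at hS ⊢
      subst e
      have e2 : sq x (a, !false) t = sq (x + un a) (a, false) t := (sq_shift x a t).1.symm
      rw [e2] at hS ⊢
      exact h3 (x + un a) (a, false) t rfl hv.2 h2 hS
  | f7 τ q =>
    have h1 : ∀ u, ¬ D.pF τ q u := fun u => D.m2_t hno ⟨u, rfl⟩ (D.leaf_aF τ q u)
    induction τ using Sym2.ind with
    | _ σ t =>
      by_cases hx : ∃ x, inB L x ∧ q ∈ D.blk (D.cv x) ∧ isS L (sq x σ t)
      · obtain ⟨x, hx1, hx2, hx3⟩ := hx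
        obtain ⟨u, hu⟩ := D.M.ne (D.j (sq x σ t)) 0
        refine h1 u ?_
        intro x' σ' t' hs hx' hq hS
        have e := D.vert_unique hx' hx1 hq hx2
        subst e
        rw [← m2_sq x' hs]
        exact Or.inl hu
      · refine h1 q ?_
        intro x' σ' t' hs hx' hq hS
        rw [← m2_sq x' hs] at hS
        exact absurd ⟨x', hx', hq, hS⟩ hx
  | v8 W q u =>
    exact hR _ (Or.inl (Or.inr ⟨(⟨0, hd⟩, true), rfl⟩)) _ _ _ rfl
  | z1 =>
    obtain ⟨y, hy⟩ := D.M.ne (D.cv 0) 0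
    exact D.m2_t hno ⟨y, rfl⟩ (D.leaf_aZ y) (Or.inl hy)
  | z2 x y =>
    have h1 := D.m2_f hno (Or.inl rfl) (D.leaf_aZ x)
    have h2 := D.m2_f hno (Or.inr (Or.inl rfl)) (D.leaf_aZ y)
    exact D.m2_t hno (Or.inr (Or.inr rfl)) (D.leaf_aE x y) (D.m2_pE (m2_zero hL) h1 h2)
  | z3 x y =>
    have h1 := D.m2_f hno (Or.inl rfl) (D.leaf_aZ x)
    have h2 := D.m2_f hno (Or.inr (Or.inl rfl)) (D.leaf_aE x y)
    exact D.m2_t hno (Or.inr (Or.inr rfl)) (D.leaf_aZ y) ((h2 0 (m2_zero hL)).1 h1)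

end Dat

end Pool.Agent.H42.CS
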