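import Pool.Agent.H42.CS.Mo2

/-!
# The clauses are true in the model II: rp, rn, r5

* rp, rn: `Y := csp ∅`. If there is `y` with `pJ a q y` (resp. `pJ a y q`), that member is true.
  Otherwise `aR (a, true) q u` is false at every world: `isE (ed x (a, true))` with
  `q ∈ blk (cv x)` gives `pJ a q y` for `y` in the cell of `x + un a` (`ed x (a, true) = (x, a)`); for
  `(a, false)`: `ed x (a, false) = (x - un a, a)`, `y` in the cell of `x - un a`.
* r5: if `¬ pJ a q q'`: the first member (`Y := csp ∅`). Otherwise `q ∈ blk (cv x)`,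
  `q' ∈ blk (cv (x + un a))`; `ed x (a, true) = ed (x + un a) (a, false)` and
  `sq x (a, true) t = sq (x + un a) (a, false) t` (`sq_shift`), so
  `pR (a, true) q u f' ↔ pR (a, false) q' u f'` for every `f'`. Take `Y := csp s` with `s` the set of the
  cells `i` with `∃ t, u t ∈ blk i` (at most `Fintype.card (Slot d) ≤ k8 d`; `t ↦ s(t, t)` is
  injective; every point is in at most one cell). If `pR (a, b) (…) u f` is false then it is false at every
  `f'` that agrees with `f` on `Y`: if the labels are legal, `ye L j (ed x σ)` is supported on the cells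
  `j (sq x σ t)` (`ye_supp`), so it is in `Y` and in `D`, and `f'` has the same value there; if they
  are not legal it is false at every world. If it is true at `f` then so is the third member at `f`, and at
  every `f'` that agrees with `f` on `Y`.
-/

set_option autoImplicit false

namespace Pool.Agent.H42.CS

namespace Dat

variable {d L r : ℕ} {P : Type} (D : Dat d L r P)

/-- Legal labels: the vector of the edge is supported on the cells of the labels. -/
theorem ye_csp {x : Pt d} {σ : Slot d} (hx : inB L x) (he : isE L (ed x σ)) {u : Slot d → P}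
    (hu : ∀ t, isS L (sq x σ t) → u t ∈ D.blk (D.j (sq x σ t))) (s : Finset (Fin r))
    (hs : ∀ i t, u t ∈ D.blk i → i ∈ s) : ye L D.j (ed x σ) ∈ csp s ∧
      ye L D.j (ed x σ) ∈ D.g.D := by
  refine ⟨fun k hk => ?_, D.ye_mem _ he⟩
  by_contra hne
  obtain ⟨t, ht, hkt⟩ := ye_supp L D.j D.j_inj x σ hx he k hne
  exact hk (hs k t (by rw [hkt]; exact hu t ht))

private theorem slot_le (d : ℕ) : Fintype.card (Slot d) ≤ k8 d :=
  Fintype.card_le_of_injective (fun t : Slot d => s(t, t)) (fun a b h => by
    simpa using h)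

open Classical in
/-- The truth of the value of the edge `(x, a)`, relative to `u`. -/
private def pQ (x : Pt d) (a : Fin d) (u : Slot d → P) (f : Wd (Fin r)) : Prop :=
  (∀ t, isS L (sq x (a, true) t) → u t ∈ D.blk (D.j (sq x (a, true) t))) ∧
    f (ye L D.j (ed x (a, true))) + D.c (ed x (a, true)) +
      (∑ t : Slot d, if isS L (sq x (a, true) t) then D.bit (u t) else 0) = 1

private theorem pR_true {x : Pt d} {a : Fin d} {q : P} (he : isE L (x, a)) (hq : q ∈ D.blk (D.cv x))
    (u : Slot d → P) (f : Wd (Fin r)) : D.pR (a, true) q u f ↔ D.pQ x a u f := by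
  have h3 := (sq_shift x a (a, true)).2.2
  constructor
  · rintro ⟨x', hx', hq', he', hu, h1⟩
    have e := D.vert_unique hx' he.1 hq' hq
    subst e
    exact ⟨hu, h1⟩
  · rintro ⟨hu, h1⟩
    exact ⟨x, he.1, hq, by rw [h3]; exact he, hu, h1⟩

open Classical in
private theorem pR_false {x : Pt d} {a : Fin d} {q : P} (he : isE L (x, a)) (hq : q ∈ D.blk (D.cv (x + un a)))
    (u : Slot d → P) (f : Wd (Fin r)) : D.pR (a, false) q u f ↔ D.pQ x a u f := by
  have h3 := (sq_shift x a (a, true)).2.2
  have h2 := (sq_shift x a (a, true)).2.1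
  have h1' : ∀ t, sq (x + un a) (a, false) t = sq x (a, true) t := fun t => (sq_shift x a t).1
  have h4 : (∑ t : Slot d, if isS L (sq (x + un a) (a, false) t) then D.bit (u t) else 0) =
      ∑ t : Slot d, if isS L (sq x (a, true) t) then D.bit (u t) else 0 :=
    Finset.sum_congr rfl fun t _ => by rw [h1' t]
  constructor
  · rintro ⟨x', hx', hq', he', hu, h1⟩
    have e := D.vert_unique hx' he.2 hq' hq
    subst e
    simp only [h1'] at hu
    rw [h4, h2] at h1
    exact ⟨hu, h1⟩
  · rintro ⟨hu, h1⟩
    refine ⟨x + un a, he.2, hq, by rw [h2, h3]; exact he, ?_, ?_⟩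
    · simp only [h1']
      exact hu
    · rw [h4, h2]
      exact h1

/-- The clauses rp, rn, r5. -/
theorem ins_ok_mid (hL : 0 < L) (fam : Set (Submodule (ZMod 2) (Fin r → ZMod 2)))
    (hfam : ∀ s : Finset (Fin r), s.card ≤ k8 d → csp s ∈ fam) (a : Fin d) (b : Bool)
    (q q' : P) (u : Slot d → P) :
    ClOK D.g D.leaf fam ({(aR (a, true) q u, false)} ∪ {x | ∃ y, x = (aJ a q y, true)}) ∧
    ClOK D.g D.leaf fam ({(aR (a, false) q u, false)} ∪ {x | ∃ y, x = (aJ a y q, true)}) ∧
    ClOK D.g D.leaf fam {(aJ a q q', false), (aR (a, b) (if b then q else q') u, false),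
        (aR (a, !b) (if b then q' else q) u, true)} := by
  classical
  have h0 : csp (∅ : Finset (Fin r)) ∈ fam := hfam ∅ (by simp)
  refine ⟨⟨csp ∅, h0, fun U f _ _ _ => ?_⟩, ⟨csp ∅, h0, fun U f _ _ _ => ?_⟩, ?_⟩
  · by_cases h : ∃ y, D.pJ a q y
    · obtain ⟨y, hy⟩ := h
      refine ⟨(aJ a q y, true), Or.inr ⟨y, rfl⟩, fun f' _ => ?_⟩
      rw [D.leaf_aJ]
      exact iff_of_true hy rfl
    · refine ⟨(aR (a, true) q u, false), Or.inl rfl, fun f' _ => ?_⟩
      rw [D.leaf_aR]
      refine iff_of_false ?_ (by simp)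
      rintro ⟨x, hx, hq, he, -⟩
      rw [(sq_shift x a (a, true)).2.2] at he
      obtain ⟨y, hy⟩ := D.M.ne (D.cv (x + un a)) 0
      exact h ⟨y, x, he, hq, Or.inl hy⟩
  · by_cases h : ∃ y, D.pJ a y q
    · obtain ⟨y, hy⟩ := h
      refine ⟨(aJ a y q, true), Or.inr ⟨y, rfl⟩, fun f' _ => ?_⟩
      rw [D.leaf_aJ]
      exact iff_of_true hy rfl
    · refine ⟨(aR (a, false) q u, false), Or.inl rfl, fun f' _ => ?_⟩
      rw [D.leaf_aR]
      refine iff_of_false ?_ (by simp)
      rintro ⟨x, hx, hq, he, -⟩
      obtain ⟨x', rfl⟩ : ∃ x', x = x' + un a := ⟨x - un a, by rw [sub_add_cancel]⟩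
      rw [(sq_shift x' a (a, true)).2.1, (sq_shift x' a (a, true)).2.2] at he
      obtain ⟨y, hy⟩ := D.M.ne (D.cv x') 0
      exact h ⟨y, x', he, Or.inl hy, hq⟩
  · by_cases hJ : D.pJ a q q'
    · obtain ⟨x, he, hq, hq'⟩ := hJ
      have k1 : ∀ f', D.leaf (aR (a, b) (if b then q else q') u) f' ↔ D.pQ x a u f' := by
        intro f'
        rw [D.leaf_aR]
        cases b
        · exact D.pR_false he hq' u f'
        · exact D.pR_true he hq u f'
      have k2 : ∀ f', D.leaf (aR (a, !b) (if b then q' else q) u) f' ↔ D.pQ x a u f' := by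
        intro f'
        rw [D.leaf_aR]
        cases b
        · exact D.pR_true he hq u f'
        · exact D.pR_false he hq' u f'
      let s : Finset (Fin r) := (Finset.univ : Finset (Slot d)).image
        (fun t => if h : ∃ i, u t ∈ D.blk i then h.choose else D.cv 0)
      have hs : ∀ i t, u t ∈ D.blk i → i ∈ s := by
        intro i t hit
        have h : ∃ i, u t ∈ D.blk i := ⟨i, hit⟩
        refine Finset.mem_image.2 ⟨t, Finset.mem_univ _, ?_⟩
        rw [dif_pos h]
        exact D.blk_disj h.choose_spec hit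
      have hsc : s.card ≤ k8 d := by
        refine le_trans Finset.card_image_le ?_
        rw [Finset.card_univ]
        exact slot_le d
      have hed : isE L (ed x (a, true)) := by
        rw [(sq_shift x a (a, true)).2.2]
        exact he
      have key : ∀ f f' : Wd (Fin r), D.g.Agr (csp s) f f' → (D.pQ x a u f ↔ D.pQ x a u f') := by
        intro f f' hff
        have k3 : (∀ t, isS L (sq x (a, true) t) → u t ∈ D.blk (D.j (sq x (a, true) t))) →
            f (ye L D.j (ed x (a, true))) = f' (ye L D.j (ed x (a, true))) := by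
          intro hu
          have h1 := D.ye_csp he.1 hed hu s hs
          exact hff _ h1.1 h1.2
        constructor
        · rintro ⟨hu, h1⟩
          exact ⟨hu, by rw [← k3 hu]; exact h1⟩
        · rintro ⟨hu, h1⟩
          exact ⟨hu, by rw [k3 hu]; exact h1⟩
      refine ⟨csp s, hfam s hsc, fun U f _ _ _ => ?_⟩
      by_cases hf : D.pQ x a u f
      · refine ⟨(aR (a, !b) (if b then q' else q) u, true), by simp, fun f' hff => ?_⟩
        show D.leaf (aR (a, !b) (if b then q' else q) u) f' ↔ true = true
        rw [k2]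
        exact iff_of_true ((key f f' hff).1 hf) rfl
      · refine ⟨(aR (a, b) (if b then q else q') u, false), by simp, fun f' hff => ?_⟩
        show D.leaf (aR (a, b) (if b then q else q') u) f' ↔ false = true
        rw [k1]
        exact iff_of_false (fun h => hf ((key f f' hff).2 h)) (by simp)
    · refine ⟨csp ∅, h0, fun U f _ _ _ => ⟨(aJ a q q', false), by simp, fun f' _ => ?_⟩⟩
      show D.leaf (aJ a q q') f' ↔ false = true
      rw [D.leaf_aJ]
      exact iff_of_false hJ (by simp)

end Dat

end Pool.Agent.H42.CS
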