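import Pool.Agent.H42.CS.Mo3

/-!
# The clauses are true in the model III: the clause of a vertex

* v8: `Y := csp s`, `s` the set of the cells `i` with `∃ τ, u τ ∈ blk i` (at most
  `Fintype.card (Sym2 (Slot d)) = k8 d`). Let `U ≥ Y` be tame, `f` a world on `U`. If `pF τ q (u τ)` fails
  for some `τ`: this member. Otherwise: if `q` is idle (in no `blk (cv x)`, `inB x`): all `pR σ q _ _` are
  false and `pZ q` is false (as `inB 0`); so if the pattern `W` has an element `σ`, the member
  `(aR σ q _, false)` is true; if `W = ∅` then `decide (¬ Even 0) = false` and `(aZ q, false)` is true. If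
  `q ∈ blk (cv x)`: the labels `u s(σ, t)` are legal (`pF`), so with `ū σ t := u s(σ, t)`:
  `pR σ q (ū σ) f ↔ isE (ed x σ) ∧ f (ye …) + c (…) + ∑ t, … = 1`. Let `ρ σ : ZMod 2` be 1 if
  `pR σ q (ū σ) f` and 0 otherwise. `∑ σ, ρ σ = ∑ σ, (if isE then f (ye) + c else 0) + ∑ σ, ∑ t,
  (if isE (ed x σ) ∧ isS (sq x σ t) then bit (u s(σ, t)) else 0)`; `isS (sq x σ t)` implies
  `isE (ed x σ)` (for `x` in the box), so the double sum is a sum over ordered pairs `(σ, t)` of a
  symmetric function that vanishes on the diagonal (`sq x σ t = sq x t σ`, `isS` is false if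
  `σ.1 = t.1`): it is 0 (`Finset.sum_involution` with `Prod.swap`). So by `D.law`
  (`ye L j (ed x σ) ∈ Y ≤ U`, `ye_csp`) `∑ σ, ρ σ = [x = 0] = [pZ q]` (`pZ q ↔ x = 0` by
  `vert_unique`). Hence the pattern `W` (which would give `∑ σ, ρ σ = W.card` and
  `pZ q ↔ Even W.card`) is not the actual one, so some member `(aR σ q (ū σ), decide (σ ∉ W))` or
  `(aZ q, decide (¬ Even W.card))` is true at `f`, and (for `aR`: as in Mo3) at every `f'` that agrees with
  `f` on `Y`.
* `ins_ok`: cases on `Ins`; er … z3 without `aR` by `ins_ok_easy` with `Y := csp ∅` (their members are not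
  `aR`: different symbols), rp, rn, r5 by `ins_ok_mid`, v8 by `ins_ok_v8`.
-/

set_option autoImplicit false

namespace Pool.Agent.H42.CS

namespace Dat

variable {d L r : ℕ} {P : Type} (D : Dat d L r P)

private theorem sq_cm (x : Pt d) (σ t : Slot d) : sq x σ t = sq x t σ := by
  unfold sq
  rw [add_right_comm, min_comm, max_comm]

private theorem sq_sf (x : Pt d) (σ : Slot d) : ¬ isS L (sq x σ σ) := by
  rintro ⟨h, -, -⟩
  simp [sq] at h

private theorem off_at (t : Slot d) {i : Fin d} (h : i ≠ t.1) : off t i = 0 := by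
  unfold off
  split_ifs
  · rfl
  · rw [Pi.neg_apply, un, Pi.single_eq_of_ne h, neg_zero]

private theorem isE_of_isS {x : Pt d} (hx : inB L x) {σ t : Slot d} (h : isS L (sq x σ t)) :
    isE L (ed x σ) := by
  obtain ⟨h1, h2, h3⟩ := h
  have hne : σ.1 ≠ t.1 := by
    intro h
    simp [sq, h] at h1
  have hun : ∀ i, un (sq x σ t).2.1 i + un (sq x σ t).2.2 i = un σ.1 i + un t.1 i := by
    intro i
    simp only [sq]
    rcases le_total σ.1 t.1 with h4 | h4
    · rw [min_eq_left h4, max_eq_right h4]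
    · rw [min_eq_right h4, max_eq_left h4, add_comm]
  have h2' : ∀ i, 0 ≤ x i + off σ i + off t i ∧ x i + off σ i + off t i < L := h2
  have h3' : ∀ i, 0 ≤ x i + off σ i + off t i + un (sq x σ t).2.1 i + un (sq x σ t).2.2 i ∧
      x i + off σ i + off t i + un (sq x σ t).2.1 i + un (sq x σ t).2.2 i < L := h3
  constructor
  · intro i
    change 0 ≤ x i + off σ i ∧ x i + off σ i < L
    by_cases hi : i = σ.1
    · have h4 := h2' i
      rw [off_at t (by rw [hi]; exact hne), add_zero] at h4
      exact h4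
    · rw [off_at σ hi, add_zero]
      exact hx i
  · intro i
    change 0 ≤ x i + off σ i + un σ.1 i ∧ x i + off σ i + un σ.1 i < L
    by_cases hi : i = σ.1
    · have h4 := h3' i
      have h5 := hun i
      have h6 : un t.1 i = 0 := by
        rw [un, Pi.single_eq_of_ne (by rw [hi]; exact hne)]
      rw [off_at t (by rw [hi]; exact hne)] at h4
      rw [h6] at h5
      constructor <;> omega
    · rw [off_at σ hi, un, Pi.single_eq_of_ne hi, add_zero, add_zero]
      exact hx i

private theorem zin (hL : 0 < L) : inB L (0 : Pt d) := fun i =>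
  ⟨le_rfl, show (0 : ℤ) < L by exact_mod_cast hL⟩

open Classical in
private theorem dbl_sum (x : Pt d) (b : Sym2 (Slot d) → ZMod 2) :
    ∑ σ : Slot d, ∑ t : Slot d, (if isS L (sq x σ t) then b s(σ, t) else 0) = 0 := by
  rw [← Fintype.sum_prod_type' (f := fun σ t : Slot d => if isS L (sq x σ t) then b s(σ, t) else 0)]
  refine Finset.sum_involution (fun p _ => p.swap) ?_ ?_ (fun _ _ => Finset.mem_univ _)
    (fun p _ => p.swap_swap)
  · intro p _
    simp only [Prod.fst_swap, Prod.snd_swap]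
    rw [sq_cm x p.2 p.1, Sym2.eq_swap]
    exact CharTwo.add_self_eq_zero _
  · intro p _ hp he
    apply hp
    have h1 : p.1 = p.2 := by
      have h2 := congrArg Prod.snd he
      exact h2
    rw [if_neg]
    rw [h1]
    exact sq_sf x p.2

private theorem pR_mono {σ : Slot d} {q : P} {u : Slot d → P} {f f' : Wd (Fin r)}
    (s : Finset (Fin r)) (hs : ∀ i t, u t ∈ D.blk i → i ∈ s)
    (h : ∀ y ∈ csp s, y ∈ D.g.D → f y = f' y) (hp : D.pR σ q u f) : D.pR σ q u f' := by
  obtain ⟨x, hx, hq, he, hl, h1⟩ := hp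
  obtain ⟨h2, h3⟩ := D.ye_csp hx he hl s hs
  exact ⟨x, hx, hq, he, hl, by rw [← h _ h2 h3]; exact h1⟩

open Classical in
private theorem pR_iff {σ : Slot d} {q : P} {u : Slot d → P} {x : Pt d} (hx : inB L x)
    (hq : q ∈ D.blk (D.cv x)) (hu : ∀ t, isS L (sq x σ t) → u t ∈ D.blk (D.j (sq x σ t)))
    (f : Wd (Fin r)) : (if D.pR σ q u f then (1 : ZMod 2) else 0) =
      (if isE L (ed x σ) then f (ye L D.j (ed x σ)) + D.c (ed x σ) else 0) +
      ∑ t : Slot d, (if isS L (sq x σ t) then D.bit (u t) else 0) := by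
  have h1 : D.pR σ q u f ↔ isE L (ed x σ) ∧ f (ye L D.j (ed x σ)) + D.c (ed x σ) +
      (∑ t : Slot d, if isS L (sq x σ t) then D.bit (u t) else 0) = 1 := by
    constructor
    · rintro ⟨x', hx', hq', he, hl, h⟩
      obtain rfl := D.vert_unique hx' hx hq' hq
      exact ⟨he, h⟩
    · rintro ⟨he, h⟩
      exact ⟨x, hx, hq, he, hu, h⟩
  by_cases he : isE L (ed x σ)
  · rw [if_pos he]
    have h2 : ∀ a : ZMod 2, (if a = 1 then (1 : ZMod 2) else 0) = a := by decide
    rw [← h2 (f (ye L D.j (ed x σ)) + D.c (ed x σ) + _)]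
    by_cases h3 : D.pR σ q u f
    · rw [if_pos h3, if_pos (h1.1 h3).2]
    · rw [if_neg h3, if_neg (fun h4 => h3 (h1.2 ⟨he, h4⟩))]
  · rw [if_neg he, if_neg (fun h => he (h1.1 h).1), zero_add]
    symm
    refine Finset.sum_eq_zero fun t _ => ?_
    rw [if_neg (fun h => he (isE_of_isS hx h))]

/-- The clause of a vertex. -/
theorem ins_ok_v8 (hL : 0 < L) (fam : Set (Submodule (ZMod 2) (Fin r → ZMod 2)))
    (hfam : ∀ s : Finset (Fin r), s.card ≤ k8 d → csp s ∈ fam) (W : Finset (Slot d)) (q : P)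
    (u : Sym2 (Slot d) → P) : ClOK D.g D.leaf fam (vcl W q u) := by
  classical
  obtain ⟨s, hs⟩ : ∃ s : Finset (Fin r), s = (Finset.univ : Finset (Sym2 (Slot d))).biUnion
      (fun τ => Finset.univ.filter fun i => u τ ∈ D.blk i) := ⟨_, rfl⟩
  have hcard : s.card ≤ k8 d := by
    have h1 := Finset.card_biUnion_le_card_mul (Finset.univ : Finset (Sym2 (Slot d)))
      (fun τ => Finset.univ.filter fun i : Fin r => u τ ∈ D.blk i) 1 (fun τ _ => by
        rw [Finset.card_le_one]
        intro i hi j hj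
        exact D.blk_disj (Finset.mem_filter.1 hi).2 (Finset.mem_filter.1 hj).2)
    rw [← hs, mul_one, Finset.card_univ] at h1
    exact h1
  have hs' : ∀ i τ, u τ ∈ D.blk i → i ∈ s := by
    intro i τ h
    rw [hs]
    exact Finset.mem_biUnion.2 ⟨τ, Finset.mem_univ _, Finset.mem_filter.2 ⟨Finset.mem_univ _, h⟩⟩
  refine ⟨csp s, hfam s hcard, fun U f hU hT hW => ?_⟩
  by_cases hF : ∃ τ, ¬ D.pF τ q (u τ)
  · obtain ⟨τ, hτ⟩ := hF
    refine ⟨(aF τ q (u τ), false), Or.inl (Or.inl ⟨τ, rfl⟩), fun f' _ => ?_⟩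
    rw [leaf_aF]
    simp [hτ]
  · push Not at hF
    by_contra hcon
    push Not at hcon
    have h1 : ∀ σ, (D.pR σ q (fun t => u s(σ, t)) f ↔ σ ∈ W) := by
      intro σ
      obtain ⟨f', hf', h2⟩ := hcon (aR σ q (fun t => u s(σ, t)), decide (σ ∉ W))
        (Or.inl (Or.inr ⟨σ, by congr⟩))
      rw [leaf_aR] at h2
      have h3 : D.pR σ q (fun t => u s(σ, t)) f' ↔ D.pR σ q (fun t => u s(σ, t)) f :=
        ⟨D.pR_mono s (fun i t h => hs' i _ h) (fun y hy hD => (hf' y hy hD).symm),
          D.pR_mono s (fun i t h => hs' i _ h) (fun y hy hD => hf' y hy hD)⟩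
      rw [h3] at h2
      simp only [ne_eq, decide_eq_true_eq] at h2
      tauto
    have h2 : D.pZ q ↔ Even W.card := by
      obtain ⟨f', hf', h2⟩ := hcon (aZ q, decide (¬ Even W.card)) (Or.inr (by
        rw [Set.mem_singleton_iff]))
      rw [leaf_aZ] at h2
      simp only [ne_eq, decide_eq_true_eq] at h2
      rcases h2 with ⟨a, b⟩ | ⟨a, b⟩
      · exact ⟨fun _ => not_not.1 b, fun _ => a⟩
      · exact ⟨fun h => absurd h a, fun h => absurd h b⟩
    by_cases hq : ∃ x, inB L x ∧ q ∈ D.blk (D.cv x)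
    · obtain ⟨x, hx, hq⟩ := hq
      have hl : ∀ σ t, isS L (sq x σ t) → u s(σ, t) ∈ D.blk (D.j (sq x σ t)) :=
        fun σ t h => hF s(σ, t) x σ t rfl hx hq h
      have law := D.law U f hT hW x hx (fun σ hσ =>
        hU (D.ye_csp (u := fun t => u s(σ, t)) hx hσ (fun t h => hl σ t h) s
          (fun i t h => hs' i _ h)).1)
      have h3 : ((W.card : ℕ) : ZMod 2) = if x = 0 then 1 else 0 := by
        rw [← law]
        have h4 : ((W.card : ℕ) : ZMod 2) = ∑ σ : Slot d, (if D.pR σ q (fun t => u s(σ, t)) f then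
            (1 : ZMod 2) else 0) := by
          rw [Finset.sum_congr rfl fun σ _ => if_congr (h1 σ) rfl rfl]
          rw [Finset.sum_ite_mem, Finset.univ_inter, Finset.sum_const, nsmul_eq_mul, mul_one]
        rw [h4, Finset.sum_congr rfl fun σ _ => D.pR_iff hx hq (fun t h => hl σ t h) f,
          Finset.sum_add_distrib, dbl_sum x (fun τ => D.bit (u τ)), add_zero]
      have h4 : x = 0 ↔ D.pZ q := by
        constructor
        · rintro rfl
          exact hq
        · intro h
          exact D.vert_unique hx (zin hL) hq h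
      by_cases hE : Even W.card
      · rw [(ZMod.natCast_eq_zero_iff_even).2 hE, if_pos (h4.2 (h2.2 hE))] at h3
        exact zero_ne_one h3
      · rw [if_neg (fun h => hE (h2.1 (h4.1 h)))] at h3
        exact hE ((ZMod.natCast_eq_zero_iff_even).1 h3)
    · push Not at hq
      have h3 : W = ∅ := by
        rw [Finset.eq_empty_iff_forall_notMem]
        intro σ hσ
        obtain ⟨x, hx, hqx, -⟩ := (h1 σ).2 hσ
        exact hq x hx hqx
      rw [h3] at h2
      exact hq 0 (zin hL) (h2.2 (by simp))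

private theorem nZ (q : P) (σ : Slot d) (q' : P) (u : Slot d → P) :
    (aZ q : Atom (Re d) P) ≠ aR σ q' u := by
  intro h
  have h2 : (Sy.Z : Sy d) = Sy.R σ := congrArg (fun v : Atom (Re d) P => v.2.1.1) h
  cases h2

private theorem nE (q q1 : P) (σ : Slot d) (q' : P) (u : Slot d → P) :
    (aE q q1 : Atom (Re d) P) ≠ aR σ q' u := by
  intro h
  have h2 : (Sy.E : Sy d) = Sy.R σ := congrArg (fun v : Atom (Re d) P => v.2.1.1) h
  cases h2

private theorem nJ (a : Fin d) (q q1 : P) (σ : Slot d) (q' : P) (u : Slot d → P) :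
    (aJ a q q1 : Atom (Re d) P) ≠ aR σ q' u := by
  intro h
  have h2 : (Sy.J a : Sy d) = Sy.R σ := congrArg (fun v : Atom (Re d) P => v.2.1.1) h
  cases h2

private theorem nF (τ : Sym2 (Slot d)) (q q1 : P) (σ : Slot d) (q' : P) (u : Slot d → P) :
    (aF τ q q1 : Atom (Re d) P) ≠ aR σ q' u := by
  intro h
  have h2 : (Sy.F τ : Sy d) = Sy.R σ := congrArg (fun v : Atom (Re d) P => v.2.1.1) h
  cases h2

theorem ins_ok (hd : 0 < d) (hL : 0 < L) (fam : Set (Submodule (ZMod 2) (Fin r → ZMod 2)))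
    (hfam : ∀ s : Finset (Fin r), s.card ≤ k8 d → csp s ∈ fam) [Nonempty P]
    {Λ : Set (Atom (Re d) P × Bool)} (h : Ins Λ) : ClOK D.g D.leaf fam Λ := by
  have easy : (∀ x ∈ Λ, ∀ σ q u, x.1 ≠ aR σ q u) → ClOK D.g D.leaf fam Λ := by
    intro hR
    obtain ⟨x, hx, h1⟩ := D.ins_ok_easy hd hL h hR
    exact ⟨csp ∅, hfam ∅ (Nat.zero_le _), fun U f _ _ _ => ⟨x, hx, fun f' _ => h1 f'⟩⟩
  cases h with
  | er x =>
    apply easy
    intro y hy
    simp only [Set.mem_singleton_iff] at hy
    subst hy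
    exact nE _ _
  | es x y =>
    apply easy
    intro z hz
    simp only [Set.mem_insert_iff, Set.mem_singleton_iff] at hz
    rcases hz with rfl | rfl
    · exact nE _ _
    · exact nE _ _
  | et x y z =>
    apply easy
    intro v hv
    simp only [Set.mem_insert_iff, Set.mem_singleton_iff] at hv
    rcases hv with rfl | rfl | rfl
    · exact nE _ _
    · exact nE _ _
    · exact nE _ _
  | jf a x y z =>
    apply easy
    intro v hv
    simp only [Set.mem_insert_iff, Set.mem_singleton_iff] at hv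
    rcases hv with rfl | rfl | rfl
    · exact nJ _ _ _
    · exact nJ _ _ _
    · exact nE _ _
  | ji a x y z =>
    apply easy
    intro v hv
    simp only [Set.mem_insert_iff, Set.mem_singleton_iff] at hv
    rcases hv with rfl | rfl | rfl
    · exact nJ _ _ _
    · exact nJ _ _ _
    · exact nE _ _
  | je a x y x' y' =>
    apply easy
    intro v hv
    simp only [Set.mem_insert_iff, Set.mem_singleton_iff] at hv
    rcases hv with rfl | rfl | rfl | rfl
    · exact nJ _ _ _
    · exact nE _ _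
    · exact nE _ _
    · exact nJ _ _ _
  | rp a q u => exact (D.ins_ok_mid hL fam hfam a true q q u).1
  | rn a q u => exact (D.ins_ok_mid hL fam hfam a true q q u).2.1
  | r5 a b q q' u => exact (D.ins_ok_mid hL fam hfam a b q q' u).2.2
  | f6 a t b q q' u =>
    apply easy
    intro v hv
    simp only [Set.mem_insert_iff, Set.mem_singleton_iff] at hv
    rcases hv with rfl | rfl | rfl
    · exact nJ _ _ _
    · exact nF _ _ _
    · exact nF _ _ _
  | f7 τ q =>
    apply easy
    rintro v ⟨u, rfl⟩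
    exact nF _ _ _
  | v8 W q u => exact D.ins_ok_v8 hL fam hfam W q u
  | z1 =>
    apply easy
    rintro v ⟨u, rfl⟩
    exact nZ _
  | z2 x y =>
    apply easy
    intro v hv
    simp only [Set.mem_insert_iff, Set.mem_singleton_iff] at hv
    rcases hv with rfl | rfl | rfl
    · exact nZ _
    · exact nZ _
    · exact nE _ _
  | z3 x y =>
    apply easy
    intro v hv
    simp only [Set.mem_insert_iff, Set.mem_singleton_iff] at hv
    rcases hv with rfl | rfl | rfl
    · exact nZ _
    · exact nE _ _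
    · exact nZ _

end Dat

end Pool.Agent.H42.CS
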