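import Pool.Agent.H42.CS.Axs
import Pool.Agent.H42.CS.GGad
import Pool.Agent.H42.CS.Wor

/-!
# The model: atoms at worlds

A vertex `x` of the grid is represented by the points of the cell `cv x`, a square `s` of the grid by
the points of the cell `j s` (with a bit: the half); all other points are idle.

PROOF of `leaf_loc`: the truth of an atom depends on the world only for `aR σ q u`, and there only
through `f (ye L j (ed x σ))` with `q` in the cell of `x` and `u t` in the cell `j (sq x σ t)` for all `t`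
with `isS` (otherwise the atom is false at every world). This vector is in `g.D` (`ye_mem`) and in
`Vs pr (stA ρ v)`: if `g' ∈ H` fixes all `u t`, then `pr g' (j (sq x σ t)) = 0` for these `t` (`M.map`
and disjointness of the halves: `u t ∈ C i b` and `u t = g' (u t) ∈ C i (b + pr g' i)`), so
`pr g' ⬝ᵥ ye = 0` by `ye_dot`.

PROOF of `leaf_equi`: the cells are `H`-invariant (`M.map`: `g' '' blk i = blk i`, so
`g' q ∈ blk i ↔ q ∈ blk i`); so all conditions about cells are invariant (replace `u t` by `g' (u t)`).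
For `aR`: `(sh (pr g') f) (ye …) = f (ye …) + pr g' ⬝ᵥ ye …`, `pr g' ⬝ᵥ ye = ∑ t, if isS then
pr g' (j (sq x σ t)) else 0` (`ye_dot`), and `bit (g' (u t)) = bit (u t) + pr g' (j (sq x σ t))` for
`u t ∈ blk (j (sq x σ t))` (`bit_map`); the two sums cancel in characteristic 2. The atom `mapA (ρ g') v`
of a concrete atom: `map_aZ` and so on (`mapA f = Atom.map f` by `rfl`). Every atom is one of the
concrete ones (`atom_cases`).
-/

set_option autoImplicit false

namespace Pool.Agent.H42.CS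

/-- The data of the model. -/
structure Dat (d L r : ℕ) (P : Type) where
  /-- the cells -/
  M : Cells P r
  /-- the cells of the vertices -/
  cv : Pt d → Fin r
  cv_inj : Set.InjOn cv {x | inB L x}
  /-- the cells of the squares -/
  j : Sq d → Fin r
  j_inj : Set.InjOn j {s | isS L s}
  cv_ne : ∀ x s, inB L x → isS L s → cv x ≠ j s
  /-- the gadget -/
  g : Gad (Fin r)
  /-- the constants of the edges -/
  c : Ed d → ZMod 2
  ye_mem : ∀ e, isE L e → ye L j e ∈ g.D
  law : ∀ (U : Submodule (ZMod 2) (Fin r → ZMod 2)) (f : Wd (Fin r)), g.Tame U → g.IsW U f →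
    ∀ x : Pt d, inB L x → (∀ σ : Slot d, isE L (ed x σ) → ye L j (ed x σ) ∈ U) →
      (open Classical in (∑ σ : Slot d, if isE L (ed x σ) then
        f (ye L j (ed x σ)) + c (ed x σ) else 0) = if x = 0 then 1 else 0)

namespace Dat

variable {d L r : ℕ} {P : Type} (D : Dat d L r P)

/-- The block of a cell: the union of its halves. -/
def blk (i : Fin r) : Set P := D.M.C i 0 ∪ D.M.C i 1

open Classical in
/-- The bit of a point: its half. -/
noncomputable def bit (u : P) : ZMod 2 := if ∃ i, u ∈ D.M.C i 1 then 1 else 0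

/-- The truth of `Z q`. -/
def pZ (q : P) : Prop := q ∈ D.blk (D.cv 0)

/-- The truth of `E q q'`: the same vertex, or both idle. -/
def pE (q q' : P) : Prop := ∀ x, inB L x → (q ∈ D.blk (D.cv x) ↔ q' ∈ D.blk (D.cv x))

/-- The truth of `J a q q'`. -/
def pJ (a : Fin d) (q q' : P) : Prop :=
  ∃ x, isE L (x, a) ∧ q ∈ D.blk (D.cv x) ∧ q' ∈ D.blk (D.cv (x + un a))

/-- The truth of `F τ q u`. -/
def pF (τ : Sym2 (Slot d)) (q u : P) : Prop :=
  ∀ (x : Pt d) (σ t : Slot d), τ = s(σ, t) → inB L x → q ∈ D.blk (D.cv x) →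
    isS L (sq x σ t) → u ∈ D.blk (D.j (sq x σ t))

open Classical in
/-- The truth of `R σ q u` at the world `f`. -/
def pR (σ : Slot d) (q : P) (u : Slot d → P) (f : Wd (Fin r)) : Prop :=
  ∃ x, inB L x ∧ q ∈ D.blk (D.cv x) ∧ isE L (ed x σ) ∧
    (∀ t, isS L (sq x σ t) → u t ∈ D.blk (D.j (sq x σ t))) ∧
    f (ye L D.j (ed x σ)) + D.c (ed x σ) +
      (∑ t : Slot d, if isS L (sq x σ t) then D.bit (u t) else 0) = 1

/-- The truth of an atom at a world. -/
def leaf (v : Atom (Re d) P) (f : Wd (Fin r)) : Prop :=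
  (∃ q, v = aZ q ∧ D.pZ q) ∨ (∃ q q', v = aE q q' ∧ D.pE q q') ∨
    (∃ a q q', v = aJ a q q' ∧ D.pJ a q q') ∨ (∃ τ q u, v = aF τ q u ∧ D.pF τ q u) ∨
    ∃ σ q u, v = aR σ q u ∧ D.pR σ q u f

/-! ### Helper facts about the atoms -/

private def mdSym (v : Atom (Re d) P) : Sy d := v.2.1.1

private theorem md_inj {r : ℕ} {s s' : Re d r} {w w' : Fin r → P}
    (h : (⟨r, s, w⟩ : Atom (Re d) P) = ⟨r, s', w'⟩) : s = s' ∧ w = w' := by
  rw [Sigma.mk.injEq] at h
  have h2 := eq_of_heq h.2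
  rw [Prod.mk.injEq] at h2
  exact h2

private theorem aZ_inj {q q' : P} (h : (aZ q : Atom (Re d) P) = aZ q') : q = q' := by
  have h1 := (md_inj h).2
  exact congrFun h1 0

private theorem aE_inj {q q' u u' : P} (h : (aE q u : Atom (Re d) P) = aE q' u') :
    q = q' ∧ u = u' := by
  have h1 := (md_inj h).2
  exact ⟨congrFun h1 0, congrFun h1 1⟩

private theorem aJ_inj {a a' : Fin d} {q q' u u' : P} (h : aJ a q u = aJ a' q' u') :
    a = a' ∧ q = q' ∧ u = u' := by
  have h1 := (md_inj h).2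
  have h2 : Sy.J a = Sy.J a' := congrArg mdSym h
  rw [Sy.J.injEq] at h2
  exact ⟨h2, congrFun h1 0, congrFun h1 1⟩

private theorem aF_inj {τ τ' : Sym2 (Slot d)} {q q' u u' : P} (h : aF τ q u = aF τ' q' u') :
    τ = τ' ∧ q = q' ∧ u = u' := by
  have h1 := (md_inj h).2
  have h2 : Sy.F τ = Sy.F τ' := congrArg mdSym h
  rw [Sy.F.injEq] at h2
  exact ⟨h2, congrFun h1 0, congrFun h1 1⟩

private theorem aR_inj {σ σ' : Slot d} {q q' : P} {u u' : Slot d → P}
    (h : aR σ q u = aR σ' q' u') : σ = σ' ∧ q = q' ∧ u = u' := by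
  have h1 := (md_inj h).2
  have h2 : Sy.R σ = Sy.R σ' := congrArg mdSym h
  rw [Sy.R.injEq] at h2
  refine ⟨h2, ?_, ?_⟩
  · have h3 := congrFun h1 (Fintype.equivFin (Option (Slot d)) none)
    simpa using h3
  · funext t
    have h3 := congrFun h1 (Fintype.equivFin (Option (Slot d)) (some t))
    simpa using h3

theorem atom_cases (v : Atom (Re d) P) : (∃ q, v = aZ q) ∨ (∃ q q', v = aE q q') ∨
    (∃ a q q', v = aJ a q q') ∨ (∃ τ q u, v = aF τ q u) ∨ ∃ σ q u, v = aR σ q u := by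
  obtain ⟨r, ⟨s, hs⟩, w⟩ := v
  subst hs
  have h2 : ∀ w : Fin 2 → P, w = ![w 0, w 1] := by
    intro w
    funext i
    fin_cases i <;> rfl
  cases s with
  | Z =>
    refine Or.inl ⟨w (0 : Fin 1), ?_⟩
    have h1 : ∀ w : Fin 1 → P, w = ![w 0] := by
      intro w
      funext i
      fin_cases i
      rfl
    unfold aZ
    exact congrArg (fun w' : Fin 1 → P =>
      (⟨1, ⟨Sy.Z, rfl⟩, w'⟩ : Atom (Re d) P)) (h1 w)
  | E =>
    refine Or.inr (Or.inl ⟨w (0 : Fin 2), w (1 : Fin 2), ?_⟩)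
    unfold aE
    exact congrArg (fun w' : Fin 2 → P =>
      (⟨2, ⟨Sy.E, rfl⟩, w'⟩ : Atom (Re d) P)) (h2 w)
  | J a =>
    refine Or.inr (Or.inr (Or.inl ⟨a, w (0 : Fin 2), w (1 : Fin 2), ?_⟩))
    unfold aJ
    exact congrArg (fun w' : Fin 2 → P =>
      (⟨2, ⟨Sy.J a, rfl⟩, w'⟩ : Atom (Re d) P)) (h2 w)
  | F τ =>
    refine Or.inr (Or.inr (Or.inr (Or.inl ⟨τ, w (0 : Fin 2), w (1 : Fin 2), ?_⟩)))
    unfold aF
    exact congrArg (fun w' : Fin 2 → P =>
      (⟨2, ⟨Sy.F τ, rfl⟩, w'⟩ : Atom (Re d) P)) (h2 w)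
  | R σ =>
    refine Or.inr (Or.inr (Or.inr (Or.inr ⟨σ,
      w (Fintype.equivFin (Option (Slot d)) none),
      fun t => w (Fintype.equivFin (Option (Slot d)) (some t)), ?_⟩)))
    unfold aR
    refine congrArg (fun w' : Fin (Fintype.card (Option (Slot d))) → P =>
      (⟨Fintype.card (Option (Slot d)), ⟨Sy.R σ, rfl⟩, w'⟩ : Atom (Re d) P)) ?_
    funext i
    obtain ⟨o, rfl⟩ := (Fintype.equivFin (Option (Slot d))).surjective i
    rw [Equiv.symm_apply_apply]
    cases o <;> rfl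

theorem leaf_aZ (q : P) (f : Wd (Fin r)) : D.leaf (aZ q) f ↔ D.pZ q := by
  constructor
  · rintro (⟨q', h, hp⟩ | ⟨_, _, h, _⟩ | ⟨_, _, _, h, _⟩ | ⟨_, _, _, h, _⟩ | ⟨_, _, _, h, _⟩)
    · rw [aZ_inj h]
      exact hp
    · exact absurd (show (Sy.Z : Sy d) = Sy.E from congrArg mdSym h) (by simp)
    · exact absurd (show (Sy.Z : Sy d) = Sy.J _ from congrArg mdSym h) (by simp)
    · exact absurd (show (Sy.Z : Sy d) = Sy.F _ from congrArg mdSym h) (by simp)
    · exact absurd (show (Sy.Z : Sy d) = Sy.R _ from congrArg mdSym h) (by simp)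
  · intro h
    exact Or.inl ⟨q, rfl, h⟩

theorem leaf_aE (q q' : P) (f : Wd (Fin r)) : D.leaf (aE q q') f ↔ D.pE q q' := by
  constructor
  · rintro (⟨_, h, _⟩ | ⟨_, _, h, hp⟩ | ⟨_, _, _, h, _⟩ | ⟨_, _, _, h, _⟩ | ⟨_, _, _, h, _⟩)
    · exact absurd (show (Sy.E : Sy d) = Sy.Z from congrArg mdSym h) (by simp)
    · rw [(aE_inj h).1, (aE_inj h).2]
      exact hp
    · exact absurd (show (Sy.E : Sy d) = Sy.J _ from congrArg mdSym h) (by simp)
    · exact absurd (show (Sy.E : Sy d) = Sy.F _ from congrArg mdSym h) (by simp)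
    · exact absurd (show (Sy.E : Sy d) = Sy.R _ from congrArg mdSym h) (by simp)
  · intro h
    exact Or.inr (Or.inl ⟨q, q', rfl, h⟩)

theorem leaf_aJ (a : Fin d) (q q' : P) (f : Wd (Fin r)) :
    D.leaf (aJ a q q') f ↔ D.pJ a q q' := by
  constructor
  · rintro (⟨_, h, _⟩ | ⟨_, _, h, _⟩ | ⟨_, _, _, h, hp⟩ | ⟨_, _, _, h, _⟩ | ⟨_, _, _, h, _⟩)
    · exact absurd (show (Sy.J a : Sy d) = Sy.Z from congrArg mdSym h) (by simp)
    · exact absurd (show (Sy.J a : Sy d) = Sy.E from congrArg mdSym h) (by simp)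
    · rw [(aJ_inj h).1, (aJ_inj h).2.1, (aJ_inj h).2.2]
      exact hp
    · exact absurd (show (Sy.J a : Sy d) = Sy.F _ from congrArg mdSym h) (by simp)
    · exact absurd (show (Sy.J a : Sy d) = Sy.R _ from congrArg mdSym h) (by simp)
  · intro h
    exact Or.inr (Or.inr (Or.inl ⟨a, q, q', rfl, h⟩))

theorem leaf_aF (τ : Sym2 (Slot d)) (q u : P) (f : Wd (Fin r)) :
    D.leaf (aF τ q u) f ↔ D.pF τ q u := by
  constructor
  · rintro (⟨_, h, _⟩ | ⟨_, _, h, _⟩ | ⟨_, _, _, h, _⟩ | ⟨_, _, _, h, hp⟩ | ⟨_, _, _, h, _⟩)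
    · exact absurd (show (Sy.F τ : Sy d) = Sy.Z from congrArg mdSym h) (by simp)
    · exact absurd (show (Sy.F τ : Sy d) = Sy.E from congrArg mdSym h) (by simp)
    · exact absurd (show (Sy.F τ : Sy d) = Sy.J _ from congrArg mdSym h) (by simp)
    · rw [(aF_inj h).1, (aF_inj h).2.1, (aF_inj h).2.2]
      exact hp
    · exact absurd (show (Sy.F τ : Sy d) = Sy.R _ from congrArg mdSym h) (by simp)
  · intro h
    exact Or.inr (Or.inr (Or.inr (Or.inl ⟨τ, q, u, rfl, h⟩)))

theorem leaf_aR (σ : Slot d) (q : P) (u : Slot d → P) (f : Wd (Fin r)) :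
    D.leaf (aR σ q u) f ↔ D.pR σ q u f := by
  constructor
  · rintro (⟨_, h, _⟩ | ⟨_, _, h, _⟩ | ⟨_, _, _, h, _⟩ | ⟨_, _, _, h, _⟩ | ⟨_, _, _, h, hp⟩)
    · exact absurd (show (Sy.R σ : Sy d) = Sy.Z from congrArg mdSym h) (by simp)
    · exact absurd (show (Sy.R σ : Sy d) = Sy.E from congrArg mdSym h) (by simp)
    · exact absurd (show (Sy.R σ : Sy d) = Sy.J _ from congrArg mdSym h) (by simp)
    · exact absurd (show (Sy.R σ : Sy d) = Sy.F _ from congrArg mdSym h) (by simp)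
    · rw [(aR_inj h).1, (aR_inj h).2.1, (aR_inj h).2.2]
      exact hp
  · intro h
    exact Or.inr (Or.inr (Or.inr (Or.inr ⟨σ, q, u, rfl, h⟩)))

private theorem zm2 (b : ZMod 2) : b = 0 ∨ b = 1 := by
  revert b
  decide

private theorem blk_iff {i : Fin r} {q : P} : q ∈ D.blk i ↔ ∃ b, q ∈ D.M.C i b := by
  constructor
  · rintro (h | h)
    · exact ⟨0, h⟩
    · exact ⟨1, h⟩
  · rintro ⟨b, h⟩
    rcases zm2 b with rfl | rfl
    · exact Or.inl h
    · exact Or.inr h

/-- The blocks of different cells are disjoint. -/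
theorem blk_disj {i j : Fin r} {q : P} (hi : q ∈ D.blk i) (hj : q ∈ D.blk j) : i = j := by
  rw [blk_iff] at hi hj
  obtain ⟨b, hb⟩ := hi
  obtain ⟨c, hc⟩ := hj
  by_contra hne
  have h1 : (i, b) ≠ (j, c) := fun h => hne (congrArg Prod.fst h)
  exact Set.disjoint_left.1 (D.M.disj i b j c h1) hb hc

/-- The vertex of a point is unique. -/
theorem vert_unique {x x' : Pt d} {q : P} (hx : inB L x) (hx' : inB L x')
    (h : q ∈ D.blk (D.cv x)) (h' : q ∈ D.blk (D.cv x')) : x = x' :=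
  D.cv_inj hx hx' (D.blk_disj h h')

private theorem mem_C (g : D.M.H) (i : Fin r) (b : ZMod 2) (q : P) :
    (g : Equiv.Perm P) q ∈ D.M.C i (b + D.M.pr g i) ↔ q ∈ D.M.C i b := by
  rw [← D.M.map]
  exact (g : Equiv.Perm P).injective.mem_set_image

theorem blk_map (g : D.M.H) (i : Fin r) (q : P) :
    (g : Equiv.Perm P) q ∈ D.blk i ↔ q ∈ D.blk i := by
  rw [blk_iff, blk_iff]
  constructor
  · rintro ⟨b, hb⟩
    refine ⟨b + D.M.pr g i, ?_⟩
    rw [← D.mem_C g, add_assoc, CharTwo.add_self_eq_zero, add_zero]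
    exact hb
  · rintro ⟨b, hb⟩
    exact ⟨b + D.M.pr g i, (D.mem_C g i b q).2 hb⟩

private theorem bit_of_mem {i : Fin r} {b : ZMod 2} {u : P} (hu : u ∈ D.M.C i b) :
    D.bit u = b := by
  unfold bit
  rcases zm2 b with rfl | rfl
  · rw [if_neg]
    rintro ⟨i', hi'⟩
    have h1 : (i, (0 : ZMod 2)) ≠ (i', 1) := by
      intro h
      exact zero_ne_one (congrArg Prod.snd h)
    exact Set.disjoint_left.1 (D.M.disj i 0 i' 1 h1) hu hi'
  · rw [if_pos ⟨i, hu⟩]

theorem bit_map (g : D.M.H) (i : Fin r) (u : P) (hu : u ∈ D.blk i) :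
    D.bit ((g : Equiv.Perm P) u) = D.bit u + D.M.pr g i := by
  rw [blk_iff] at hu
  obtain ⟨b, hb⟩ := hu
  rw [D.bit_of_mem hb, D.bit_of_mem ((D.mem_C g i b u).2 hb)]

/-- The atoms are local. `stA` is the stabiliser of the points of the atom. -/
theorem leaf_loc (v : Atom (Re d) P) (f f' : Wd (Fin r))
    (h : ∀ y : Fin r → ZMod 2, (∀ g : D.M.H, (∀ i, (g : Equiv.Perm P) (v.2.2 i) = v.2.2 i) →
      D.M.pr g ⬝ᵥ y = 0) → y ∈ D.g.D → f y = f' y) : D.leaf v f ↔ D.leaf v f' := by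
  rcases atom_cases v with ⟨q, rfl⟩ | ⟨q, q', rfl⟩ | ⟨a, q, q', rfl⟩ | ⟨τ, q, u, rfl⟩ |
    ⟨σ, q, u, rfl⟩
  · rw [D.leaf_aZ, D.leaf_aZ]
  · rw [D.leaf_aE, D.leaf_aE]
  · rw [D.leaf_aJ, D.leaf_aJ]
  · rw [D.leaf_aF, D.leaf_aF]
  · rw [D.leaf_aR, D.leaf_aR]
    unfold pR
    refine exists_congr fun x => ?_
    refine and_congr_right fun hx => and_congr_right fun hq => and_congr_right fun he =>
      and_congr_right fun hu => ?_
    have key : f (ye L D.j (ed x σ)) = f' (ye L D.j (ed x σ)) := by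
      refine h _ (fun g hg => ?_) (D.ye_mem _ he)
      rw [ye_dot L D.j D.j_inj x σ hx he]
      refine Finset.sum_eq_zero fun t _ => ?_
      split_ifs with hs
      · have h1 := D.bit_map g _ (u t) (hu t hs)
        have h2 : (g : Equiv.Perm P) (u t) = u t := by
          have h3 := hg (Fintype.equivFin (Option (Slot d)) (some t))
          simpa [aR] using h3
        rw [h2] at h1
        exact (left_eq_add.1 h1)
      · rfl
    rw [key]

/-- The atoms are equivariant. -/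
theorem leaf_equi (g : D.M.H) (v : Atom (Re d) P) (f : Wd (Fin r)) :
    D.leaf (Atom.map (g : Equiv.Perm P) v) (sh (D.M.pr g) f) ↔ D.leaf v f := by
  rcases atom_cases v with ⟨q, rfl⟩ | ⟨q, q', rfl⟩ | ⟨a, q, q', rfl⟩ | ⟨τ, q, u, rfl⟩ |
    ⟨σ, q, u, rfl⟩
  · rw [map_aZ, D.leaf_aZ, D.leaf_aZ]
    exact D.blk_map g _ q
  · rw [map_aE, D.leaf_aE, D.leaf_aE]
    unfold pE
    simp only [D.blk_map g]
  · rw [map_aJ, D.leaf_aJ, D.leaf_aJ]
    unfold pJ
    simp only [D.blk_map g]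
  · rw [map_aF, D.leaf_aF, D.leaf_aF]
    unfold pF
    simp only [D.blk_map g]
  · rw [map_aR, D.leaf_aR, D.leaf_aR]
    unfold pR
    refine exists_congr fun x => ?_
    simp only [D.blk_map g]
    refine and_congr_right fun hx => and_congr_right fun hq => and_congr_right fun he =>
      and_congr_right fun hu => ?_
    have h1 : (open Classical in ∑ t : Slot d, if isS L (sq x σ t) then
        D.bit ((g : Equiv.Perm P) (u t)) else 0) =
        (open Classical in ∑ t : Slot d, if isS L (sq x σ t) then D.bit (u t) else 0) +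
        (open Classical in ∑ t : Slot d, if isS L (sq x σ t) then
          D.M.pr g (D.j (sq x σ t)) else 0) := by
      rw [← Finset.sum_add_distrib]
      refine Finset.sum_congr rfl fun t _ => ?_
      split_ifs with hs
      · exact D.bit_map g _ (u t) (hu t hs)
      · rw [add_zero]
    rw [h1]
    unfold sh
    rw [ye_dot L D.j D.j_inj x σ hx he]
    have h2 : ∀ s : ZMod 2, s + s = 0 := fun s => CharTwo.add_self_eq_zero s
    have h3 : ∀ A B C E : ZMod 2, (A + B) + C + (E + B) = A + C + E := by decide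
    rw [h3]

end Dat

end Pool.Agent.H42.CS
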