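import Pool.Agent.H42.CS.Loc

/-!
# Local derivations II: the partner of a slot

`par_true`: by `rep_true` it suffices to derive `⟨vE p' p, false⟩` for all `p' < p`: `Dn.cases` on
`vE p' p`; in the true case: `vE p p'` (`e_symm`), `vE q q` (`e_refl`), so `vJ a q p'` (`j_inv`), but
`vJ a q p'` is refuted: `Dn.contra`, `Dn.abs`.
`par_other`: `p' < p`: `vJ a q p'` is refuted: `Dn.andF`. `p' > p`: `Dn.cases` on `vJ a q p'`: false:
`Dn.andF`; true: `vE p p'` (`j_fun`), so `rep p'` is refuted (`rep_false`): `Dn.andF`.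
`rap_true`, `rap_other`: the mirror images (`j_inj` instead of `j_fun`).
`par_item`: all three members of the item are derived: `Dn.andT`. `item_noy`: the slot has no value:
the member `⟨yy, false⟩` is refuted.
-/

set_option autoImplicit false

namespace Pool.Agent.H42.CS

variable {d n l : ℕ} {Γ : Set (Lit (Nd d n))}

/-- A case distinction on the value of an atomic node, used to refute it. -/
private theorem not_of {a : Nd d n} (m : ℕ)
    (h : PP m (insert (⟨a, true⟩ : Lit (Nd d n)) Γ)) : DD m Γ ⟨a, false⟩ := h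

private theorem contra' {x : Lit (Nd d n)} {m : ℕ} (h : DD m Γ x) (h' : DD m Γ x.neg) :
    PP (m + 1) Γ := Dn.contra h h'

theorem par_true {a : Fin d} {q p : Fin n} (h : DD l Γ ⟨.vJ a q p, true⟩)
    (h' : ∀ p', p' < p → DD l Γ ⟨.vJ a q p', false⟩) : DD (l + 20) Γ ⟨.rep p, true⟩ := by
  have key : ∀ p', p' < p → DD (l + 8) Γ ⟨.vE p' p, false⟩ := by
    intro p' hp'
    apply not_of
    have hsub : Γ ⊆ insert (⟨.vE p' p, true⟩ : Lit (Nd d n)) Γ := Set.subset_insert _ _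
    have e1 : DD (l + 1) (insert (⟨.vE p' p, true⟩ : Lit (Nd d n)) Γ) ⟨.vE p' p, true⟩ :=
      Dn.mem (Set.mem_insert _ _)
    have e2 := e_symm e1
    have e3 : DD (l + 1 + 3) (insert (⟨.vE p' p, true⟩ : Lit (Nd d n)) Γ) ⟨.vE q q, true⟩ :=
      Dn.le (e_refl q) (by omega)
    have e4 : DD (l + 1 + 3) (insert (⟨.vE p' p, true⟩ : Lit (Nd d n)) Γ) ⟨.vJ a q p, true⟩ :=
      Dn.mono h hsub (by omega)
    have e5 := j_inv e4 e3 e2
    have e6 : DD (l + 1 + 3 + 3) (insert (⟨.vE p' p, true⟩ : Lit (Nd d n)) Γ)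
        ⟨.vJ a q p', false⟩ := Dn.mono (h' p' hp') hsub (by omega)
    exact contra' e5 e6
  exact Dn.le (rep_true key) (by omega)

theorem par_other {a : Fin d} {q p p' : Fin n} (h : DD l Γ ⟨.vJ a q p, true⟩)
    (h' : ∀ p', p' < p → DD l Γ ⟨.vJ a q p', false⟩) (hp : p' ≠ p) :
    DD (l + 20) Γ ⟨.it (.z true a q p'), false⟩ := by
  rcases lt_or_gt_of_ne hp with h1 | h1
  · have e : DD (l + 3) Γ ⟨.it (.z true a q p'), false⟩ :=
      Dn.andF (S := {⟨.rep p', true⟩, ⟨.vJ a q p', true⟩, ⟨.yy (a, true) q, false⟩}) rfl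
        (x := ⟨.vJ a q p', true⟩) (by simp) (h' p' h1)
    exact Dn.le e (by omega)
  · have e : DD (l + 12) Γ ⟨.it (.z true a q p'), false⟩ := by
      refine Dn.le (l := l + 11) (Dn.cases (l := l + 10) (⟨.vJ a q p', true⟩ : Lit (Nd d n)) ?_ ?_) (by omega)
      · have hsub : Γ ⊆ insert (⟨.vJ a q p', true⟩ : Lit (Nd d n)) Γ := Set.subset_insert _ _
        have e1 : DD (l + 1) (insert (⟨.vJ a q p', true⟩ : Lit (Nd d n)) Γ)
            ⟨.vJ a q p', true⟩ := Dn.mem (Set.mem_insert _ _)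
        have e2 : DD (l + 1) (insert (⟨.vJ a q p', true⟩ : Lit (Nd d n)) Γ)
            ⟨.vJ a q p, true⟩ := Dn.mono h hsub (by omega)
        have e3 := rep_false h1 (j_fun e2 e1)
        exact Dn.andF (S := {⟨.rep p', true⟩, ⟨.vJ a q p', true⟩, ⟨.yy (a, true) q, false⟩})
          rfl (x := ⟨.rep p', true⟩) (by simp) e3
      · have e1 : DD (l + 1) (insert (⟨.vJ a q p', false⟩ : Lit (Nd d n)) Γ)
            ⟨.vJ a q p', false⟩ := Dn.mem (Set.mem_insert _ _)
        have e2 : DD (l + 1 + 3) (insert (⟨.vJ a q p', false⟩ : Lit (Nd d n)) Γ)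
            ⟨.it (.z true a q p'), false⟩ :=
          Dn.andF (S := {⟨.rep p', true⟩, ⟨.vJ a q p', true⟩, ⟨.yy (a, true) q, false⟩}) rfl
            (x := ⟨.vJ a q p', true⟩) (by simp) e1
        exact Dn.le e2 (by omega)
    exact Dn.le e (by omega)

theorem rap_true {a : Fin d} {q p : Fin n} (h : DD l Γ ⟨.vJ a p q, true⟩)
    (h' : ∀ p', p' < p → DD l Γ ⟨.vJ a p' q, false⟩) : DD (l + 20) Γ ⟨.rep p, true⟩ := by
  have key : ∀ p', p' < p → DD (l + 8) Γ ⟨.vE p' p, false⟩ := by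
    intro p' hp'
    apply not_of
    have hsub : Γ ⊆ insert (⟨.vE p' p, true⟩ : Lit (Nd d n)) Γ := Set.subset_insert _ _
    have e1 : DD (l + 1) (insert (⟨.vE p' p, true⟩ : Lit (Nd d n)) Γ) ⟨.vE p' p, true⟩ :=
      Dn.mem (Set.mem_insert _ _)
    have e2 := e_symm e1
    have e3 : DD (l + 1 + 3) (insert (⟨.vE p' p, true⟩ : Lit (Nd d n)) Γ) ⟨.vE q q, true⟩ :=
      Dn.le (e_refl q) (by omega)
    have e4 : DD (l + 1 + 3) (insert (⟨.vE p' p, true⟩ : Lit (Nd d n)) Γ) ⟨.vJ a p q, true⟩ :=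
      Dn.mono h hsub (by omega)
    have e5 := j_inv e4 e2 e3
    have e6 : DD (l + 1 + 3 + 3) (insert (⟨.vE p' p, true⟩ : Lit (Nd d n)) Γ)
        ⟨.vJ a p' q, false⟩ := Dn.mono (h' p' hp') hsub (by omega)
    exact contra' e5 e6
  exact Dn.le (rep_true key) (by omega)

theorem rap_other {a : Fin d} {q p p' : Fin n} (h : DD l Γ ⟨.vJ a p q, true⟩)
    (h' : ∀ p', p' < p → DD l Γ ⟨.vJ a p' q, false⟩) (hp : p' ≠ p) :
    DD (l + 20) Γ ⟨.it (.z false a p' q), false⟩ := by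
  rcases lt_or_gt_of_ne hp with h1 | h1
  · have e : DD (l + 3) Γ ⟨.it (.z false a p' q), false⟩ :=
      Dn.andF (S := {⟨.rep p', true⟩, ⟨.vJ a p' q, true⟩, ⟨.yy (a, false) q, false⟩}) rfl
        (x := ⟨.vJ a p' q, true⟩) (by simp) (h' p' h1)
    exact Dn.le e (by omega)
  · have e : DD (l + 12) Γ ⟨.it (.z false a p' q), false⟩ := by
      refine Dn.le (l := l + 11) (Dn.cases (l := l + 10) (⟨.vJ a p' q, true⟩ : Lit (Nd d n)) ?_ ?_) (by omega)
      · have hsub : Γ ⊆ insert (⟨.vJ a p' q, true⟩ : Lit (Nd d n)) Γ := Set.subset_insert _ _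
        have e1 : DD (l + 1) (insert (⟨.vJ a p' q, true⟩ : Lit (Nd d n)) Γ)
            ⟨.vJ a p' q, true⟩ := Dn.mem (Set.mem_insert _ _)
        have e2 : DD (l + 1) (insert (⟨.vJ a p' q, true⟩ : Lit (Nd d n)) Γ)
            ⟨.vJ a p q, true⟩ := Dn.mono h hsub (by omega)
        have e3 := rep_false h1 (j_inj e2 e1)
        exact Dn.andF (S := {⟨.rep p', true⟩, ⟨.vJ a p' q, true⟩, ⟨.yy (a, false) q, false⟩})
          rfl (x := ⟨.rep p', true⟩) (by simp) e3
      · have e1 : DD (l + 1) (insert (⟨.vJ a p' q, false⟩ : Lit (Nd d n)) Γ)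
            ⟨.vJ a p' q, false⟩ := Dn.mem (Set.mem_insert _ _)
        have e2 : DD (l + 1 + 3) (insert (⟨.vJ a p' q, false⟩ : Lit (Nd d n)) Γ)
            ⟨.it (.z false a p' q), false⟩ :=
          Dn.andF (S := {⟨.rep p', true⟩, ⟨.vJ a p' q, true⟩, ⟨.yy (a, false) q, false⟩}) rfl
            (x := ⟨.vJ a p' q, true⟩) (by simp) e1
        exact Dn.le e2 (by omega)
    exact Dn.le e (by omega)

theorem par_item {a : Fin d} {q p : Fin n} (h : DD l Γ ⟨.vJ a q p, true⟩)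
    (h' : ∀ p', p' < p → DD l Γ ⟨.vJ a q p', false⟩) (hy : DD l Γ ⟨.yy (a, true) q, false⟩) :
    DD (l + 24) Γ ⟨.it (.z true a q p), true⟩ := by
  have e : DD (l + 20 + 2) Γ ⟨.it (.z true a q p), true⟩ := by
    refine Dn.andT (S := {⟨.rep p, true⟩, ⟨.vJ a q p, true⟩, ⟨.yy (a, true) q, false⟩}) rfl ?_
    intro x hx
    rcases hx with rfl | rfl | rfl
    · exact par_true h h'
    · exact Dn.le h (by omega)
    · exact Dn.le hy (by omega)
  exact Dn.le e (by omega)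

theorem rap_item {a : Fin d} {q p : Fin n} (h : DD l Γ ⟨.vJ a p q, true⟩)
    (h' : ∀ p', p' < p → DD l Γ ⟨.vJ a p' q, false⟩)
    (hy : DD l Γ ⟨.yy (a, false) q, false⟩) :
    DD (l + 24) Γ ⟨.it (.z false a p q), true⟩ := by
  have e : DD (l + 20 + 2) Γ ⟨.it (.z false a p q), true⟩ := by
    refine Dn.andT (S := {⟨.rep p, true⟩, ⟨.vJ a p q, true⟩, ⟨.yy (a, false) q, false⟩}) rfl ?_
    intro x hx
    rcases hx with rfl | rfl | rfl
    · exact rap_true h h'
    · exact Dn.le h (by omega)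
    · exact Dn.le hy (by omega)
  exact Dn.le e (by omega)

theorem item_noy {a : Fin d} {q q' : Fin n} :
    (DD l Γ ⟨.yy (a, true) q, true⟩ → DD (l + 3) Γ ⟨.it (.z true a q q'), false⟩) ∧
      (DD l Γ ⟨.yy (a, false) q', true⟩ → DD (l + 3) Γ ⟨.it (.z false a q q'), false⟩) := by
  constructor
  · intro h
    exact Dn.andF (S := {⟨.rep q', true⟩, ⟨.vJ a q q', true⟩, ⟨.yy (a, true) q, false⟩}) rfl
      (x := ⟨.yy (a, true) q, false⟩) (by simp) h
  · intro h
    exact Dn.andF (S := {⟨.rep q, true⟩, ⟨.vJ a q q', true⟩, ⟨.yy (a, false) q', false⟩}) rfl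
      (x := ⟨.yy (a, false) q', false⟩) (by simp) h

end Pool.Agent.H42.CS
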