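import Pool.Agent.H42.CS.Ve2
import Pool.Agent.H42.CS.Edg

/-!
# The short refutation

PROOF of `tot_der`. For odd `j`: `⟨sx j q, false⟩` is derived from `∅`: `Pn.use` with `vert`, then
`{⟨ev q, true⟩, ⟨sx j q, true⟩}` is refuted by `Pn.cover` (no number is even and equal to `j`). So
`⟨s0 j q, true⟩` (`Pn.unit`, `0 ∈ {0}`), `⟨p0 j, true⟩` (`Dn.andT`), and `⟨tx j, true⟩` (`Pn.sum` with
`B = {s0 j q}`, `A = {0}`, `A' = Aj j = {0}`, `S (s0 j q) = {⟨sx j q, true⟩}`). For even `j`: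
`⟨tx j, true⟩` by `Pn.cover` (`Aj j = univ`). `Pn.dist` with `J = 3 d n + 2`, `F = {XX q}`,
`B j X = sx j q` for `X = XX q` (`q` is determined by `X`; choice), `u j = tx j`, `A = Aj`,
`a = tot`, `A' = Ev`: if `t j ∈ Aj j` for all `j` then `j * t j` is even for all `j`. `⋃₀ F = allI`;
the sets `XX q` are disjoint with `2 d n + 1 ≤ J` members. `Pn.cutAll` with all `⟨tx j, true⟩`.

PROOF of `evz_der`. `⟨sp 1 a q q', false⟩` is derived: assume `sp 1` true; cut with the two items. Both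
true: `⟨sp 2 a q q', true⟩` by `Dn.cnt` (`X = W = P2 a q q'`, `p = ps true a q q'`,
`un ⟨it x, _⟩ = u1 true x`), and `{⟨sp 1 …, true⟩, ⟨sp 2 …, true⟩}` is refuted by `Pn.cover`. Both
false: `⟨sp 0 a q q', true⟩` (`W = ∅`, `p = ps false a q q'`), `Pn.cover`. Otherwise: `edge`. Then
`⟨o0 a q q', true⟩` (`Pn.unit`), `⟨pp, true⟩`, `⟨tp 1, true⟩` (`Pn.sum`), `⟨tp 0, true⟩`, `⟨tp 2, true⟩`
(`Pn.cover`), and `Pn.dist` with `J = 2`, `F = {P2 a q q'}`, `a = evz`; `⋃₀ F = allZ`.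

PROOF of `refuted`. `⟨pf, true⟩` (`Dn.andT` from `evz_der`, `one_der`), `⟨odd, true⟩` by `Pn.sum` with
`B = {evz, one}` (`allZ ∪ allE = allI`, disjoint; even + 1 is odd). `{⟨tot, true⟩, ⟨odd, true⟩}` is
refuted by `Pn.cover`. `Pn.use` twice.

PROOF of `upper`: `refuted` with `l`, `bs = 2 * card N + 8 ≤ n ^ c'` (`Nd_card`), `to_refutation`
(`Lit.neg '' ∅ = ∅`), `size = card N + lines.ncard ≤ n ^ c + (n ^ c') ^ l`, `rk_le`.
-/

set_option autoImplicit false

namespace Pool.Agent.H42.CS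

private theorem up_even {j : ℕ} (h : Even j) : Aj j = Set.univ := if_pos h

private theorem up_odd {j : ℕ} (h : ¬ Even j) : Aj j = {0} := if_neg h

/-- the owner of an item -/
private def up_ow {d n : ℕ} : Cn d n → Fin n
  | .z true _ q _ => q
  | .z false _ _ q' => q'
  | .ze q => q

private theorem up_XX {d n : ℕ} {q : Fin n} {x : Lit (Nd d n)} (h : x ∈ XX q) :
    ∃ c : Cn d n, x = ⟨.it c, true⟩ ∧ up_ow c = q := by
  rcases h with ⟨a, q', rfl⟩ | ⟨a, q', rfl⟩ | rfl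
  · exact ⟨_, rfl, rfl⟩
  · exact ⟨_, rfl, rfl⟩
  · exact ⟨_, rfl, rfl⟩

private theorem up_XX_uniq {d n : ℕ} {q q' : Fin n} {x : Lit (Nd d n)} (h : x ∈ XX q)
    (h' : x ∈ XX q') : q = q' := by
  obtain ⟨c, hc, h1⟩ := up_XX h
  obtain ⟨c', hc', h2⟩ := up_XX h'
  rw [hc] at hc'
  have h3 : c = c' := by
    have h4 := congrArg Lit.node hc'
    exact Nd.it.inj h4
  rw [← h1, ← h2, h3]

private theorem up_XX_inj {d n : ℕ} {q q' : Fin n} (h : (XX q : Set (Lit (Nd d n))) = XX q') :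
    q = q' := by
  have h1 : (⟨.it (.ze q), true⟩ : Lit (Nd d n)) ∈ XX q := Or.inr (Or.inr rfl)
  exact up_XX_uniq h1 (h ▸ h1)

private theorem up_XX_card {d n : ℕ} (q : Fin n) :
    (XX q : Set (Lit (Nd d n))).ncard ≤ 3 * d * n + 2 := by
  classical
  let f : Option (Bool × Fin d × Fin n) → Lit (Nd d n) := fun o =>
    match o with
    | none => ⟨.it (.ze q), true⟩
    | some (true, a, q') => ⟨.it (.z true a q q'), true⟩
    | some (false, a, q') => ⟨.it (.z false a q' q), true⟩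
  have hsub : (XX q : Set (Lit (Nd d n))) ⊆ Set.range f := by
    rintro x (⟨a, q', rfl⟩ | ⟨a, q', rfl⟩ | rfl)
    · exact ⟨some (true, a, q'), rfl⟩
    · exact ⟨some (false, a, q'), rfl⟩
    · exact ⟨none, rfl⟩
  have h1 := Set.ncard_le_ncard hsub (Set.finite_range f)
  have h2 : (Set.range f).ncard ≤ Fintype.card (Option (Bool × Fin d × Fin n)) := by
    rw [← Set.image_univ]
    refine (Set.ncard_image_le Set.finite_univ).trans ?_
    rw [Set.ncard_univ, Nat.card_eq_fintype_card]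
  have h3 : Fintype.card (Option (Bool × Fin d × Fin n)) = 2 * (d * n) + 1 := by
    simp [Fintype.card_prod]
  have h4 : 3 * d * n = 3 * (d * n) := by ring
  omega

/-- the union of the sets of the items -/
private theorem up_sU {d n : ℕ} : ⋃₀ (Set.range (fun q : Fin n => (XX q : Set (Lit (Nd d n))))) =
    allI := by
  ext x
  constructor
  · rintro ⟨_, ⟨q, rfl⟩, hx⟩
    obtain ⟨c, hc, -⟩ := up_XX hx
    exact ⟨c, hc⟩
  · rintro ⟨c, rfl⟩
    refine ⟨XX (up_ow c), ⟨_, rfl⟩, ?_⟩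
    rcases c with ⟨b, a, q, q'⟩ | q
    · cases b
      · exact Or.inr (Or.inl ⟨a, q, rfl⟩)
      · exact Or.inl ⟨a, q', rfl⟩
    · exact Or.inr (Or.inr rfl)

/-- rule `sum` with zeros -/
private theorem up_zero {d n l : ℕ} {Γ : Set (Lit (Nd d n))} {ι : Type} (s : ι → Nd d n)
    (r : ι → Lit (Nd d n)) (hr : ∀ i, gt (s i) = .sym {0} {r i}) (hinj : Function.Injective r)
    {a p : Nd d n} (hp : gt p = .and {y | ∃ i, y = ⟨s i, true⟩})
    (ha : gt a = .sym {0} {y | ∃ i, y = r i}) (hpΓ : ⟨p, true⟩ ∈ Γ) (haΓ : ⟨a, false⟩ ∈ Γ) :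
    PP l Γ := by
  classical
  have hs : ∀ i i', s i = s i' → i = i' := by
    intro i i' h
    have h1 := hr i
    rw [h, hr i'] at h1
    have h2 : ({r i'} : Set (Lit (Nd d n))) = {r i} := by
      injection h1
    exact (hinj (Set.singleton_injective h2)).symm
  let S : Nd d n → Set (Lit (Nd d n)) := fun b => {y | ∃ i, b = s i ∧ y = r i}
  have hS : ∀ i, S (s i) = {r i} := by
    intro i
    ext y
    constructor
    · rintro ⟨i', h1, rfl⟩
      rw [hs i i' h1]
      rfl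
    · rintro rfl
      exact ⟨i, rfl, rfl⟩
  refine Pn.sum (C := CC d n) (a := a) (p := p) (B := Set.range s) (A := fun _ => {0}) (A' := {0})
    (S := S) ?_ ?_ ?_ ?_ ?_ hpΓ haΓ
  · rintro _ ⟨i, rfl⟩
    show gt (s i) = _
    rw [hS i, hr i]
  · rintro _ ⟨i, rfl⟩ _ ⟨i', rfl⟩ hne
    show Disjoint (S (s i)) (S (s i'))
    rw [hS i, hS i', Set.disjoint_singleton]
    intro h
    exact hne (by rw [hinj h])
  · show gt p = _
    rw [hp]
    congr 1
    ext y
    constructor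
    · rintro ⟨i, rfl⟩
      exact ⟨s i, ⟨i, rfl⟩, rfl⟩
    · rintro ⟨_, ⟨i, rfl⟩, rfl⟩
      exact ⟨i, rfl⟩
  · show gt a = _
    rw [ha]
    congr 1
    ext y
    simp only [Set.mem_setOf_eq, Set.mem_iUnion]
    constructor
    · rintro ⟨i, rfl⟩
      exact ⟨s i, ⟨i, rfl⟩, ⟨i, rfl, rfl⟩⟩
    · rintro ⟨_, ⟨i, rfl⟩, ⟨i', _, rfl⟩⟩
      exact ⟨i', rfl⟩
  · intro c hc
    rw [Set.mem_singleton_iff]
    refine finsum_mem_eq_zero_of_forall_eq_zero fun b hb => ?_
    exact hc b hb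

/-- an even number of pairs -/
private theorem up_ht {J : ℕ} (t : ℕ → ℕ) (h : ∀ j ≤ J, t j ∈ Aj j) :
    ∑ j ∈ Finset.range (J + 1), j * t j ∈ Ev := by
  show Even _
  refine Finset.even_sum _ fun j hj => ?_
  rw [Finset.mem_range] at hj
  by_cases he : Even j
  · exact he.mul_right _
  · have h1 := h j (by omega)
    rw [up_odd he, Set.mem_singleton_iff] at h1
    rw [h1, mul_zero]
    exact Even.zero

theorem tot_der (d : ℕ) : ∃ l : ℕ, ∀ n : ℕ, 2 ≤ n →
    DD l (∅ : Set (Lit (Nd d n))) ⟨.tot, true⟩ := by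
  classical
  obtain ⟨l0, h0⟩ := vert d
  refine ⟨l0 + 12, fun n _ => ?_⟩
  have hsx : ∀ (j : Fin (3 * d * n + 3)) (q : Fin n), ¬ Even j.val →
      DD (l0 + 2) (∅ : Set (Lit (Nd d n))) ⟨.sx j q, false⟩ := by
    intro j q hj
    show PP (l0 + 1 + 1) (insert (Lit.neg ⟨.sx j q, false⟩) ∅)
    refine Pn.use (y := ⟨.ev q, true⟩) ((h0 n q).mono (Set.empty_subset _) (Nat.lt_succ_self _)) ?_
    refine Pn.cover (S := XX q) fun c _ => ?_
    by_cases hc : Even c
    · refine ⟨.sx j q, {j.val}, true, rfl, ?_, Or.inr (Or.inl rfl)⟩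
      intro h
      have h1 : c = j.val := h.2 rfl
      exact hj (h1 ▸ hc)
    · refine ⟨.ev q, Ev, true, rfl, ?_, Or.inl rfl⟩
      intro h
      exact hc (h.2 rfl)
  have hs0 : ∀ (j : Fin (3 * d * n + 3)) (q : Fin n), ¬ Even j.val →
      DD (l0 + 4) (∅ : Set (Lit (Nd d n))) ⟨.s0 j q, true⟩ := by
    intro j q hj
    show PP (l0 + 3 + 1) (insert (Lit.neg ⟨.s0 j q, true⟩) ∅)
    refine Pn.use (y := ⟨.sx j q, false⟩)
      ((hsx j q hj).mono (Set.empty_subset _) (Nat.lt_succ_self _)) ?_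
    exact Pn.unit (C := CC d n) (a := .s0 j q) (A := {0}) (x := ⟨.sx j q, true⟩) rfl
      (Or.inr (Or.inl rfl)) (Or.inr ⟨rfl, Or.inl rfl⟩)
  have hp0 : ∀ j : Fin (3 * d * n + 3), ¬ Even j.val →
      DD (l0 + 6) (∅ : Set (Lit (Nd d n))) ⟨.p0 j, true⟩ := by
    intro j hj
    refine Dn.andT (C := CC d n) (a := .p0 j) (S := {y | ∃ q, y = ⟨.s0 j q, true⟩}) rfl ?_
    rintro _ ⟨q, rfl⟩
    exact hs0 j q hj
  have htx : ∀ j : Fin (3 * d * n + 3), DD (l0 + 9) (∅ : Set (Lit (Nd d n))) ⟨.tx j, true⟩ := by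
    intro j
    by_cases hj : Even j.val
    · show PP (l0 + 9) (insert (Lit.neg ⟨.tx j, true⟩) ∅)
      refine Pn.cover (S := {y | ∃ q, y = ⟨.sx j q, true⟩}) fun c _ => ?_
      refine ⟨.tx j, Aj j.val, false, rfl, ?_, Or.inl rfl⟩
      rw [up_even hj]
      intro h
      exact absurd (h.1 (Set.mem_univ _)) (by decide)
    · show PP (l0 + 8 + 1) (insert (Lit.neg ⟨.tx j, true⟩) ∅)
      refine Pn.use (y := ⟨.p0 j, true⟩) ((hp0 j hj).mono (Set.empty_subset _) (by omega)) ?_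
      refine up_zero (fun q : Fin n => .s0 j q) (fun q : Fin n => ⟨.sx j q, true⟩)
        (fun q => rfl) ?_ (a := .tx j) (p := .p0 j) rfl ?_ (Or.inl rfl) (Or.inr (Or.inl rfl))
      · intro q q' h
        have h1 := congrArg Lit.node h
        exact (Nd.sx.inj h1).2
      · show Gate.sym (Aj j.val) _ = _
        rw [up_odd hj]
  show PP (l0 + 10 + 2) (insert (Lit.neg ⟨.tot, true⟩) ∅)
  refine Pn.cutAll (C := CC d n) (S := {x | ∃ j : Fin (3 * d * n + 3), x = ⟨.tx j, true⟩}) ?_ ?_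
  · rintro _ ⟨j, rfl⟩
    exact (htx j).mono (Set.empty_subset _) (by omega)
  · let B : ℕ → Set (Lit (Nd d n)) → Nd d n := fun j X =>
      if hj : j < 3 * d * n + 3 then (if hX : ∃ q, XX q = X then .sx ⟨j, hj⟩ hX.choose else .tot)
      else .tot
    let u : ℕ → Nd d n := fun j => if hj : j < 3 * d * n + 3 then .tx ⟨j, hj⟩ else .tot
    have hB : ∀ j (hj : j < 3 * d * n + 3) (q : Fin n), B j (XX q) = .sx ⟨j, hj⟩ q := by
      intro j hj q
      have hX : ∃ q', (XX q' : Set (Lit (Nd d n))) = XX q := ⟨q, rfl⟩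
      show (if hj : j < 3 * d * n + 3 then (if hX : ∃ q', (XX q' : Set (Lit (Nd d n))) = XX q then
        (.sx ⟨j, hj⟩ hX.choose : Nd d n) else .tot) else .tot) = _
      rw [dif_pos hj, dif_pos hX, up_XX_inj hX.choose_spec]
    have hu : ∀ j (hj : j < 3 * d * n + 3), u j = .tx ⟨j, hj⟩ := fun j hj => dif_pos hj
    refine Pn.dist (C := CC d n) (a := .tot)
      (F := Set.range (fun q : Fin n => (XX q : Set (Lit (Nd d n))))) (J := 3 * d * n + 2) (B := B)
      (u := u) (A := Aj) (A' := Ev) ?_ ?_ ?_ ?_ ?_ (fun t h _ => up_ht t h) ?_ ?_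
    · rintro _ ⟨q, rfl⟩ _ ⟨q', rfl⟩ hne
      show Disjoint (XX q) (XX q')
      rw [Set.disjoint_left]
      intro x hx hx'
      exact hne (by rw [up_XX_uniq hx hx'])
    · rintro _ ⟨q, rfl⟩
      exact up_XX_card q
    · rintro j hj _ ⟨q, rfl⟩
      show gt (B j (XX q)) = _
      rw [hB j (by omega) q]
      rfl
    · intro j hj
      show gt (u j) = _
      rw [hu j (by omega)]
      refine congrArg (Gate.sym (Aj j)) ?_
      ext y
      constructor
      · rintro ⟨q, rfl⟩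
        exact ⟨XX q, ⟨q, rfl⟩,
          congrArg (fun b => (⟨b, true⟩ : Lit (Nd d n))) (hB j (by omega) q)⟩
      · rintro ⟨_, ⟨q, rfl⟩, rfl⟩
        exact ⟨q, congrArg (fun b => (⟨b, true⟩ : Lit (Nd d n))) (hB j (by omega) q)⟩
    · show Gate.sym Ev allI = _
      rw [up_sU]
    · intro j hj
      rw [hu j (by omega)]
      exact Or.inr ⟨_, rfl⟩
    · exact Or.inl (Or.inl rfl)

private theorem up_P2 {d n : ℕ} {a : Fin d} {q q' : Fin n} {x : Lit (Nd d n)}
    (h : x ∈ P2 a q q') : ∃ b : Bool, x = ⟨.it (.z b a q q'), true⟩ := by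
  rcases h with h | h
  · exact ⟨true, h⟩
  · exact ⟨false, h⟩

private theorem up_P2_mem {d n : ℕ} (b : Bool) (a : Fin d) (q q' : Fin n) :
    (⟨.it (.z b a q q'), true⟩ : Lit (Nd d n)) ∈ P2 a q q' := by
  cases b
  · exact Or.inr rfl
  · exact Or.inl rfl

private theorem up_P2_uniq {d n : ℕ} {i j : Fin d × Fin n × Fin n} {x : Lit (Nd d n)}
    (h : x ∈ P2 i.1 i.2.1 i.2.2) (h' : x ∈ P2 j.1 j.2.1 j.2.2) : i = j := by
  obtain ⟨b, hb⟩ := up_P2 h
  obtain ⟨b', hb'⟩ := up_P2 h'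
  rw [hb] at hb'
  have h4 := Nd.it.inj (congrArg Lit.node hb')
  obtain ⟨-, h5, h6, h7⟩ := Cn.z.inj h4
  ext1
  · exact h5
  · ext1
    · exact h6
    · exact h7

private theorem up_P2_inj {d n : ℕ} {i j : Fin d × Fin n × Fin n}
    (h : (P2 i.1 i.2.1 i.2.2 : Set (Lit (Nd d n))) = P2 j.1 j.2.1 j.2.2) : i = j := by
  have h3 : (⟨.it (.z true i.1 i.2.1 i.2.2), true⟩ : Lit (Nd d n)) ∈ P2 i.1 i.2.1 i.2.2 :=
    up_P2_mem true _ _ _
  have h4 := h3
  rw [h] at h4
  exact up_P2_uniq h3 h4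

private theorem up_P2_card {d n : ℕ} (a : Fin d) (q q' : Fin n) :
    (P2 a q q' : Set (Lit (Nd d n))).ncard = 2 := by
  unfold P2
  refine Set.ncard_pair ?_
  intro h
  have h4 := Nd.it.inj (congrArg Lit.node h)
  exact absurd (Cn.z.inj h4).1 (by decide)

private theorem up_cnt {d n l : ℕ} {Γ : Set (Lit (Nd d n))} {a : Fin d} {q q' : Fin n} :
    ((∀ x ∈ P2 a q q', DD l Γ x) → DD (l + 6) Γ ⟨.sp 2 a q q', true⟩) ∧
      ((∀ x ∈ P2 a q q', DD l Γ x.neg) → DD (l + 6) Γ ⟨.sp 0 a q q', true⟩) := by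
  classical
  have hun : ∀ b : Bool, ∃ un : Lit (Nd d n) → Nd d n, ∀ c, un ⟨.it c, true⟩ = .u1 b c :=
    fun b => ⟨fun x => match x.node with
      | .it c => .u1 b c
      | _ => .tot, fun c => rfl⟩
  constructor
  · intro h
    obtain ⟨un, hu⟩ := hun true
    refine Dn.cnt (C := CC d n) (X := P2 a q q') (W := P2 a q q') (A := {2})
      (a := .sp 2 a q q') (p := .ps true a q q') un subset_rfl ?_ ?_ rfl ?_ h
      (fun x hx hx' => absurd hx hx')
    · intro x hx
      rw [if_pos hx]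
      obtain ⟨b, rfl⟩ := up_P2 hx
      rw [hu]
      rfl
    · show _ = Gate.and ((fun x : Lit (Nd d n) => (⟨un x, true⟩ : Lit (Nd d n))) ''
        {⟨.it (.z true a q q'), true⟩, ⟨.it (.z false a q q'), true⟩})
      rw [Set.image_pair, hu, hu]
      rfl
    · rw [up_P2_card]
      rfl
  · intro h
    obtain ⟨un, hu⟩ := hun false
    refine Dn.cnt (C := CC d n) (X := P2 a q q') (W := ∅) (A := {0})
      (a := .sp 0 a q q') (p := .ps false a q q') un (Set.empty_subset _) ?_ ?_ rfl ?_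
      (fun x hx => absurd hx (Set.notMem_empty x)) (fun x hx _ => h x hx)
    · intro x hx
      rw [if_neg (Set.notMem_empty x)]
      obtain ⟨b, rfl⟩ := up_P2 hx
      rw [hu]
      rfl
    · show _ = Gate.and ((fun x : Lit (Nd d n) => (⟨un x, true⟩ : Lit (Nd d n))) ''
        {⟨.it (.z true a q q'), true⟩, ⟨.it (.z false a q q'), true⟩})
      rw [Set.image_pair, hu, hu]
      rfl
    · rw [Set.ncard_empty]
      rfl

theorem evz_der (d : ℕ) : ∃ l : ℕ, ∀ n : ℕ, 2 ≤ n →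
    DD l (∅ : Set (Lit (Nd d n))) ⟨.evz, true⟩ := by
  classical
  obtain ⟨l0, h0⟩ := edge d
  refine ⟨l0 + 30, fun n _ => ?_⟩
  have hsp : ∀ (a : Fin d) (q q' : Fin n),
      DD (l0 + 12) (∅ : Set (Lit (Nd d n))) ⟨.sp 1 a q q', false⟩ := by
    intro a q q'
    show PP (l0 + 10 + 1 + 1) (insert (Lit.neg ⟨.sp 1 a q q', false⟩) ∅)
    refine Pn.cut ⟨.it (.z true a q q'), true⟩ ?_ ?_
    · refine Pn.cut ⟨.it (.z false a q q'), true⟩ ?_ ?_
      · refine Pn.use (l := l0 + 9) (y := ⟨.sp 2 a q q', true⟩)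
          ((up_cnt (l := 0).1 ?_).le (by omega)) ?_
        · intro x hx
          obtain ⟨b, rfl⟩ := up_P2 hx
          refine Dn.mem ?_
          cases b
          · exact Or.inl rfl
          · exact Or.inr (Or.inl rfl)
        · refine Pn.cover (S := P2 a q q') fun c _ => ?_
          by_cases hc : c = 1
          · refine ⟨.sp 2 a q q', {2}, true, rfl, ?_, Or.inl rfl⟩
            intro h
            have h1 : c = 2 := h.2 rfl
            omega
          · refine ⟨.sp 1 a q q', {1}, true, rfl, ?_, Or.inr (Or.inr (Or.inr (Or.inl rfl)))⟩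
            intro h
            exact hc (h.2 rfl)
      · refine (h0 n true a q q').mono ?_ (by omega)
        rintro x (rfl | rfl)
        · exact Or.inr (Or.inl rfl)
        · exact Or.inl rfl
    · refine Pn.cut ⟨.it (.z false a q q'), true⟩ ?_ ?_
      · refine (h0 n false a q q').mono ?_ (by omega)
        rintro x (rfl | rfl)
        · exact Or.inl rfl
        · exact Or.inr (Or.inl rfl)
      · refine Pn.use (l := l0 + 9) (y := ⟨.sp 0 a q q', true⟩)
          ((up_cnt (l := 0).2 ?_).le (by omega)) ?_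
        · intro x hx
          obtain ⟨b, rfl⟩ := up_P2 hx
          refine Dn.mem ?_
          cases b
          · exact Or.inl rfl
          · exact Or.inr (Or.inl rfl)
        · refine Pn.cover (S := P2 a q q') fun c _ => ?_
          by_cases hc : c = 1
          · refine ⟨.sp 0 a q q', {0}, true, rfl, ?_, Or.inl rfl⟩
            intro h
            have h1 : c = 0 := h.2 rfl
            omega
          · refine ⟨.sp 1 a q q', {1}, true, rfl, ?_, Or.inr (Or.inr (Or.inr (Or.inl rfl)))⟩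
            intro h
            exact hc (h.2 rfl)
  have ho0 : ∀ (a : Fin d) (q q' : Fin n),
      DD (l0 + 14) (∅ : Set (Lit (Nd d n))) ⟨.o0 a q q', true⟩ := by
    intro a q q'
    show PP (l0 + 13 + 1) (insert (Lit.neg ⟨.o0 a q q', true⟩) ∅)
    refine Pn.use (y := ⟨.sp 1 a q q', false⟩)
      ((hsp a q q').mono (Set.empty_subset _) (Nat.lt_succ_self _)) ?_
    exact Pn.unit (C := CC d n) (a := .o0 a q q') (A := {0}) (x := ⟨.sp 1 a q q', true⟩) rfl
      (Or.inr (Or.inl rfl)) (Or.inr ⟨rfl, Or.inl rfl⟩)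
  have hpp : DD (l0 + 16) (∅ : Set (Lit (Nd d n))) ⟨.pp, true⟩ := by
    refine Dn.andT (C := CC d n) (a := .pp) (S := {y | ∃ a q q', y = ⟨.o0 a q q', true⟩}) rfl ?_
    rintro _ ⟨a, q, q', rfl⟩
    exact ho0 a q q'
  have htp : ∀ j : Fin 3, DD (l0 + 19) (∅ : Set (Lit (Nd d n))) ⟨.tp j, true⟩ := by
    intro j
    by_cases hj : Even j.val
    · show PP (l0 + 19) (insert (Lit.neg ⟨.tp j, true⟩) ∅)
      refine Pn.cover (S := {y | ∃ a q q', y = ⟨.sp j a q q', true⟩}) fun c _ => ?_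
      refine ⟨.tp j, Aj j.val, false, rfl, ?_, Or.inl rfl⟩
      rw [up_even hj]
      intro h
      exact absurd (h.1 (Set.mem_univ _)) (by decide)
    · have hj1 : j = 1 := by
        fin_cases j
        · exact absurd Even.zero hj
        · rfl
        · exact absurd (by decide) hj
      subst hj1
      show PP (l0 + 18 + 1) (insert (Lit.neg ⟨.tp 1, true⟩) ∅)
      refine Pn.use (y := ⟨.pp, true⟩) (hpp.mono (Set.empty_subset _) (by omega)) ?_
      refine up_zero (fun i : Fin d × Fin n × Fin n => .o0 i.1 i.2.1 i.2.2)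
        (fun i : Fin d × Fin n × Fin n => ⟨.sp 1 i.1 i.2.1 i.2.2, true⟩)
        (fun q => rfl) ?_ (a := .tp 1) (p := .pp) ?_ ?_ (Or.inl rfl) (Or.inr (Or.inl rfl))
      · intro i i' h
        obtain ⟨-, h5, h6, h7⟩ := Nd.sp.inj (congrArg Lit.node h)
        ext1
        · exact h5
        · ext1
          · exact h6
          · exact h7
      · refine congrArg Gate.and ?_
        ext y
        constructor
        · rintro ⟨a, q, q', rfl⟩
          exact ⟨(a, q, q'), rfl⟩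
        · rintro ⟨i, rfl⟩
          exact ⟨_, _, _, rfl⟩
      · show Gate.sym (Aj 1) _ = _
        rw [up_odd (by decide)]
        refine congrArg (Gate.sym {0}) ?_
        ext y
        constructor
        · rintro ⟨a, q, q', rfl⟩
          exact ⟨(a, q, q'), rfl⟩
        · rintro ⟨i, rfl⟩
          exact ⟨_, _, _, rfl⟩
  show PP (l0 + 28 + 2) (insert (Lit.neg ⟨.evz, true⟩) ∅)
  refine Pn.cutAll (C := CC d n) (S := {x | ∃ j : Fin 3, x = ⟨.tp j, true⟩}) ?_ ?_
  · rintro _ ⟨j, rfl⟩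
    exact (htp j).mono (Set.empty_subset _) (by omega)
  · let B : ℕ → Set (Lit (Nd d n)) → Nd d n := fun j X =>
      if hj : j < 3 then (if hX : ∃ i : Fin d × Fin n × Fin n, P2 i.1 i.2.1 i.2.2 = X then
        .sp ⟨j, hj⟩ hX.choose.1 hX.choose.2.1 hX.choose.2.2 else .tot) else .tot
    let u : ℕ → Nd d n := fun j => if hj : j < 3 then .tp ⟨j, hj⟩ else .tot
    have hB : ∀ j (hj : j < 3) (i : Fin d × Fin n × Fin n),
        B j (P2 i.1 i.2.1 i.2.2) = .sp ⟨j, hj⟩ i.1 i.2.1 i.2.2 := by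
      intro j hj i
      have hX : ∃ i' : Fin d × Fin n × Fin n,
        (P2 i'.1 i'.2.1 i'.2.2 : Set (Lit (Nd d n))) = P2 i.1 i.2.1 i.2.2 := ⟨i, rfl⟩
      have h1 : hX.choose = i := up_P2_inj hX.choose_spec
      show (if hj : j < 3 then (if hX : ∃ i' : Fin d × Fin n × Fin n,
        (P2 i'.1 i'.2.1 i'.2.2 : Set (Lit (Nd d n))) = P2 i.1 i.2.1 i.2.2 then
        (.sp ⟨j, hj⟩ hX.choose.1 hX.choose.2.1 hX.choose.2.2 : Nd d n) else .tot) else .tot) = _
      rw [dif_pos hj, dif_pos hX, h1]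
    have hu : ∀ j (hj : j < 3), u j = .tp ⟨j, hj⟩ := fun j hj => dif_pos hj
    refine Pn.dist (C := CC d n) (a := .evz)
      (F := Set.range (fun i : Fin d × Fin n × Fin n => (P2 i.1 i.2.1 i.2.2 : Set (Lit (Nd d n)))))
      (J := 2) (B := B)
      (u := u) (A := Aj) (A' := Ev) ?_ ?_ ?_ ?_ ?_ (fun t h _ => up_ht t h) ?_ ?_
    · rintro _ ⟨i, rfl⟩ _ ⟨i', rfl⟩ hne
      show Disjoint (P2 i.1 i.2.1 i.2.2) (P2 i'.1 i'.2.1 i'.2.2)
      rw [Set.disjoint_left]
      intro x hx hx'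
      exact hne (by rw [up_P2_uniq hx hx'])
    · rintro _ ⟨i, rfl⟩
      exact (up_P2_card _ _ _).le
    · rintro j hj _ ⟨i, rfl⟩
      show gt (B j (P2 i.1 i.2.1 i.2.2)) = _
      rw [hB j (by omega) i]
      rfl
    · intro j hj
      show gt (u j) = _
      rw [hu j (by omega)]
      refine congrArg (Gate.sym (Aj j)) ?_
      ext y
      constructor
      · rintro ⟨a, q, q', rfl⟩
        exact ⟨P2 a q q', ⟨(a, q, q'), rfl⟩,
          congrArg (fun b => (⟨b, true⟩ : Lit (Nd d n))) (hB j (by omega) (a, q, q'))⟩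
      · rintro ⟨_, ⟨i, rfl⟩, rfl⟩
        exact ⟨i.1, i.2.1, i.2.2,
          congrArg (fun b => (⟨b, true⟩ : Lit (Nd d n))) (hB j (by omega) i)⟩
    · refine congrArg (Gate.sym Ev) ?_
      ext x
      constructor
      · rintro ⟨b, a, q, q', rfl⟩
        exact ⟨P2 a q q', ⟨(a, q, q'), rfl⟩, up_P2_mem b a q q'⟩
      · rintro ⟨_, ⟨i, rfl⟩, hx⟩
        obtain ⟨b, rfl⟩ := up_P2 hx
        exact ⟨b, _, _, _, rfl⟩
    · intro j hj
      rw [hu j (by omega)]
      exact Or.inr ⟨_, rfl⟩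
    · exact Or.inl (Or.inl rfl)

theorem refuted (d : ℕ) : ∃ l : ℕ, ∀ n : ℕ, 2 ≤ n → PP l (∅ : Set (Lit (Nd d n))) := by
  classical
  obtain ⟨l1, h1⟩ := tot_der d
  obtain ⟨l2, h2⟩ := evz_der d
  obtain ⟨l3, h3⟩ := one_der d
  refine ⟨l1 + l2 + l3 + 12, fun n hn => ?_⟩
  have hpf : DD (l2 + l3 + 1 + 2) (∅ : Set (Lit (Nd d n))) ⟨.pf, true⟩ := by
    refine Dn.andT (C := CC d n) (a := .pf) (S := {⟨.evz, true⟩, ⟨.one, true⟩}) rfl ?_
    rintro _ (rfl | rfl)
    · exact (h2 n hn).le (by omega)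
    · exact (h3 n (by omega)).le (by omega)
  have hodd : DD (l2 + l3 + 5 + 1) (∅ : Set (Lit (Nd d n))) ⟨.odd, true⟩ := by
    show PP (l2 + l3 + 5 + 1) (insert (Lit.neg ⟨.odd, true⟩) ∅)
    refine Pn.use (y := ⟨.pf, true⟩) (hpf.mono (Set.empty_subset _) (by omega)) ?_
    refine Pn.sum (C := CC d n) (a := .odd) (p := .pf) (B := {.evz, .one})
      (A := fun b => if b = .evz then Ev else {1}) (A' := Od)
      (S := fun b => if b = .evz then allZ else allE) ?_ ?_ ?_ ?_ ?_ (Or.inl rfl)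
      (Or.inr (Or.inl rfl))
    · rintro b (rfl | rfl)
      · rw [if_pos rfl, if_pos rfl]
        rfl
      · rw [if_neg (by simp), if_neg (by simp)]
        rfl
    · have hd : Disjoint (allZ : Set (Lit (Nd d n))) allE := by
        rw [Set.disjoint_left]
        rintro x ⟨b, a, q, q', rfl⟩ ⟨q2, h⟩
        have h4 := Nd.it.inj (congrArg Lit.node h)
        cases h4
      rintro b (rfl | rfl) b' (rfl | rfl) hne
      · exact absurd rfl hne
      · show Disjoint (if (Nd.evz : Nd d n) = .evz then allZ else allE)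
          (if (Nd.one : Nd d n) = .evz then allZ else allE)
        rw [if_pos rfl, if_neg (by simp)]
        exact hd
      · show Disjoint (if (Nd.one : Nd d n) = .evz then allZ else allE)
          (if (Nd.evz : Nd d n) = .evz then allZ else allE)
        rw [if_pos rfl, if_neg (by simp)]
        exact hd.symm
      · exact absurd rfl hne
    · refine congrArg Gate.and ?_
      rw [Set.image_pair]
    · refine congrArg (Gate.sym Od) ?_
      rw [Set.biUnion_insert, Set.biUnion_singleton, if_pos rfl, if_neg (by simp)]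
      ext x
      constructor
      · rintro ⟨c, rfl⟩
        rcases c with ⟨b, a, q, q'⟩ | q
        · exact Or.inl ⟨b, a, q, q', rfl⟩
        · exact Or.inr ⟨q, rfl⟩
      · rintro (⟨b, a, q, q', rfl⟩ | ⟨q, rfl⟩)
        · exact ⟨_, rfl⟩
        · exact ⟨_, rfl⟩
    · intro c hc
      rw [finsum_mem_pair (by simp)]
      have e1 := hc .evz (Or.inl rfl)
      have e2 := hc .one (Or.inr rfl)
      rw [if_pos rfl] at e1
      rw [if_neg (by simp)] at e2
      have e3 : c .one = 1 := e2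
      have e4 : Even (c .evz) := e1
      rw [e3]
      show ¬ Even (c .evz + 1)
      rw [Nat.even_add_one, not_not]
      exact e4
  show PP (l1 + l2 + l3 + 10 + 1 + 1) ∅
  refine Pn.use (y := ⟨.tot, true⟩) ((h1 n hn).le (by omega)) ?_
  refine Pn.use (y := ⟨.odd, true⟩) (hodd.mono (Set.empty_subset _) (by omega)) ?_
  refine Pn.cover (S := allI) fun c _ => ?_
  by_cases hc : Even c
  · refine ⟨.odd, Od, true, rfl, ?_, Or.inl rfl⟩
    intro h
    exact (h.2 rfl) hc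
  · refine ⟨.tot, Ev, true, rfl, ?_, Or.inr (Or.inl rfl)⟩
    intro h
    exact hc (h.2 rfl)

theorem upper (d : ℕ) : ∃ c : ℕ, ∀ n : ℕ, 2 ≤ n →
    ∃ R : Refutation (T d) (Fin n), R.size ≤ n ^ c ∧ ∀ a, R.C.rank a ≤ 7 := by
  obtain ⟨l, hl⟩ := refuted d
  obtain ⟨c, hc⟩ := Nd_card d
  refine ⟨c + (c + 4) * l + 1, fun n hn => ?_⟩
  have h1 := hl n hn
  unfold PP Pn at h1
  rw [Set.image_empty] at h1
  obtain ⟨R, hR, hlin⟩ := to_refutation h1
  refine ⟨R, ?_, ?_⟩
  · have hN : Nat.card R.C.N = Nat.card (Nd d n) := by rw [hR]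
    have hb : bs (CC d n) ≤ n ^ (c + 4) := by
      have e1 : bs (CC d n) = 2 * Nat.card (Nd d n) + 8 := rfl
      have e2 := hc n hn
      have e3 : 1 ≤ n ^ c := Nat.one_le_pow _ _ (by omega)
      have e4 : 2 ^ 4 ≤ n ^ 4 := Nat.pow_le_pow_left hn 4
      rw [e1, pow_add]
      nlinarith
    have h2 : R.lines.ncard ≤ n ^ ((c + 4) * l) := by
      rw [pow_mul]
      exact hlin.trans (Nat.pow_le_pow_left hb l)
    unfold Refutation.size
    rw [hN]
    have h3 : n ^ c ≤ n ^ (c + (c + 4) * l) := Nat.pow_le_pow_right (by omega) (by omega)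
    have h4 : n ^ ((c + 4) * l) ≤ n ^ (c + (c + 4) * l) := Nat.pow_le_pow_right (by omega) (by omega)
    have h5 := hc n hn
    calc Nat.card (Nd d n) + R.lines.ncard ≤ n ^ (c + (c + 4) * l) + n ^ (c + (c + 4) * l) := by omega
      _ = n ^ (c + (c + 4) * l) * 2 := by ring
      _ ≤ n ^ (c + (c + 4) * l) * n := Nat.mul_le_mul_left _ hn
      _ = n ^ (c + (c + 4) * l + 1) := by rw [pow_succ]
  · have h2 : ∀ C' : Circuit (Re d) (Fin n), C' = CC d n → ∀ a, C'.rank a ≤ 7 := by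
      rintro _ rfl a
      exact rk_le a
    exact h2 _ hR

end Pool.Agent.H42.CS
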