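import Pool.Agent.H42.CS.Gkl

/-!
# Values: locality and equivariance

PROOF of `val_main` by strong induction on the rank of `a`: for all `a` with `rank a = m` the two
statements `L a`: (for worlds `f, f'` on `Vn a` which agree on `Vn a`: `val a f ↔ val a f'`) and
`Q a`: (for all `g` and all worlds `f` on `Vn a`: `val (act g a) (sh (pr g) f) ↔ val a f`).
Note `rank (act g a)` need not be `rank a`; so do the induction on the rank for BOTH at once and over
all pairs: prove by strong induction on `m` the statement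
`∀ a, rank a ≤ m → (∀ f f', … ) ∧ (∀ g f, …)`; the children of `act g a` are the images
`Lit.map (act g) x` of the children `x` of `a` (`gate_act`), and only statements about the children `x`
of `a` (all of smaller rank) are used, as follows.

For a child `x` of `a` put `U := Vn a ⊔ Vn x.node` (tame, `Sm 2`).

Q, case var: `gate (act g a) = var (mapA (ρ g) v)`; `leaf_equi`. L, case var: `leaf_loc` and
`Vs_stA_le`.

The case and / sym: let `f` be a world on `Vn a`, `g : G`, `f'` a world on `Vn a` (= `Vn (act g a)` by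
`Vn_act`) that agrees with `sh (pr g) f` on `Vn a`. We prove (the number of the true children of
`act g a` at `f'`) = (the number of the true children of `a` at `f`), and similarly
all children are true iff all are; with `g = 1` this is L, with `f' = sh (pr g) f` it is Q. [For
`g = 1` use `act 1 = id` and `sh 0 f = f`, `pr 1 = 0`.] The children of `act g a` are
`Lit.map (act g) x`, `x ∈ S`, so the number is the number of `x ∈ S` with
`tr (Lit.map (act g) x) (ext (Vn a) (Vn a ⊔ Vn x.node) f')`. Let `W1 x :=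
sh (pr g⁻¹) (ext (Vn a) (Vn a ⊔ Vn x.node) f')` (`pr g⁻¹ = pr g` since `pr` has values in characteristic
2), `W2 x := ext (Vn a) (Vn a ⊔ Vn x.node) f`. By the induction hypothesis Q for `x.node` at the world
`W1 x`: `tr (Lit.map (act g) x) (sh (pr g) (W1 x)) ↔ tr x (W1 x)`, and `sh (pr g) (W1 x)` is the
extension of `f'`. Now `gkl` with `H = stN a`, `ac h x = Lit.map (act h) x`, `Sp x = Vn x.node`,
`Φ x f = tr x f` (hloc, hequi: the induction hypothesis for `x.node`), `W1`, `W2`: both are worlds on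
`Vn a ⊔ Vn x.node`, agree on `Vn a`, and depend only on `Vn x.node`, so are invariant
(`Vn_act`). For `and`: all children true iff the number of the FALSE children is 0: apply `gkl` with
`Φ x f = ¬ tr x f` (the sets are finite since `E.C.N` is finite: `ncard = 0 ↔ = ∅`).
-/

set_option autoImplicit false

namespace Pool.Agent.H42.CS

namespace Eng

variable {Rel : ℕ → Type} {P K G : Type} [Fintype K] [Group G] (E : Eng Rel P K G)

omit [Fintype K] in
private theorem agr_sub {g : Gad K} {U U' : Submodule (ZMod 2) (K → ZMod 2)} (hle : U ≤ U') {f f' : Wd K}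
    (h : g.Agr U' f f') : g.Agr U f f' := fun y hy hD => h y (hle hy) hD

private theorem pr_one' : E.pr 1 = 0 := by
  have h := E.pr_mul 1 1
  rw [mul_one] at h
  exact left_eq_add.1 h

private theorem pr_inv' (g : G) : E.pr g⁻¹ = E.pr g := by
  have h := E.pr_mul g g⁻¹
  rw [mul_inv_cancel, E.pr_one'] at h
  funext k
  have h2 := congrFun h k
  simp only [Pi.zero_apply, Pi.add_apply] at h2
  have h3 : ∀ a b : ZMod 2, 0 = a + b → b = a := by decide
  exact h3 _ _ h2

private theorem sh_zero' (f : Wd K) : sh 0 f = f := by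
  funext y
  simp [sh]

private theorem pr_dd (g : G) : E.pr g + E.pr g = 0 := by
  funext k
  have h3 : ∀ a : ZMod 2, a + a = 0 := by decide
  exact h3 _

private theorem tame_two (a b : E.C.N) : E.toGad.Tame (E.Vn a ⊔ E.Vn b) :=
  E.Sm_tame (E.Sm_mono (by norm_num) le_rfl (E.Sm_sup (E.Sm_Vn a) (E.Sm_Vn b)))

private theorem lit_one (x : Lit E.C.N) : Lit.map (E.act 1) x = x := by
  simp [Lit.map]

private theorem lit_mul (g h : G) (x : Lit E.C.N) :
    Lit.map (E.act (g * h)) x = Lit.map (E.act g) (Lit.map (E.act h) x) := by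
  simp [Lit.map]

private theorem count_eq {a : E.C.N} {S : Set (Lit E.C.N)} (hS : stN E.act a ≤ stS E.act S)
    (hL : ∀ x ∈ S, ∀ f f', E.toGad.IsW (E.Vn x.node) f → E.toGad.Agr (E.Vn x.node) f f' →
      (E.val x.node f ↔ E.val x.node f'))
    (hQ : ∀ x ∈ S, ∀ g f, E.toGad.IsW (E.Vn x.node) f →
      (E.val (E.act g x.node) (sh (E.pr g) f) ↔ E.val x.node f))
    (σ : Prop) (g : G) {f f' : Wd K} (hf : E.toGad.IsW (E.Vn a) f)
    (ha : E.toGad.Agr (E.Vn a) (sh (E.pr g) f) f') :
    {x | x ∈ S ∧ (E.tr (Lit.map (E.act g) x) (E.toGad.ext (E.Vn a) (E.Vn a ⊔ E.Vn x.node) f') ↔ σ)}.ncard =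
      {x | x ∈ S ∧ (E.tr x (E.toGad.ext (E.Vn a) (E.Vn a ⊔ E.Vn x.node) f) ↔ σ)}.ncard := by
  have hf' : E.toGad.IsW (E.Vn a) f' := E.toGad.isW_congr (E.toGad.isW_sh hf (E.pr g)) ha
  have h := E.gkl (stN E.act a) (fun h x => Lit.map (E.act h) x) (fun x => E.lit_one x)
    (fun g h x => E.lit_mul g h x) S
    (fun h hh x hx => by
      have h1 : Lit.map (E.act h) '' S = S := hS hh
      rw [← h1]
      exact Set.mem_image_of_mem _ hx)
    (fun x => E.Vn x.node) (fun h _ x _ => E.Vn_act h x.node)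
    (fun x f => (E.tr x f ↔ σ))
    (fun x hx f f' hf hff => by
      show ((E.val x.node f ↔ x.pos = true) ↔ σ) ↔ ((E.val x.node f' ↔ x.pos = true) ↔ σ)
      rw [hL x hx f f' hf hff])
    (fun h _ x hx f hf => by
      show ((E.val (E.act h x.node) (sh (E.pr h) f) ↔ x.pos = true) ↔ σ) ↔
        ((E.val x.node f ↔ x.pos = true) ↔ σ)
      rw [hQ x hx h f hf])
    (fun x => sh (E.pr g⁻¹) (E.toGad.ext (E.Vn a) (E.Vn a ⊔ E.Vn x.node) f'))
    (fun x => E.toGad.ext (E.Vn a) (E.Vn a ⊔ E.Vn x.node) f)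
    (fun h _ x _ => by
      show sh (E.pr g⁻¹) (E.toGad.ext (E.Vn a) (E.Vn a ⊔ E.Vn (E.act h x.node)) f') = _
      rw [E.Vn_act])
    (fun h _ x _ => by
      show E.toGad.ext (E.Vn a) (E.Vn a ⊔ E.Vn (E.act h x.node)) f = _
      rw [E.Vn_act])
    (fun x _ => E.toGad.isW_sh (E.toGad.ext_isW le_sup_left (E.tame_two a x.node) hf') _)
    (fun x _ => E.toGad.ext_isW le_sup_left (E.tame_two a x.node) hf)
    (fun x _ y hy hD => by
      have h1 := E.toGad.ext_agr (le_sup_left : E.Vn a ≤ E.Vn a ⊔ E.Vn x.node) (E.tame_two a x.node) hf' y hy hD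
      have h2 := E.toGad.ext_agr (le_sup_left : E.Vn a ≤ E.Vn a ⊔ E.Vn x.node) (E.tame_two a x.node) hf y hy hD
      have h3 := ha y hy hD
      show E.toGad.ext (E.Vn a) (E.Vn a ⊔ E.Vn x.node) f' y + E.pr g⁻¹ ⬝ᵥ y =
        E.toGad.ext (E.Vn a) (E.Vn a ⊔ E.Vn x.node) f y
      rw [← h1, ← h2, ← h3, E.pr_inv']
      show f y + E.pr g ⬝ᵥ y + E.pr g ⬝ᵥ y = f y
      have h4 : ∀ a b : ZMod 2, a + b + b = a := by decide
      exact h4 _ _)
  have hset : {x | x ∈ S ∧ (E.tr (Lit.map (E.act g) x) (E.toGad.ext (E.Vn a) (E.Vn a ⊔ E.Vn x.node) f') ↔ σ)} =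
      {x | x ∈ S ∧ (E.tr x (sh (E.pr g⁻¹) (E.toGad.ext (E.Vn a) (E.Vn a ⊔ E.Vn x.node) f')) ↔ σ)} := by
    ext x
    simp only [Set.mem_ofPred_eq]
    refine and_congr_right fun hx => ?_
    have h1 := hQ x hx g (sh (E.pr g⁻¹) (E.toGad.ext (E.Vn a) (E.Vn a ⊔ E.Vn x.node) f'))
      (E.toGad.isW_mono le_sup_right
        (E.toGad.isW_sh (E.toGad.ext_isW le_sup_left (E.tame_two a x.node) hf') _))
    rw [sh_sh, E.pr_inv', E.pr_dd, sh_zero'] at h1
    show ((E.val (E.act g x.node) (E.toGad.ext (E.Vn a) (E.Vn a ⊔ E.Vn x.node) f') ↔ x.pos = true) ↔ σ) ↔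
      ((E.val x.node (sh (E.pr g⁻¹) (E.toGad.ext (E.Vn a) (E.Vn a ⊔ E.Vn x.node) f')) ↔ x.pos = true) ↔ σ)
    rw [h1, E.pr_inv']
  rw [hset]
  exact h

private theorem val_all (m : ℕ) : ∀ a : E.C.N, E.C.rank a ≤ m → ∀ (g : G) (f f' : Wd K),
    E.toGad.IsW (E.Vn a) f → E.toGad.Agr (E.Vn a) (sh (E.pr g) f) f' →
      (E.val (E.act g a) f' ↔ E.val a f) := by
  induction m using Nat.strong_induction_on with
  | _ m ih =>
    intro a ham g f f' hf ha
    have hchild : ∀ x ∈ (E.C.gate a).children, ∀ (g : G) (f f' : Wd K),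
        E.toGad.IsW (E.Vn x.node) f → E.toGad.Agr (E.Vn x.node) (sh (E.pr g) f) f' →
        (E.val (E.act g x.node) f' ↔ E.val x.node f) := fun x hx =>
      ih (E.C.rank x.node) (lt_of_lt_of_le (E.C.rank_lt a x hx) ham) x.node le_rfl
    have hL : ∀ x ∈ (E.C.gate a).children, ∀ f f', E.toGad.IsW (E.Vn x.node) f →
        E.toGad.Agr (E.Vn x.node) f f' → (E.val x.node f ↔ E.val x.node f') := by
      intro x hx f f' hf hff
      have h1 := hchild x hx 1 f f' hf (by rw [E.pr_one', sh_zero']; exact hff)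
      rw [map_one, Equiv.Perm.one_apply] at h1
      exact h1.symm
    have hQ : ∀ x ∈ (E.C.gate a).children, ∀ g f, E.toGad.IsW (E.Vn x.node) f →
        (E.val (E.act g x.node) (sh (E.pr g) f) ↔ E.val x.node f) := fun x hx g f hf =>
      hchild x hx g f _ hf (fun y _ _ => rfl)
    have hg := E.gate_act g a
    rcases hga : E.C.gate a with v | S | ⟨A, S⟩
    · -- variable
      rw [hga] at hg
      have hg' : E.C.gate (E.act g a) = .var (mapA (E.ρ g) v) := hg
      rw [E.val_var hga, E.val_var hg', ← E.leaf_equi g v f]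
      refine (E.leaf_loc _ _ _ (agr_sub ?_ ha)).symm
      have h1 := E.Vs_stA_le hg'
      rw [E.Vn_act] at h1
      exact h1
    · -- conjunction
      rw [hga] at hg hL hQ
      have hg' : E.C.gate (E.act g a) = .and (Lit.map (E.act g) '' S) := hg
      have hc := E.count_eq (E.stN_le_and hga) hL hQ False g hf ha
      rw [E.val_and hga, E.val_and hg']
      have hfin : ∀ T : Set (Lit E.C.N), T.Finite := fun T => by
        have : Finite (Lit E.C.N) :=
          Finite.of_injective (fun x : Lit E.C.N => (x.node, x.pos)) (fun x y h => by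
            cases x; cases y; simp only [Prod.mk.injEq] at h; obtain ⟨h1, h2⟩ := h; subst h1; subst h2; rfl)
        exact Set.toFinite T
      have e1 : (∀ x ∈ S, E.tr x (E.toGad.ext (E.Vn a) (E.Vn a ⊔ E.Vn x.node) f)) ↔
          {x | x ∈ S ∧ (E.tr x (E.toGad.ext (E.Vn a) (E.Vn a ⊔ E.Vn x.node) f) ↔ False)}.ncard = 0 := by
        rw [Set.ncard_eq_zero (hfin _), Set.eq_empty_iff_forall_notMem]
        constructor
        · rintro h x ⟨hx, h2⟩
          exact h2.1 (h x hx)
        · intro h x hx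
          by_contra h2
          exact h x ⟨hx, iff_false_intro h2⟩
      have e2 : (∀ y ∈ Lit.map (E.act g) '' S, E.tr y (E.toGad.ext (E.Vn (E.act g a))
          (E.Vn (E.act g a) ⊔ E.Vn y.node) f')) ↔
          {x | x ∈ S ∧ (E.tr (Lit.map (E.act g) x) (E.toGad.ext (E.Vn a) (E.Vn a ⊔ E.Vn x.node) f') ↔
            False)}.ncard = 0 := by
        rw [Set.ncard_eq_zero (hfin _), Set.eq_empty_iff_forall_notMem, Set.forall_mem_image]
        have hn : ∀ x : Lit E.C.N, E.Vn (Lit.map (E.act g) x).node = E.Vn x.node := fun x => E.Vn_act g x.node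
        simp only [hn, E.Vn_act]
        constructor
        · rintro h x ⟨hx, h2⟩
          exact h2.1 (h hx)
        · intro h x hx
          by_contra h2
          exact h x ⟨hx, iff_false_intro h2⟩
      rw [e1, e2, hc]
    · -- symmetric gate
      rw [hga] at hg hL hQ
      have hg' : E.C.gate (E.act g a) = .sym A (Lit.map (E.act g) '' S) := hg
      have hc := E.count_eq (E.stN_le_sym hga) hL hQ True g hf ha
      rw [E.val_sym hga, E.val_sym hg']
      have e2 : E.cnt (Lit.map (E.act g) '' S) (E.Vn (E.act g a)) f' = E.cnt S (E.Vn a) f := by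
        unfold cnt
        rw [E.Vn_act]
        have e3 : {y | y ∈ Lit.map (E.act g) '' S ∧ E.tr y (E.toGad.ext (E.Vn a) (E.Vn a ⊔ E.Vn y.node) f')} =
            Lit.map (E.act g) '' {x | x ∈ S ∧ (E.tr (Lit.map (E.act g) x)
              (E.toGad.ext (E.Vn a) (E.Vn a ⊔ E.Vn x.node) f') ↔ True)} := by
          have hn : ∀ x : Lit E.C.N, E.Vn (Lit.map (E.act g) x).node = E.Vn x.node := fun x => E.Vn_act g x.node
          ext y
          constructor
          · rintro ⟨⟨x, hx, rfl⟩, h2⟩
            refine ⟨x, ⟨hx, ?_⟩, rfl⟩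
            rw [hn] at h2
            exact iff_true_intro h2
          · rintro ⟨x, ⟨hx, h2⟩, rfl⟩
            refine ⟨⟨x, hx, rfl⟩, ?_⟩
            rw [hn]
            exact h2.2 trivial
        have hinj : Function.Injective (Lit.map (E.act g) : Lit E.C.N → Lit E.C.N) := by
          intro x y h
          have h2 := congrArg (Lit.map (E.act g⁻¹)) h
          rw [← E.lit_mul, ← E.lit_mul, inv_mul_cancel, E.lit_one, E.lit_one] at h2
          exact h2
        rw [e3, Set.ncard_image_of_injective _ hinj, hc]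
        congr 1
        ext x
        simp only [Set.mem_ofPred_eq, iff_true]
      rw [e2]

theorem val_main (m : ℕ) : ∀ a : E.C.N, E.C.rank a ≤ m →
    (∀ f f', E.toGad.IsW (E.Vn a) f → E.toGad.Agr (E.Vn a) f f' → (E.val a f ↔ E.val a f')) ∧
      ∀ g f, E.toGad.IsW (E.Vn a) f → (E.val (E.act g a) (sh (E.pr g) f) ↔ E.val a f) := by
  intro a ha
  refine ⟨fun f f' hf hff => ?_, fun g f hf => E.val_all m a ha g f _ hf (fun y _ _ => rfl)⟩
  have h1 := E.val_all m a ha 1 f f' hf (by rw [E.pr_one', sh_zero']; exact hff)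
  rw [map_one, Equiv.Perm.one_apply] at h1
  exact h1.symm

theorem tr_loc {x : Lit E.C.N} {f f' : Wd K} (hf : E.toGad.IsW (E.Vn x.node) f)
    (ha : E.toGad.Agr (E.Vn x.node) f f') : E.tr x f ↔ E.tr x f' := by
  unfold tr
  rw [(E.val_main _ x.node le_rfl).1 f f' hf ha]

theorem tr_equi (g : G) {x : Lit E.C.N} {f : Wd K} (hf : E.toGad.IsW (E.Vn x.node) f) :
    E.tr (Lit.map (E.act g) x) (sh (E.pr g) f) ↔ E.tr x f := by
  show (E.val (E.act g x.node) (sh (E.pr g) f) ↔ x.pos = true) ↔ (E.val x.node f ↔ x.pos = true)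
  rw [(E.val_main _ x.node le_rfl).2 g f hf]

theorem tr_neg (x : Lit E.C.N) (f : Wd K) : E.tr x.neg f ↔ ¬ E.tr x f := by
  show (E.val x.node f ↔ (!x.pos) = true) ↔ ¬ (E.val x.node f ↔ x.pos = true)
  cases x.pos <;> simp

end Eng

end Pool.Agent.H42.CS
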