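import Pool.Agent.H42.CS.Par

/-!
# The number of the true items of a vertex is even: the cases

PROOF of `vert_count`: `Dn.cnt` with `X = XX q`, `W` the set of the signed nodes `⟨it c, true⟩`, `c` in
the range of `w` (as `some`), `un ⟨it c, _⟩ = u1 (decide (∃ i, w i = some c)) c` (and anything, e.g.
`tot`, at other signed nodes), `p = pt q w`, `a = ev q`.
PROOF of `vert_norep`: `rep q` is refuted (`rep_false`), so `yy σ q` is derived for all `σ` (`y_norep`) and
every item of `XX q` is refuted (`item_noy`; `it (ze q)` has the member `rep q`): `vert_count` with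
`w = fun _ => none`.
PROOF of `vert_case`: `rep q` is derived (`rep_true`). For `σ ∈ W`: `⟨yy σ q, false⟩` (`y_true`), for
`σ ∉ W`: `⟨yy σ q, true⟩` (`y_false`). The true items: `it (z true a q (p (a, true)))` for
`(a, true) ∈ W` (`par_item`), `it (z false a (p (a, false)) q)` for `(a, false) ∈ W` (`rap_item`),
`it (ze q)` if `z = true`. All the other items of `XX q` are refuted: `item_noy` for slots outside `W`,
`par_other`, `rap_other` for the slots in `W`, and `it (ze q)` if `z = false`. The number of the true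
items is `W.card + (if z then 1 else 0)`: even by `hpar`; at most `2 d + 1`, so they can be listed by a
function `w : Fin (2 d + 1) → Option (Cn d n)` (the slots are `2 d` many: `Fintype.card (Slot d) =
d * 2`). `vert_count`.
-/

set_option autoImplicit false

namespace Pool.Agent.H42.CS

variable {d n l : ℕ} {Γ : Set (Lit (Nd d n))}

/-- the members of `XX q` -/
private theorem ve_mem {q : Fin n} {x : Lit (Nd d n)} (hx : x ∈ XX q) :
    ∃ c : Cn d n, x = ⟨.it c, true⟩ := by
  rcases hx with ⟨a, q', rfl⟩ | ⟨a, q', rfl⟩ | rfl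
  · exact ⟨_, rfl⟩
  · exact ⟨_, rfl⟩
  · exact ⟨_, rfl⟩

private theorem ve_it {c c' : Cn d n} (h : (⟨.it c, true⟩ : Lit (Nd d n)) = ⟨.it c', true⟩) :
    c = c' := by
  rw [Lit.mk.injEq, Nd.it.injEq] at h
  exact h.1

open Classical in
/-- the unit gates -/
private noncomputable def veUn (w : Fin (2 * d + 1) → Option (Cn d n)) (x : Lit (Nd d n)) :
    Nd d n :=
  match x.node with
  | .it c => .u1 (decide (∃ i, w i = some c)) c
  | _ => .tot

theorem vert_count {q : Fin n} (w : Fin (2 * d + 1) → Option (Cn d n))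
    (hw : ∀ i c, w i = some c → (⟨.it c, true⟩ : Lit (Nd d n)) ∈ XX q)
    (hev : Even {c : Cn d n | ∃ i, w i = some c}.ncard)
    (h : ∀ c : Cn d n, (⟨.it c, true⟩ : Lit (Nd d n)) ∈ XX q →
      ((∃ i, w i = some c) → DD l Γ ⟨.it c, true⟩) ∧
        ((¬ ∃ i, w i = some c) → DD l Γ ⟨.it c, false⟩)) :
    DD (l + 6) Γ ⟨.ev q, true⟩ := by
  classical
  obtain ⟨W, hWd⟩ : ∃ W : Set (Lit (Nd d n)), W =
      (fun c : Cn d n => (⟨.it c, true⟩ : Lit (Nd d n))) '' {c : Cn d n | ∃ i, w i = some c} :=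
    ⟨_, rfl⟩
  have hWm : ∀ c : Cn d n, (⟨.it c, true⟩ : Lit (Nd d n)) ∈ W ↔ ∃ i, w i = some c := by
    intro c
    rw [hWd]
    constructor
    · rintro ⟨c', hc', h1⟩
      rw [← ve_it h1]
      exact hc'
    · intro h1
      exact ⟨c, h1, rfl⟩
  have hWX : W ⊆ XX q := by
    rw [hWd]
    rintro x ⟨c, ⟨i, hi⟩, rfl⟩
    exact hw i c hi
  have hcard : W.ncard = {c : Cn d n | ∃ i, w i = some c}.ncard := by
    rw [hWd]
    exact Set.ncard_image_of_injective _ fun c c' h1 => ve_it h1
  refine Dn.cnt (C := CC d n) (X := XX q) (W := W) (A := Ev) (a := .ev q) (p := .pt q w)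
    (veUn w) hWX ?_ ?_ rfl ?_ ?_ ?_
  · intro x hx
    obtain ⟨c, rfl⟩ := ve_mem hx
    show gt (.u1 (decide (∃ i, w i = some c)) c) = _
    by_cases hc : ∃ i, w i = some c
    · rw [if_pos ((hWm c).2 hc), decide_eq_true hc]
      rfl
    · rw [if_neg (fun h1 => hc ((hWm c).1 h1)), decide_eq_false hc]
      rfl
  · show gt (.pt q w) = _
    simp only [gt]
    congr 1
    ext y
    constructor
    · rintro ⟨c, hc, rfl⟩
      exact ⟨_, hc, rfl⟩
    · rintro ⟨x, hx, rfl⟩
      obtain ⟨c, rfl⟩ := ve_mem hx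
      exact ⟨c, hx, rfl⟩
  · show Even W.ncard
    rw [hcard]
    exact hev
  · intro x hx
    obtain ⟨c, rfl⟩ := ve_mem (hWX hx)
    exact (h c (hWX hx)).1 ((hWm c).1 hx)
  · intro x hx hxW
    obtain ⟨c, rfl⟩ := ve_mem hx
    exact (h c hx).2 fun h1 => hxW ((hWm c).2 h1)

theorem vert_norep {q p : Fin n} (hp : p < q) (h : DD l Γ ⟨.vE p q, true⟩) :
    DD (l + 30) Γ ⟨.ev q, true⟩ := by
  have h1 : DD (l + 3) Γ ⟨.rep q, false⟩ := rep_false hp h
  have h2 : ∀ σ : Slot d, DD (l + 3 + 10) Γ ⟨.yy σ q, true⟩ := fun σ => y_norep h1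
  have h3 : DD (l + 16 + 6) Γ ⟨.ev q, true⟩ := by
    refine vert_count (fun _ => none) ?_ ?_ ?_
    · intro i c hc
      exact absurd hc (by simp)
    · have e : {c : Cn d n | ∃ i : Fin (2 * d + 1), (none : Option (Cn d n)) = some c} = ∅ := by
        ext c
        simp
      rw [e, Set.ncard_empty]
      exact Even.zero
    · intro c hc
      refine ⟨fun ⟨i, hi⟩ => absurd hi (by simp), fun _ => ?_⟩
      rcases hc with ⟨a, q', h4⟩ | ⟨a, q', h4⟩ | h4
      · rw [ve_it h4]
        exact item_noy.1 (h2 (a, true))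
      · rw [ve_it h4]
        exact item_noy.2 (h2 (a, false))
      · rw [ve_it h4]
        have h5 : DD (l + 3 + 3) Γ ⟨.it (.ze q), false⟩ :=
          Dn.andF (C := CC d n) (a := .it (.ze q)) (x := ⟨.rep q, true⟩) rfl (Or.inl rfl) h1
        exact Dn.le h5 (by omega)
  exact Dn.le h3 (by omega)

private theorem ve_list {α : Type} (S : Finset α) {m : ℕ} (h : S.card ≤ m) :
    ∃ w : Fin m → Option α, ∀ c, (∃ i, w i = some c) ↔ c ∈ S := by
  refine ⟨fun i => S.toList[i.1]?, fun c => ?_⟩
  rw [← Finset.mem_toList, List.mem_iff_getElem?]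
  constructor
  · rintro ⟨i, hi⟩
    exact ⟨i.1, hi⟩
  · rintro ⟨k, hk⟩
    obtain ⟨hk1, -⟩ := List.getElem?_eq_some_iff.1 hk
    rw [Finset.length_toList] at hk1
    exact ⟨⟨k, lt_of_lt_of_le hk1 h⟩, hk⟩

/-- the item of a slot -/
private def veI (q : Fin n) (p : Slot d → Fin n) (σ : Slot d) : Cn d n :=
  match σ with
  | (a, true) => .z true a q (p (a, true))
  | (a, false) => .z false a (p (a, false)) q

private theorem veI_inj (q : Fin n) (p : Slot d → Fin n) : Function.Injective (veI q p) := by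
  rintro ⟨a, b⟩ ⟨a', b'⟩ h
  cases b <;> cases b' <;> simp_all [veI]

private theorem veI_ze (q : Fin n) (p : Slot d → Fin n) (σ : Slot d) : veI q p σ ≠ .ze q := by
  obtain ⟨a, b⟩ := σ
  cases b <;> simp [veI]

open Classical in
theorem vert_case {q : Fin n} (hrep : ∀ p, p < q → DD l Γ ⟨.vE p q, false⟩)
    (u : Sym2 (Slot d) → Fin n) (hu : ∀ τ, Lst l Γ τ q (u τ)) (W : Finset (Slot d))
    (hW : ∀ σ, DD l Γ ⟨.vR σ q (fun t => u s(σ, t)), decide (σ ∈ W)⟩) (z : Bool)
    (hz : DD l Γ ⟨.vZ q, z⟩) (hpar : Even W.card ↔ z = false) (p : Slot d → Fin n)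
    (hp1 : ∀ a, (a, true) ∈ W → DD l Γ ⟨.vJ a q (p (a, true)), true⟩ ∧
      ∀ p', p' < p (a, true) → DD l Γ ⟨.vJ a q p', false⟩)
    (hp2 : ∀ a, (a, false) ∈ W → DD l Γ ⟨.vJ a (p (a, false)) q, true⟩ ∧
      ∀ p', p' < p (a, false) → DD l Γ ⟨.vJ a p' q, false⟩) :
    DD (l + 60) Γ ⟨.ev q, true⟩ := by
  have hr : DD (l + 2) Γ ⟨.rep q, true⟩ := rep_true hrep
  have hy1 : ∀ σ ∈ W, DD (l + 12) Γ ⟨.yy σ q, false⟩ := by
    intro σ hσ
    have h1 := hW σ
    rw [decide_eq_true hσ] at h1
    have h2 : DD (l + 2 + 10) Γ ⟨.yy σ q, false⟩ :=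
      y_true hr (fun t => ⟨Dn.le (hu s(σ, t)).1 (by omega),
        fun u' hu' => Dn.le ((hu s(σ, t)).2 u' hu') (by omega)⟩) (Dn.le h1 (by omega))
    exact h2
  have hy0 : ∀ σ, σ ∉ W → DD (l + 10) Γ ⟨.yy σ q, true⟩ := by
    intro σ hσ
    have h1 := hW σ
    rw [decide_eq_false hσ] at h1
    exact y_false (fun t => hu s(σ, t)) h1
  obtain ⟨S, hS⟩ : ∃ S : Finset (Cn d n), S = W.image (veI q p) ∪
      (if z = true then {.ze q} else ∅) := ⟨_, rfl⟩
  have hSm : ∀ c, c ∈ S ↔ (∃ σ ∈ W, veI q p σ = c) ∨ (z = true ∧ c = .ze q) := by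
    intro c
    rw [hS, Finset.mem_union, Finset.mem_image]
    cases z <;> simp
  have hdisj : Disjoint (W.image (veI q p)) (if z = true then {(.ze q : Cn d n)} else ∅) := by
    rw [Finset.disjoint_left]
    intro c hc hc'
    obtain ⟨σ, hσ, rfl⟩ := Finset.mem_image.1 hc
    cases z
    · simp at hc'
    · simp only [if_true, Finset.mem_singleton] at hc'
      exact veI_ze q p σ hc'
  have hSc : S.card = W.card + (if z = true then 1 else 0) := by
    rw [hS, Finset.card_union_of_disjoint hdisj, Finset.card_image_of_injective _ (veI_inj q p)]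
    cases z <;> simp
  have hWc : W.card ≤ d * 2 := by
    have h1 := Finset.card_le_univ W
    rwa [Fintype.card_prod, Fintype.card_fin, Fintype.card_bool] at h1
  have hSle : S.card ≤ 2 * d + 1 := by
    rw [hSc]
    split_ifs <;> omega
  have hSev : Even S.card := by
    rw [hSc]
    cases z
    · simpa using hpar.2 rfl
    · have h1 : ¬ Even W.card := fun h2 => absurd (hpar.1 h2) (by simp)
      rw [if_pos rfl]
      exact Nat.even_add_one.2 h1
  obtain ⟨w, hw⟩ := ve_list S hSle
  have key : DD (l + 36 + 6) Γ ⟨.ev q, true⟩ := by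
    refine vert_count w ?_ ?_ ?_
    · intro i c hi
      have h1 := (hw c).1 ⟨i, hi⟩
      rcases (hSm c).1 h1 with ⟨⟨a, b⟩, hσ, rfl⟩ | ⟨-, rfl⟩
      · cases b
        · exact Or.inr (Or.inl ⟨a, p (a, false), rfl⟩)
        · exact Or.inl ⟨a, p (a, true), rfl⟩
      · exact Or.inr (Or.inr rfl)
    · have e : {c : Cn d n | ∃ i, w i = some c} = (S : Set (Cn d n)) := by
        ext c
        exact hw c
      rw [e, Set.ncard_coe_finset]
      exact hSev
    · intro c hc
      refine ⟨fun h1 => ?_, fun h1 => ?_⟩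
      · rcases (hSm c).1 ((hw c).1 h1) with ⟨⟨a, b⟩, hσ, rfl⟩ | ⟨hzt, rfl⟩
        · cases b
          · obtain ⟨h2, h3⟩ := hp2 a hσ
            have h4 : DD (l + 12 + 24) Γ ⟨.it (.z false a (p (a, false)) q), true⟩ :=
              rap_item (Dn.le h2 (by omega)) (fun p' hp' => Dn.le (h3 p' hp') (by omega))
                (hy1 _ hσ)
            exact h4
          · obtain ⟨h2, h3⟩ := hp1 a hσ
            have h4 : DD (l + 12 + 24) Γ ⟨.it (.z true a q (p (a, true))), true⟩ :=
              par_item (Dn.le h2 (by omega)) (fun p' hp' => Dn.le (h3 p' hp') (by omega))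
                (hy1 _ hσ)
            exact h4
        · rw [hzt] at hz
          have h4 : DD (l + 2 + 2) Γ ⟨.it (.ze q), true⟩ := by
            refine Dn.andT (C := CC d n) (a := .it (.ze q)) rfl ?_
            rintro x (rfl | rfl)
            · exact hr
            · exact Dn.le hz (by omega)
          exact Dn.le h4 (by omega)
      · rw [hw, hSm] at h1
        push Not at h1
        obtain ⟨h1, h2⟩ := h1
        rcases hc with ⟨a, q', h4⟩ | ⟨a, q', h4⟩ | h4
        · have h5 := ve_it h4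
          rw [h5] at h1 ⊢
          by_cases hσ : (a, true) ∈ W
          · obtain ⟨h6, h7⟩ := hp1 a hσ
            have h8 : q' ≠ p (a, true) := by
              rintro rfl
              exact h1 (a, true) hσ rfl
            have h9 : DD (l + 20) Γ ⟨.it (.z true a q q'), false⟩ := par_other h6 h7 h8
            exact Dn.le h9 (by omega)
          · have h9 : DD (l + 10 + 3) Γ ⟨.it (.z true a q q'), false⟩ :=
              item_noy.1 (hy0 _ hσ)
            exact Dn.le h9 (by omega)
        · have h5 := ve_it h4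
          rw [h5] at h1 ⊢
          by_cases hσ : (a, false) ∈ W
          · obtain ⟨h6, h7⟩ := hp2 a hσ
            have h8 : q' ≠ p (a, false) := by
              rintro rfl
              exact h1 (a, false) hσ rfl
            have h9 : DD (l + 20) Γ ⟨.it (.z false a q' q), false⟩ := rap_other h6 h7 h8
            exact Dn.le h9 (by omega)
          · have h9 : DD (l + 10 + 3) Γ ⟨.it (.z false a q' q), false⟩ :=
              item_noy.2 (hy0 _ hσ)
            exact Dn.le h9 (by omega)
        · have h5 := ve_it h4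
          rw [h5] at h2 ⊢
          have hzf : z = false := by
            cases z
            · rfl
            · exact absurd rfl (h2 rfl)
          rw [hzf] at hz
          have h9 : DD (l + 3) Γ ⟨.it (.ze q), false⟩ :=
            Dn.andF (C := CC d n) (a := .it (.ze q)) (x := ⟨.vZ q, true⟩) rfl (Or.inr rfl) hz
          exact Dn.le h9 (by omega)
  exact Dn.le key (by omega)

end Pool.Agent.H42.CS
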