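import Pool.Agent.H42.CS.Ve1

/-!
# The number of the true items of a vertex is even: assembly

PROOF of `vert`. It is enough to refute `Γ0 = {⟨ev q, false⟩}`. All searches below are `Pn.search`; the
number of the steps of the case distinction depends on `d` only, each raises the level by a constant.
(1) Search `i ↦ vE i q`: the first `i` with `vE i q` true: if `i < q`: `vert_norep`. If `i ≥ q`, or if all
are false: all `vE p q`, `p < q`, are assumed false: go on with (2).
(2) `search_labels` with `S = univ`: `u`.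
(3) For every `σ` cut with `vR σ q (fun t => u s(σ, t))`: (induction over a `Finset` of slots, or over
subsets: lemma `cut_slots`) `W` = the set of the `σ` for which it is assumed true. (4) Cut with `vZ q`:
`z`. If not (`Even W.card ↔ z = false`): i.e. `z = decide (Even W.card)`: the clause `vcl W q u` is
refuted: `pn_ins` with v8: contradiction. (5) For every `σ ∈ W` search the partner (lemma
`search_partners`, induction over a `Finset`): for `σ = (a, true)`: `Pn.search` with `p ↦ vJ a q p`; all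
false: contradiction by `pn_ins` with rp (`vR (a, true) q _` is assumed true); for `σ = (a, false)`:
`p ↦ vJ a p q` and rn. (6) `vert_case`: `⟨ev q, true⟩` is derived: contradiction with `Γ0`
(`Dn.contra`).
All assumptions stay in the set (`Dn.mem`); sets of assumptions only matter up to inclusion
(`Pn.mono`, `Dn.mono`).
-/

set_option autoImplicit false

namespace Pool.Agent.H42.CS

variable {d n l : ℕ} {Γ : Set (Lit (Nd d n))}

open Classical in
theorem cut_slots (q : Fin n) (u : Sym2 (Slot d) → Fin n) (S : Finset (Slot d))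
    (h : ∀ W : Finset (Slot d), W ⊆ S →
      PP l (Γ ∪ {x | ∃ σ ∈ S, x = ⟨.vR σ q (fun t => u s(σ, t)), decide (σ ∈ W)⟩})) :
    PP (l + 1 + 3 * S.card) Γ := by
  induction S using Finset.induction_on generalizing Γ l with
  | empty =>
    refine Pn.mono (h ∅ (Finset.Subset.refl _)) ?_ (by omega)
    rintro x (hx | ⟨σ, hσ, -⟩)
    · exact hx
    · exact absurd hσ (Finset.notMem_empty σ)
  | insert σ S hσ ih =>
    rw [Finset.card_insert_of_notMem hσ]
    have key : ∀ b : Bool, PP (l + 1 + 1 + 3 * S.card)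
        (insert (⟨.vR σ q (fun t => u s(σ, t)), b⟩ : Lit (Nd d n)) Γ) := by
      intro b
      refine ih (l := l + 1) fun W hW => ?_
      cases b with
      | false =>
        refine Pn.mono (h W (hW.trans (Finset.subset_insert _ _))) ?_ (Nat.lt_succ_self l)
        rintro x (hx | ⟨σ', hσ', rfl⟩)
        · exact Or.inl (Or.inr hx)
        · rcases Finset.mem_insert.1 hσ' with rfl | hS
          · have hn : σ' ∉ W := fun h1 => hσ (hW h1)
            refine Or.inl (Or.inl ?_)
            rw [decide_eq_false hn]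
          · exact Or.inr ⟨σ', hS, rfl⟩
      | true =>
        refine Pn.mono (h (insert σ W) (Finset.insert_subset_insert _ hW)) ?_ (Nat.lt_succ_self l)
        rintro x (hx | ⟨σ', hσ', rfl⟩)
        · exact Or.inl (Or.inr hx)
        · rcases Finset.mem_insert.1 hσ' with rfl | hS
          · refine Or.inl (Or.inl ?_)
            rw [decide_eq_true (Finset.mem_insert_self _ _)]
          · refine Or.inr ⟨σ', hS, ?_⟩
            have hne : σ' ≠ σ := fun h2 => hσ (h2 ▸ hS)
            have e : (σ' ∈ insert σ W) = (σ' ∈ W) := by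
              rw [Finset.mem_insert]
              exact propext ⟨fun h1 => h1.resolve_left hne, Or.inr⟩
            simp only [e]
    have h1 : PP (l + 1 + 1 + 3 * S.card + 1) Γ :=
      Pn.cut (⟨.vR σ q (fun t => u s(σ, t)), true⟩ : Lit (Nd d n)) (key true) (key false)
    exact Pn.le h1 (by omega)

/-- The facts about the partners of the slots in `S`. -/
def ParS (q : Fin n) (p : Slot d → Fin n) (S : Finset (Slot d)) : Set (Lit (Nd d n)) :=
  {x | ∃ a, (a, true) ∈ S ∧ (x = ⟨.vJ a q (p (a, true)), true⟩ ∨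
    ∃ p', p' < p (a, true) ∧ x = ⟨.vJ a q p', false⟩)} ∪
  {x | ∃ a, (a, false) ∈ S ∧ (x = ⟨.vJ a (p (a, false)) q, true⟩ ∨
    ∃ p', p' < p (a, false) ∧ x = ⟨.vJ a p' q, false⟩)}

/-- one slot -/
private theorem search_J (q : Fin n) (σ : Slot d) (w : Slot d → Fin n)
    (hσ : (⟨.vR σ q w, true⟩ : Lit (Nd d n)) ∈ Γ)
    (h : ∀ v : Fin n, PP l (Γ ∪
      {(if σ.2 then ⟨.vJ σ.1 q v, true⟩ else ⟨.vJ σ.1 v q, true⟩ : Lit (Nd d n))} ∪
      {x | ∃ p', p' < v ∧
        x = (if σ.2 then ⟨.vJ σ.1 q p', false⟩ else ⟨.vJ σ.1 p' q, false⟩ : Lit (Nd d n))})) :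
    PP (l + 5) Γ := by
  obtain ⟨a, b⟩ := σ
  cases b with
  | true =>
    have h1 : PP (l + 2) (Γ ∪ {x | ∃ u, x = (⟨.vJ a q u, false⟩ : Lit (Nd d n))}) := by
      refine pn_ins (Ins.rp a q w) ?_
      rintro x (rfl | ⟨u, rfl⟩)
      · exact ⟨.vR (a, true) q w, rfl, Dn.mem (Or.inl hσ)⟩
      · exact ⟨.vJ a q u, rfl, Dn.mem (Or.inr ⟨u, rfl⟩)⟩
    have h2 : PP (l + 2 + 2) Γ :=
      Pn.search (C := CC d n) (fun u => Nd.vJ a q u) (fun u v huv => by
        injection huv) (fun u => Pn.le (h u) (by omega)) h1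
    exact Pn.le h2 (by omega)
  | false =>
    have h1 : PP (l + 2) (Γ ∪ {x | ∃ u, x = (⟨.vJ a u q, false⟩ : Lit (Nd d n))}) := by
      refine pn_ins (Ins.rn a q w) ?_
      rintro x (rfl | ⟨u, rfl⟩)
      · exact ⟨.vR (a, false) q w, rfl, Dn.mem (Or.inl hσ)⟩
      · exact ⟨.vJ a u q, rfl, Dn.mem (Or.inr ⟨u, rfl⟩)⟩
    have h2 : PP (l + 2 + 2) Γ :=
      Pn.search (C := CC d n) (fun u => Nd.vJ a u q) (fun u v huv => by
        injection huv) (fun u => Pn.le (h u) (by omega)) h1
    exact Pn.le h2 (by omega)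

theorem search_partners (q : Fin n) (u : Sym2 (Slot d) → Fin n) (S : Finset (Slot d))
    (hS : ∀ σ ∈ S, (⟨.vR σ q (fun t => u s(σ, t)), true⟩ : Lit (Nd d n)) ∈ Γ)
    (h : ∀ p : Slot d → Fin n, PP l (Γ ∪ ParS q p S)) : PP (l + 1 + 8 * S.card) Γ := by
  classical
  induction S using Finset.induction_on generalizing Γ l with
  | empty =>
    refine Pn.mono (h (fun _ => q)) ?_ (by omega)
    rintro x (hx | (⟨a, ha, -⟩ | ⟨a, ha, -⟩))
    · exact hx
    · exact absurd ha (Finset.notMem_empty _)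
    · exact absurd ha (Finset.notMem_empty _)
  | insert σ S hσ ih =>
    rw [Finset.card_insert_of_notMem hσ]
    have h1 : PP (l + 1 + 1 + 8 * S.card + 5) Γ := by
      refine search_J q σ _ (hS σ (Finset.mem_insert_self _ _)) fun v => ?_
      refine ih (l := l + 1) (fun σ' hσ' => Or.inl (Or.inl
        (hS σ' (Finset.mem_insert_of_mem hσ')))) fun p => ?_
      refine Pn.mono (h (Function.update p σ v)) ?_ (Nat.lt_succ_self l)
      rintro x (hx | (⟨a, ha, hx⟩ | ⟨a, ha, hx⟩))
      · exact Or.inl (Or.inl (Or.inl hx))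
      · rcases Finset.mem_insert.1 ha with rfl | hS'
        · rw [Function.update_self] at hx
          rcases hx with rfl | ⟨u', hu', rfl⟩
          · exact Or.inl (Or.inl (Or.inr rfl))
          · exact Or.inl (Or.inr ⟨u', hu', rfl⟩)
        · have hne : (a, true) ≠ σ := fun h2 => hσ (h2 ▸ hS')
          rw [Function.update_of_ne hne] at hx
          exact Or.inr (Or.inl ⟨a, hS', hx⟩)
      · rcases Finset.mem_insert.1 ha with rfl | hS'
        · rw [Function.update_self] at hx
          rcases hx with rfl | ⟨u', hu', rfl⟩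
          · exact Or.inl (Or.inl (Or.inr rfl))
          · exact Or.inl (Or.inr ⟨u', hu', rfl⟩)
        · have hne : (a, false) ≠ σ := fun h2 => hσ (h2 ▸ hS')
          rw [Function.update_of_ne hne] at hx
          exact Or.inr (Or.inr ⟨a, hS', hx⟩)
    exact Pn.le h1 (by omega)

/-- The assumptions of the case distinction, once no `vE p q` with `p < q` is true. -/
private theorem vert_main (q : Fin n) (hΓ : ∀ p, p < q → (⟨.vE p q, false⟩ : Lit (Nd d n)) ∈ Γ)
    (h0 : (⟨.ev q, false⟩ : Lit (Nd d n)) ∈ Γ) :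
    PP (l + 80 + 8 * Fintype.card (Slot d) + 3 * Fintype.card (Slot d) +
      6 * Fintype.card (Sym2 (Slot d))) Γ := by
  classical
  have hlab := search_labels (Γ := Γ) (l := l + 79 + 8 * Fintype.card (Slot d) +
    3 * Fintype.card (Slot d)) (Finset.univ : Finset (Sym2 (Slot d))) q ?_
  · rw [Finset.card_univ] at hlab
    exact Pn.le hlab (by omega)
  intro u
  have hcut := cut_slots (Γ := Γ ∪ LabS Finset.univ q u) (l := l + 78 + 8 * Fintype.card (Slot d))
    q u (Finset.univ : Finset (Slot d)) ?_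
  · rw [Finset.card_univ] at hcut
    exact Pn.le hcut (by omega)
  intro W _
  obtain ⟨Δ, hΔ⟩ : ∃ Δ : Set (Lit (Nd d n)), Δ = Γ ∪ LabS Finset.univ q u ∪
    {x | ∃ σ ∈ (Finset.univ : Finset (Slot d)),
      x = ⟨.vR σ q (fun t => u s(σ, t)), decide (σ ∈ W)⟩} := ⟨_, rfl⟩
  rw [← hΔ]
  have hΓΔ : Γ ⊆ Δ := by
    rw [hΔ]
    exact fun x hx => Or.inl (Or.inl hx)
  have hlabΔ : LabS Finset.univ q u ⊆ Δ := by
    rw [hΔ]
    exact fun x hx => Or.inl (Or.inr hx)
  have hRΔ : ∀ σ, (⟨.vR σ q (fun t => u s(σ, t)), decide (σ ∈ W)⟩ : Lit (Nd d n)) ∈ Δ := by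
    intro σ
    rw [hΔ]
    exact Or.inr ⟨σ, Finset.mem_univ _, rfl⟩
  have key : ∀ z : Bool, PP (l + 77 + 8 * Fintype.card (Slot d))
      (insert (⟨.vZ q, z⟩ : Lit (Nd d n)) Δ) := by
    intro z
    by_cases hpar : Even W.card ↔ z = false
    · have hsp := search_partners (Γ := insert (⟨.vZ q, z⟩ : Lit (Nd d n)) Δ) (l := l + 76) q u W ?_ ?_
      · refine Pn.le hsp ?_
        have := Finset.card_le_univ W
        omega
      · intro σ hσ
        have h1 := hRΔ σ
        rw [decide_eq_true hσ] at h1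
        exact Or.inr h1
      · intro p
        have hsub : Δ ⊆ insert (⟨.vZ q, z⟩ : Lit (Nd d n)) Δ ∪ ParS q p W := fun x hx =>
          Or.inl (Or.inr hx)
        have h2 := vert_case (Γ := insert (⟨.vZ q, z⟩ : Lit (Nd d n)) Δ ∪ ParS q p W) (l := l)
          (q := q) (fun p' hp' => Dn.mem (hsub (hΓΔ (hΓ p' hp')))) u
          (fun τ => ⟨Dn.mem (hsub (hlabΔ ⟨τ, Finset.mem_univ _, Or.inl rfl⟩)),
            fun u' hu' => Dn.mem (hsub (hlabΔ ⟨τ, Finset.mem_univ _, Or.inr ⟨u', hu', rfl⟩⟩))⟩)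
          W (fun σ => Dn.mem (hsub (hRΔ σ))) z (Dn.mem (Or.inl (Or.inl rfl))) hpar p
          (fun a ha => ⟨Dn.mem (Or.inr (Or.inl ⟨a, ha, Or.inl rfl⟩)),
            fun p' hp' => Dn.mem (Or.inr (Or.inl ⟨a, ha, Or.inr ⟨p', hp', rfl⟩⟩))⟩)
          (fun a ha => ⟨Dn.mem (Or.inr (Or.inr ⟨a, ha, Or.inl rfl⟩)),
            fun p' hp' => Dn.mem (Or.inr (Or.inr ⟨a, ha, Or.inr ⟨p', hp', rfl⟩⟩))⟩)
        have h3 : DD (l + 60) (insert (⟨.vZ q, z⟩ : Lit (Nd d n)) Δ ∪ ParS q p W)
            (Lit.neg ⟨.ev q, true⟩) := Dn.mem (hsub (hΓΔ h0))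
        exact Pn.le (Dn.contra h2 h3) (by omega)
    · have h1 : PP (l + 2) (insert (⟨.vZ q, z⟩ : Lit (Nd d n)) Δ) := by
        refine pn_ins (Ins.v8 W q u) ?_
        have hz : z = !(decide (¬ Even W.card)) := by
          cases z
          · by_cases hE : Even W.card
            · exact absurd (iff_of_true hE rfl) hpar
            · rw [decide_eq_true hE]
              rfl
          · by_cases hE : Even W.card
            · rw [decide_eq_false (not_not_intro hE)]
              rfl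
            · exact absurd (iff_of_false hE (by simp)) hpar
        rintro x ((⟨τ, rfl⟩ | ⟨σ, rfl⟩) | rfl)
        · exact ⟨.vF τ q (u τ), rfl,
            Dn.mem (Or.inr (hlabΔ ⟨τ, Finset.mem_univ _, Or.inl rfl⟩))⟩
        · refine ⟨.vR σ q (fun t => u s(σ, t)), rfl, Dn.mem (Or.inr ?_)⟩
          have e : (!(decide (σ ∉ W))) = decide (σ ∈ W) := by
            by_cases hW : σ ∈ W
            · rw [decide_eq_true hW, decide_eq_false (not_not_intro hW)]
              rfl
            · rw [decide_eq_false hW, decide_eq_true hW]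
              rfl
          have h1 := hRΔ σ
          rw [← e] at h1
          exact h1
        · exact ⟨.vZ q, rfl, Dn.mem (Or.inl (by rw [← hz]))⟩
      exact Pn.le h1 (by omega)
  have h1 : PP (l + 77 + 8 * Fintype.card (Slot d) + 1) Δ :=
    Pn.cut (⟨.vZ q, true⟩ : Lit (Nd d n)) (key true) (key false)
  exact Pn.le h1 (by omega)

theorem vert (d : ℕ) : ∃ l : ℕ, ∀ (n : ℕ) (q : Fin n),
    DD l (∅ : Set (Lit (Nd d n))) ⟨.ev q, true⟩ := by
  refine ⟨80 + 8 * Fintype.card (Slot d) + 3 * Fintype.card (Slot d) +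
    6 * Fintype.card (Sym2 (Slot d)) + 1 + 2, fun n q => ?_⟩
  have h0 : Pn (T d) (CC d n) (80 + 8 * Fintype.card (Slot d) + 3 * Fintype.card (Slot d) +
    6 * Fintype.card (Sym2 (Slot d)) + 1 + 2)
      (insert (⟨.ev q, false⟩ : Lit (Nd d n)) (∅ : Set (Lit (Nd d n)))) := by
    refine Pn.search (C := CC d n) (fun i => Nd.vE i q) (fun u v huv => by
      injection huv) (fun i => ?_) ?_
    · by_cases hi : i < q
      · have h1 : DD 1 (insert (⟨.ev q, false⟩ : Lit (Nd d n)) (∅ : Set (Lit (Nd d n))) ∪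
            {⟨.vE i q, true⟩} ∪ {x | ∃ j, j < i ∧ x = ⟨.vE j q, false⟩}) ⟨.vE i q, true⟩ :=
          Dn.mem (Or.inl (Or.inr rfl))
        have h2 := vert_norep hi h1
        have h3 : DD (1 + 30) (insert (⟨.ev q, false⟩ : Lit (Nd d n)) (∅ : Set (Lit (Nd d n))) ∪
            {⟨.vE i q, true⟩} ∪ {x | ∃ j, j < i ∧ x = ⟨.vE j q, false⟩})
            (Lit.neg ⟨.ev q, true⟩) := Dn.mem (Or.inl (Or.inl (Or.inl rfl)))
        exact Pn.le (Dn.contra h2 h3) (by omega)
      · have h1 := vert_main (l := 0) (Γ := insert (⟨.ev q, false⟩ : Lit (Nd d n))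
          (∅ : Set (Lit (Nd d n))) ∪
            {⟨.vE i q, true⟩} ∪ {x | ∃ j, j < i ∧ x = ⟨.vE j q, false⟩}) q
          (fun p hp => Or.inr ⟨p, lt_of_lt_of_le hp (not_lt.1 hi), rfl⟩)
          (Or.inl (Or.inl (Or.inl rfl)))
        exact Pn.le h1 (by omega)
    · have h1 := vert_main (l := 0) (Γ := insert (⟨.ev q, false⟩ : Lit (Nd d n))
        (∅ : Set (Lit (Nd d n))) ∪ {x | ∃ j, x = ⟨.vE j q, false⟩}) q
        (fun p hp => Or.inr ⟨p, rfl⟩) (Or.inl (Or.inl rfl))
      exact Pn.le h1 (by omega)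
  exact h0

end Pool.Agent.H42.CS
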